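import Mathlib

/-!
# KCS / ABS: half twists absorb inverse letters

`D = a b a` satisfies `D a = b D`, `D b = a D`, `D a⁻¹ = a b`, `D b⁻¹ = b a` (as `D = b a b`). Induction on `k`:
`D ^ (k + 1) w = D ^ k (D w)`; if `w = w₁ s⁻¹ w₂` with `s⁻¹` the first inverse letter, then `D w = (w₁ with a, b exchanged) (two letters) w₂`;
if there is no inverse letter `D w` is a word with three more letters.
-/

namespace Pool.Agent.KCS

private lemma abs_step {G : Type} [Group G] (a b : G) (hab : a * b * a = b * a * b)
    (l : List (Bool × Bool)) (hl : 1 ≤ l.countP fun t => !t.2) :
    ∃ l' : List (Bool × Bool),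
      (l'.map fun t => if t.1 then (if t.2 then b else b⁻¹) else (if t.2 then a else a⁻¹)).prod =
        (a * b * a) *
          (l.map fun t => if t.1 then (if t.2 then b else b⁻¹) else (if t.2 then a else a⁻¹)).prod ∧
      l'.length = l.length + 1 ∧
      (l'.countP fun t => !t.2) + 1 = l.countP fun t => !t.2 := by
  induction l with
  | nil => simp at hl
  | cons t l ih =>
    obtain ⟨t1, t2⟩ := t
    cases t2 with
    | false =>
      cases t1 with
      | false =>
        refine ⟨(false, true) :: (true, true) :: l, ?_, by simp, by simp⟩
        simp only [List.map_cons, List.prod_cons, if_true, Bool.false_eq_true, if_false]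
        group
      | true =>
        refine ⟨(true, true) :: (false, true) :: l, ?_, by simp, by simp⟩
        simp only [List.map_cons, List.prod_cons, if_true, Bool.false_eq_true, if_false]
        rw [hab]
        group
    | true =>
      have hl' : 1 ≤ l.countP fun t => !t.2 := by simpa using hl
      obtain ⟨l', h1, h2, h3⟩ := ih hl'
      cases t1 with
      | false =>
        refine ⟨(true, true) :: l', ?_, by simp [h2], by simpa using h3⟩
        simp only [List.map_cons, List.prod_cons, if_true, Bool.false_eq_true, if_false]
        rw [h1]
        simp only [← mul_assoc]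
        rw [← hab]
      | true =>
        refine ⟨(false, true) :: l', ?_, by simp [h2], by simpa using h3⟩
        simp only [List.map_cons, List.prod_cons, if_true, Bool.false_eq_true, if_false]
        rw [h1]
        simp only [← mul_assoc]
        have h4 : a * a * b * a = a * b * a * b := by
          calc a * a * b * a = a * (a * b * a) := by simp only [mul_assoc]
            _ = a * (b * a * b) := by rw [hab]
            _ = a * b * a * b := by simp only [mul_assoc]
        rw [h4]

/-- a half twist absorbs an inverse letter; `l` is a list of letters `(generator, sign)` -/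
theorem absorb {G : Type} [Group G] (a b : G) (hab : a * b * a = b * a * b)
    (k : ℕ) (l : List (Bool × Bool)) :
    ∃ l' : List (Bool × Bool),
      (l'.map fun t => if t.1 then (if t.2 then b else b⁻¹) else (if t.2 then a else a⁻¹)).prod =
        (a * b * a) ^ k *
          (l.map fun t => if t.1 then (if t.2 then b else b⁻¹) else (if t.2 then a else a⁻¹)).prod ∧
      l'.length + 2 * min k (l.countP fun t => !t.2) = 3 * k + l.length := by
  induction k generalizing l with
  | zero => exact ⟨l, by simp, by simp⟩
  | succ k ih =>
    rcases Nat.eq_zero_or_pos (l.countP fun t => !t.2) with h0 | h0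
    · obtain ⟨l', h1, h2⟩ := ih ((false, true) :: (true, true) :: (false, true) :: l)
      refine ⟨l', ?_, ?_⟩
      · rw [h1, pow_succ]
        simp only [List.map_cons, List.prod_cons, if_true, Bool.false_eq_true, if_false]
        simp only [← mul_assoc]
      · have h3 : (((false, true) :: (true, true) :: (false, true) :: l).countP
            fun t : Bool × Bool => !t.2) = 0 := by
          simpa using h0
        rw [h3] at h2
        rw [h0]
        simp only [List.length_cons] at h2
        omega
    · obtain ⟨l1, g1, g2, g3⟩ := abs_step a b hab l h0
      obtain ⟨l', h1, h2⟩ := ih l1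
      refine ⟨l', ?_, ?_⟩
      · rw [h1, g1, pow_succ]
        simp only [← mul_assoc]
      · omega

end Pool.Agent.KCS
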