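import Pool.Agent.KCS.LAB

/-!
# KCS / ADQ: adequate diagrams

The states other than the A-state have `t.1 + 2 lp t.2 ≤ cr w + 2 lp (resA w) - 4`. Proof: `sts w` is a permutation of
`(cr w, resA w) :: rest`; for a state in `rest` let the first crossing which is not A-smoothed be the letter `g` in
`w = p ++ g :: q`; the state is `resA p`, then the B-smoothing of `g`, then a state of `q`; use `sts_bound` with the initial part
`resA p ++ (B-smoothing of g)` and the hypothesis `AdA`. (Induction on `w` with the initial part already A-smoothed.)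
Then `|K w A| ≥ A ^ (cr w) |dlt A| ^ lp - C A ^ (cr w + 2 lp - 4)`, and `|dlt A| ≥ A ^ 2`.
-/

namespace Pool.Agent.KCS

/-- adequacy behind an initial part without crossings -/
private def AdR (p w : Word) : Prop :=
  (∀ (p' q : Word) (i : ℕ), w = p' ++ ⟨.pos, i⟩ :: q →
    lp (p ++ (resA p' ++ ⟨.cap, i⟩ :: ⟨.cup, i⟩ :: resA q)) < lp (p ++ resA w)) ∧
  (∀ (p' q : Word) (i : ℕ), w = p' ++ ⟨.neg, i⟩ :: q →
    lp (p ++ (resA p' ++ resA q)) < lp (p ++ resA w))

private theorem adq_snoc (p w : Word) (g : Gen) : p ++ g :: w = (p ++ [g]) ++ w := by simp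

private theorem adq_snoc2 (p w : Word) (g h : Gen) : p ++ g :: h :: w = (p ++ [g, h]) ++ w := by simp

private theorem adq_cr_snoc {p : Word} (hp : cr p = 0) (i : ℕ) :
    cr (p ++ [⟨.cup, i⟩]) = 0 ∧ cr (p ++ [⟨.cap, i⟩]) = 0 ∧
    cr (p ++ [⟨.cap, i⟩, ⟨.cup, i⟩]) = 0 := by
  refine ⟨?_, ?_, ?_⟩ <;> rw [cr_append, hp] <;> simp [cr, isCr]

private theorem adq_ok {p w : Word} {i : ℕ} {k : Kind} (hk : k = .pos ∨ k = .neg)
    (h : Ok 0 (p ++ ⟨k, i⟩ :: w) 0) :
    Ok 0 (p ++ w) 0 ∧ Ok 0 ((p ++ [⟨.cap, i⟩, ⟨.cup, i⟩]) ++ w) 0 := by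
  obtain ⟨n, h1, h2⟩ := ok_append.1 h
  have h3 : i + 2 ≤ n ∧ Ok (n - 2 + 2) w 0 := by
    rcases hk with rfl | rfl
    · exact h2
    · exact h2
  obtain ⟨h4, h5⟩ := h3
  have h6 : n - 2 + 2 = n := by omega
  rw [h6] at h5
  refine ⟨ok_append.2 ⟨n, h1, h5⟩, ?_⟩
  rw [← adq_snoc2]
  refine ok_append.2 ⟨n, h1, ?_⟩
  refine ⟨h4, ?_, ?_⟩
  · show i + 0 ≤ n - 2 + 0
    omega
  · show Ok (n - 2 + 0 - 0 + 2) w 0
    have : n - 2 + 0 - 0 + 2 = n := by omega
    rw [this]
    exact h5

private theorem adq_sts (w : Word) : ∀ p : Word, cr p = 0 → Ok 0 (p ++ w) 0 → AdR p w →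
    ∃ rest : List (ℤ × Word), (sts w).Perm (((cr w : ℕ), resA w) :: rest) ∧
      ∀ t ∈ rest, t.1 + 2 * (lp (p ++ t.2) : ℤ) ≤ cr w + 2 * (lp (p ++ resA w) : ℤ) - 4 := by
  induction w with
  | nil =>
    intro p _ _ _
    refine ⟨[], ?_, by simp⟩
    simp [sts, resA, cr]
  | cons g w ih =>
    obtain ⟨k, i⟩ := g
    intro p hp hok had
    cases k
    · -- cup
      have e1 : sts (⟨.cup, i⟩ :: w) = (sts w).map fun t => (t.1, ⟨.cup, i⟩ :: t.2) := rfl
      have e2 : resA (⟨.cup, i⟩ :: w) = ⟨.cup, i⟩ :: resA w := rfl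
      have e3 : cr (⟨.cup, i⟩ :: w) = cr w := by simp [cr, isCr]
      have hp' := (adq_cr_snoc hp i).1
      rw [adq_snoc] at hok
      obtain ⟨rest, h1, h2⟩ := ih _ hp' hok (by
        constructor
        · intro p' q j hw
          have := had.1 (⟨.cup, i⟩ :: p') q j (by rw [hw]; rfl)
          rw [e2] at this
          simpa [resA] using this
        · intro p' q j hw
          have := had.2 (⟨.cup, i⟩ :: p') q j (by rw [hw]; rfl)
          rw [e2] at this
          simpa [resA] using this)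
      refine ⟨rest.map fun t => (t.1, ⟨.cup, i⟩ :: t.2), ?_, ?_⟩
      · rw [e1, e2, e3]
        exact h1.map (fun t : ℤ × Word => (t.1, (⟨.cup, i⟩ : Gen) :: t.2))
      · intro t ht
        obtain ⟨t', ht', rfl⟩ := List.mem_map.1 ht
        have := h2 t' ht'
        rw [e2, e3]
        simpa using this
    · -- cap
      have e1 : sts (⟨.cap, i⟩ :: w) = (sts w).map fun t => (t.1, ⟨.cap, i⟩ :: t.2) := rfl
      have e2 : resA (⟨.cap, i⟩ :: w) = ⟨.cap, i⟩ :: resA w := rfl
      have e3 : cr (⟨.cap, i⟩ :: w) = cr w := by simp [cr, isCr]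
      have hp' := (adq_cr_snoc hp i).2.1
      rw [adq_snoc] at hok
      obtain ⟨rest, h1, h2⟩ := ih _ hp' hok (by
        constructor
        · intro p' q j hw
          have := had.1 (⟨.cap, i⟩ :: p') q j (by rw [hw]; rfl)
          rw [e2] at this
          simpa [resA] using this
        · intro p' q j hw
          have := had.2 (⟨.cap, i⟩ :: p') q j (by rw [hw]; rfl)
          rw [e2] at this
          simpa [resA] using this)
      refine ⟨rest.map fun t => (t.1, ⟨.cap, i⟩ :: t.2), ?_, ?_⟩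
      · rw [e1, e2, e3]
        exact h1.map (fun t : ℤ × Word => (t.1, (⟨.cap, i⟩ : Gen) :: t.2))
      · intro t ht
        obtain ⟨t', ht', rfl⟩ := List.mem_map.1 ht
        have := h2 t' ht'
        rw [e2, e3]
        simpa using this
    · -- pos
      have e1 : sts (⟨.pos, i⟩ :: w) = ((sts w).map fun t => (t.1 + 1, t.2)) ++
        ((sts w).map fun t => (t.1 - 1, ⟨.cap, i⟩ :: ⟨.cup, i⟩ :: t.2)) := rfl
      have e2 : resA (⟨.pos, i⟩ :: w) = resA w := rfl
      have e3 : cr (⟨.pos, i⟩ :: w) = cr w + 1 := by simp [cr, isCr]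
      have hp' := (adq_cr_snoc hp i).2.2
      obtain ⟨o1, o2⟩ := adq_ok (Or.inl rfl) hok
      have hB := had.1 [] w i rfl
      rw [e2] at hB
      obtain ⟨rest, h1, h2⟩ := ih _ hp o1 (by
        constructor
        · intro p' q j hw
          have := had.1 (⟨.pos, i⟩ :: p') q j (by rw [hw]; rfl)
          rw [e2] at this
          simpa [resA] using this
        · intro p' q j hw
          have := had.2 (⟨.pos, i⟩ :: p') q j (by rw [hw]; rfl)
          rw [e2] at this
          simpa [resA] using this)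
      refine ⟨(rest.map fun t => (t.1 + 1, t.2)) ++
        ((sts w).map fun t => (t.1 - 1, ⟨.cap, i⟩ :: ⟨.cup, i⟩ :: t.2)), ?_, ?_⟩
      · rw [e1, e2, e3]
        have := (h1.map (fun t : ℤ × Word => (t.1 + 1, t.2))).append_right
          ((sts w).map fun t => (t.1 - 1, ⟨.cap, i⟩ :: ⟨.cup, i⟩ :: t.2))
        simpa using this
      · intro t ht
        rw [e2, e3]
        rcases List.mem_append.1 ht with ht | ht
        · obtain ⟨t', ht', rfl⟩ := List.mem_map.1 ht
          have := h2 t' ht'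
          push_cast
          linarith
        · obtain ⟨t', ht', rfl⟩ := List.mem_map.1 ht
          have h3 := sts_bound hp' o2 ht'
          rw [← adq_snoc2, ← adq_snoc2] at h3
          have h4 : (lp (p ++ ⟨.cap, i⟩ :: ⟨.cup, i⟩ :: resA w) : ℤ) + 1 ≤ lp (p ++ resA w) := by
            exact_mod_cast hB
          push_cast
          linarith
    · -- neg
      have e1 : sts (⟨.neg, i⟩ :: w) = ((sts w).map fun t => (t.1 - 1, t.2)) ++
        ((sts w).map fun t => (t.1 + 1, ⟨.cap, i⟩ :: ⟨.cup, i⟩ :: t.2)) := rfl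
      have e2 : resA (⟨.neg, i⟩ :: w) = ⟨.cap, i⟩ :: ⟨.cup, i⟩ :: resA w := rfl
      have e3 : cr (⟨.neg, i⟩ :: w) = cr w + 1 := by simp [cr, isCr]
      have hp' := (adq_cr_snoc hp i).2.2
      obtain ⟨o1, o2⟩ := adq_ok (Or.inr rfl) hok
      have hB := had.2 [] w i rfl
      obtain ⟨rest, h1, h2⟩ := ih _ hp' o2 (by
        constructor
        · intro p' q j hw
          have := had.1 (⟨.neg, i⟩ :: p') q j (by rw [hw]; rfl)
          rw [e2] at this
          simpa [resA] using this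
        · intro p' q j hw
          have := had.2 (⟨.neg, i⟩ :: p') q j (by rw [hw]; rfl)
          rw [e2] at this
          simpa [resA] using this)
      refine ⟨(rest.map fun t => (t.1 + 1, ⟨.cap, i⟩ :: ⟨.cup, i⟩ :: t.2)) ++
        ((sts w).map fun t => (t.1 - 1, t.2)), ?_, ?_⟩
      · rw [e1, e2, e3]
        have h5 := (h1.map (fun t : ℤ × Word =>
          (t.1 + 1, (⟨.cap, i⟩ : Gen) :: (⟨.cup, i⟩ : Gen) :: t.2))).append_right
          ((sts w).map fun t => (t.1 - 1, t.2))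
        refine List.perm_append_comm.trans ?_
        simpa using h5
      · intro t ht
        rw [e3]
        rcases List.mem_append.1 ht with ht | ht
        · obtain ⟨t', ht', rfl⟩ := List.mem_map.1 ht
          have := h2 t' ht'
          rw [← adq_snoc2, ← adq_snoc2] at this
          rw [e2]
          push_cast
          linarith
        · obtain ⟨t', ht', rfl⟩ := List.mem_map.1 ht
          have h3 := sts_bound hp o1 ht'
          have h4 : (lp (p ++ (resA [] ++ resA w)) : ℤ) + 1 ≤ lp (p ++ resA (⟨.neg, i⟩ :: w)) := by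
            exact_mod_cast hB
          have h6 : resA ([] : Word) ++ resA w = resA w := rfl
          rw [h6] at h4
          push_cast
          linarith

private theorem adq_dlt {A : ℝ} (hA : 1 ≤ A) : A ^ 2 ≤ |dlt A| ∧ |dlt A| ≤ 2 * A ^ 2 := by
  have hA0 : 0 < A := by linarith
  have h1 : |dlt A| = A ^ 2 + (A⁻¹) ^ 2 := by
    unfold dlt
    have : -A ^ 2 - A⁻¹ ^ 2 = -(A ^ 2 + (A⁻¹) ^ 2) := by ring
    rw [this, abs_neg, abs_of_pos (by positivity)]
  have h2 : (A⁻¹) ^ 2 ≤ 1 := pow_le_one₀ (by positivity) (inv_le_one_of_one_le₀ hA)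
  have h3 : 1 ≤ A ^ 2 := one_le_pow₀ hA
  have h4 : 0 ≤ (A⁻¹) ^ 2 := by positivity
  rw [h1]
  constructor <;> linarith

/-- a sum over a list of states with small exponents -/
private theorem adq_sum (N : ℤ) (rest : List (ℤ × Word))
    (h : ∀ t ∈ rest, t.1 + 2 * (lp t.2 : ℤ) ≤ N) :
    ∃ C : ℝ, 0 ≤ C ∧ ∀ A : ℝ, 1 ≤ A →
      |(rest.map fun t => A ^ t.1 * dlt A ^ lp t.2).sum| ≤ C * A ^ N := by
  induction rest with
  | nil => exact ⟨0, le_rfl, fun A _ => by simp⟩
  | cons t rest ih =>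
    obtain ⟨C, hC, hb⟩ := ih fun s hs => h s (List.mem_cons_of_mem _ hs)
    refine ⟨2 ^ lp t.2 + C, by positivity, fun A hA => ?_⟩
    have hA0 : 0 < A := by linarith
    rw [List.map_cons, List.sum_cons]
    refine (abs_add_le _ _).trans ?_
    have h1 : |A ^ t.1 * dlt A ^ lp t.2| ≤ 2 ^ lp t.2 * A ^ N := by
      rw [abs_mul, abs_of_pos (by positivity), abs_pow]
      calc A ^ t.1 * |dlt A| ^ lp t.2 ≤ A ^ t.1 * (2 * A ^ 2) ^ lp t.2 := by
            gcongr
            exact (adq_dlt hA).2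
        _ = 2 ^ lp t.2 * A ^ (t.1 + 2 * (lp t.2 : ℤ)) := by
            rw [zpow_add₀ hA0.ne', mul_pow, ← pow_mul]
            have : A ^ (2 * (lp t.2 : ℤ)) = A ^ (2 * lp t.2) := by
              rw [← zpow_natCast]
              push_cast
              rfl
            rw [this]
            ring
        _ ≤ 2 ^ lp t.2 * A ^ N := by
            refine mul_le_mul_of_nonneg_left ?_ (by positivity)
            exact zpow_le_zpow_right₀ hA (h t List.mem_cons_self)
    have h2 := hb A hA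
    calc _ ≤ 2 ^ lp t.2 * A ^ N + C * A ^ N := add_le_add h1 h2
      _ = _ := by ring

theorem K_ge {w : Word} (h : Ok 0 w 0) (ha : AdA w) :
    ∃ ε : ℝ, 0 < ε ∧ ∃ A₀ : ℝ, 1 ≤ A₀ ∧ ∀ A : ℝ, A₀ ≤ A →
      ε * A ^ (cr w + 2 * lp (resA w)) ≤ |K w A| := by
  obtain ⟨rest, h1, h2⟩ := adq_sts w [] (by simp [cr]) (by simpa using h) ⟨ha.1, ha.2⟩
  set N : ℕ := cr w + 2 * lp (resA w) with hN
  obtain ⟨C, hC, h3⟩ := adq_sum ((N : ℤ) - 4) rest (fun t ht => by
    have := h2 t ht
    rw [List.nil_append, List.nil_append] at this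
    rw [hN]
    push_cast
    linarith)
  refine ⟨1 / 2, by norm_num, 2 * C + 1, by linarith, fun A hA => ?_⟩
  have hA1 : 1 ≤ A := by linarith
  have hA0 : 0 < A := by linarith
  have h4 : K w A = A ^ cr w * dlt A ^ lp (resA w) +
      (rest.map fun t => A ^ t.1 * dlt A ^ lp t.2).sum := by
    rw [K_sts h hA0.ne', (h1.map _).sum_eq, List.map_cons, List.sum_cons, zpow_natCast]
  have h5 := h3 A hA1
  have h6 : A ^ N ≤ |A ^ cr w * dlt A ^ lp (resA w)| := by
    rw [abs_mul, abs_pow, abs_pow, abs_of_pos hA0, hN, pow_add, pow_mul]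
    gcongr
    exact (adq_dlt hA1).1
  have h7 : A ^ ((N : ℤ) - 4) = A ^ N / A ^ 4 := by
    rw [zpow_sub₀ hA0.ne', zpow_natCast]
    norm_cast
  have hAN : 0 < A ^ N := by positivity
  have h8 : C * A ^ ((N : ℤ) - 4) ≤ 1 / 2 * A ^ N := by
    rw [h7]
    have h9 : A ≤ A ^ 4 := by
      calc A = A ^ 1 := (pow_one A).symm
        _ ≤ A ^ 4 := pow_le_pow_right₀ hA1 (by norm_num)
    rw [mul_div_assoc', div_le_iff₀ (by positivity)]
    nlinarith
  have h10 : |A ^ cr w * dlt A ^ lp (resA w)| ≤ |K w A| +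
      |(rest.map fun t => A ^ t.1 * dlt A ^ lp t.2).sum| := by
    have : A ^ cr w * dlt A ^ lp (resA w) = K w A -
      (rest.map fun t => A ^ t.1 * dlt A ^ lp t.2).sum := by rw [h4]; ring
    rw [this]
    exact abs_sub _ _
  linarith

theorem gr_adequate {d : Word} (h : Ok 0 d 0) (h1 : AdA d) (h2 : AdA (mir d)) {k : ℕ}
    (hk : k + 2 = cr d + lp (resA d) + lp (resA (mir d))) : Gr d k := by
  obtain ⟨ε, hε, A₀, hA₀, hK⟩ := K_ge h h1
  obtain ⟨ε', hε', A₀', hA₀', hK'⟩ := K_ge (ok_mir.2 h) h2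
  refine ⟨ε * ε', by positivity, max A₀ A₀', hA₀.trans (le_max_left _ _), fun A hA => ?_⟩
  have hA1 := hK A ((le_max_left _ _).trans hA)
  have hA2 := hK' A ((le_max_right _ _).trans hA)
  have hA0 : 0 < A := by linarith [(le_max_left A₀ A₀').trans hA]
  have e : 2 * k + 4 = (cr d + 2 * lp (resA d)) + (cr (mir d) + 2 * lp (resA (mir d))) := by
    rw [cr_mir]
    omega
  unfold H
  rw [abs_mul, e, pow_add]
  calc ε * ε' * (A ^ (cr d + 2 * lp (resA d)) * A ^ (cr (mir d) + 2 * lp (resA (mir d)))) =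
      (ε * A ^ (cr d + 2 * lp (resA d))) * (ε' * A ^ (cr (mir d) + 2 * lp (resA (mir d)))) := by ring
    _ ≤ |K d A| * |K (mir d) A| := by
        refine mul_le_mul hA1 hA2 (by positivity) (abs_nonneg _)

end Pool.Agent.KCS
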