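import Pool.Agent.KCS.EVN

/-!
# KCS / ALI: alternating diagrams, even labellings are sums of an A-labelling and a B-labelling

Checkerboard colouring: the region to the left of the strand `j` is white if `j` is even. All crossings of an alternating
diagram have the same type with respect to the colouring: `pos` at even and `neg` at odd positions, or the reverse.
An even labelling `h` gives the potential `ρ` (partial sums from the left) on the regions. `side ρ par h`: the list of the values of
`ρ` at the white (`par = true` for an even position) or black (`par = false`) region next to each strand;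
`side ρ true h + side ρ false h = h`. The white values are an A-labelling and the black values a B-labelling (for `pos` at even positions).
Pointwise claim, by induction on the word (all lists of the same length; `+` is `List.zipWith (· + ·)`):
if `φE h * φC c ≤ φA (side ρ par h + c) * φB (side ρ (!par) h + c)` for all `h c` (and this `ρ`, `par`), then the same holds for the images
under the operators of `evn`, `cst`, the A-smoothing and the B-smoothing. For the operators at the position `0`:
* cup: `∑_{x,y} φE (x x h) φC (y y c) ≤ ∑_{u,v} φA (u u ..) φB (v v ..)` with `u = ρ + y`, `v = ρ + x + y` (or exchanged);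
* cap: equal labels go to equal labels;
* crossing `(h1, h2)` below, `(h3, h4)` above, `h1 + h2 = h3 + h4`: at a `pos` (with `par = true`) the white values are the same above and below
  (A-smoothing vertical), the black value is `ρ + h1` for both strands below and `ρ + h3` for both strands above (B-smoothing
  horizontal), and the sum over `h3` corresponds to the sum over the black value above; at a `neg` (`par = false`) exchange the colours.
Through `sh` the first label `x` changes `ρ` to `ρ + x` and `par` to `!par`.
At the end `h = c = []`. If the signs are reversed start with `par = false`.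
-/

namespace Pool.Agent.KCS

/-- alternating diagrams: the crossings have one type with respect to the checkerboard colouring -/
def Alt (w : Word) : Prop :=
  (∀ g ∈ w, (g.kind = .pos → Even g.idx) ∧ (g.kind = .neg → Odd g.idx)) ∨
    (∀ g ∈ w, (g.kind = .pos → Odd g.idx) ∧ (g.kind = .neg → Even g.idx))

/-- the values of the potential next to the strands on one side -/
def side : ZMod 2 → Bool → L → L
  | _, _, [] => []
  | ρ, par, x :: h => (if par then ρ else ρ + x) :: side (ρ + x) (!par) h

/-- the operator of a piece after the A-smoothing -/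
private def al_A (g : Gen) : (L → ℕ) →ₗ[ℕ] (L → ℕ) := T str (resA [g])

private theorem al_A_cons (g : Gen) (w : Word) (φ : L → ℕ) :
    T str (resA (g :: w)) φ = al_A g (T str (resA w) φ) := by
  have h : resA (g :: w) = resA [g] ++ resA w := resA_append [g] w
  rw [h, T_append]
  rfl

private theorem al_A_succ (k : Kind) (i : ℕ) (φ : L → ℕ) (a : ZMod 2) (r : L) :
    al_A ⟨k, i + 1⟩ φ (a :: r) = al_A ⟨k, i⟩ (fun s => φ (a :: s)) r := by
  cases k with
  | cup => exact op_succ_apply str .cup i φ a r
  | cap => exact op_succ_apply str .cap i φ a r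
  | pos => rfl
  | neg =>
    show op str ⟨.cap, i + 1⟩ (op str ⟨.cup, i + 1⟩ φ) (a :: r) =
      op str ⟨.cap, i⟩ (op str ⟨.cup, i⟩ (fun s => φ (a :: s))) r
    rw [op_succ_apply]
    have e : (fun s => op str ⟨.cup, i + 1⟩ φ (a :: s)) = op str ⟨.cup, i⟩ (fun s => φ (a :: s)) := by
      funext s
      exact op_succ_apply str .cup i φ a s
    rw [e]

private theorem al_z (a : ZMod 2) : a = 0 ∨ a = 1 := by
  revert a
  decide

private theorem al_sum (f : ZMod 2 → ℕ) : ∑ a, f a = f 0 + f 1 := Fin.sum_univ_two f

private theorem al_11 : (1 : ZMod 2) + 1 = 0 := by decide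

private theorem al_add (a : ZMod 2) : a + a = 0 := CharTwo.add_self_eq_zero a

private theorem al_side (ρ : ZMod 2) (par : Bool) (x y : ZMod 2) (h : L) :
    side ρ par (x :: y :: h) = (if par then ρ else ρ + x) :: (if par then ρ + (x + y) else ρ + x) ::
      side (ρ + (x + y)) par h := by
  cases par <;> simp [side, add_assoc]

private theorem al_cup (φ : L → ℕ) (l : L) :
    cupOp str.cu φ l = φ (0 :: 0 :: l) + φ (1 :: 1 :: l) := by
  rw [cupOp_apply]
  simp [al_sum, str]

private theorem al_cap (φ : L → ℕ) (a b : ZMod 2) (r : L) :
    capOp str.ca φ (a :: b :: r) = if a = b then φ r else 0 := by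
  rw [capOp_apply]
  by_cases h : a = b <;> simp [str, h]

/-- the horizontal smoothing -/
private theorem al_hor (φ : L → ℕ) (a b : ZMod 2) (r : L) :
    capOp str.ca (cupOp str.cu φ) (a :: b :: r) =
      if a = b then φ (0 :: 0 :: r) + φ (1 :: 1 :: r) else 0 := by
  rw [al_cap, al_cup]

private theorem al_cst (φ : L → ℕ) (a b : ZMod 2) (r : L) :
    crOp cst.X φ (a :: b :: r) = if a = b then φ (a :: a :: r) else 0 := by
  rw [crOp_apply]
  rcases al_z a with rfl | rfl <;> rcases al_z b with rfl | rfl <;> simp [al_sum, cst]

private theorem al_evn (φ : L → ℕ) (a b : ZMod 2) (r : L) :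
    crOp evn.X φ (a :: b :: r) = φ (0 :: (a + b) :: r) + φ (1 :: (1 + (a + b)) :: r) := by
  rw [crOp_apply]
  rcases al_z a with rfl | rfl <;> rcases al_z b with rfl | rfl <;> simp [al_sum, evn, al_11]

/-- the claim -/
private def al_W (ρ : ZMod 2) (par : Bool) (φE φC φA φB : L → ℕ) : Prop :=
  ∀ h c : L, h.length = c.length →
    φE h * φC c ≤ φA (List.zipWith (· + ·) (side ρ par h) c) *
      φB (List.zipWith (· + ·) (side ρ (!par) h) c)

private theorem al_W_two {ρ : ZMod 2} {par : Bool} {φE φC φA φB : L → ℕ}
    (hW : al_W ρ par φE φC φA φB) (x y z t : ZMod 2) (h c : L) (hl : h.length = c.length) :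
    φE (x :: y :: h) * φC (z :: t :: c) ≤
      φA (((if par then ρ else ρ + x) + z) :: ((if par then ρ + (x + y) else ρ + x) + t) ::
        List.zipWith (· + ·) (side (ρ + (x + y)) par h) c) *
      φB (((if par then ρ + x else ρ) + z) :: ((if par then ρ + x else ρ + (x + y)) + t) ::
        List.zipWith (· + ·) (side (ρ + (x + y)) (!par) h) c) := by
  have h1 := hW (x :: y :: h) (z :: t :: c) (by simp [hl])
  rw [al_side, al_side] at h1
  simp only [List.zipWith_cons_cons] at h1
  cases par <;> simpa using h1

private theorem al_base_cup (ρ : ZMod 2) (par : Bool) {φE φC φA φB : L → ℕ}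
    (hW : al_W ρ par φE φC φA φB) :
    al_W ρ par (cupOp str.cu φE) (cupOp str.cu φC) (cupOp str.cu φA) (cupOp str.cu φB) := by
  intro h c hl
  rw [al_cup, al_cup, al_cup, al_cup]
  have h00 := al_W_two hW 0 0 0 0 h c hl
  have h01 := al_W_two hW 0 0 1 1 h c hl
  have h10 := al_W_two hW 1 1 0 0 h c hl
  have h11 := al_W_two hW 1 1 1 1 h c hl
  rcases al_z ρ with rfl | rfl <;> cases par <;>
    simp only [al_11, add_zero, zero_add, if_true, Bool.false_eq_true, if_false, Bool.not_true,
      Bool.not_false] at h00 h01 h10 h11 ⊢ <;> nlinarith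

private theorem al_base_cap (ρ : ZMod 2) (par : Bool) {φE φC φA φB : L → ℕ}
    (hW : al_W ρ par φE φC φA φB) :
    al_W ρ par (capOp str.ca φE) (capOp str.ca φC) (capOp str.ca φA) (capOp str.ca φB) := by
  intro h c hl
  rcases h with _ | ⟨a, _ | ⟨b, h⟩⟩
  · have : capOp str.ca φE [] = 0 := rfl
    rw [this, zero_mul]
    exact Nat.zero_le _
  · have : capOp str.ca φE [a] = 0 := rfl
    rw [this, zero_mul]
    exact Nat.zero_le _
  · rcases c with _ | ⟨y, _ | ⟨z, c⟩⟩
    · simp at hl
    · simp at hl
    · have hl' : h.length = c.length := by simpa using hl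
      rw [al_side, al_side]
      simp only [List.zipWith_cons_cons]
      rw [al_cap, al_cap, al_cap, al_cap]
      by_cases h1 : a = b
      · subst h1
        by_cases h2 : y = z
        · subst h2
          have h3 := hW h c hl'
          cases par <;> simpa [al_add] using h3
        · simp [h2]
      · simp [h1]

/-- a crossing with the vertical A-smoothing -/
private theorem al_base_one (ρ : ZMod 2) {φE φC φA φB : L → ℕ} (hW : al_W ρ true φE φC φA φB) :
    al_W ρ true (crOp evn.X φE) (crOp cst.X φC) φA (capOp str.ca (cupOp str.cu φB)) := by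
  intro h c hl
  rcases h with _ | ⟨a, _ | ⟨b, h⟩⟩
  · have : crOp evn.X φE [] = 0 := rfl
    rw [this, zero_mul]
    exact Nat.zero_le _
  · have : crOp evn.X φE [a] = 0 := rfl
    rw [this, zero_mul]
    exact Nat.zero_le _
  · rcases c with _ | ⟨y, _ | ⟨z, c⟩⟩
    · simp at hl
    · simp at hl
    · have hl' : h.length = c.length := by simpa using hl
      rw [al_side, al_side]
      simp only [List.zipWith_cons_cons]
      rw [al_evn, al_cst, al_hor]
      by_cases h1 : y = z
      · subst h1
        have h2 := al_W_two hW 0 (a + b) y y h c hl'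
        have h3 := al_W_two hW 1 (1 + (a + b)) y y h c hl'
        have e : (1 : ZMod 2) + (1 + (a + b)) = a + b := by rw [← add_assoc, al_11, zero_add]
        rw [e] at h3
        simp only [if_true, zero_add, add_zero, Bool.not_true, Bool.false_eq_true, if_false] at h2 h3 ⊢
        rcases al_z ρ with rfl | rfl <;> rcases al_z y with rfl | rfl <;>
          simp only [al_11, add_zero, zero_add] at h2 h3 ⊢ <;> nlinarith
      · simp [h1]

/-- a crossing with the horizontal A-smoothing -/
private theorem al_base_two (ρ : ZMod 2) {φE φC φA φB : L → ℕ} (hW : al_W ρ false φE φC φA φB) :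
    al_W ρ false (crOp evn.X φE) (crOp cst.X φC) (capOp str.ca (cupOp str.cu φA)) φB := by
  have h1 : al_W ρ true φE φC φB φA := by
    intro h c hl
    have := hW h c hl
    rw [mul_comm (φB _)]
    exact this
  intro h c hl
  have := al_base_one ρ h1 h c hl
  rw [mul_comm (φB _)] at this
  exact this

/-- the condition on the crossings -/
private def al_cd (par : Bool) (k : Kind) (i : ℕ) : Prop :=
  (k = .pos → (Even i ↔ par = true)) ∧ (k = .neg → (Even i ↔ par = false))

private theorem al_base (k : Kind) (ρ : ZMod 2) (par : Bool) (hk : al_cd par k 0)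
    {φE φC φA φB : L → ℕ} (hW : al_W ρ par φE φC φA φB) :
    al_W ρ par (op evn ⟨k, 0⟩ φE) (op cst ⟨k, 0⟩ φC) (al_A ⟨k, 0⟩ φA) (al_A ⟨k.mir, 0⟩ φB) := by
  cases k with
  | cup => exact al_base_cup ρ par hW
  | cap => exact al_base_cap ρ par hW
  | pos =>
    have hp : par = true := (hk.1 rfl).1 Even.zero
    subst hp
    exact al_base_one ρ hW
  | neg =>
    have hp : par = false := (hk.2 rfl).1 Even.zero
    subst hp
    exact al_base_two ρ hW

private theorem al_step (k : Kind) (i : ℕ) (ρ : ZMod 2) (par : Bool) (hk : al_cd par k i)
    {φE φC φA φB : L → ℕ} (hW : al_W ρ par φE φC φA φB) :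
    al_W ρ par (op evn ⟨k, i⟩ φE) (op cst ⟨k, i⟩ φC) (al_A ⟨k, i⟩ φA) (al_A ⟨k.mir, i⟩ φB) := by
  induction i generalizing ρ par φE φC φA φB with
  | zero => exact al_base k ρ par hk hW
  | succ i ih =>
    intro h c hl
    rcases h with _ | ⟨x, h⟩
    · have : op evn ⟨k, i + 1⟩ φE [] = 0 := by
        rw [op_succ]
        rfl
      rw [this, zero_mul]
      exact Nat.zero_le _
    · rcases c with _ | ⟨z, c⟩
      · simp at hl
      · have hk' : al_cd (!par) k i := by
          refine ⟨fun e => ?_, fun e => ?_⟩
          · have := hk.1 e
            rw [Nat.even_add_one] at this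
            cases par <;> simp at this ⊢ <;> simpa using this
          · have := hk.2 e
            rw [Nat.even_add_one] at this
            cases par <;> simp at this ⊢ <;> simpa using this
        have hW' : al_W (ρ + x) (!par) (fun s => φE (x :: s)) (fun s => φC (z :: s))
            (fun s => φA (((if par then ρ else ρ + x) + z) :: s))
            (fun s => φB (((if (!par) then ρ else ρ + x) + z) :: s)) := by
          intro h' c' hl'
          have := hW (x :: h') (z :: c') (by simp [hl'])
          simpa [side] using this
        have := ih (ρ + x) (!par) hk' hW' h c (by simpa using hl)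
        rw [op_succ_apply, op_succ_apply]
        simp only [side, List.zipWith_cons_cons]
        rw [al_A_succ, al_A_succ]
        exact this

private theorem al_dl (ρ : ZMod 2) (par : Bool) : al_W ρ par dl dl dl dl := by
  intro h c hl
  rcases h with _ | ⟨x, h⟩
  · rcases c with _ | ⟨z, c⟩
    · exact le_rfl
    · simp at hl
  · have : (dl : L → ℕ) (x :: h) = 0 := by simp [dl]
    rw [this, zero_mul]
    exact Nat.zero_le _

private theorem al_word (w : Word) (ρ : ZMod 2) (par : Bool)
    (hw : ∀ g ∈ w, al_cd par g.kind g.idx) :
    al_W ρ par (T evn w dl) (T cst w dl) (T str (resA w) dl) (T str (resA (mir w)) dl) := by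
  induction w with
  | nil => exact al_dl ρ par
  | cons g w ih =>
    obtain ⟨k, i⟩ := g
    have h1 := ih fun g hg => hw g (List.mem_cons_of_mem _ hg)
    have h2 := al_step k i ρ par (hw ⟨k, i⟩ List.mem_cons_self) h1
    have e : mir (⟨k, i⟩ :: w) = ⟨k.mir, i⟩ :: mir w := rfl
    rw [T_cons, T_cons, e, al_A_cons, al_A_cons]
    exact h2

theorem alt_ineq {w : Word} (h : Ok 0 w 0) (ha : Alt w) :
    val evn w * val cst w ≤ val str (resA w) * val str (resA (mir w)) := by
  rcases ha with ha | ha
  · refine al_word w 0 true (fun g hg => ⟨fun e => ?_, fun e => ?_⟩) [] [] rfl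
    · simp [(ha g hg).1 e]
    · have := (ha g hg).2 e
      rw [← Nat.not_even_iff_odd] at this
      simp [this]
  · refine al_word w 0 false (fun g hg => ⟨fun e => ?_, fun e => ?_⟩) [] [] rfl
    · have := (ha g hg).1 e
      rw [← Nat.not_even_iff_odd] at this
      simp [this]
    · simp [(ha g hg).2 e]

end Pool.Agent.KCS
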