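import Pool.Agent.KCS.IN1

/-!
# KCS / IN2: formal consequences of invariance
-/

namespace Pool.Agent.KCS

theorem ok_teq {a b : ℕ} {w w' : Word} (h : TEq a b w w') : Ok a w b ↔ Ok a w' b := by
  induction h with
  | rel x y h =>
    obtain ⟨p, q, u, v, n, m, _, rfl, rfl, hp, hu, hv, hq⟩ := h
    refine ⟨fun _ => ?_, fun _ => ?_⟩
    · exact ok_append.mpr ⟨m, ok_append.mpr ⟨n, hp, hv⟩, hq⟩
    · exact ok_append.mpr ⟨m, ok_append.mpr ⟨n, hp, hu⟩, hq⟩
  | refl x => exact Iff.rfl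
  | symm x y _ ih => exact ih.symm
  | trans x y z _ _ ih1 ih2 => exact ih1.trans ih2

private theorem inp_mir (k : Kind) : k.mir.inp = k.inp := by cases k <;> rfl

private theorem out_mir (k : Kind) : k.mir.out = k.out := by cases k <;> rfl

private theorem move_mir {u v : Word} (h : Move u v) : Move (mir u) (mir v) := by
  cases h with
  | far g h k hk =>
    have := Move.far ⟨g.kind.mir, g.idx⟩ ⟨h.kind.mir, h.idx⟩ k
      (by simp only [out_mir]; exact hk)
    simp only [inp_mir] at this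
    exact this
  | zig i => exact Move.zig i
  | zag i => exact Move.zag i
  | capPos i => exact Move.capNeg i
  | capNeg i => exact Move.capPos i
  | cupPos i => exact Move.cupNeg i
  | cupNeg i => exact Move.cupPos i
  | oneCapPos i => exact Move.oneCapNeg i
  | oneCapNeg i => exact Move.oneCapPos i
  | oneCupPos i => exact Move.oneCupNeg i
  | oneCupNeg i => exact Move.oneCupPos i
  | twoPos i => exact Move.twoNeg i
  | twoNeg i => exact Move.twoPos i
  | threePos i => exact Move.threeNeg i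
  | threeNeg i => exact Move.threePos i

/-- the mirror image of a move is a move -/
theorem teq_mir {a b : ℕ} {w w' : Word} (h : TEq a b w w') : TEq a b (mir w) (mir w') := by
  induction h with
  | rel x y h =>
    obtain ⟨p, q, u, v, n, m, hm, rfl, rfl, hp, hu, hv, hq⟩ := h
    refine Relation.EqvGen.rel _ _ ⟨mir p, mir q, mir u, mir v, n, m, move_mir hm, ?_, ?_,
      ok_mir.mpr hp, ok_mir.mpr hu, ok_mir.mpr hv, ok_mir.mpr hq⟩
    · rw [mir_append, mir_append]
    · rw [mir_append, mir_append]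
  | refl x => exact Relation.EqvGen.refl _
  | symm x y _ ih => exact Relation.EqvGen.symm _ _ ih
  | trans x y z _ _ ih1 ih2 => exact Relation.EqvGen.trans _ _ _ ih1 ih2

theorem teq_refl (a b : ℕ) (w : Word) : TEq a b w w := Relation.EqvGen.refl w

theorem TEq.symm {a b : ℕ} {w w' : Word} (h : TEq a b w w') : TEq a b w' w :=
  Relation.EqvGen.symm _ _ h

theorem TEq.trans {a b : ℕ} {w w' w'' : Word} (h : TEq a b w w') (h' : TEq a b w' w'') :
    TEq a b w w'' := Relation.EqvGen.trans _ _ _ h h'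

/-- moves inside a larger diagram -/
theorem teq_ctx {a b n m : ℕ} {p q u v : Word} (hp : Ok a p n) (hq : Ok m q b) (h : TEq n m u v) :
    TEq a b (p ++ u ++ q) (p ++ v ++ q) := by
  induction h with
  | rel x y h =>
    obtain ⟨p', q', u', v', n', m', hm, rfl, rfl, hp', hu', hv', hq'⟩ := h
    refine Relation.EqvGen.rel _ _ ⟨p ++ p', q' ++ q, u', v', n', m', hm, ?_, ?_,
      ok_append.mpr ⟨n, hp, hp'⟩, hu', hv', ok_append.mpr ⟨m, hq', hq⟩⟩
    · simp only [List.append_assoc]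
    · simp only [List.append_assoc]
  | refl x => exact Relation.EqvGen.refl _
  | symm x y _ ih => exact Relation.EqvGen.symm _ _ ih
  | trans x y z _ _ ih1 ih2 => exact Relation.EqvGen.trans _ _ _ ih1 ih2

theorem isKnot_teq {w w' : Word} (h : TEq 0 0 w w') : IsKnot w ↔ IsKnot w' := by
  rw [IsKnot, IsKnot, ok_teq h, str_inv h]

private theorem op_str_mir (k : Kind) (i : ℕ) : op str ⟨k.mir, i⟩ = op str ⟨k, i⟩ := by
  unfold op
  cases k <;> rfl

private theorem T_str_mir (w : Word) : T str (mir w) = T str w := by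
  induction w with
  | nil => rfl
  | cons g w ih =>
    have e : mir (g :: w) = ⟨g.kind.mir, g.idx⟩ :: mir w := rfl
    rw [e]
    show (op str ⟨g.kind.mir, g.idx⟩).comp (T str (mir w)) = (op str g).comp (T str w)
    rw [ih, op_str_mir]

/-- `val str (mir w) = val str w` as the two crossings have the same weights -/
theorem isKnot_mir {w : Word} : IsKnot (mir w) ↔ IsKnot w := by
  rw [IsKnot, IsKnot, ok_mir, val, val, T_str_mir]

theorem ne_nil_of_isKnot {w : Word} (h : IsKnot w) : w ≠ [] := by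
  rintro rfl
  have h2 : val str [] = 2 := h.2
  have h1 : val str [] = 1 := by
    show dl (R := ℕ) [] = 1
    simp [dl]
  omega

theorem cc_teq {w w' : Word} (h : TEq 0 0 w w') : cc w = cc w' := by
  have e : {k | ∃ v : Word, Ok 0 v 0 ∧ TEq 0 0 w v ∧ cr v = k} =
      {k | ∃ v : Word, Ok 0 v 0 ∧ TEq 0 0 w' v ∧ cr v = k} := by
    ext k
    constructor
    · rintro ⟨v, h1, h2, h3⟩
      exact ⟨v, h1, h.symm.trans h2, h3⟩
    · rintro ⟨v, h1, h2, h3⟩
      exact ⟨v, h1, h.trans h2, h3⟩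
  unfold cc
  rw [e]

theorem cc_mir {w : Word} : cc (mir w) = cc w := by
  have e : {k | ∃ v : Word, Ok 0 v 0 ∧ TEq 0 0 (mir w) v ∧ cr v = k} =
      {k | ∃ v : Word, Ok 0 v 0 ∧ TEq 0 0 w v ∧ cr v = k} := by
    ext k
    constructor
    · rintro ⟨v, h1, h2, h3⟩
      have h4 := teq_mir h2
      rw [mir_mir] at h4
      exact ⟨mir v, ok_mir.mpr h1, h4, by rw [cr_mir]; exact h3⟩
    · rintro ⟨v, h1, h2, h3⟩
      exact ⟨mir v, ok_mir.mpr h1, teq_mir h2, by rw [cr_mir]; exact h3⟩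
  unfold cc
  rw [e]

theorem cc_le {w w' : Word} (hw : Ok 0 w 0) (h : TEq 0 0 w w') : cc w ≤ cr w' :=
  Nat.sInf_le ⟨w', (ok_teq h).mp hw, h, rfl⟩

theorem cc_spec {w : Word} (hw : Ok 0 w 0) : ∃ D : Word, Ok 0 D 0 ∧ TEq 0 0 w D ∧ cr D = cc w := by
  have h : {k | ∃ w' : Word, Ok 0 w' 0 ∧ TEq 0 0 w w' ∧ cr w' = k}.Nonempty :=
    ⟨cr w, w, hw, teq_refl 0 0 w, rfl⟩
  exact Nat.sInf_mem h

theorem gr_teq {w w' : Word} {k : ℕ} (h : TEq 0 0 w w') (hg : Gr w k) : Gr w' k := by
  obtain ⟨ε, hε, A₀, hA, hH⟩ := hg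
  refine ⟨ε, hε, A₀, hA, fun A h1 => ?_⟩
  rw [← H_inv h (by linarith)]
  exact hH A h1

theorem gr_mir {w : Word} {k : ℕ} (hg : Gr w k) : Gr (mir w) k := by
  obtain ⟨ε, hε, A₀, hA, hH⟩ := hg
  refine ⟨ε, hε, A₀, hA, fun A h1 => ?_⟩
  have e : H (mir w) A = H w A := by
    unfold H
    rw [mir_mir, mul_comm]
  rw [e]
  exact hH A h1

theorem gr_mono {w : Word} {k k' : ℕ} (h : k ≤ k') (hg : Gr w k') : Gr w k := by
  obtain ⟨ε, hε, A₀, hA, hH⟩ := hg
  refine ⟨ε, hε, A₀, hA, fun A h1 => le_trans ?_ (hH A h1)⟩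
  apply mul_le_mul_of_nonneg_left _ hε.le
  exact pow_le_pow_right₀ (by linarith) (by omega)

end Pool.Agent.KCS
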