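import Pool.Agent.KCS.PLN

/-!
# KCS / STA: the state sum

`sts w` is the list of all states with their exponents. `T_sts` by induction on `w`: the crossing operator is
`A` times the identity plus `A⁻¹` times `cap cup` on lists of sufficient length (`X` in `br`).
-/

namespace Pool.Agent.KCS

/-- the states of a diagram: exponent of `A` and resolved diagram -/
def sts : Word → List (ℤ × Word)
  | [] => [(0, [])]
  | g :: w => match g.kind with
    | .cup => (sts w).map fun t => (t.1, g :: t.2)
    | .cap => (sts w).map fun t => (t.1, g :: t.2)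
    | .pos => ((sts w).map fun t => (t.1 + 1, t.2)) ++
        ((sts w).map fun t => (t.1 - 1, ⟨.cap, g.idx⟩ :: ⟨.cup, g.idx⟩ :: t.2))
    | .neg => ((sts w).map fun t => (t.1 - 1, t.2)) ++
        ((sts w).map fun t => (t.1 + 1, ⟨.cap, g.idx⟩ :: ⟨.cup, g.idx⟩ :: t.2))

theorem cr_sts {w : Word} {t : ℤ × Word} (ht : t ∈ sts w) : cr t.2 = 0 := by
  induction w generalizing t with
  | nil =>
    simp only [sts, List.mem_singleton] at ht
    subst ht
    rfl
  | cons g w ih =>
    obtain ⟨k, i⟩ := g
    cases k
    · simp only [sts, List.mem_map] at ht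
      obtain ⟨s, hs, rfl⟩ := ht
      simp only [cr_cons, ih hs]
      rfl
    · simp only [sts, List.mem_map] at ht
      obtain ⟨s, hs, rfl⟩ := ht
      simp only [cr_cons, ih hs]
      rfl
    · simp only [sts, List.mem_append, List.mem_map] at ht
      rcases ht with ⟨s, hs, rfl⟩ | ⟨s, hs, rfl⟩
      · exact ih (t := s) hs
      · simp only [cr_cons, ih hs]
        rfl
    · simp only [sts, List.mem_append, List.mem_map] at ht
      rcases ht with ⟨s, hs, rfl⟩ | ⟨s, hs, rfl⟩
      · exact ih (t := s) hs
      · simp only [cr_cons, ih hs]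
        rfl

theorem ok_capcup {n m i : ℕ} {w : Word} (hi : i + 2 ≤ n) (h : Ok n w m) :
    Ok n (⟨.cap, i⟩ :: ⟨.cup, i⟩ :: w) m := by
  refine ⟨hi, ?_, ?_⟩
  · simp only [Kind.inp, Kind.out]
    omega
  · have e : n - Kind.cap.inp + Kind.cap.out - Kind.cup.inp + Kind.cup.out = n := by
      simp only [Kind.inp, Kind.out]
      omega
    rw [e]
    exact h

theorem ok_sts {w : Word} {n m : ℕ} (h : Ok n w m) {t : ℤ × Word} (ht : t ∈ sts w) : Ok n t.2 m := by
  induction w generalizing t n with
  | nil =>
    simp only [sts, List.mem_singleton] at ht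
    subst ht
    exact h
  | cons g w ih =>
    obtain ⟨k, i⟩ := g
    obtain ⟨h1, h2⟩ := h
    cases k
    · simp only [sts, List.mem_map] at ht
      obtain ⟨s, hs, rfl⟩ := ht
      exact ⟨h1, ih h2 hs⟩
    · simp only [sts, List.mem_map] at ht
      obtain ⟨s, hs, rfl⟩ := ht
      exact ⟨h1, ih h2 hs⟩
    · simp only [Kind.inp, Kind.out] at h1 h2
      rw [show n - 2 + 2 = n by omega] at h2
      simp only [sts, List.mem_append, List.mem_map] at ht
      rcases ht with ⟨s, hs, rfl⟩ | ⟨s, hs, rfl⟩
      · exact ih (t := s) h2 hs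
      · exact ok_capcup h1 (ih h2 hs)
    · simp only [Kind.inp, Kind.out] at h1 h2
      rw [show n - 2 + 2 = n by omega] at h2
      simp only [sts, List.mem_append, List.mem_map] at ht
      rcases ht with ⟨s, hs, rfl⟩ | ⟨s, hs, rfl⟩
      · exact ih (t := s) h2 hs
      · exact ok_capcup h1 (ih h2 hs)

/-- the skein relation for a positive crossing -/
theorem op_pos_br (A : ℝ) (i : ℕ) (φ : L → ℝ) (l : L) (hl : i + 2 ≤ l.length) :
    op (br A) ⟨.pos, i⟩ φ l = A * φ l + A⁻¹ * op (br A) ⟨.cap, i⟩ (op (br A) ⟨.cup, i⟩ φ) l := by
  induction i generalizing φ l with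
  | zero =>
    rcases l with _ | ⟨a, _ | ⟨b, r⟩⟩
    · simp at hl
    · simp at hl
    · show crOp (br A).X φ (a :: b :: r) = A * φ (a :: b :: r) +
        A⁻¹ * capOp (br A).ca (cupOp (br A).cu φ) (a :: b :: r)
      rw [crOp_apply, capOp_apply, cupOp_apply]
      simp only [br, add_mul, Finset.sum_add_distrib, Finset.mul_sum]
      congr 1
      · have h1 : ∀ x ∈ (Finset.univ : Finset (ZMod 2)), ∑ x_1 : ZMod 2,
            (if a = x ∧ b = x_1 then A else 0) * φ (x :: x_1 :: r) =
            if a = x then A * φ (x :: b :: r) else 0 := by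
          intro x _
          by_cases hx : a = x
          · simp only [hx, true_and, if_true, ite_mul, zero_mul]
            rw [Finset.sum_ite_eq]
            simp
          · simp [hx]
        rw [Finset.sum_congr rfl h1, Finset.sum_ite_eq]
        simp
      · refine Finset.sum_congr rfl fun c _ => Finset.sum_congr rfl fun d _ => ?_
        ring
  | succ i ih =>
    rcases l with _ | ⟨a, r⟩
    · simp at hl
    · have e : (fun s => op (br A) ⟨.cup, i + 1⟩ φ (a :: s)) =
          op (br A) ⟨.cup, i⟩ fun s => φ (a :: s) := by
        funext s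
        exact op_succ_apply _ _ _ _ _ _
      rw [op_succ_apply, op_succ_apply, ih _ _ (by
        simp only [List.length_cons] at hl
        omega), e]

/-- the skein relation for a negative crossing -/
theorem op_neg_br (A : ℝ) (i : ℕ) (φ : L → ℝ) (l : L) (hl : i + 2 ≤ l.length) :
    op (br A) ⟨.neg, i⟩ φ l = A⁻¹ * φ l + A * op (br A) ⟨.cap, i⟩ (op (br A) ⟨.cup, i⟩ φ) l := by
  induction i generalizing φ l with
  | zero =>
    rcases l with _ | ⟨a, _ | ⟨b, r⟩⟩
    · simp at hl
    · simp at hl
    · show crOp (br A).Y φ (a :: b :: r) = A⁻¹ * φ (a :: b :: r) +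
        A * capOp (br A).ca (cupOp (br A).cu φ) (a :: b :: r)
      rw [crOp_apply, capOp_apply, cupOp_apply]
      simp only [br, add_mul, Finset.sum_add_distrib, Finset.mul_sum]
      congr 1
      · have h1 : ∀ x ∈ (Finset.univ : Finset (ZMod 2)), ∑ x_1 : ZMod 2,
            (if a = x ∧ b = x_1 then A⁻¹ else 0) * φ (x :: x_1 :: r) =
            if a = x then A⁻¹ * φ (x :: b :: r) else 0 := by
          intro x _
          by_cases hx : a = x
          · simp only [hx, true_and, if_true, ite_mul, zero_mul]
            rw [Finset.sum_ite_eq]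
            simp
          · simp [hx]
        rw [Finset.sum_congr rfl h1, Finset.sum_ite_eq]
        simp
      · refine Finset.sum_congr rfl fun c _ => Finset.sum_congr rfl fun d _ => ?_
        ring
  | succ i ih =>
    rcases l with _ | ⟨a, r⟩
    · simp at hl
    · have e : (fun s => op (br A) ⟨.cup, i + 1⟩ φ (a :: s)) =
          op (br A) ⟨.cup, i⟩ fun s => φ (a :: s) := by
        funext s
        exact op_succ_apply _ _ _ _ _ _
      rw [op_succ_apply, op_succ_apply, ih _ _ (by
        simp only [List.length_cons] at hl
        omega), e]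

theorem op_list (M : Model ℝ) (k : Kind) (i : ℕ) {α : Type} (X : List α) (c : α → ℝ) (f : α → L → ℝ)
    (l : L) :
    op M ⟨k, i⟩ (fun s => (X.map fun t => c t * f t s).sum) l =
      (X.map fun t => c t * op M ⟨k, i⟩ (f t) l).sum := by
  induction X with
  | nil =>
    simp only [List.map_nil, List.sum_nil]
    have : (fun _ : L => (0 : ℝ)) = 0 := rfl
    rw [this, map_zero]
    rfl
  | cons t X ih =>
    simp only [List.map_cons, List.sum_cons]
    have e : (fun s => c t * f t s + (X.map fun t => c t * f t s).sum) =
        c t • f t + fun s => (X.map fun t => c t * f t s).sum := rfl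
    rw [e, map_add, map_smul, ← ih]
    rfl

theorem T_sts {w : Word} {n m : ℕ} (h : Ok n w m) {A : ℝ} (hA : A ≠ 0) (φ : L → ℝ) (l : L)
    (hl : n ≤ l.length) :
    T (br A) w φ l = ((sts w).map fun t => A ^ t.1 * T (br A) t.2 φ l).sum := by
  induction w generalizing n l with
  | nil => simp [sts]
  | cons g w ih =>
    obtain ⟨k, i⟩ := g
    obtain ⟨h1, h2⟩ := h
    simp only at h1
    rw [T_cons]
    have h3 : op (br A) ⟨k, i⟩ (T (br A) w φ) l =
        op (br A) ⟨k, i⟩ (fun s => ((sts w).map fun t => A ^ t.1 * T (br A) t.2 φ s).sum) l :=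
      op_congr (br A) k i l (by omega) fun s hs => ih h2 s (by
        simp only at hs ⊢
        omega)
    rw [h3]
    cases k
    · rw [op_list (br A) .cup i (sts w) (fun t => A ^ t.1) (fun t => T (br A) t.2 φ) l]
      simp only [sts, List.map_map]
      rfl
    · rw [op_list (br A) .cap i (sts w) (fun t => A ^ t.1) (fun t => T (br A) t.2 φ) l]
      simp only [sts, List.map_map]
      rfl
    · simp only [Kind.inp] at h1
      rw [op_pos_br A i _ l (by omega)]
      have e : op (br A) ⟨.cup, i⟩ (fun s => ((sts w).map fun t => A ^ t.1 * T (br A) t.2 φ s).sum) =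
          fun s => ((sts w).map fun t => A ^ t.1 * op (br A) ⟨.cup, i⟩ (T (br A) t.2 φ) s).sum := by
        funext s
        exact op_list (br A) .cup i (sts w) (fun t => A ^ t.1) (fun t => T (br A) t.2 φ) s
      rw [e, op_list (br A) .cap i (sts w) (fun t => A ^ t.1)
        (fun t => op (br A) ⟨.cup, i⟩ (T (br A) t.2 φ)) l]
      simp only [sts, List.map_append, List.map_map, List.sum_append]
      rw [← List.sum_map_mul_left, ← List.sum_map_mul_left]
      congr 1
      · congr 1
        refine List.map_congr_left fun t _ => ?_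
        simp only [Function.comp]
        rw [zpow_add_one₀ hA]
        ring
      · congr 1
        refine List.map_congr_left fun t _ => ?_
        simp only [Function.comp]
        rw [zpow_sub_one₀ hA, T_cons, T_cons]
        ring
    · simp only [Kind.inp] at h1
      rw [op_neg_br A i _ l (by omega)]
      have e : op (br A) ⟨.cup, i⟩ (fun s => ((sts w).map fun t => A ^ t.1 * T (br A) t.2 φ s).sum) =
          fun s => ((sts w).map fun t => A ^ t.1 * op (br A) ⟨.cup, i⟩ (T (br A) t.2 φ) s).sum := by
        funext s
        exact op_list (br A) .cup i (sts w) (fun t => A ^ t.1) (fun t => T (br A) t.2 φ) s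
      rw [e, op_list (br A) .cap i (sts w) (fun t => A ^ t.1)
        (fun t => op (br A) ⟨.cup, i⟩ (T (br A) t.2 φ)) l]
      simp only [sts, List.map_append, List.map_map, List.sum_append]
      rw [← List.sum_map_mul_left, ← List.sum_map_mul_left]
      congr 1
      · congr 1
        refine List.map_congr_left fun t _ => ?_
        simp only [Function.comp]
        rw [zpow_sub_one₀ hA]
        ring
      · congr 1
        refine List.map_congr_left fun t _ => ?_
        simp only [Function.comp]
        rw [zpow_add_one₀ hA, T_cons, T_cons]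
        ring

theorem K_sts {w : Word} (h : Ok 0 w 0) {A : ℝ} (hA : A ≠ 0) :
    K w A = ((sts w).map fun t => A ^ t.1 * dlt A ^ lp t.2).sum := by
  have h1 := T_sts h hA dl [] (Nat.zero_le _)
  unfold K val
  rw [h1]
  congr 1
  refine List.map_congr_left fun t ht => ?_
  congr 1
  exact K_lp t.2 (cr_sts ht) (ok_sts h ht) hA

/-- the states of the mirror image -/
theorem sts_mir (w : Word) : List.Perm (sts (mir w)) ((sts w).map fun t => (-t.1, t.2)) := by
  induction w with
  | nil => simp [sts, mir]
  | cons g w ih =>
    obtain ⟨k, i⟩ := g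
    have e : mir (⟨k, i⟩ :: w) = ⟨k.mir, i⟩ :: mir w := rfl
    rw [e]
    cases k
    · simp only [Kind.mir, sts, List.map_map]
      refine (ih.map _).trans ?_
      rw [List.map_map]
      exact List.Perm.refl _
    · simp only [Kind.mir, sts, List.map_map]
      refine (ih.map _).trans ?_
      rw [List.map_map]
      exact List.Perm.refl _
    · simp only [Kind.mir, sts, List.map_append, List.map_map]
      refine ((ih.map _).append (ih.map _)).trans ?_
      rw [List.map_map, List.map_map]
      refine List.Perm.append (List.Perm.of_eq ?_) (List.Perm.of_eq ?_)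
      · refine List.map_congr_left fun t _ => ?_
        simp only [Function.comp, Prod.mk.injEq, and_true]
        ring
      · refine List.map_congr_left fun t _ => ?_
        simp only [Function.comp, Prod.mk.injEq, and_true]
        ring
    · simp only [Kind.mir, sts, List.map_append, List.map_map]
      refine ((ih.map _).append (ih.map _)).trans ?_
      rw [List.map_map, List.map_map]
      refine List.Perm.append (List.Perm.of_eq ?_) (List.Perm.of_eq ?_)
      · refine List.map_congr_left fun t _ => ?_
        simp only [Function.comp, Prod.mk.injEq, and_true]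
        ring
      · refine List.map_congr_left fun t _ => ?_
        simp only [Function.comp, Prod.mk.injEq, and_true]
        ring

/-- the states of the mirror image have the opposite exponents -/
theorem K_sts_mir {w : Word} (h : Ok 0 w 0) {A : ℝ} (hA : A ≠ 0) :
    K (mir w) A = ((sts w).map fun t => A ^ (-t.1) * dlt A ^ lp t.2).sum := by
  rw [K_sts (ok_mir.2 h) hA]
  rw [((sts_mir w).map fun t => A ^ t.1 * dlt A ^ lp t.2).sum_eq, List.map_map]
  rfl

end Pool.Agent.KCS
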