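import Pool.Agent.KCS.ORT
import Pool.Agent.KCS.STA
import Pool.Agent.KCS.IN2

/-!
# KCS / LAB: the bounds for the numbers of circles and for the bracket

`lp_switch`: apply `res_le` and `cst_le_res`, `cst_mir` to `w' = p ++ [pos i] ++ q` and to its mirror image
(`resA w' = p ++ q`, `resA (mir w') = p ++ cap i :: cup i :: q`, `cr w' = 1`): `2 ^ lp (..) ≤ 2 * val cst w' ≤ 2 * 2 ^ lp (..)`.
`lp_dual`: `dual` with `val cst w ≤ val str w = 2`.
`sts_bound`: induction on `w` with an initial part `p` without crossings: for `t ∈ sts w`,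
`t.1 + 2 lp (p ++ t.2) ≤ cr w + 2 lp (p ++ resA w)`; if the state has the B-smoothing at the first crossing use the induction with
the initial part extended by this smoothing and `lp_switch`.
`K_le`: `|dlt A| ≤ 2 A ^ 2` for `A ≥ 1`.
-/

namespace Pool.Agent.KCS

private theorem lab_ok {n : ℕ} {q : Word} {i m : ℕ} (h : Ok n (⟨.cap, i⟩ :: ⟨.cup, i⟩ :: q) m) :
    i + 2 ≤ n ∧ Ok n q m := by
  obtain ⟨h1, h2, h3⟩ := h
  simp only [Kind.inp, Kind.out] at h1 h2 h3
  refine ⟨h1, ?_⟩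
  have e : n - 2 + 0 - 0 + 2 = n := by omega
  rw [e] at h3
  exact h3

private theorem lab_okcr {n : ℕ} {q : Word} {i m : ℕ} {k : Kind} (hk : k = .pos ∨ k = .neg) :
    Ok n (⟨k, i⟩ :: q) m ↔ i + 2 ≤ n ∧ Ok n q m := by
  constructor
  · rintro ⟨h1, h2⟩
    rcases hk with rfl | rfl <;> simp only [Kind.inp, Kind.out] at h1 h2 <;>
    · refine ⟨h1, ?_⟩
      have e : n - 2 + 2 = n := by omega
      rw [e] at h2
      exact h2
  · rintro ⟨h1, h2⟩
    rcases hk with rfl | rfl <;>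
    · refine ⟨h1, ?_⟩
      simp only [Kind.inp, Kind.out]
      have e : n - 2 + 2 = n := by omega
      rw [e]
      exact h2

private theorem lab_pow {a b : ℕ} (h : 2 ^ a ≤ 2 * 2 ^ b) : a ≤ b + 1 := by
  have h1 : 2 ^ a ≤ 2 ^ (b + 1) := by
    rw [pow_succ]
    omega
  exact (Nat.pow_le_pow_iff_right (by norm_num)).1 h1

theorem lp_switch {p q : Word} {i : ℕ} (hp : cr p = 0) (hq : cr q = 0)
    (h : Ok 0 (p ++ ⟨.cap, i⟩ :: ⟨.cup, i⟩ :: q) 0) :
    lp (p ++ ⟨.cap, i⟩ :: ⟨.cup, i⟩ :: q) ≤ lp (p ++ q) + 1 ∧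
      lp (p ++ q) ≤ lp (p ++ ⟨.cap, i⟩ :: ⟨.cup, i⟩ :: q) + 1 := by
  obtain ⟨n, h1, h2⟩ := ok_append.1 h
  obtain ⟨h3, h4⟩ := lab_ok h2
  have hw : Ok 0 (p ++ ⟨.pos, i⟩ :: q) 0 :=
    ok_append.2 ⟨n, h1, (lab_okcr (Or.inl rfl)).2 ⟨h3, h4⟩⟩
  have hpq : Ok 0 (p ++ q) 0 := ok_append.2 ⟨n, h1, h4⟩
  have e1 : resA (p ++ ⟨.pos, i⟩ :: q) = p ++ q := by
    rw [resA_append, resA_of_cr hp]
    show p ++ resA q = p ++ q
    rw [resA_of_cr hq]
  have e2 : resA (mir (p ++ ⟨.pos, i⟩ :: q)) = p ++ ⟨.cap, i⟩ :: ⟨.cup, i⟩ :: q := by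
    rw [mir_append, resA_append, mir_of_cr hp, resA_of_cr hp]
    show p ++ (⟨.cap, i⟩ :: ⟨.cup, i⟩ :: resA (mir q)) = _
    rw [mir_of_cr hq, resA_of_cr hq]
  have e3 : cr (p ++ ⟨.pos, i⟩ :: q) = 1 := by
    rw [cr_append, cr_cons, hp, hq]
    rfl
  have a1 := res_le hw
  have a2 := cst_le_res hw
  have a3 := res_le (ok_mir.2 hw)
  have a4 := cst_le_res (ok_mir.2 hw)
  rw [e1, e3] at a1
  rw [e1] at a2
  rw [e2, cr_mir, e3, cst_mir] at a3
  rw [e2, cst_mir] at a4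
  have c1 : cr (p ++ q) = 0 := by rw [cr_append, hp, hq]
  have c2 : cr (p ++ ⟨.cap, i⟩ :: ⟨.cup, i⟩ :: q) = 0 := by
    rw [cr_append, cr_cons, cr_cons, hp, hq]
    rfl
  rw [val_str_lp _ c1 hpq] at a1 a2
  rw [val_str_lp _ c2 h] at a3 a4
  constructor
  · apply lab_pow
    calc _ ≤ 2 ^ 1 * val cst (p ++ ⟨.pos, i⟩ :: q) := a3
      _ ≤ 2 * 2 ^ lp (p ++ q) := by
        rw [pow_one]
        exact Nat.mul_le_mul_left 2 a2
  · apply lab_pow
    calc _ ≤ 2 ^ 1 * val cst (p ++ ⟨.pos, i⟩ :: q) := a1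
      _ ≤ 2 * 2 ^ lp (p ++ ⟨.cap, i⟩ :: ⟨.cup, i⟩ :: q) := by
        rw [pow_one]
        exact Nat.mul_le_mul_left 2 a4

theorem lp_dual {w : Word} (h : IsKnot w) : lp (resA w) + lp (resA (mir w)) ≤ cr w + 2 := by
  have h1 := dual h.1
  rw [val_str_lp _ (cr_resA w) (ok_resA h.1),
    val_str_lp _ (cr_resA (mir w)) (ok_resA (ok_mir.2 h.1))] at h1
  have h2 : val cst w ≤ 2 := cst_le_str.trans h.2.le
  have h3 : val cst w ^ 2 ≤ 2 ^ 2 := Nat.pow_le_pow_left h2 2
  have h4 : 2 ^ (lp (resA w) + lp (resA (mir w))) ≤ 2 ^ (cr w + 2) := by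
    rw [pow_add, pow_add]
    exact h1.trans (Nat.mul_le_mul_left _ h3)
  exact (Nat.pow_le_pow_iff_right (by norm_num)).1 h4

theorem sts_bound {p w : Word} (hp : cr p = 0) (h : Ok 0 (p ++ w) 0) {t : ℤ × Word} (ht : t ∈ sts w) :
    t.1 + 2 * (lp (p ++ t.2) : ℤ) ≤ cr w + 2 * (lp (p ++ resA w) : ℤ) := by
  induction w generalizing p t with
  | nil =>
    simp only [sts, List.mem_singleton] at ht
    subst ht
    simp [resA, cr_nil]
  | cons g w ih =>
    obtain ⟨k, i⟩ := g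
    obtain ⟨n, hn1, hn2⟩ := ok_append.1 h
    cases k
    · simp only [sts, List.mem_map] at ht
      obtain ⟨s, hs, rfl⟩ := ht
      have hp' : cr (p ++ [⟨.cup, i⟩]) = 0 := by
        rw [cr_append, hp]
        rfl
      have h' : Ok 0 ((p ++ [⟨.cup, i⟩]) ++ w) 0 := by
        rw [List.append_assoc]
        exact h
      have h1 := ih hp' h' hs
      rw [List.append_assoc, List.append_assoc] at h1
      have e : cr (⟨.cup, i⟩ :: w) = cr w := by
        rw [cr_cons]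
        rfl
      rw [e]
      exact h1
    · simp only [sts, List.mem_map] at ht
      obtain ⟨s, hs, rfl⟩ := ht
      have hp' : cr (p ++ [⟨.cap, i⟩]) = 0 := by
        rw [cr_append, hp]
        rfl
      have h' : Ok 0 ((p ++ [⟨.cap, i⟩]) ++ w) 0 := by
        rw [List.append_assoc]
        exact h
      have h1 := ih hp' h' hs
      rw [List.append_assoc, List.append_assoc] at h1
      have e : cr (⟨.cap, i⟩ :: w) = cr w := by
        rw [cr_cons]
        rfl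
      rw [e]
      exact h1
    · obtain ⟨hi, hw⟩ := (lab_okcr (Or.inl rfl)).1 hn2
      have hp' : cr (p ++ [⟨.cap, i⟩, ⟨.cup, i⟩]) = 0 := by
        rw [cr_append, hp]
        rfl
      have h0 : Ok 0 (p ++ w) 0 := ok_append.2 ⟨n, hn1, hw⟩
      have h' : Ok 0 ((p ++ [⟨.cap, i⟩, ⟨.cup, i⟩]) ++ w) 0 := by
        rw [List.append_assoc]
        exact ok_append.2 ⟨n, hn1, ok_capcup hi hw⟩
      have e : cr (⟨.pos, i⟩ :: w) = cr w + 1 := by
        rw [cr_cons]
        rfl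
      have hs' : Ok 0 (p ++ ⟨.cap, i⟩ :: ⟨.cup, i⟩ :: resA w) 0 :=
        ok_append.2 ⟨n, hn1, ok_capcup hi (ok_resA hw)⟩
      obtain ⟨b1, b2⟩ := lp_switch hp (cr_resA w) hs'
      have er : resA (⟨.pos, i⟩ :: w) = resA w := rfl
      rw [e, er]
      push_cast
      simp only [sts, List.mem_append, List.mem_map] at ht
      rcases ht with ⟨s, hs, rfl⟩ | ⟨s, hs, rfl⟩
      · have h1 := ih hp h0 hs
        simp only
        linarith
      · have h1 := ih hp' h' hs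
        rw [List.append_assoc, List.append_assoc] at h1
        simp only [List.cons_append, List.nil_append] at h1
        have b1' : ((lp (p ++ ⟨.cap, i⟩ :: ⟨.cup, i⟩ :: resA w) : ℕ) : ℤ) ≤ (lp (p ++ resA w) : ℕ) + 1 := by
          exact_mod_cast b1
        simp only
        linarith
    · obtain ⟨hi, hw⟩ := (lab_okcr (Or.inr rfl)).1 hn2
      have hp' : cr (p ++ [⟨.cap, i⟩, ⟨.cup, i⟩]) = 0 := by
        rw [cr_append, hp]
        rfl
      have h0 : Ok 0 (p ++ w) 0 := ok_append.2 ⟨n, hn1, hw⟩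
      have h' : Ok 0 ((p ++ [⟨.cap, i⟩, ⟨.cup, i⟩]) ++ w) 0 := by
        rw [List.append_assoc]
        exact ok_append.2 ⟨n, hn1, ok_capcup hi hw⟩
      have e : cr (⟨.neg, i⟩ :: w) = cr w + 1 := by
        rw [cr_cons]
        rfl
      have hs' : Ok 0 (p ++ ⟨.cap, i⟩ :: ⟨.cup, i⟩ :: resA w) 0 :=
        ok_append.2 ⟨n, hn1, ok_capcup hi (ok_resA hw)⟩
      obtain ⟨b1, b2⟩ := lp_switch hp (cr_resA w) hs'
      have er : resA (⟨.neg, i⟩ :: w) = ⟨.cap, i⟩ :: ⟨.cup, i⟩ :: resA w := rfl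
      rw [e, er]
      push_cast
      simp only [sts, List.mem_append, List.mem_map] at ht
      rcases ht with ⟨s, hs, rfl⟩ | ⟨s, hs, rfl⟩
      · have h1 := ih hp h0 hs
        have b2' : ((lp (p ++ resA w) : ℕ) : ℤ) ≤ (lp (p ++ ⟨.cap, i⟩ :: ⟨.cup, i⟩ :: resA w) : ℕ) + 1 := by
          exact_mod_cast b2
        simp only
        linarith
      · have h1 := ih hp' h' hs
        rw [List.append_assoc, List.append_assoc] at h1
        simp only [List.cons_append, List.nil_append] at h1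
        simp only
        linarith

private theorem lab_dlt {A : ℝ} (hA : 1 ≤ A) : |dlt A| ≤ 2 * A ^ 2 := by
  have h1 : A⁻¹ ≤ 1 := inv_le_one_of_one_le₀ hA
  have h2 : 0 ≤ A⁻¹ := by positivity
  have h3 : (A⁻¹) ^ 2 ≤ A ^ 2 := by nlinarith
  unfold dlt
  rw [abs_le]
  constructor
  · linarith
  · nlinarith [sq_nonneg A, sq_nonneg A⁻¹]

private theorem lab_sum (l : List (ℤ × Word)) (A : ℝ) (hA : 1 ≤ A) (N : ℕ)
    (h : ∀ t ∈ l, t.1 + 2 * (lp t.2 : ℤ) ≤ N) :
    |(l.map fun t => A ^ t.1 * dlt A ^ lp t.2).sum| ≤ (l.map fun t => (2 : ℝ) ^ lp t.2).sum * A ^ N := by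
  have hA0 : 0 < A := by linarith
  induction l with
  | nil => simp
  | cons t l ih =>
    simp only [List.map_cons, List.sum_cons]
    have h1 := ih fun s hs => h s (List.mem_cons_of_mem _ hs)
    have h2 : |A ^ t.1 * dlt A ^ lp t.2| ≤ (2 : ℝ) ^ lp t.2 * A ^ N := by
      rw [abs_mul, abs_pow, abs_of_pos (zpow_pos hA0 _)]
      calc A ^ t.1 * |dlt A| ^ lp t.2 ≤ A ^ t.1 * (2 * A ^ 2) ^ lp t.2 := by
            apply mul_le_mul_of_nonneg_left _ (zpow_pos hA0 _).le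
            exact pow_le_pow_left₀ (abs_nonneg _) (lab_dlt hA) _
        _ = 2 ^ lp t.2 * A ^ (t.1 + 2 * (lp t.2 : ℤ)) := by
            rw [zpow_add₀ hA0.ne', mul_pow, ← pow_mul]
            have : A ^ (2 * (lp t.2 : ℤ)) = A ^ (2 * lp t.2) := by
              rw [← zpow_natCast]
              push_cast
              rfl
            rw [this]
            ring
        _ ≤ 2 ^ lp t.2 * A ^ (N : ℤ) := by
            apply mul_le_mul_of_nonneg_left _ (by positivity)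
            exact zpow_le_zpow_right₀ hA (h t List.mem_cons_self)
        _ = 2 ^ lp t.2 * A ^ N := by rw [zpow_natCast]
    calc _ ≤ |A ^ t.1 * dlt A ^ lp t.2| + |(l.map fun t => A ^ t.1 * dlt A ^ lp t.2).sum| := abs_add_le _ _
      _ ≤ _ := by
        rw [add_mul]
        exact add_le_add h2 h1

theorem K_le {w : Word} (h : Ok 0 w 0) :
    ∃ C : ℝ, 0 < C ∧ ∀ A : ℝ, 1 ≤ A → |K w A| ≤ C * A ^ (cr w + 2 * lp (resA w)) := by
  have hs : 0 ≤ ((sts w).map fun t => (2 : ℝ) ^ lp t.2).sum := by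
    apply List.sum_nonneg
    intro x hx
    rw [List.mem_map] at hx
    obtain ⟨t, _, rfl⟩ := hx
    positivity
  refine ⟨((sts w).map fun t => (2 : ℝ) ^ lp t.2).sum + 1, by linarith, fun A hA => ?_⟩
  have hA0 : 0 < A := by linarith
  rw [K_sts h hA0.ne']
  refine (lab_sum (sts w) A hA (cr w + 2 * lp (resA w)) fun t ht => ?_).trans ?_
  · have h1 := sts_bound (p := []) (w := w) rfl h ht
    simp only [List.nil_append] at h1
    push_cast
    exact h1
  · exact mul_le_mul_of_nonneg_right (by linarith) (by positivity)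

/-- the upper bound for the invariant of a knot diagram -/
theorem H_le {w : Word} (h : IsKnot w) :
    ∃ C : ℝ, 0 < C ∧ ∀ A : ℝ, 1 ≤ A → H w A ≤ C * A ^ (4 * cr w + 4) := by
  obtain ⟨C, hC, h1⟩ := K_le h.1
  obtain ⟨D, hD, h2⟩ := K_le (ok_mir.2 h.1)
  refine ⟨C * D, by positivity, fun A hA => ?_⟩
  have hA0 : 0 < A := by linarith
  have h3 := h1 A hA
  have h4 := h2 A hA
  have h5 := lp_dual h
  rw [cr_mir] at h4
  unfold H
  rw [abs_mul]
  calc |K w A| * |K (mir w) A| ≤ (C * A ^ (cr w + 2 * lp (resA w))) *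
        (D * A ^ (cr w + 2 * lp (resA (mir w)))) :=
        mul_le_mul h3 h4 (abs_nonneg _) (by positivity)
    _ = C * D * A ^ ((cr w + 2 * lp (resA w)) + (cr w + 2 * lp (resA (mir w)))) := by
        rw [pow_add A (cr w + 2 * lp (resA w))]
        ring
    _ ≤ C * D * A ^ (4 * cr w + 4) := by
        apply mul_le_mul_of_nonneg_left _ (by positivity)
        exact pow_le_pow_right₀ hA (by omega)

end Pool.Agent.KCS
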