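import Pool.Agent.KCS.ALI
import Pool.Agent.KCS.LAB

/-!
# KCS / ALT: reduced alternating diagrams are adequate, with `s_A + s_B = c + 2`

`alt_lp`: for a connected (`val cst w = 2`) alternating diagram `alt_ineq`, `val_evn` and `dual` give
`2 ^ (lpA + lpB) = 2 ^ c * 4`. `alt_adequate`: let `w = p ++ g :: q` with a crossing `g`. Both smoothings `D'` (A) and `D''` (B) at `g` are
alternating, connected by `Red`, with `c - 1` crossings. `lp (resA D') = lp (resA w)`; `resA (mir D'')` and `resA (mir w)` are the same word, so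
`lp (resA D'') = c + 1 - lp (resA (mir w)) = lp (resA w) - 1`. (`Alt (mir w)`, `Red (mir w)` for the other side; `mir` of a
smoothing is the smoothing of `mir`; `cst_mir`.)
-/

namespace Pool.Agent.KCS

/-- no nugatory crossings: both smoothings of each crossing are connected diagrams -/
def Red (w : Word) : Prop :=
  ∀ (p q : Word) (g : Gen), isCr g = true → w = p ++ g :: q →
    val cst (p ++ q) = 2 ∧ val cst (p ++ ⟨.cap, g.idx⟩ :: ⟨.cup, g.idx⟩ :: q) = 2

theorem alt_lp {w : Word} (h : Ok 0 w 0) (hc : val cst w = 2) (ha : Alt w) :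
    lp (resA w) + lp (resA (mir w)) = cr w + 2 := by
  have h1 := dual h
  have h2 := alt_ineq h ha
  rw [val_str_lp _ (cr_resA w) (ok_resA h),
    val_str_lp _ (cr_resA (mir w)) (ok_resA (ok_mir.2 h)), hc] at h1
  rw [val_str_lp _ (cr_resA w) (ok_resA h),
    val_str_lp _ (cr_resA (mir w)) (ok_resA (ok_mir.2 h)), hc, val_evn h, hc] at h2
  rw [← pow_add] at h1 h2
  have e : 2 ^ (cr w + 2) = 2 ^ cr w * 2 * 2 := by ring
  have h3 : 2 ^ (lp (resA w) + lp (resA (mir w))) ≤ 2 ^ (cr w + 2) := by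
    rw [e]
    calc _ ≤ _ := h1
      _ = _ := by ring
  have h4 : 2 ^ (cr w + 2) ≤ 2 ^ (lp (resA w) + lp (resA (mir w))) := by
    rw [e]
    exact h2
  exact le_antisymm ((Nat.pow_le_pow_iff_right (by norm_num)).1 h3)
    ((Nat.pow_le_pow_iff_right (by norm_num)).1 h4)

private theorem alt_sub {w w' : Word} (ha : Alt w)
    (hs : ∀ g ∈ w', g ∈ w ∨ g.kind = .cap ∨ g.kind = .cup) : Alt w' := by
  rcases ha with ha | ha
  · left
    intro g hg
    rcases hs g hg with h | h | h
    · exact ha g h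
    · rw [h]
      exact ⟨fun e => by simp at e, fun e => by simp at e⟩
    · rw [h]
      exact ⟨fun e => by simp at e, fun e => by simp at e⟩
  · right
    intro g hg
    rcases hs g hg with h | h | h
    · exact ha g h
    · rw [h]
      exact ⟨fun e => by simp at e, fun e => by simp at e⟩
    · rw [h]
      exact ⟨fun e => by simp at e, fun e => by simp at e⟩

private theorem alt_mir {w : Word} (ha : Alt w) : Alt (mir w) := by
  have key : ∀ g ∈ mir w, ∃ g' ∈ w, g.kind = g'.kind.mir ∧ g.idx = g'.idx := by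
    intro g hg
    unfold mir at hg
    rw [List.mem_map] at hg
    obtain ⟨g', h1, rfl⟩ := hg
    exact ⟨g', h1, rfl, rfl⟩
  rcases ha with ha | ha
  · right
    intro g hg
    obtain ⟨g', h1, h2, h3⟩ := key g hg
    rw [h2, h3]
    constructor
    · intro e
      apply (ha g' h1).2
      revert e
      cases g'.kind <;> simp [Kind.mir]
    · intro e
      apply (ha g' h1).1
      revert e
      cases g'.kind <;> simp [Kind.mir]
  · left
    intro g hg
    obtain ⟨g', h1, h2, h3⟩ := key g hg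
    rw [h2, h3]
    constructor
    · intro e
      apply (ha g' h1).2
      revert e
      cases g'.kind <;> simp [Kind.mir]
    · intro e
      apply (ha g' h1).1
      revert e
      cases g'.kind <;> simp [Kind.mir]

private theorem red_mir {w : Word} (h : Ok 0 w 0) (hr : Red w) : Red (mir w) := by
  intro p q g hg e
  have e' : w = mir p ++ ⟨g.kind.mir, g.idx⟩ :: mir q := by
    rw [← mir_mir w, e, mir_append]
    rfl
  have hg' : isCr ⟨g.kind.mir, g.idx⟩ = true := by
    obtain ⟨k, i⟩ := g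
    cases k <;> simp_all [isCr, Kind.mir]
  obtain ⟨h1, h2⟩ := hr (mir p) (mir q) ⟨g.kind.mir, g.idx⟩ hg' e'
  have m1 : p ++ q = mir (mir p ++ mir q) := by
    rw [mir_append, mir_mir, mir_mir]
  have m2 : p ++ ⟨.cap, g.idx⟩ :: ⟨.cup, g.idx⟩ :: q =
      mir (mir p ++ ⟨.cap, g.idx⟩ :: ⟨.cup, g.idx⟩ :: mir q) := by
    rw [mir_append, mir_mir]
    show _ = p ++ (⟨.cap, g.idx⟩ :: ⟨.cup, g.idx⟩ :: mir (mir q))
    rw [mir_mir]
  rw [m1, m2, cst_mir, cst_mir]
  exact ⟨h1, h2⟩

private theorem alt_ada {w : Word} (h : Ok 0 w 0) (hc : val cst w = 2) (ha : Alt w) (hr : Red w) :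
    AdA w := by
  have h0 := alt_lp h hc ha
  constructor
  · intro p q i e
    obtain ⟨r1, r2⟩ := hr p q ⟨.pos, i⟩ rfl e
    subst e
    obtain ⟨n, o1, o2⟩ := ok_append.1 h
    have o3 : i + 2 ≤ n := o2.1
    have o4 : Ok n q 0 := by
      have := o2.2
      simp only [Kind.inp, Kind.out] at this
      have e : n - 2 + 2 = n := by omega
      rwa [e] at this
    have ho : Ok 0 (p ++ ⟨.cap, i⟩ :: ⟨.cup, i⟩ :: q) 0 := ok_append.2 ⟨n, o1, ok_capcup o3 o4⟩
    have h1 := alt_lp ho r2 (alt_sub ha fun g hg => by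
      simp only [List.mem_append, List.mem_cons] at hg ⊢
      rcases hg with hg | rfl | rfl | hg
      · exact Or.inl (Or.inl hg)
      · exact Or.inr (Or.inl rfl)
      · exact Or.inr (Or.inr rfl)
      · exact Or.inl (Or.inr (Or.inr hg)))
    have e1 : resA (p ++ ⟨.cap, i⟩ :: ⟨.cup, i⟩ :: q) = resA p ++ ⟨.cap, i⟩ :: ⟨.cup, i⟩ :: resA q := by
      rw [resA_append]
      rfl
    have e2 : resA (mir (p ++ ⟨.cap, i⟩ :: ⟨.cup, i⟩ :: q)) = resA (mir (p ++ ⟨.pos, i⟩ :: q)) := by
      rw [mir_append, mir_append, resA_append, resA_append]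
      rfl
    have e3 : cr (p ++ ⟨.cap, i⟩ :: ⟨.cup, i⟩ :: q) + 1 = cr (p ++ ⟨.pos, i⟩ :: q) := by
      rw [cr_append, cr_append, cr_cons, cr_cons, cr_cons]
      simp [isCr]
      omega
    rw [e1, e2] at h1
    omega
  · intro p q i e
    obtain ⟨r1, r2⟩ := hr p q ⟨.neg, i⟩ rfl e
    subst e
    obtain ⟨n, o1, o2⟩ := ok_append.1 h
    have o3 : i + 2 ≤ n := o2.1
    have o4 : Ok n q 0 := by
      have := o2.2
      simp only [Kind.inp, Kind.out] at this
      have e : n - 2 + 2 = n := by omega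
      rwa [e] at this
    have ho : Ok 0 (p ++ q) 0 := ok_append.2 ⟨n, o1, o4⟩
    have h1 := alt_lp ho r1 (alt_sub ha fun g hg => by
      simp only [List.mem_append, List.mem_cons] at hg ⊢
      rcases hg with hg | hg
      · exact Or.inl (Or.inl hg)
      · exact Or.inl (Or.inr (Or.inr hg)))
    have e1 : resA (p ++ q) = resA p ++ resA q := resA_append p q
    have e2 : resA (mir (p ++ q)) = resA (mir (p ++ ⟨.neg, i⟩ :: q)) := by
      rw [mir_append, mir_append, resA_append, resA_append]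
      rfl
    have e3 : cr (p ++ q) + 1 = cr (p ++ ⟨.neg, i⟩ :: q) := by
      rw [cr_append, cr_append, cr_cons]
      simp [isCr]
      omega
    rw [e1, e2] at h1
    omega

theorem alt_adequate {w : Word} (h : Ok 0 w 0) (hc : val cst w = 2) (ha : Alt w) (hr : Red w) :
    AdA w ∧ AdA (mir w) :=
  ⟨alt_ada h hc ha hr,
    alt_ada (ok_mir.2 h) (by rw [cst_mir]; exact hc) (alt_mir ha) (red_mir h hr)⟩

/-- the contribution of a reduced alternating knot diagram is the number of its crossings -/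
theorem wt_alternating {w d : Word} (h : IsKnot w) (hd : TEq 0 0 w d) (ha : Alt d) (hr : Red d) :
    Wt w (2 * cr d) := by
  have hk : IsKnot d := (isKnot_teq hd).1 h
  have h1 : val cst d ≤ 2 := cst_le_str.trans hk.2.le
  have h2 := cst_ge_two hk.1 (ne_nil_of_isKnot hk)
  have hc : val cst d = 2 := le_antisymm h1 h2
  obtain ⟨a1, a2⟩ := alt_adequate hk.1 hc ha hr
  exact Wt.adequate w d (2 * cr d) hd a1 a2 (by have := alt_lp hk.1 hc ha; omega)

end Pool.Agent.KCS
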