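import Pool.Agent.KCS.Defs

/-!
# KCS / BDF: definitions for closed 3-braids
-/

namespace Pool.Agent.KCS

/-- the words of the powers of the full twist -/
def cw : ℤ → List Ltr
  | .ofNat m => (List.replicate m [(false, true), (true, true), (false, true), (false, true),
      (true, true), (false, true)]).flatten
  | .negSucc m => (List.replicate (m + 1) [(false, false), (true, false), (false, false),
      (false, false), (true, false), (false, false)]).flatten

/-- words in `σ₂` (`true`) and `σ₁⁻¹` (`false`) -/
def gw (v : List Bool) : List Ltr := v.map fun t => if t then (true, true) else (false, false)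

/-- mirror image -/
def ml (l : List Ltr) : List Ltr := l.map fun t => (t.1, !t.2)

/-- exchange of the two generators -/
def fl (l : List Ltr) : List Ltr := l.map fun t => (!t.1, t.2)

/-- exponent sum -/
def ex (l : List Ltr) : ℤ := (l.map fun t => if t.2 then (1 : ℤ) else -1).sum

/-- the reduced representation: one letter -/
noncomputable def rl (A : ℝ) (t : Ltr) : Matrix (Fin 2) (Fin 2) ℝ :=
  match t with
  | (false, true) => !![-(A⁻¹) ^ 3, A⁻¹; 0, A]
  | (false, false) => !![-A ^ 3, A; 0, A⁻¹]
  | (true, true) => !![A, 0; A⁻¹, -(A⁻¹) ^ 3]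
  | (true, false) => !![A⁻¹, 0; A, -A ^ 3]

/-- the reduced representation -/
noncomputable def rho (A : ℝ) (l : List Ltr) : Matrix (Fin 2) (Fin 2) ℝ := (l.map (rl A)).prod

/-- the claim for a braid word -/
def SB (l : List Ltr) : Prop := IsKnot (cl3 (bw l)) → Gr (cl3 (bw l)) (cc (cl3 (bw l)))

end Pool.Agent.KCS
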