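import Pool.Agent.KCS.MIR

/-!
# KCS / BIT: labellings with prescribed differences at the crossings

At a positive crossing the A-smoothing is vertical: labels `(a, b)` below and above, the bit is `a + b`.
At a negative crossing the A-smoothing is horizontal: labels `(a, a)` below and `(c, c)` above, the bit is `a + c`.
`tb_sum`: induction on `w`: the vertical smoothing is the sum over `h` of `idh h`, the horizontal one
(the operator of `[cap i, cup i]`) the sum over `h` of `eh h`.
`tb_zero`: `idh 0 = eh 0 =` the tensor of `cst`.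
`tb_sq`: the relation `Q φ₁ φ₂ φ₀ : ∀ s r (same length), φ₁ s * φ₂ (s + r) = φ₁ s * φ₀ r` (`s + r = List.zipWith (· + ·) s r`) is
preserved when `φ₁`, `φ₂` are replaced by their images under the operator with the bit `h` and `φ₀` by its image under the
operator with bit `0`; check this for the four operators at the position `0` and show that it passes through `sh`.
It holds for `dl dl dl`. (For `capOp` and `cupOp` use that the weights are indicators of `a = b`; here `cup` gives
`∑_a φ (a a l)`.) Take `s = r = []`.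
-/

namespace Pool.Agent.KCS

/-- vertical smoothing with the difference `h` -/
def idh (h : ZMod 2) : ZMod 2 → ZMod 2 → ZMod 2 → ZMod 2 → ℕ :=
  fun a b c d => if a = c ∧ b = d ∧ a + b = h then 1 else 0

/-- horizontal smoothing with the difference `h` -/
def eh (h : ZMod 2) : ZMod 2 → ZMod 2 → ZMod 2 → ZMod 2 → ℕ :=
  fun a b c d => if a = b ∧ c = d ∧ a + c = h then 1 else 0

def bbase (h : ZMod 2) : Kind → (L → ℕ) →ₗ[ℕ] (L → ℕ)
  | .cup => cupOp str.cu
  | .cap => capOp str.ca
  | .pos => crOp (idh h)
  | .neg => crOp (eh h)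

def bop (g : Gen) (h : ZMod 2) : (L → ℕ) →ₗ[ℕ] (L → ℕ) := sh^[g.idx] (bbase h g.kind)

/-- the operator of the A-smoothing of `w` with the differences `η` at the crossings -/
def TB : Word → List (ZMod 2) → (L → ℕ) →ₗ[ℕ] (L → ℕ)
  | [], _ => LinearMap.id
  | g :: w, η => if isCr g then (match η with
      | [] => 0
      | h :: η' => (bop g h).comp (TB w η'))
    else (bop g 0).comp (TB w η)

private theorem bop_succ (k : Kind) (i : ℕ) (h : ZMod 2) : bop ⟨k, i + 1⟩ h = sh (bop ⟨k, i⟩ h) := by
  unfold bop
  exact Function.iterate_succ_apply' _ _ _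

private theorem bop_succ_apply (k : Kind) (i : ℕ) (h : ZMod 2) (φ : L → ℕ) (a : ZMod 2) (r : L) :
    bop ⟨k, i + 1⟩ h φ (a :: r) = bop ⟨k, i⟩ h (fun s => φ (a :: s)) r := by
  rw [bop_succ]
  rfl

private theorem bop_zero (k : Kind) (h : ZMod 2) : bop ⟨k, 0⟩ h = bbase h k := rfl

private theorem z2 : ∀ a : ZMod 2, a + a = 0 := by decide

private theorem idh_apply (h : ZMod 2) (φ : L → ℕ) (a b : ZMod 2) (r : L) :
    crOp (idh h) φ (a :: b :: r) = if a + b = h then φ (a :: b :: r) else 0 := by
  rw [crOp_apply]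
  have e : ∀ c d : ZMod 2, idh h a b c d * φ (c :: d :: r) =
      if d = b then (if c = a then (if a + b = h then φ (a :: b :: r) else 0) else 0) else 0 := by
    intro c d
    unfold idh
    by_cases h1 : c = a
    · by_cases h2 : d = b
      · subst h1
        subst h2
        by_cases h3 : c + d = h <;> simp [h3]
      · have h2' : ¬ b = d := fun e => h2 e.symm
        simp [h2, h2']
    · have h1' : ¬ a = c := fun e => h1 e.symm
      simp [h1, h1']
  simp only [e, Finset.sum_ite_eq', Finset.mem_univ, if_true]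

private theorem eh_apply (h : ZMod 2) (φ : L → ℕ) (a b : ZMod 2) (r : L) :
    crOp (eh h) φ (a :: b :: r) = if a = b then φ ((a + h) :: (a + h) :: r) else 0 := by
  rw [crOp_apply]
  have e : ∀ c d : ZMod 2, eh h a b c d * φ (c :: d :: r) =
      if d = c then (if a = b ∧ a + c = h then φ (c :: c :: r) else 0) else 0 := by
    intro c d
    unfold eh
    by_cases h1 : d = c
    · subst h1
      by_cases h3 : a = b ∧ a + d = h
      · simp [h3.1, ← h3.2]
      · by_cases h4 : a = b
        · have h5 : ¬ a + d = h := fun e => h3 ⟨h4, e⟩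
          simp [h5]
        · simp [h4]
    · have h1' : ¬ c = d := fun e => h1 e.symm
      simp [h1, h1']
  have e2 : ∀ c : ZMod 2, (if a = b ∧ a + c = h then φ (c :: c :: r) else 0) =
      if c = a + h then (if a = b then φ ((a + h) :: (a + h) :: r) else 0) else 0 := by
    intro c
    by_cases h1 : c = a + h
    · subst h1
      have : a + (a + h) = h := by rw [← add_assoc, z2, zero_add]
      simp [this]
    · have : ¬ a + c = h := by
        intro e
        apply h1
        rw [← e, ← add_assoc, z2, zero_add]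
      simp [h1, this]
  simp only [e, Finset.sum_ite_eq', Finset.mem_univ, if_true, e2]

private theorem cup_apply (φ : L → ℕ) (l : L) :
    cupOp str.cu φ l = ∑ a : ZMod 2, φ (a :: a :: l) := by
  rw [cupOp_apply]
  have e : ∀ a b : ZMod 2, str.cu a b * φ (a :: b :: l) = if b = a then φ (a :: a :: l) else 0 := by
    intro a b
    by_cases h : b = a
    · subst h
      simp [str]
    · have h' : ¬ a = b := fun e => h e.symm
      simp [str, h, h']
  simp only [e, Finset.sum_ite_eq', Finset.mem_univ, if_true]

private theorem cap_apply (φ : L → ℕ) (a b : ZMod 2) (r : L) :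
    capOp str.ca φ (a :: b :: r) = if a = b then φ r else 0 := by
  rw [capOp_apply]
  by_cases h : a = b <;> simp [str, h]

private theorem sum_pos (i : ℕ) (ψ : L → ℕ) (l : L) (hl : i + 2 ≤ l.length) :
    ∑ h : ZMod 2, bop ⟨.pos, i⟩ h ψ l = ψ l := by
  induction i generalizing ψ l with
  | zero =>
    rcases l with _ | ⟨a, _ | ⟨b, r⟩⟩
    · simp at hl
    · simp at hl
    · simp only [bop_zero, bbase, idh_apply, Finset.sum_ite_eq, Finset.mem_univ, if_true]
  | succ i ih =>
    rcases l with _ | ⟨a, r⟩
    · simp at hl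
    · simp only [bop_succ_apply]
      exact ih _ r (by simp only [List.length_cons] at hl; omega)

private theorem sum_neg (i : ℕ) (ψ : L → ℕ) (l : L) (hl : i + 2 ≤ l.length) :
    ∑ h : ZMod 2, bop ⟨.neg, i⟩ h ψ l = op str ⟨.cap, i⟩ (op str ⟨.cup, i⟩ ψ) l := by
  induction i generalizing ψ l with
  | zero =>
    rcases l with _ | ⟨a, _ | ⟨b, r⟩⟩
    · simp at hl
    · simp at hl
    · rw [op_zero, op_zero]
      simp only [bop_zero, bbase, base, eh_apply, cap_apply, cup_apply]
      by_cases h : a = b
      · simp only [h, if_true]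
        exact Fintype.sum_equiv (Equiv.addLeft b) _ _ fun x => rfl
      · simp [h]
  | succ i ih =>
    rcases l with _ | ⟨a, r⟩
    · simp at hl
    · simp only [bop_succ_apply]
      rw [ih _ r (by simp only [List.length_cons] at hl; omega), op_succ_apply]
      simp only [op_succ_apply]

private theorem bop_cup (i : ℕ) (h : ZMod 2) : bop ⟨.cup, i⟩ h = op str ⟨.cup, i⟩ := rfl

private theorem bop_cap (i : ℕ) (h : ZMod 2) : bop ⟨.cap, i⟩ h = op str ⟨.cap, i⟩ := rfl

private theorem sum_fin {c : ℕ} (F : List (ZMod 2) → ℕ) :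
    ∑ η : Fin (c + 1) → ZMod 2, F (List.ofFn η) =
      ∑ h : ZMod 2, ∑ η : Fin c → ZMod 2, F (h :: List.ofFn η) := by
  rw [← Fintype.sum_prod_type']
  refine (Fintype.sum_equiv (Fin.consEquiv fun _ => ZMod 2) _ _ fun x => ?_).symm
  simp [Fin.consEquiv, List.ofFn_succ]

private theorem TB_cup (i : ℕ) (w : Word) (η : List (ZMod 2)) (φ : L → ℕ) :
    TB (⟨.cup, i⟩ :: w) η φ = op str ⟨.cup, i⟩ (TB w η φ) := rfl

private theorem TB_cap (i : ℕ) (w : Word) (η : List (ZMod 2)) (φ : L → ℕ) :
    TB (⟨.cap, i⟩ :: w) η φ = op str ⟨.cap, i⟩ (TB w η φ) := rfl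

private theorem TB_pos (i : ℕ) (w : Word) (h : ZMod 2) (η : List (ZMod 2)) (φ : L → ℕ) :
    TB (⟨.pos, i⟩ :: w) (h :: η) φ = bop ⟨.pos, i⟩ h (TB w η φ) := rfl

private theorem TB_neg (i : ℕ) (w : Word) (h : ZMod 2) (η : List (ZMod 2)) (φ : L → ℕ) :
    TB (⟨.neg, i⟩ :: w) (h :: η) φ = bop ⟨.neg, i⟩ h (TB w η φ) := rfl

private theorem cr_cup (i : ℕ) (w : Word) : cr (⟨.cup, i⟩ :: w) = cr w := by
  simp [cr, isCr, List.countP_cons]

private theorem cr_cap (i : ℕ) (w : Word) : cr (⟨.cap, i⟩ :: w) = cr w := by
  simp [cr, isCr, List.countP_cons]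

private theorem cr_pos (i : ℕ) (w : Word) : cr (⟨.pos, i⟩ :: w) = cr w + 1 := by
  simp [cr, isCr, List.countP_cons]

private theorem cr_neg (i : ℕ) (w : Word) : cr (⟨.neg, i⟩ :: w) = cr w + 1 := by
  simp [cr, isCr, List.countP_cons]

theorem tb_sum {w : Word} {n m : ℕ} (h : Ok n w m) (φ : L → ℕ) (l : L) (hl : l.length = n) (c : ℕ)
    (hc : cr w = c) :
    T str (resA w) φ l = ∑ η : Fin c → ZMod 2, TB w (List.ofFn η) φ l := by
  subst hc
  induction w generalizing n l with
  | nil =>
    have e : ∀ η : Fin (cr []) → ZMod 2, TB [] (List.ofFn η) φ l = φ l := fun η => rfl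
    rw [Finset.sum_congr rfl fun η _ => e η]
    have : cr [] = 0 := rfl
    simp [this, resA, T]
  | cons g w ih =>
    obtain ⟨h1, h2⟩ := h
    rcases g with ⟨k, i⟩
    simp only at h1 h2
    cases k with
    | cup =>
      rw [cr_cup]
      simp only [TB_cup]
      show op str ⟨.cup, i⟩ (T str (resA w) φ) l = _
      rw [op_congr str .cup i (ψ := ∑ η : Fin (cr w) → ZMod 2, TB w (List.ofFn η) φ) l
        (by omega) (fun s hs => by
          rw [ih h2 s (by omega), Finset.sum_apply])]
      rw [map_sum, Finset.sum_apply]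
    | cap =>
      rw [cr_cap]
      simp only [TB_cap]
      show op str ⟨.cap, i⟩ (T str (resA w) φ) l = _
      rw [op_congr str .cap i (ψ := ∑ η : Fin (cr w) → ZMod 2, TB w (List.ofFn η) φ) l
        (by omega) (fun s hs => by
          rw [ih h2 s (by omega), Finset.sum_apply])]
      rw [map_sum, Finset.sum_apply]
    | pos =>
      rw [cr_pos, sum_fin fun x => TB (⟨.pos, i⟩ :: w) x φ l]
      simp only [TB_pos]
      have e : ∀ h : ZMod 2, ∑ η : Fin (cr w) → ZMod 2, bop ⟨.pos, i⟩ h (TB w (List.ofFn η) φ) l =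
          bop ⟨.pos, i⟩ h (∑ η : Fin (cr w) → ZMod 2, TB w (List.ofFn η) φ) l := by
        intro h
        rw [map_sum, Finset.sum_apply]
      rw [Finset.sum_congr rfl fun h _ => e h]
      simp only [Kind.inp, Kind.out] at h1 h2
      rw [sum_pos i _ l (by omega), Finset.sum_apply]
      exact ih h2 l (by omega)
    | neg =>
      rw [cr_neg, sum_fin fun x => TB (⟨.neg, i⟩ :: w) x φ l]
      simp only [TB_neg]
      have e : ∀ h : ZMod 2, ∑ η : Fin (cr w) → ZMod 2, bop ⟨.neg, i⟩ h (TB w (List.ofFn η) φ) l =
          bop ⟨.neg, i⟩ h (∑ η : Fin (cr w) → ZMod 2, TB w (List.ofFn η) φ) l := by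
        intro h
        rw [map_sum, Finset.sum_apply]
      rw [Finset.sum_congr rfl fun h _ => e h]
      simp only [Kind.inp, Kind.out] at h1 h2
      rw [sum_neg i _ l (by omega)]
      show op str ⟨.cap, i⟩ (op str ⟨.cup, i⟩ (T str (resA w) φ)) l = _
      refine op_congr str .cap i l (by simp only [Kind.inp]; omega) fun s hs => ?_
      simp only [Kind.inp, Kind.out] at hs
      refine op_congr str .cup i s (by simp only [Kind.inp]; omega) fun t ht => ?_
      simp only [Kind.inp, Kind.out] at ht
      rw [ih h2 t (by omega), Finset.sum_apply]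

private theorem idh_zero : idh 0 = cst.X := by
  funext a b c d
  revert a b c d
  unfold idh cst
  decide

private theorem eh_zero : eh 0 = cst.Y := by
  funext a b c d
  revert a b c d
  unfold eh cst
  decide

private theorem bop_cst (g : Gen) : bop g 0 = op cst g := by
  rcases g with ⟨k, i⟩
  unfold bop op
  cases k with
  | cup => rfl
  | cap => rfl
  | pos =>
    show sh^[i] (crOp (idh 0)) = sh^[i] (crOp cst.X)
    rw [idh_zero]
  | neg =>
    show sh^[i] (crOp (eh 0)) = sh^[i] (crOp cst.Y)
    rw [eh_zero]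

theorem tb_zero (w : Word) (φ : L → ℕ) :
    TB w (List.replicate (cr w) 0) φ = T cst w φ := by
  induction w with
  | nil => rfl
  | cons g w ih =>
    rcases g with ⟨k, i⟩
    cases k with
    | cup =>
      rw [cr_cup, TB_cup, ih]
      rfl
    | cap =>
      rw [cr_cap, TB_cap, ih]
      rfl
    | pos =>
      rw [cr_pos, List.replicate_succ, TB_pos, ih, bop_cst]
      rfl
    | neg =>
      rw [cr_neg, List.replicate_succ, TB_neg, ih, bop_cst]
      rfl

private def Q (φ₁ φ₂ φ₀ : L → ℕ) : Prop :=
  ∀ s r : L, s.length = r.length → φ₁ s * φ₂ (List.zipWith (· + ·) s r) = φ₁ s * φ₀ r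

private theorem Q_base (h : ZMod 2) (k : Kind) {φ₁ φ₂ φ₀ : L → ℕ} (hQ : Q φ₁ φ₂ φ₀) :
    Q (bbase h k φ₁) (bbase h k φ₂) (bbase 0 k φ₀) := by
  intro s r hsr
  cases k with
  | cup =>
    simp only [bbase, cup_apply]
    rw [Finset.sum_mul, Finset.sum_mul]
    refine Finset.sum_congr rfl fun a _ => ?_
    rw [Finset.mul_sum, Finset.mul_sum]
    refine (Fintype.sum_equiv (Equiv.addLeft a) _ _ fun b => ?_).symm
    exact (hQ (a :: a :: s) (b :: b :: r) (by simp [hsr])).symm
  | cap =>
    rcases s with _ | ⟨a, _ | ⟨b, s⟩⟩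
    · have : bbase h .cap φ₁ [] = 0 := rfl
      rw [this, zero_mul, zero_mul]
    · have : bbase h .cap φ₁ [a] = 0 := rfl
      rw [this, zero_mul, zero_mul]
    · rcases r with _ | ⟨c, _ | ⟨d, r⟩⟩
      · simp at hsr
      · simp at hsr
      · simp only [bbase, cap_apply, List.zipWith_cons_cons]
        have hl : s.length = r.length := by simpa using hsr
        by_cases h1 : a = b
        · subst h1
          by_cases h2 : c = d
          · subst h2
            simp only [if_true]
            exact hQ s r hl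
          · have h3 : ¬ a + c = a + d := fun e => h2 (add_left_cancel e)
            simp [h2]
        · simp [h1]
  | pos =>
    rcases s with _ | ⟨a, _ | ⟨b, s⟩⟩
    · have : bbase h .pos φ₁ [] = 0 := rfl
      rw [this, zero_mul, zero_mul]
    · have : bbase h .pos φ₁ [a] = 0 := rfl
      rw [this, zero_mul, zero_mul]
    · rcases r with _ | ⟨c, _ | ⟨d, r⟩⟩
      · simp at hsr
      · simp at hsr
      · simp only [bbase, idh_apply, List.zipWith_cons_cons]
        by_cases h1 : a + b = h
        · by_cases h2 : c + d = 0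
          · have h3 : a + c + (b + d) = h := by
              rw [add_add_add_comm, h1, h2, add_zero]
            simp only [h1, h2, h3, if_true]
            exact hQ (a :: b :: s) (c :: d :: r) hsr
          · have h3 : ¬ a + c + (b + d) = h := by
              intro e
              rw [add_add_add_comm, h1] at e
              exact h2 (add_eq_left.mp e)
            simp [h2, h3]
        · simp [h1]
  | neg =>
    rcases s with _ | ⟨a, _ | ⟨b, s⟩⟩
    · have : bbase h .neg φ₁ [] = 0 := rfl
      rw [this, zero_mul, zero_mul]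
    · have : bbase h .neg φ₁ [a] = 0 := rfl
      rw [this, zero_mul, zero_mul]
    · rcases r with _ | ⟨c, _ | ⟨d, r⟩⟩
      · simp at hsr
      · simp at hsr
      · simp only [bbase, eh_apply, List.zipWith_cons_cons]
        by_cases h1 : a = b
        · subst h1
          by_cases h2 : c = d
          · subst h2
            simp only [if_true, add_zero]
            have := hQ ((a + h) :: (a + h) :: s) (c :: c :: r) (by simpa using hsr)
            simp only [List.zipWith_cons_cons] at this
            rw [show a + c + h = a + h + c by ring]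
            exact this
          · have h3 : ¬ a + c = a + d := fun e => h2 (add_left_cancel e)
            simp [h2]
        · simp [h1]

private theorem Q_bop (g : Gen) (h : ZMod 2) {φ₁ φ₂ φ₀ : L → ℕ} (hQ : Q φ₁ φ₂ φ₀) :
    Q (bop g h φ₁) (bop g h φ₂) (bop g 0 φ₀) := by
  rcases g with ⟨k, i⟩
  induction i generalizing φ₁ φ₂ φ₀ with
  | zero => exact Q_base h k hQ
  | succ i ih =>
    intro s r hsr
    rcases s with _ | ⟨a, s⟩
    · have : bop ⟨k, i + 1⟩ h φ₁ [] = 0 := by
        rw [bop_succ]
        rfl
      rw [this, zero_mul, zero_mul]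
    · rcases r with _ | ⟨c, r⟩
      · simp at hsr
      · rw [List.zipWith_cons_cons, bop_succ_apply, bop_succ_apply, bop_succ_apply]
        refine ih (φ₁ := fun s => φ₁ (a :: s)) (φ₂ := fun s => φ₂ ((a + c) :: s))
          (φ₀ := fun s => φ₀ (c :: s)) ?_ s r (by simpa using hsr)
        intro s' r' hsr'
        exact hQ (a :: s') (c :: r') (by simp [hsr'])

private theorem Q_TB (w : Word) (η : List (ZMod 2)) {φ₁ φ₂ φ₀ : L → ℕ} (hQ : Q φ₁ φ₂ φ₀) :
    Q (TB w η φ₁) (TB w η φ₂) (T cst w φ₀) := by
  induction w generalizing η with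
  | nil => exact hQ
  | cons g w ih =>
    rcases g with ⟨k, i⟩
    cases k with
    | cup =>
      have := Q_bop ⟨.cup, i⟩ 0 (ih η)
      rw [bop_cst ⟨.cup, i⟩] at this
      exact this
    | cap =>
      have := Q_bop ⟨.cap, i⟩ 0 (ih η)
      rw [bop_cst ⟨.cap, i⟩] at this
      exact this
    | pos =>
      rcases η with _ | ⟨h, η⟩
      · intro s r _
        have : TB (⟨.pos, i⟩ :: w) [] φ₁ s = 0 := rfl
        rw [this, zero_mul, zero_mul]
      · have := Q_bop ⟨.pos, i⟩ h (ih η)
        rw [bop_cst ⟨.pos, i⟩] at this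
        exact this
    | neg =>
      rcases η with _ | ⟨h, η⟩
      · intro s r _
        have : TB (⟨.neg, i⟩ :: w) [] φ₁ s = 0 := rfl
        rw [this, zero_mul, zero_mul]
      · have := Q_bop ⟨.neg, i⟩ h (ih η)
        rw [bop_cst ⟨.neg, i⟩] at this
        exact this

private theorem Q_dl : Q dl dl dl := by
  intro s r hsr
  rcases s with _ | ⟨a, s⟩
  · rcases r with _ | ⟨c, r⟩
    · rfl
    · simp at hsr
  · have : (dl : L → ℕ) (a :: s) = 0 := by simp [dl]
    rw [this, zero_mul, zero_mul]

theorem tb_sq (w : Word) (h : Ok 0 w 0) (η : List (ZMod 2)) :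
    TB w η dl [] * TB w η dl [] = TB w η dl [] * val cst w :=
  Q_TB w η Q_dl [] [] rfl

/-- all differences zero is one of the terms of the sum -/
theorem cst_le_res {w : Word} (h : Ok 0 w 0) : val cst w ≤ val str (resA w) := by
  unfold val
  rw [tb_sum h dl [] rfl (cr w) rfl, ← tb_zero]
  have := Finset.single_le_sum (f := fun η : Fin (cr w) → ZMod 2 => TB w (List.ofFn η) dl [])
    (fun _ _ => Nat.zero_le _) (Finset.mem_univ fun _ => 0)
  simpa using this

theorem res_le {w : Word} (h : Ok 0 w 0) : val str (resA w) ≤ 2 ^ cr w * val cst w := by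
  have h1 : ∀ η : List (ZMod 2), TB w η dl [] ≤ val cst w := by
    intro η
    have := tb_sq w h η
    rcases Nat.eq_zero_or_pos (TB w η dl []) with h0 | h0
    · rw [h0]
      exact Nat.zero_le _
    · exact (Nat.eq_of_mul_eq_mul_left h0 this).le
  unfold val at h1 ⊢
  rw [tb_sum h dl [] rfl (cr w) rfl]
  calc ∑ η : Fin (cr w) → ZMod 2, TB w (List.ofFn η) dl []
      ≤ ∑ _η : Fin (cr w) → ZMod 2, T cst w dl [] := Finset.sum_le_sum fun η _ => h1 _
    _ = 2 ^ cr w * T cst w dl [] := by simp [ZMod.card]

private theorem op_mono (k : Kind) (i : ℕ) {φ ψ : L → ℕ} (h : ∀ s, φ s ≤ ψ s) (s : L) :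
    op cst ⟨k, i⟩ φ s ≤ op str ⟨k, i⟩ ψ s := by
  induction i generalizing φ ψ s with
  | zero =>
    rw [op_zero, op_zero]
    cases k with
    | cup =>
      show cupOp cst.cu φ s ≤ cupOp str.cu ψ s
      rw [cupOp_apply, cupOp_apply]
      exact Finset.sum_le_sum fun a _ => Finset.sum_le_sum fun b _ =>
        Nat.mul_le_mul (le_refl (str.cu a b)) (h _)
    | cap =>
      rcases s with _ | ⟨a, _ | ⟨b, s⟩⟩
      · exact le_rfl
      · exact le_rfl
      · show capOp cst.ca φ _ ≤ capOp str.ca ψ _
        rw [capOp_apply, capOp_apply]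
        exact Nat.mul_le_mul (le_refl (str.ca a b)) (h _)
    | pos =>
      rcases s with _ | ⟨a, _ | ⟨b, s⟩⟩
      · exact le_rfl
      · exact le_rfl
      · show crOp cst.X φ _ ≤ crOp str.X ψ _
        rw [crOp_apply, crOp_apply]
        refine Finset.sum_le_sum fun c _ => Finset.sum_le_sum fun d _ => Nat.mul_le_mul ?_ (h _)
        revert a b c d
        unfold cst str
        decide
    | neg =>
      rcases s with _ | ⟨a, _ | ⟨b, s⟩⟩
      · exact le_rfl
      · exact le_rfl
      · show crOp cst.Y φ _ ≤ crOp str.Y ψ _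
        rw [crOp_apply, crOp_apply]
        refine Finset.sum_le_sum fun c _ => Finset.sum_le_sum fun d _ => Nat.mul_le_mul ?_ (h _)
        revert a b c d
        unfold cst str
        decide
  | succ i ih =>
    rcases s with _ | ⟨a, s⟩
    · rw [op_succ, op_succ]
      exact le_rfl
    · rw [op_succ_apply, op_succ_apply]
      exact ih (fun s => h _) s

/-- on each crossing the weight of `cst` is at most the weight of `str` -/
theorem cst_le_str {w : Word} : val cst w ≤ val str w := by
  have h : ∀ (w : Word) (s : L), T cst w dl s ≤ T str w dl s := by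
    intro w
    induction w with
    | nil => intro s; exact le_rfl
    | cons g w ih =>
      intro s
      exact op_mono g.kind g.idx ih s
  exact h w []

theorem cst_mir (w : Word) : val cst (mir w) = val cst w := by
  have h : ∀ w : Word, T cst (mir w) = T cst w := by
    intro w
    induction w with
    | nil => rfl
    | cons g w ih =>
      have e : op cst ⟨g.kind.mir, g.idx⟩ = op cst g := by
        rcases g with ⟨k, i⟩
        cases k <;> rfl
      show (op cst ⟨g.kind.mir, g.idx⟩).comp (T cst (mir w)) = (op cst g).comp (T cst w)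
      rw [ih, e]
  unfold val
  rw [h]

end Pool.Agent.KCS
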