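import Pool.Agent.KCS.RHO

/-!
# KCS / TRA: the top coefficients of the trace

Conjugate by `diag (1, A ^ (-2))`: with `u = A ^ (-4)` the letter `false` (`σ₁⁻¹`) becomes `-A ^ 3 * !![1, -u; 0, -u]`, the letter
`true` (`σ₂`) becomes `A * !![1, 0; 1, -u]`. So the trace is `(-1) ^ Q * A ^ (P + 3 Q) * τ(u)`, `τ` the trace of the product of the
matrices `!![1, -u; 0, -u]`, `!![1, 0; 1, -u]`, an integer polynomial in `u`. Modulo `u` these are `!![1, 0; 0, 0]`,
`!![1, 0; 1, 0]` and all their products have the form `!![1, 0; c, 0]` with `c = 1` if the first letter is `true` and `0`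
otherwise; so `τ(0) = 1`, and the coefficient of `u` is the sum over the letters (cyclically) of the trace of the
`u`-part of the letter times the product of the others: `-1` for a letter `false` which is followed (cyclically) by
`true` and `0` else. If both letters occur this number `n` is at least one.
-/

namespace Pool.Agent.KCS

/-- the normalised letters -/
private noncomputable def traX (u : ℝ) (b : Bool) : Matrix (Fin 2) (Fin 2) ℝ :=
  if b then !![1, 0; 1, -u] else !![1, -u; 0, -u]

private noncomputable def traN (u : ℝ) (v : List Bool) : Matrix (Fin 2) (Fin 2) ℝ :=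
  (v.map (traX u)).prod

private theorem traN_cons_true (u : ℝ) (v : List Bool) :
    (traN u (true :: v)) 0 0 = traN u v 0 0 ∧ (traN u (true :: v)) 0 1 = traN u v 0 1 ∧
    (traN u (true :: v)) 1 0 = traN u v 0 0 - u * traN u v 1 0 ∧
    (traN u (true :: v)) 1 1 = traN u v 0 1 - u * traN u v 1 1 := by
  have h : traN u (true :: v) = traX u true * traN u v := by
    simp [traN]
  rw [h]
  refine ⟨?_, ?_, ?_, ?_⟩ <;>
  · simp [traX, Matrix.mul_apply, Fin.sum_univ_two]
    try ring

private theorem traN_cons_false (u : ℝ) (v : List Bool) :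
    (traN u (false :: v)) 0 0 = traN u v 0 0 - u * traN u v 1 0 ∧
    (traN u (false :: v)) 0 1 = traN u v 0 1 - u * traN u v 1 1 ∧
    (traN u (false :: v)) 1 0 = - (u * traN u v 1 0) ∧
    (traN u (false :: v)) 1 1 = - (u * traN u v 1 1) := by
  have h : traN u (false :: v) = traX u false * traN u v := by
    simp [traN]
  rw [h]
  refine ⟨?_, ?_, ?_, ?_⟩ <;>
  · simp [traX, Matrix.mul_apply, Fin.sum_univ_two]
    try ring

private theorem tra_rho {A : ℝ} (hA : 0 < A) (v : List Bool) :
    rho A (gw v) 0 0 = (-1) ^ v.count false * A ^ (v.count true + 3 * v.count false) *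
      traN ((A⁻¹) ^ 4) v 0 0 ∧
    rho A (gw v) 0 1 = (-1) ^ v.count false * A ^ (v.count true + 3 * v.count false) *
      (A ^ 2 * traN ((A⁻¹) ^ 4) v 0 1) ∧
    rho A (gw v) 1 0 = (-1) ^ v.count false * A ^ (v.count true + 3 * v.count false) *
      ((A⁻¹) ^ 2 * traN ((A⁻¹) ^ 4) v 1 0) ∧
    rho A (gw v) 1 1 = (-1) ^ v.count false * A ^ (v.count true + 3 * v.count false) *
      traN ((A⁻¹) ^ 4) v 1 1 := by
  have hA0 : A ≠ 0 := hA.ne'
  induction v with
  | nil => simp [rho, gw, traN]
  | cons b v ih =>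
    obtain ⟨i1, i2, i3, i4⟩ := ih
    cases b
    · have h : rho A (gw (false :: v)) = rl A (false, false) * rho A (gw v) := by
        simp [rho, gw]
      obtain ⟨j1, j2, j3, j4⟩ := traN_cons_false ((A⁻¹) ^ 4) v
      have e1 : (false :: v).count false = v.count false + 1 := by simp
      have e2 : (false :: v).count true = v.count true := by simp
      rw [h, e1, e2, j1, j2, j3, j4]
      refine ⟨?_, ?_, ?_, ?_⟩ <;>
      · simp only [rl, Matrix.mul_apply, Fin.sum_univ_two, Matrix.cons_val', Matrix.cons_val_zero,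
          Matrix.cons_val_one, Matrix.of_apply, Matrix.cons_val_fin_one, i1, i2, i3, i4]
        field_simp
        try ring
    · have h : rho A (gw (true :: v)) = rl A (true, true) * rho A (gw v) := by
        simp [rho, gw]
      obtain ⟨j1, j2, j3, j4⟩ := traN_cons_true ((A⁻¹) ^ 4) v
      have e1 : (true :: v).count false = v.count false := by simp
      have e2 : (true :: v).count true = v.count true + 1 := by simp
      rw [h, e1, e2, j1, j2, j3, j4]
      refine ⟨?_, ?_, ?_, ?_⟩ <;>
      · simp only [rl, Matrix.mul_apply, Fin.sum_univ_two, Matrix.cons_val', Matrix.cons_val_zero,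
          Matrix.cons_val_one, Matrix.of_apply, Matrix.cons_val_fin_one, i1, i2, i3, i4]
        field_simp
        try ring

private theorem tra_aux {u x y c₀ g a C D : ℝ} (hu : 0 ≤ u) (hu1 : u ≤ 1)
    (hx : |x - (a : ℝ)| ≤ C * u ^ 2) (hy : |y - (c₀ - g * u)| ≤ C * u ^ 2) (hg : 0 ≤ g)
    (hC : 0 ≤ C) (hD : 2 * C + g ≤ D) :
    |(x - u * y) - (a - c₀ * u)| ≤ D * u ^ 2 := by
  have hu2 : 0 ≤ u ^ 2 := by positivity
  have h1 : (x - u * y) - (a - c₀ * u) = (x - a) - u * (y - (c₀ - g * u)) + g * u ^ 2 := by ring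
  rw [h1]
  have h2 : |u * (y - (c₀ - g * u))| ≤ C * u ^ 2 := by
    rw [abs_mul, abs_of_nonneg hu]
    have : 0 ≤ |y - (c₀ - g * u)| := abs_nonneg _
    nlinarith
  have h3 : |g * u ^ 2| = g * u ^ 2 := abs_of_nonneg (by positivity)
  calc _ ≤ |(x - a) - u * (y - (c₀ - g * u))| + |g * u ^ 2| := abs_add_le _ _
    _ ≤ (|x - a| + |u * (y - (c₀ - g * u))|) + |g * u ^ 2| := by
        gcongr
        exact abs_sub _ _
    _ ≤ D * u ^ 2 := by
        rw [h3]
        nlinarith

private theorem tra_aux' {u y c₀ g C D : ℝ} (hu : 0 ≤ u) (hu1 : u ≤ 1)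
    (hy : |y - (c₀ - g * u)| ≤ C * u ^ 2) (hg : 0 ≤ g)
    (hC : 0 ≤ C) (hD : 2 * C + g ≤ D) :
    |-(u * y) - (0 - c₀ * u)| ≤ D * u ^ 2 := by
  have h := tra_aux (x := 0) (a := 0) hu hu1 (by simp; positivity) hy hg hC hD
  have e : -(u * y) - (0 - c₀ * u) = (0 - u * y) - (0 - c₀ * u) := by ring
  rw [e]
  exact h

/-- first order expansion of the product of the normalised letters -/
private theorem tra_expand (v : List Bool) (hv : v ≠ []) :
    ∃ α β c₀ γ δ : ℕ, ∃ C : ℝ, 0 ≤ C ∧
      (∀ u : ℝ, 0 ≤ u → u ≤ 1 →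
        |traN u v 0 0 - (1 - α * u)| ≤ C * u ^ 2 ∧
        |traN u v 0 1 - (0 - β * u)| ≤ C * u ^ 2 ∧
        |traN u v 1 0 - (c₀ - γ * u)| ≤ C * u ^ 2 ∧
        |traN u v 1 1 - (0 - δ * u)| ≤ C * u ^ 2) ∧
      (true ∈ v → 1 ≤ α ∨ c₀ = 1) ∧ (false ∈ v → 1 ≤ α ∨ β = 1) ∧
      (true ∈ v → false ∈ v → 1 ≤ α + δ) := by
  induction v with
  | nil => exact absurd rfl hv
  | cons b v ih =>
    rcases eq_or_ne v [] with h0 | h0
    · subst h0
      cases b
      · refine ⟨0, 1, 0, 0, 1, 0, le_rfl, fun u _ _ => ?_, ?_, ?_, ?_⟩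
        · simp [traN, traX]
        · simp
        · simp
        · simp
      · refine ⟨0, 0, 1, 0, 1, 0, le_rfl, fun u _ _ => ?_, ?_, ?_, ?_⟩
        · simp [traN, traX]
        · simp
        · simp
        · simp
    · obtain ⟨α, β, c₀, γ, δ, C, hC, hb, k1, k2, k3⟩ := ih h0
      cases b
      · refine ⟨α + c₀, β, 0, c₀, 0, 2 * C + γ + δ, by positivity, fun u hu hu1 => ?_, ?_, ?_, ?_⟩
        · obtain ⟨b1, b2, b3, b4⟩ := hb u hu hu1
          obtain ⟨j1, j2, j3, j4⟩ := traN_cons_false u v
          rw [j1, j2, j3, j4]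
          have hγ : (0 : ℝ) ≤ γ := by positivity
          have hδ : (0 : ℝ) ≤ δ := by positivity
          refine ⟨?_, ?_, ?_, ?_⟩
          · have := tra_aux (D := 2 * C + γ + δ) hu hu1 b1 b3 hγ hC (by linarith)
            convert this using 2
            push_cast
            ring
          · have := tra_aux (D := 2 * C + γ + δ) hu hu1 b2 b4 hδ hC (by linarith)
            convert this using 2
            ring
          · have := tra_aux' (D := 2 * C + γ + δ) hu hu1 b3 hγ hC (by linarith)
            convert this using 2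
            push_cast
            ring
          · have := tra_aux' (D := 2 * C + γ + δ) hu hu1 b4 hδ hC (by linarith)
            convert this using 2
            push_cast
            ring
        · intro h
          have h' : true ∈ v := by simpa using h
          rcases k1 h' with h1 | h1 <;> left <;> omega
        · intro _
          by_cases h1 : false ∈ v
          · rcases k2 h1 with h2 | h2
            · left; omega
            · right; exact h2
          · have h2 : true ∈ v := by
              obtain ⟨x, hx⟩ := List.exists_mem_of_ne_nil v h0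
              cases x
              · exact absurd hx h1
              · exact hx
            rcases k1 h2 with h3 | h3 <;> left <;> omega
        · intro h _
          have h' : true ∈ v := by simpa using h
          rcases k1 h' with h1 | h1 <;> omega
      · refine ⟨α, β, 1, α + c₀, β, 2 * C + γ + δ, by positivity, fun u hu hu1 => ?_, ?_, ?_, ?_⟩
        · obtain ⟨b1, b2, b3, b4⟩ := hb u hu hu1
          obtain ⟨j1, j2, j3, j4⟩ := traN_cons_true u v
          rw [j1, j2, j3, j4]
          have hγ : (0 : ℝ) ≤ γ := by positivity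
          have hδ : (0 : ℝ) ≤ δ := by positivity
          have hu2 : 0 ≤ u ^ 2 := by positivity
          refine ⟨?_, ?_, ?_, ?_⟩
          · refine b1.trans ?_
            nlinarith
          · refine b2.trans ?_
            nlinarith
          · have := tra_aux (D := 2 * C + γ + δ) hu hu1 b1 b3 hγ hC (by linarith)
            convert this using 2
            push_cast
            ring
          · have := tra_aux (D := 2 * C + γ + δ) hu hu1 b2 b4 hδ hC (by linarith)
            convert this using 2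
            ring
        · intro _
          right; rfl
        · intro h
          have h' : false ∈ v := by simpa using h
          exact k2 h'
        · intro _ h
          have h' : false ∈ v := by simpa using h
          rcases k2 h' with h1 | h1 <;> omega

theorem trace_gw (v : List Bool) (h1 : true ∈ v) (h2 : false ∈ v) :
    ∃ n : ℝ, 1 ≤ n ∧ ∃ C : ℝ, 0 ≤ C ∧ ∀ A : ℝ, 1 ≤ A →
      |(rho A (gw v)).trace - (-1) ^ v.count false *
          A ^ ((v.count true + 3 * v.count false : ℕ) : ℤ) * (1 - n * A ^ (-4 : ℤ))| ≤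
        C * A ^ (((v.count true + 3 * v.count false : ℕ) : ℤ) - 8) := by
  have hv : v ≠ [] := List.ne_nil_of_mem h1
  obtain ⟨α, β, c₀, γ, δ, C, hC, hb, -, -, k3⟩ := tra_expand v hv
  refine ⟨((α + δ : ℕ) : ℝ), by exact_mod_cast k3 h1 h2, 2 * C, by positivity, fun A hA => ?_⟩
  have hA0 : 0 < A := by linarith
  obtain ⟨r1, -, -, r4⟩ := tra_rho hA0 v
  set k : ℕ := v.count true + 3 * v.count false with hk
  set s : ℝ := (-1) ^ v.count false with hs
  have hs1 : |s| = 1 := by rw [hs, abs_pow, abs_neg, abs_one, one_pow]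
  have hu0 : 0 ≤ (A⁻¹) ^ 4 := by positivity
  have hu1 : (A⁻¹) ^ 4 ≤ 1 := by
    refine pow_le_one₀ (by positivity) ?_
    exact inv_le_one_of_one_le₀ hA
  obtain ⟨b1, -, -, b4⟩ := hb ((A⁻¹) ^ 4) hu0 hu1
  have e1 : A ^ (-4 : ℤ) = (A⁻¹) ^ 4 := by
    rw [zpow_neg, inv_pow]
    norm_cast
  have e2 : A ^ (((k : ℕ) : ℤ) - 8) = A ^ k * ((A⁻¹) ^ 4) ^ 2 := by
    rw [zpow_sub₀ hA0.ne', zpow_natCast, div_eq_mul_inv]
    congr 1
    rw [← pow_mul, inv_pow]
    norm_cast
  rw [Matrix.trace_fin_two, r1, r4, zpow_natCast, e1, e2]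
  have e3 : s * A ^ k * traN ((A⁻¹) ^ 4) v 0 0 + s * A ^ k * traN ((A⁻¹) ^ 4) v 1 1 -
      s * A ^ k * (1 - ((α + δ : ℕ) : ℝ) * (A⁻¹) ^ 4) =
      s * (A ^ k * ((traN ((A⁻¹) ^ 4) v 0 0 - (1 - α * (A⁻¹) ^ 4)) +
        (traN ((A⁻¹) ^ 4) v 1 1 - (0 - δ * (A⁻¹) ^ 4)))) := by
    push_cast
    ring
  rw [e3, abs_mul, hs1, one_mul, abs_mul, abs_of_pos (by positivity : (0:ℝ) < A ^ k)]
  have hAk : 0 < A ^ k := by positivity
  have h5 := abs_add_le (traN ((A⁻¹) ^ 4) v 0 0 - (1 - α * (A⁻¹) ^ 4))
    (traN ((A⁻¹) ^ 4) v 1 1 - (0 - δ * (A⁻¹) ^ 4))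
  calc _ ≤ A ^ k * (C * ((A⁻¹) ^ 4) ^ 2 + C * ((A⁻¹) ^ 4) ^ 2) := by
        gcongr
        linarith
    _ = 2 * C * (A ^ k * ((A⁻¹) ^ 4) ^ 2) := by ring

private theorem tra_count_not (v : List Bool) :
    (v.map not).count true = v.count false ∧ (v.map not).count false = v.count true := by
  induction v with
  | nil => simp
  | cons b v ih => cases b <;> simp [ih.1, ih.2]

/-- the mirror image: by `ml_gw` and `trace_fl` -/
theorem trace_ml_gw (v : List Bool) (h1 : true ∈ v) (h2 : false ∈ v) :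
    ∃ n : ℝ, 1 ≤ n ∧ ∃ C : ℝ, 0 ≤ C ∧ ∀ A : ℝ, 1 ≤ A →
      |(rho A (ml (gw v))).trace - (-1) ^ v.count true *
          A ^ ((v.count false + 3 * v.count true : ℕ) : ℤ) * (1 - n * A ^ (-4 : ℤ))| ≤
        C * A ^ (((v.count false + 3 * v.count true : ℕ) : ℤ) - 8) := by
  obtain ⟨n, hn, C, hC, h⟩ := trace_gw (v.map not) (List.mem_map.2 ⟨false, h2, rfl⟩)
    (List.mem_map.2 ⟨true, h1, rfl⟩)
  refine ⟨n, hn, C, hC, fun A hA => ?_⟩
  have h3 := h A hA
  rw [(tra_count_not v).1, (tra_count_not v).2] at h3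
  rw [ml_gw, trace_fl]
  exact h3

end Pool.Agent.KCS
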