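import Pool.Agent.KCS.TL3
import Pool.Agent.KCS.TRA

/-!
# KCS / GRO: growth for the generic closed 3-braids

`H (cl3 (bw l)) A = dlt A ^ 2 * |κ κ'|` with `κ = (A ^ 4 + A ^ (-4)) A ^ ex l + trace (rho A l)`, `κ'` the same for `ml l` (`mir_cl3`).
For `l = cw m ++ gw v`, `m ≥ 0`, `P = count true`, `Q = count false`, `u = A ^ (-4)`, `τ = 1 - n u + O(u ^ 2)`:
`κ = A ^ (6 m + P - Q + 4) (1 + u ^ 2) + (-1) ^ Q A ^ (P + 3 Q - 6 m) τ`, the difference of the exponents is `4 (Q - 3 m - 1)`;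
`κ' = A ^ (-6 m - P + Q + 4) (1 + u ^ 2) + (-1) ^ P A ^ (Q + 3 P + 6 m) τ'`, difference `4 (3 m + P - 1) ≥ 0`.
If the exponents differ the larger one gives the growth; if they are equal and the signs are opposite, the terms
cancel and `n u` gives the growth with the exponent smaller by `4`.
`|κ| ≥ ε A ^ E`, `|κ'| ≥ ε A ^ E'` with `E + E' ≥ 2 U`, `U = 6 m + P + Q - 2 min (2 m, Q)`:
* `m = 0`: `E = P + 3 Q` (if `Q ≥ 2`), `E = P - 1` (if `Q = 1`); `E' = Q + 3 P` (if `P ≥ 2`), `Q - 1` (if `P = 1`); `U = P + Q`;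
  `(P, Q) = (1, 1)` is excluded;
* `m ≥ 1`: `E' = Q + 3 P + 6 m`; `Q ≤ 3 m`: `E = 6 m + P - Q + 4`; `Q = 3 m + 1`: `E ≥ 6 m + P - Q`; `Q ≥ 3 m + 2`:
  `E = P + 3 Q - 6 m`.
-/

namespace Pool.Agent.KCS

/-- the growth of a sum of two powers with a second term -/
private theorem gro_growth (f : ℝ → ℝ) (E1 E2 : ℤ) (s : ℝ) (hs : s = 1 ∨ s = -1) (n C : ℝ)
    (hn : 1 ≤ n) (hC : 0 ≤ C)
    (h : ∀ A : ℝ, 1 ≤ A → |f A - A ^ E1 * (1 + A ^ (-8 : ℤ)) - s * A ^ E2 * (1 - n * A ^ (-4 : ℤ))| ≤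
      C * A ^ (E2 - 8)) :
    ∃ ε : ℝ, 0 < ε ∧ ∃ A₀ : ℝ, 1 ≤ A₀ ∧ ∀ A : ℝ, A₀ ≤ A →
      ε * A ^ (if E1 = E2 then E1 - 4 else max E1 E2) ≤ |f A| := by
  refine ⟨1 / 2, by norm_num, 2 * (n + C + 2), by linarith, ?_⟩
  intro A hA
  have hA1 : 1 ≤ A := by linarith
  have hA0 : 0 < A := by linarith
  have h1 := h A hA1
  set p := A ^ E1 with hp
  set q := A ^ E2 with hq
  set u := A ^ (-8 : ℤ) with hu
  set w := A ^ (-4 : ℤ) with hw
  have hp0 : 0 < p := zpow_pos hA0 _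
  have hq0 : 0 < q := zpow_pos hA0 _
  have hu0 : 0 < u := zpow_pos hA0 _
  have hw0 : 0 < w := zpow_pos hA0 _
  have hwA : w * A ≤ 1 := by
    have : w * A = A ^ (-3 : ℤ) := by
      rw [hw, ← zpow_add_one₀ hA0.ne']
      norm_num
    rw [this]
    exact zpow_le_one_of_nonpos₀ hA1 (by norm_num)
  have huw : u = w * w := by
    rw [hu, hw, ← zpow_add₀ hA0.ne']
    norm_num
  have hw1 : w ≤ 1 := by nlinarith
  have huA : u * A ≤ 1 := by
    rw [huw]
    nlinarith
  have hu1 : u ≤ 1 := by nlinarith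
  have hquq : A ^ (E2 - 8) = q * u := by
    rw [hq, hu, ← zpow_add₀ hA0.ne']
    congr 1
  rw [hquq] at h1
  have habs : |p * (1 + u) + s * q * (1 - n * w)| - C * (q * u) ≤ |f A| := by
    have h2 : |p * (1 + u) + s * q * (1 - n * w)| ≤ |f A| +
        |f A - p * (1 + u) - s * q * (1 - n * w)| := by
      have h3 : p * (1 + u) + s * q * (1 - n * w) =
          f A - (f A - p * (1 + u) - s * q * (1 - n * w)) := by ring
      rw [h3]
      exact abs_sub _ _
    linarith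
  have hsabs : |s| = 1 := by
    rcases hs with rfl | rfl <;> norm_num
  have hb : |s * q * (1 - n * w)| = q * |1 - n * w| := by
    rw [abs_mul, abs_mul, hsabs, one_mul, abs_of_pos hq0]
  have hnw : n * w * A ≤ n := by nlinarith
  split_ifs with hE
  · -- equal exponents
    have hpq : q = p := by rw [hp, hq, hE]
    have hpw : A ^ (E1 - 4) = p * w := by
      rw [hp, hw, ← zpow_add₀ hA0.ne']
      congr 1
    rw [hpw]
    rw [hpq] at habs
    refine le_trans ?_ habs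
    rcases hs with rfl | rfl
    · have e1 : p * (1 + u) + 1 * p * (1 - n * w) = p * (2 + u - n * w) := by ring
      rw [e1]
      refine le_trans ?_ (sub_le_sub_right (le_abs_self _) _)
      have e2 : C * u ≤ 1 / 2 := by
        have : C * u * A ≤ C := by nlinarith
        by_contra hcon
        push Not at hcon
        nlinarith
      have e3 : n * w ≤ 1 / 2 := by
        by_contra hcon
        push Not at hcon
        nlinarith
      have e4 : 1 / 2 * (p * w) ≤ p * (1 / 2) := by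
        have : p * w ≤ p := mul_le_of_le_one_right hp0.le hw1
        linarith
      have e5 : p * (1 / 2) ≤ p * (2 + u - n * w) - C * (p * u) := by
        have : p * (2 + u - n * w) - C * (p * u) = p * (2 + u - n * w - C * u) := by ring
        rw [this]
        exact mul_le_mul_of_nonneg_left (by linarith) hp0.le
      linarith
    · have e1 : p * (1 + u) + -1 * p * (1 - n * w) = p * (u + n * w) := by ring
      rw [e1]
      refine le_trans ?_ (sub_le_sub_right (le_abs_self _) _)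
      have e2 : C * w ≤ 1 / 2 := by
        have : C * w * A ≤ C := by nlinarith
        by_contra hcon
        push Not at hcon
        nlinarith
      have e3 : p * (u + n * w) - C * (p * u) = p * (u + w * (n - C * w)) := by
        rw [huw]; ring
      rw [e3]
      have e4 : 1 / 2 * (p * w) = p * (w * (1 / 2)) := by ring
      rw [e4]
      refine mul_le_mul_of_nonneg_left ?_ hp0.le
      have e5 : w * (1 / 2) ≤ w * (n - C * w) := mul_le_mul_of_nonneg_left (by linarith) hw0.le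
      linarith
  · rcases lt_or_gt_of_ne hE with hlt | hgt
    · -- the second term is larger
      rw [max_eq_right hlt.le, ← hq]
      have hpA : p * A ≤ q := by
        rw [hp, hq, ← zpow_add_one₀ hA0.ne']
        exact zpow_le_zpow_right₀ hA1 (by omega)
      have h2 : q * |1 - n * w| - p * (1 + u) ≤ |p * (1 + u) + s * q * (1 - n * w)| := by
        rw [← hb]
        have h3 := abs_sub_abs_le_abs_sub (s * q * (1 - n * w)) (-(p * (1 + u)))
        rw [abs_neg, abs_of_nonneg (by positivity : (0:ℝ) ≤ p * (1 + u)), sub_neg_eq_add,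
          add_comm (s * q * (1 - n * w))] at h3
        exact h3
      have h3 : 1 - n * w ≤ |1 - n * w| := le_abs_self _
      have h4 : q * (1 - n * w) ≤ q * |1 - n * w| := mul_le_mul_of_nonneg_left h3 hq0.le
      have h5 : 1 / 2 * q ≤ q * (1 - n * w) - p * (1 + u) - C * (q * u) := by
        have k1 : q * (n * w) * A ≤ q * n := by
          have e1 : q * (n * w) * A = q * (n * w * A) := by ring
          rw [e1]
          exact mul_le_mul_of_nonneg_left hnw hq0.le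
        have k2 : p * (1 + u) ≤ p * 2 := mul_le_mul_of_nonneg_left (by linarith) hp0.le
        have k3 : C * (q * u) * A ≤ q * C := by
          have e1 : C * (q * u) * A = (q * C) * (u * A) := by ring
          rw [e1]
          exact mul_le_of_le_one_right (mul_nonneg hq0.le hC) huA
        have k4 : (q * (n * w) + 2 * p + C * (q * u)) * A ≤ q * (n + C + 2) := by
          have e1 : (q * (n * w) + 2 * p + C * (q * u)) * A =
              q * (n * w) * A + 2 * (p * A) + C * (q * u) * A := by ring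
          have e2 : q * (n + C + 2) = q * n + 2 * q + q * C := by ring
          rw [e1, e2]
          linarith
        have k5 : q * (n + C + 2) ≤ q * (A / 2) :=
          mul_le_mul_of_nonneg_left (by linarith) hq0.le
        have k6 : (q * (n * w) + 2 * p + C * (q * u)) * A ≤ (q / 2) * A := by
          refine k4.trans (k5.trans (le_of_eq ?_))
          ring
        have k7 := le_of_mul_le_mul_right k6 hA0
        have e3 : q * (1 - n * w) = q - q * (n * w) := by ring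
        rw [e3]
        linarith
      linarith
    · rw [max_eq_left hgt.le, ← hp]
      have hqA : q * A ≤ p := by
        rw [hp, hq, ← zpow_add_one₀ hA0.ne']
        exact zpow_le_zpow_right₀ hA1 (by omega)
      have h2 : p * (1 + u) - q * |1 - n * w| ≤ |p * (1 + u) + s * q * (1 - n * w)| := by
        rw [← hb]
        have h3 := abs_sub_abs_le_abs_sub (p * (1 + u)) (-(s * q * (1 - n * w)))
        rw [abs_neg, abs_of_nonneg (by positivity : (0:ℝ) ≤ p * (1 + u)), sub_neg_eq_add] at h3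
        exact h3
      have h3 : |1 - n * w| ≤ 1 + n := by
        rw [abs_le]
        constructor <;> nlinarith
      have h4 : q * |1 - n * w| ≤ q * (1 + n) := mul_le_mul_of_nonneg_left h3 hq0.le
      have h5 : 1 / 2 * p ≤ p * (1 + u) - q * (1 + n) - C * (q * u) := by
        have k1 : C * (q * u) ≤ C * q := by
          have e1 : C * (q * u) = (C * q) * u := by ring
          rw [e1]
          exact mul_le_of_le_one_right (mul_nonneg hC hq0.le) hu1
        have k2 : q * (1 + n + C) ≤ q * (A / 2) :=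
          mul_le_mul_of_nonneg_left (by linarith) hq0.le
        have k3 : p * (1 + u) = p + p * u := by ring
        have k4 : 0 ≤ p * u := by positivity
        have k5 : q * (1 + n + C) = q * (1 + n) + C * q := by ring
        have k6 : q * (A / 2) = q * A / 2 := by ring
        rw [k5, k6] at k2
        rw [k3]
        linarith
      linarith

private theorem gro_final {w : Word} {κ κ' : ℝ → ℝ} {F F' : ℤ} {k : ℕ}
    (hK : ∀ A : ℝ, 1 ≤ A → K w A = dlt A * κ A) (hK' : ∀ A : ℝ, 1 ≤ A → K (mir w) A = dlt A * κ' A)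
    (h : ∃ ε : ℝ, 0 < ε ∧ ∃ A₀ : ℝ, 1 ≤ A₀ ∧ ∀ A : ℝ, A₀ ≤ A → ε * A ^ F ≤ |κ A|)
    (h' : ∃ ε : ℝ, 0 < ε ∧ ∃ A₀ : ℝ, 1 ≤ A₀ ∧ ∀ A : ℝ, A₀ ≤ A → ε * A ^ F' ≤ |κ' A|)
    (hF : (2 * k : ℤ) ≤ F + F') : Gr w k := by
  obtain ⟨ε, hε, A₀, hA₀, h1⟩ := h
  obtain ⟨ε', hε', A₀', hA₀', h2⟩ := h'
  refine ⟨ε * ε', mul_pos hε hε', max A₀ A₀', le_max_of_le_left hA₀, ?_⟩
  intro A hA
  have hA1 : A₀ ≤ A := (le_max_left _ _).trans hA
  have hA2 : A₀' ≤ A := (le_max_right _ _).trans hA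
  have hA3 : 1 ≤ A := hA₀.trans hA1
  have hA0 : 0 < A := by linarith
  have h3 := h1 A hA1
  have h4 := h2 A hA2
  unfold H
  rw [hK A hA3, hK' A hA3, abs_mul, abs_mul, abs_mul]
  have hd : A ^ 2 ≤ |dlt A| := by
    unfold dlt
    rw [abs_of_neg]
    · have : 0 < (A⁻¹) ^ 2 := by positivity
      linarith
    · have : 0 < (A⁻¹) ^ 2 := by positivity
      have : 0 < A ^ 2 := by positivity
      linarith
  have h5 : A ^ (2 * k + 4) ≤ (A ^ 2) * (A ^ 2) * (A ^ F * A ^ F') := by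
    rw [← zpow_add₀ hA0.ne']
    have h6 : (A ^ (2 * k) : ℝ) ≤ A ^ (F + F') := by
      rw [← zpow_natCast]
      exact zpow_le_zpow_right₀ hA3 (by push_cast; exact hF)
    calc A ^ (2 * k + 4) = (A ^ 2) * (A ^ 2) * A ^ (2 * k) := by ring
      _ ≤ _ := mul_le_mul_of_nonneg_left h6 (by positivity)
  have hzF : 0 < A ^ F := zpow_pos hA0 _
  have hzF' : 0 < A ^ F' := zpow_pos hA0 _
  calc ε * ε' * A ^ (2 * k + 4) ≤ ε * ε' * ((A ^ 2) * (A ^ 2) * (A ^ F * A ^ F')) :=
        mul_le_mul_of_nonneg_left h5 (by positivity)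
    _ = (A ^ 2 * (ε * A ^ F)) * (A ^ 2 * (ε' * A ^ F')) := by ring
    _ ≤ (|dlt A| * |κ A|) * (|dlt A| * |κ' A|) := by
        refine mul_le_mul (mul_le_mul hd h3 (by positivity) (abs_nonneg _))
          (mul_le_mul hd h4 (by positivity) (abs_nonneg _)) (by positivity) (by positivity)

private theorem gro_pm (k : ℕ) : ((-1 : ℝ) ^ k = 1) ∨ ((-1 : ℝ) ^ k = -1) :=
  neg_one_pow_eq_or ℝ k

theorem gr_generic (m : ℕ) (v : List Bool) (h1 : true ∈ v) (h2 : false ∈ v)
    (h3 : ¬ (m = 0 ∧ v.count true = 1 ∧ v.count false = 1)) :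
    Gr (cl3 (bw (cw m ++ gw v)))
      (6 * m + v.length - 2 * min (2 * m) (v.count false)) := by
  obtain ⟨n, hn, C, hC, ht⟩ := trace_gw v h1 h2
  obtain ⟨n', hn', C', hC', ht'⟩ := trace_ml_gw v h1 h2
  have hP : 0 < v.count true := List.count_pos_iff.2 h1
  have hQ : 0 < v.count false := List.count_pos_iff.2 h2
  have hlen : v.count true + v.count false = v.length := List.count_true_add_count_false v
  set P := v.count true with hPdef
  set Q := v.count false with hQdef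
  set κ : ℝ → ℝ := fun A => (A ^ 4 + (A⁻¹) ^ 4) * A ^ ex (cw m ++ gw v) +
    (rho A (cw m ++ gw v)).trace with hκ
  set κ' : ℝ → ℝ := fun A => (A ^ 4 + (A⁻¹) ^ 4) * A ^ ex (ml (cw m ++ gw v)) +
    (rho A (ml (cw m ++ gw v))).trace with hκ'
  have hmlapp : ml (cw m ++ gw v) = ml (cw m) ++ ml (gw v) := by simp [ml]
  have hexl : ex (cw m ++ gw v) = 6 * m + P - Q := by
    rw [ex_append, ex_cw, ex_gw]; ring
  have hG := gro_growth κ (6 * m + P - Q + 4) (P + 3 * Q - 6 * m) ((-1) ^ Q) (gro_pm Q) n C hn hC (by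
    intro A hA
    have hA0 : 0 < A := by linarith
    have e0 := ht A hA
    have e1 : (rho A (cw m ++ gw v)).trace = A ^ (-6 * (m : ℤ)) * (rho A (gw v)).trace := by
      rw [rho_append, rho_cw hA0.ne', Matrix.smul_mul, one_mul, Matrix.trace_smul, smul_eq_mul]
    have e2 : (A ^ 4 + (A⁻¹) ^ 4) * A ^ ex (cw m ++ gw v) =
        A ^ ((6 * m + P - Q + 4 : ℤ)) * (1 + A ^ (-8 : ℤ)) := by
      rw [hexl, mul_add, mul_one, ← zpow_add₀ hA0.ne', add_mul]
      have k1 : A ^ 4 * A ^ ((6 * m + P - Q : ℤ)) = A ^ ((6 * m + P - Q + 4 : ℤ)) := by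
        rw [zpow_add₀ hA0.ne' _ 4, mul_comm]
        norm_cast
      have k2 : (A⁻¹) ^ 4 * A ^ ((6 * m + P - Q : ℤ)) = A ^ ((6 * m + P - Q + 4 + -8 : ℤ)) := by
        have k3 : (A⁻¹) ^ 4 = A ^ (-4 : ℤ) := by
          rw [inv_pow, zpow_neg]; norm_cast
        rw [k3, ← zpow_add₀ hA0.ne']
        congr 1
        ring
      rw [k1, k2]
    rw [hκ]
    simp only
    rw [e1, e2]
    have e3 : A ^ ((P + 3 * Q - 6 * m : ℤ)) = A ^ (-6 * (m : ℤ)) * A ^ ((P + 3 * Q : ℕ) : ℤ) := by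
      rw [← zpow_add₀ hA0.ne']
      congr 1
      push_cast
      ring
    have e4 : A ^ ((P + 3 * Q - 6 * m : ℤ) - 8) =
        A ^ (-6 * (m : ℤ)) * A ^ (((P + 3 * Q : ℕ) : ℤ) - 8) := by
      rw [← zpow_add₀ hA0.ne']
      congr 1
      push_cast
      ring
    rw [e3, e4]
    have e5 : A ^ ((6 * m + P - Q + 4 : ℤ)) * (1 + A ^ (-8 : ℤ)) +
        A ^ (-6 * (m : ℤ)) * (rho A (gw v)).trace -
        A ^ ((6 * m + P - Q + 4 : ℤ)) * (1 + A ^ (-8 : ℤ)) -
        (-1) ^ Q * (A ^ (-6 * (m : ℤ)) * A ^ ((P + 3 * Q : ℕ) : ℤ)) * (1 - n * A ^ (-4 : ℤ)) =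
        A ^ (-6 * (m : ℤ)) * ((rho A (gw v)).trace -
          (-1) ^ Q * A ^ ((P + 3 * Q : ℕ) : ℤ) * (1 - n * A ^ (-4 : ℤ))) := by ring
    rw [e5, abs_mul, abs_of_pos (zpow_pos hA0 _)]
    have e6 : C * (A ^ (-6 * (m : ℤ)) * A ^ (((P + 3 * Q : ℕ) : ℤ) - 8)) =
        A ^ (-6 * (m : ℤ)) * (C * A ^ (((P + 3 * Q : ℕ) : ℤ) - 8)) := by ring
    rw [e6]
    exact mul_le_mul_of_nonneg_left e0 (zpow_pos hA0 _).le)
  have hexl' : ex (ml (cw m ++ gw v)) = -(6 * m + P - Q) := by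
    rw [ex_ml, hexl]
  have hG' := gro_growth κ' (-(6 * m + P - Q) + 4) (Q + 3 * P + 6 * m) ((-1) ^ P) (gro_pm P) n' C'
    hn' hC' (by
    intro A hA
    have hA0 : 0 < A := by linarith
    have e0 := ht' A hA
    have e1 : (rho A (ml (cw m ++ gw v))).trace = A ^ (6 * (m : ℤ)) * (rho A (ml (gw v))).trace := by
      rw [hmlapp, rho_append, rho_ml_cw hA0.ne', Matrix.smul_mul, one_mul, Matrix.trace_smul,
        smul_eq_mul]
    have e2 : (A ^ 4 + (A⁻¹) ^ 4) * A ^ ex (ml (cw m ++ gw v)) =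
        A ^ ((-(6 * m + P - Q) + 4 : ℤ)) * (1 + A ^ (-8 : ℤ)) := by
      rw [hexl', mul_add, mul_one, ← zpow_add₀ hA0.ne', add_mul]
      have k1 : A ^ 4 * A ^ ((-(6 * m + P - Q) : ℤ)) = A ^ ((-(6 * m + P - Q) + 4 : ℤ)) := by
        rw [zpow_add₀ hA0.ne' _ 4, mul_comm]
        norm_cast
      have k2 : (A⁻¹) ^ 4 * A ^ ((-(6 * m + P - Q) : ℤ)) =
          A ^ ((-(6 * m + P - Q) + 4 + -8 : ℤ)) := by
        have k3 : (A⁻¹) ^ 4 = A ^ (-4 : ℤ) := by
          rw [inv_pow, zpow_neg]; norm_cast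
        rw [k3, ← zpow_add₀ hA0.ne']
        congr 1
        ring
      rw [k1, k2]
    rw [hκ']
    simp only
    rw [e1, e2]
    have e3 : A ^ ((Q + 3 * P + 6 * m : ℤ)) = A ^ (6 * (m : ℤ)) * A ^ ((Q + 3 * P : ℕ) : ℤ) := by
      rw [← zpow_add₀ hA0.ne']
      congr 1
      push_cast
      ring
    have e4 : A ^ ((Q + 3 * P + 6 * m : ℤ) - 8) =
        A ^ (6 * (m : ℤ)) * A ^ (((Q + 3 * P : ℕ) : ℤ) - 8) := by
      rw [← zpow_add₀ hA0.ne']
      congr 1
      push_cast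
      ring
    rw [e3, e4]
    have e5 : A ^ ((-(6 * m + P - Q) + 4 : ℤ)) * (1 + A ^ (-8 : ℤ)) +
        A ^ (6 * (m : ℤ)) * (rho A (ml (gw v))).trace -
        A ^ ((-(6 * m + P - Q) + 4 : ℤ)) * (1 + A ^ (-8 : ℤ)) -
        (-1) ^ P * (A ^ (6 * (m : ℤ)) * A ^ ((Q + 3 * P : ℕ) : ℤ)) * (1 - n' * A ^ (-4 : ℤ)) =
        A ^ (6 * (m : ℤ)) * ((rho A (ml (gw v))).trace -
          (-1) ^ P * A ^ ((Q + 3 * P : ℕ) : ℤ) * (1 - n' * A ^ (-4 : ℤ))) := by ring
    rw [e5, abs_mul, abs_of_pos (zpow_pos hA0 _)]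
    have e6 : C' * (A ^ (6 * (m : ℤ)) * A ^ (((Q + 3 * P : ℕ) : ℤ) - 8)) =
        A ^ (6 * (m : ℤ)) * (C' * A ^ (((Q + 3 * P : ℕ) : ℤ) - 8)) := by ring
    rw [e6]
    exact mul_le_mul_of_nonneg_left e0 (zpow_pos hA0 _).le)
  refine gro_final (κ := κ) (κ' := κ') ?_ ?_ hG hG' ?_
  · intro A hA
    exact K_cl3 _ (by linarith : A ≠ 0 )
  · intro A hA
    rw [mir_cl3]
    exact K_cl3 _ (by linarith)
  · have hmin : min (2 * m) Q ≤ 2 * m ∧ min (2 * m) Q ≤ Q ∧ (min (2 * m) Q = 2 * m ∨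
        min (2 * m) Q = Q) :=
      ⟨min_le_left _ _, min_le_right _ _, (min_choice _ _)⟩
    split_ifs with k1 k2 k2
    · omega
    · rcases max_choice (-(6 * (m:ℤ) + P - Q) + 4) (Q + 3 * P + 6 * m) with h | h <;> omega
    · rcases max_choice (6 * (m:ℤ) + P - Q + 4) (P + 3 * Q - 6 * m) with h | h <;> omega
    · rcases max_choice (-(6 * (m:ℤ) + P - Q) + 4) (Q + 3 * P + 6 * m) with h | h <;>
      rcases max_choice (6 * (m:ℤ) + P - Q + 4) (P + 3 * Q - 6 * m) with h' | h' <;> omega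

end Pool.Agent.KCS
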