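import Pool.Agent.KCS.BDF

/-!
# KCS / RHO: elementary facts on the reduced representation
-/

namespace Pool.Agent.KCS

theorem rho_append (A : ℝ) (l l' : List Ltr) : rho A (l ++ l') = rho A l * rho A l' := by
  simp [rho]

theorem ex_append (l l' : List Ltr) : ex (l ++ l') = ex l + ex l' := by
  simp [ex]

private theorem ex_rep (n : ℕ) (w : List Ltr) : ex (List.replicate n w).flatten = n * ex w := by
  induction n with
  | zero => simp [ex]
  | succ n ih =>
    rw [List.replicate_succ, List.flatten_cons, ex_append, ih]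
    push_cast
    ring

private theorem rho_rep (A : ℝ) (n : ℕ) (w : List Ltr) :
    rho A (List.replicate n w).flatten = rho A w ^ n := by
  induction n with
  | zero => simp [rho]
  | succ n ih =>
    rw [List.replicate_succ, List.flatten_cons, rho_append, ih, pow_succ']

theorem ex_cw (m : ℤ) : ex (cw m) = 6 * m := by
  cases m with
  | ofNat m =>
    change ex (List.replicate m _).flatten = _
    rw [ex_rep]
    have : ex [(false, true), (true, true), (false, true), (false, true),
      (true, true), (false, true)] = 6 := by decide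
    rw [this]
    change (m : ℤ) * 6 = 6 * (m : ℤ)
    ring
  | negSucc m =>
    change ex (List.replicate (m + 1) _).flatten = _
    rw [ex_rep]
    have : ex [(false, false), (true, false), (false, false),
      (false, false), (true, false), (false, false)] = -6 := by decide
    rw [this, Int.negSucc_eq]
    push_cast
    ring

theorem ex_ml (l : List Ltr) : ex (ml l) = -ex l := by
  induction l with
  | nil => simp [ex, ml]
  | cons t l ih =>
    have h1 : ml (t :: l) = [(t.1, !t.2)] ++ ml l := rfl
    have h2 : (t :: l) = [t] ++ l := rfl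
    rw [h1, h2, ex_append, ex_append, ih]
    obtain ⟨x, y⟩ := t
    cases y <;> simp [ex] <;> ring

theorem ex_gw (v : List Bool) : ex (gw v) = v.count true - v.count false := by
  induction v with
  | nil => simp [ex, gw]
  | cons t l ih =>
    have h1 : gw (t :: l) = [if t then (true, true) else (false, false)] ++ gw l := rfl
    rw [h1, ex_append, ih]
    cases t <;> simp [ex] <;> ring

private theorem tw_pos {A : ℝ} (hA : A ≠ 0) :
    rho A [(false, true), (true, true), (false, true), (false, true), (true, true), (false, true)]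
      = (A ^ (-6 : ℤ)) • (1 : Matrix (Fin 2) (Fin 2) ℝ) := by
  have e : A ^ (-6 : ℤ) = (A⁻¹) ^ 6 := by
    rw [zpow_neg, inv_pow]
    rfl
  rw [e]
  ext i j
  fin_cases i <;> fin_cases j <;>
    simp [rho, rl, Matrix.mul_apply, Fin.sum_univ_two, hA] <;> field_simp <;> ring

private theorem tw_neg {A : ℝ} (hA : A ≠ 0) :
    rho A [(false, false), (true, false), (false, false), (false, false), (true, false),
      (false, false)] = (A ^ (6 : ℤ)) • (1 : Matrix (Fin 2) (Fin 2) ℝ) := by
  have e : A ^ (6 : ℤ) = A ^ 6 := rfl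
  rw [e]
  ext i j
  fin_cases i <;> fin_cases j <;>
    simp [rho, rl, Matrix.mul_apply, Fin.sum_univ_two, hA] <;> field_simp <;> ring

private theorem smul_one_pow' (x : ℝ) (n : ℕ) :
    (x • (1 : Matrix (Fin 2) (Fin 2) ℝ)) ^ n = (x ^ n) • (1 : Matrix (Fin 2) (Fin 2) ℝ) := by
  rw [smul_pow, one_pow]

/-- the full twist is the scalar `A ^ (-6)` -/
theorem rho_cw {A : ℝ} (hA : A ≠ 0) (m : ℤ) :
    rho A (cw m) = (A ^ (-6 * m)) • (1 : Matrix (Fin 2) (Fin 2) ℝ) := by
  cases m with
  | ofNat m =>
    change rho A (List.replicate m _).flatten = _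
    rw [rho_rep, tw_pos hA, smul_one_pow', ← zpow_natCast, ← zpow_mul]
    rfl
  | negSucc m =>
    change rho A (List.replicate (m + 1) _).flatten = _
    rw [rho_rep, tw_neg hA, smul_one_pow', ← zpow_natCast, ← zpow_mul, Int.negSucc_eq]
    congr 2

private theorem ml_rep (n : ℕ) (w : List Ltr) :
    ml (List.replicate n w).flatten = (List.replicate n (ml w)).flatten := by
  unfold ml
  rw [List.map_flatten, List.map_replicate]

theorem rho_ml_cw {A : ℝ} (hA : A ≠ 0) (m : ℤ) :
    rho A (ml (cw m)) = (A ^ (6 * m)) • (1 : Matrix (Fin 2) (Fin 2) ℝ) := by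
  cases m with
  | ofNat m =>
    change rho A (ml (List.replicate m _).flatten) = _
    rw [ml_rep, rho_rep]
    change (rho A [(false, false), (true, false), (false, false), (false, false), (true, false),
      (false, false)]) ^ m = _
    rw [tw_neg hA, smul_one_pow', ← zpow_natCast, ← zpow_mul]
    rfl
  | negSucc m =>
    change rho A (ml (List.replicate (m + 1) _).flatten) = _
    rw [ml_rep, rho_rep]
    change (rho A [(false, true), (true, true), (false, true), (false, true), (true, true),
      (false, true)]) ^ (m + 1) = _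
    rw [tw_pos hA, smul_one_pow', ← zpow_natCast, ← zpow_mul, Int.negSucc_eq]
    congr 2

private theorem rl_fl (A : ℝ) (t : Ltr) :
    rl A (!t.1, t.2) = !![0, 1; 1, 0] * rl A t * !![0, 1; 1, 0] := by
  obtain ⟨x, y⟩ := t
  cases x <;> cases y <;> ext i j <;> fin_cases i <;> fin_cases j <;>
    simp [rl, Matrix.mul_apply, Fin.sum_univ_two]

private theorem sw_sq : (!![0, 1; 1, 0] : Matrix (Fin 2) (Fin 2) ℝ) * !![0, 1; 1, 0] = 1 := by
  ext i j
  fin_cases i <;> fin_cases j <;> simp [Matrix.mul_apply, Fin.sum_univ_two]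

private theorem rho_fl (A : ℝ) (l : List Ltr) :
    rho A (fl l) = !![0, 1; 1, 0] * rho A l * !![0, 1; 1, 0] := by
  induction l with
  | nil =>
    have h : rho A (fl []) = 1 := rfl
    have h' : rho A [] = 1 := rfl
    rw [h, h', mul_one, sw_sq]
  | cons t l ih =>
    have h : rho A (fl (t :: l)) = rl A (!t.1, t.2) * rho A (fl l) := by
      simp [rho, fl]
    have h' : rho A (t :: l) = rl A t * rho A l := by
      simp [rho]
    rw [h, h', ih, rl_fl]
    calc !![0, 1; 1, 0] * rl A t * !![0, 1; 1, 0] * (!![0, 1; 1, 0] * rho A l * !![0, 1; 1, 0])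
        = !![0, 1; 1, 0] * rl A t * (!![0, 1; 1, 0] * !![0, 1; 1, 0]) * rho A l * !![0, 1; 1, 0] := by
          simp only [mul_assoc]
      _ = !![0, 1; 1, 0] * (rl A t * rho A l) * !![0, 1; 1, 0] := by
          rw [sw_sq, mul_one]
          simp only [mul_assoc]

/-- exchanging the generators: conjugation by the permutation matrix -/
theorem trace_fl (A : ℝ) (l : List Ltr) : (rho A (fl l)).trace = (rho A l).trace := by
  rw [rho_fl, Matrix.trace_mul_comm, ← mul_assoc, sw_sq, one_mul]

theorem ml_gw (v : List Bool) : ml (gw v) = fl (gw (v.map not)) := by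
  induction v with
  | nil => rfl
  | cons t l ih =>
    have h1 : ml (gw (t :: l)) = (ml (gw [t])) ++ ml (gw l) := rfl
    have h2 : fl (gw ((t :: l).map not)) = fl (gw [!t]) ++ fl (gw (l.map not)) := rfl
    rw [h1, h2, ih]
    congr 1
    cases t <;> rfl

theorem trace_two {A : ℝ} (hA : A ≠ 0) :
    (rho A [(false, true), (true, true)]).trace = -A ^ (-2 : ℤ) := by
  have e : A ^ (-2 : ℤ) = (A⁻¹) ^ 2 := by
    rw [zpow_neg, inv_pow]
    rfl
  rw [e]
  simp [rho, rl, Matrix.trace_fin_two]
  field_simp
  ring

theorem trace_two' {A : ℝ} (hA : A ≠ 0) :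
    (rho A (ml [(false, true), (true, true)])).trace = -A ^ (2 : ℤ) := by
  have e : A ^ (2 : ℤ) = A ^ 2 := rfl
  rw [e]
  simp [rho, rl, ml, Matrix.trace_fin_two]
  field_simp
  ring

theorem trace_four {A : ℝ} (hA : A ≠ 0) :
    (rho A [(false, true), (true, true), (false, true), (true, true)]).trace = -A ^ (-4 : ℤ) := by
  have e : A ^ (-4 : ℤ) = (A⁻¹) ^ 4 := by
    rw [zpow_neg, inv_pow]
    rfl
  rw [e]
  simp [rho, rl, Matrix.trace_fin_two]
  field_simp
  ring

theorem trace_four' {A : ℝ} (hA : A ≠ 0) :
    (rho A (ml [(false, true), (true, true), (false, true), (true, true)])).trace = -A ^ (4 : ℤ) := by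
  have e : A ^ (4 : ℤ) = A ^ 4 := rfl
  rw [e]
  simp [rho, rl, ml, Matrix.trace_fin_two]
  field_simp
  ring

end Pool.Agent.KCS
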