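import Pool.Agent.KCS.TL3
import Pool.Agent.KCS.RHO

/-!
# KCS / GRT: growth for the torus knots with three strands

`κ`, `κ'` as in `GRO`. `l = cw m ++ [a, b]`, `m ≥ 1`: `κ = A ^ (6 m + 6) + A ^ (6 m - 2) - A ^ (-6 m - 2)`,
`κ' = A ^ (-6 m + 2) + A ^ (-6 m - 6) - A ^ (6 m + 2)`; the product grows like `A ^ (12 m + 8)`.
`l = cw m ++ [a, b, a, b]`, `m ≥ 0`: `κ = A ^ (6 m + 8) + A ^ (6 m) - A ^ (-6 m - 4)`,
`κ' = A ^ (-6 m) + A ^ (-6 m - 8) - A ^ (6 m + 4)`; the product grows like `A ^ (12 m + 12)`.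
-/

namespace Pool.Agent.KCS

private lemma grt_ml_append (l l' : List Ltr) : ml (l ++ l') = ml l ++ ml l' := by
  simp [ml]

private lemma grt_dlt {A : ℝ} (hA : 2 ≤ A) : A ^ 4 ≤ dlt A ^ 2 := by
  have h1 : dlt A ^ 2 = A ^ 4 + 2 * (A ^ 2 * (A⁻¹) ^ 2) + (A⁻¹) ^ 4 := by
    unfold dlt; ring
  rw [h1]
  have h2 : 0 ≤ A ^ 2 * (A⁻¹) ^ 2 := by positivity
  have h3 : 0 ≤ (A⁻¹) ^ 4 := by positivity
  linarith

private lemma grt_H (l : List Ltr) {A : ℝ} (hA : 2 ≤ A) (k k' : ℝ)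
    (hk : (A ^ 4 + (A⁻¹) ^ 4) * A ^ ex l + (rho A l).trace = k)
    (hk' : (A ^ 4 + (A⁻¹) ^ 4) * A ^ ex (ml l) + (rho A (ml l)).trace = -k')
    (h0 : 0 ≤ k) (h0' : 0 ≤ k') : A ^ 4 * (k * k') ≤ H (cl3 (bw l)) A := by
  have hA0 : A ≠ 0 := by intro h; rw [h] at hA; norm_num at hA
  unfold H
  rw [mir_cl3, K_cl3 l hA0, K_cl3 (ml l) hA0, hk, hk']
  have h1 : dlt A * k * (dlt A * -k') = -(dlt A ^ 2 * (k * k')) := by ring
  rw [h1, abs_neg, abs_of_nonneg (by positivity)]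
  have := grt_dlt hA
  have h2 : 0 ≤ k * k' := by positivity
  exact mul_le_mul_of_nonneg_right this h2

theorem gr_torus_one (m : ℕ) (hm : 1 ≤ m) :
    Gr (cl3 (bw (cw m ++ [(false, true), (true, true)]))) (6 * m + 2) := by
  refine ⟨1 / 2, by norm_num, 2, by norm_num, ?_⟩
  intro A hA
  have hA0 : A ≠ 0 := by intro h; rw [h] at hA; norm_num at hA
  have hAp : 0 < A := by linarith
  have hA1 : 1 ≤ A := by linarith
  set X : ℝ := A ^ (6 * m) with hX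
  have hXp : 0 < X := by positivity
  have hX64 : 64 ≤ X := by
    calc (64 : ℝ) = 2 ^ 6 := by norm_num
      _ ≤ A ^ 6 := by gcongr
      _ ≤ A ^ (6 * m) := by
        apply pow_le_pow_right₀ hA1
        omega
  have hXz : A ^ (6 * (m : ℤ)) = X := by
    rw [hX, ← zpow_natCast]; push_cast; rfl
  have hXz' : A ^ (-6 * (m : ℤ)) = X⁻¹ := by
    rw [show (-6 * (m : ℤ)) = -(6 * (m : ℤ)) by ring, zpow_neg, hXz]
  have e1 : ex [((false : Bool), (true : Bool)), (true, true)] = 2 := by simp [ex]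
  have hex : ex (cw m ++ [(false, true), (true, true)]) = 6 * (m : ℤ) + 2 := by
    rw [ex_append, ex_cw, e1]
  have hz1 : A ^ (6 * (m : ℤ) + 2) = X * A ^ 2 := by
    rw [zpow_add₀ hA0, hXz]; norm_cast
  have hz2 : A ^ (-(6 * (m : ℤ) + 2)) = X⁻¹ * (A⁻¹) ^ 2 := by
    rw [zpow_neg, hz1, mul_inv, inv_pow]
  have hz3 : A ^ (-2 : ℤ) = (A⁻¹) ^ 2 := by
    rw [zpow_neg, inv_pow]; norm_cast
  have hz4 : A ^ (2 : ℤ) = A ^ 2 := by norm_cast
  have hk : (A ^ 4 + (A⁻¹) ^ 4) * A ^ ex (cw m ++ [(false, true), (true, true)])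
      + (rho A (cw m ++ [(false, true), (true, true)])).trace
      = X * A ^ 6 + X * (A⁻¹) ^ 2 - X⁻¹ * (A⁻¹) ^ 2 := by
    rw [hex, hz1, rho_append, rho_cw hA0, Matrix.smul_mul, one_mul, Matrix.trace_smul,
      trace_two hA0, hXz', hz3, smul_eq_mul]
    field_simp
    ring
  have hk' : (A ^ 4 + (A⁻¹) ^ 4) * A ^ ex (ml (cw m ++ [(false, true), (true, true)]))
      + (rho A (ml (cw m ++ [(false, true), (true, true)]))).trace
      = -(X * A ^ 2 - X⁻¹ * A ^ 2 - X⁻¹ * (A⁻¹) ^ 6) := by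
    rw [ex_ml, hex, hz2, grt_ml_append, rho_append, rho_ml_cw hA0, Matrix.smul_mul, one_mul,
      Matrix.trace_smul, trace_two' hA0, hXz, hz4, smul_eq_mul]
    field_simp
    ring
  have hXi : X⁻¹ ≤ 1 / 64 := by
    rw [inv_le_comm₀ hXp (by norm_num)]
    norm_num
    exact hX64
  have hXi0 : 0 < X⁻¹ := by positivity
  have hAi1 : A⁻¹ ≤ 1 := inv_le_one_of_one_le₀ hA1
  have hAi0 : 0 < A⁻¹ := by positivity
  have hAi6 : (A⁻¹) ^ 6 ≤ 1 := pow_le_one₀ hAi0.le hAi1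
  have hA2 : 4 ≤ A ^ 2 := by nlinarith
  have b1 : X * A ^ 6 ≤ X * A ^ 6 + X * (A⁻¹) ^ 2 - X⁻¹ * (A⁻¹) ^ 2 := by
    have : X⁻¹ * (A⁻¹) ^ 2 ≤ X * (A⁻¹) ^ 2 := by
      apply mul_le_mul_of_nonneg_right _ (by positivity)
      linarith
    linarith
  have b2 : X * A ^ 2 / 2 ≤ X * A ^ 2 - X⁻¹ * A ^ 2 - X⁻¹ * (A⁻¹) ^ 6 := by
    have h1 : X⁻¹ * A ^ 2 ≤ 1 / 64 * A ^ 2 := by gcongr
    have h2 : X⁻¹ * (A⁻¹) ^ 6 ≤ 1 / 64 * 1 := by gcongr
    nlinarith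
  have h1 := grt_H _ hA _ _ hk hk' ((by positivity : 0 ≤ X * A ^ 6).trans b1)
    ((by positivity : 0 ≤ X * A ^ 2 / 2).trans b2)
  refine le_trans ?_ h1
  calc 1 / 2 * A ^ (2 * (6 * m + 2) + 4) = 1 * (X * 1 * (X * A ^ 8 / 2)) := by
        rw [hX]; ring
    _ ≤ A ^ 4 * (X * A ^ 6 * (X * A ^ 2 / 2)) := by
        have h3 : (1 : ℝ) ≤ A ^ 4 := one_le_pow₀ hA1
        have h4 : 1 * (X * 1 * (X * A ^ 8 / 2)) = X ^ 2 * A ^ 8 / 2 := by ring
        have h5 : A ^ 4 * (X * A ^ 6 * (X * A ^ 2 / 2)) = A ^ 4 * (X ^ 2 * A ^ 8 / 2) := by ring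
        rw [h4, h5]
        exact le_mul_of_one_le_left (by positivity) h3
    _ ≤ _ := by
        have h6 : 0 ≤ X * A ^ 2 / 2 := by positivity
        have h7 : 0 ≤ X * A ^ 6 := by positivity
        exact mul_le_mul_of_nonneg_left (mul_le_mul b1 b2 h6 (h7.trans b1)) (by positivity)

theorem gr_torus_two (m : ℕ) :
    Gr (cl3 (bw (cw m ++ [(false, true), (true, true), (false, true), (true, true)]))) (6 * m + 4) := by
  refine ⟨1 / 2, by norm_num, 2, by norm_num, ?_⟩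
  intro A hA
  have hA0 : A ≠ 0 := by intro h; rw [h] at hA; norm_num at hA
  have hAp : 0 < A := by linarith
  have hA1 : 1 ≤ A := by linarith
  set X : ℝ := A ^ (6 * m) with hX
  have hXp : 0 < X := by positivity
  have hX1 : 1 ≤ X := one_le_pow₀ hA1
  have hXz : A ^ (6 * (m : ℤ)) = X := by
    rw [hX, ← zpow_natCast]; push_cast; rfl
  have hXz' : A ^ (-6 * (m : ℤ)) = X⁻¹ := by
    rw [show (-6 * (m : ℤ)) = -(6 * (m : ℤ)) by ring, zpow_neg, hXz]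
  have e1 : ex [((false : Bool), (true : Bool)), (true, true), (false, true), (true, true)] = 4 := by
    simp [ex]
  have hex : ex (cw m ++ [(false, true), (true, true), (false, true), (true, true)])
      = 6 * (m : ℤ) + 4 := by
    rw [ex_append, ex_cw, e1]
  have hz1 : A ^ (6 * (m : ℤ) + 4) = X * A ^ 4 := by
    rw [zpow_add₀ hA0, hXz]; norm_cast
  have hz2 : A ^ (-(6 * (m : ℤ) + 4)) = X⁻¹ * (A⁻¹) ^ 4 := by
    rw [zpow_neg, hz1, mul_inv, inv_pow]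
  have hz3 : A ^ (-4 : ℤ) = (A⁻¹) ^ 4 := by
    rw [zpow_neg, inv_pow]; norm_cast
  have hz4 : A ^ (4 : ℤ) = A ^ 4 := by norm_cast
  have hk : (A ^ 4 + (A⁻¹) ^ 4)
        * A ^ ex (cw m ++ [(false, true), (true, true), (false, true), (true, true)])
      + (rho A (cw m ++ [(false, true), (true, true), (false, true), (true, true)])).trace
      = X * A ^ 8 + X - X⁻¹ * (A⁻¹) ^ 4 := by
    rw [hex, hz1, rho_append, rho_cw hA0, Matrix.smul_mul, one_mul, Matrix.trace_smul,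
      trace_four hA0, hXz', hz3, smul_eq_mul]
    field_simp
    ring
  have hk' : (A ^ 4 + (A⁻¹) ^ 4)
        * A ^ ex (ml (cw m ++ [(false, true), (true, true), (false, true), (true, true)]))
      + (rho A (ml (cw m ++ [(false, true), (true, true), (false, true), (true, true)]))).trace
      = -(X * A ^ 4 - X⁻¹ - X⁻¹ * (A⁻¹) ^ 8) := by
    rw [ex_ml, hex, hz2, grt_ml_append, rho_append, rho_ml_cw hA0, Matrix.smul_mul, one_mul,
      Matrix.trace_smul, trace_four' hA0, hXz, hz4, smul_eq_mul]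
    field_simp
    ring
  have hXi : X⁻¹ ≤ 1 := inv_le_one_of_one_le₀ hX1
  have hXi0 : 0 < X⁻¹ := by positivity
  have hAi1 : A⁻¹ ≤ 1 := inv_le_one_of_one_le₀ hA1
  have hAi0 : 0 < A⁻¹ := by positivity
  have hAi8 : (A⁻¹) ^ 8 ≤ 1 := pow_le_one₀ hAi0.le hAi1
  have hAi4 : (A⁻¹) ^ 4 ≤ 1 := pow_le_one₀ hAi0.le hAi1
  have hA4 : 16 ≤ A ^ 4 := by
    calc (16 : ℝ) = 2 ^ 4 := by norm_num
      _ ≤ A ^ 4 := by gcongr
  have b1 : X * A ^ 8 ≤ X * A ^ 8 + X - X⁻¹ * (A⁻¹) ^ 4 := by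
    have : X⁻¹ * (A⁻¹) ^ 4 ≤ 1 * 1 := by gcongr
    linarith
  have b2 : X * A ^ 4 / 2 ≤ X * A ^ 4 - X⁻¹ - X⁻¹ * (A⁻¹) ^ 8 := by
    have h2 : X⁻¹ * (A⁻¹) ^ 8 ≤ 1 * 1 := by gcongr
    nlinarith
  have h1 := grt_H _ hA _ _ hk hk' ((by positivity : 0 ≤ X * A ^ 8).trans b1)
    ((by positivity : 0 ≤ X * A ^ 4 / 2).trans b2)
  refine le_trans ?_ h1
  calc 1 / 2 * A ^ (2 * (6 * m + 4) + 4) = 1 * (X * 1 * (X * A ^ 12 / 2)) := by
        rw [hX]; ring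
    _ ≤ A ^ 4 * (X * A ^ 8 * (X * A ^ 4 / 2)) := by
        have h3 : (1 : ℝ) ≤ A ^ 4 := one_le_pow₀ hA1
        have h4 : 1 * (X * 1 * (X * A ^ 12 / 2)) = X ^ 2 * A ^ 12 / 2 := by ring
        have h5 : A ^ 4 * (X * A ^ 8 * (X * A ^ 4 / 2)) = A ^ 4 * (X ^ 2 * A ^ 12 / 2) := by ring
        rw [h4, h5]
        exact le_mul_of_one_le_left (by positivity) h3
    _ ≤ _ := by
        have h6 : 0 ≤ X * A ^ 4 / 2 := by positivity
        have h7 : 0 ≤ X * A ^ 8 := by positivity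
        exact mul_le_mul_of_nonneg_left (mul_le_mul b1 b2 h6 (h7.trans b1)) (by positivity)

end Pool.Agent.KCS
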