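import Pool.Agent.KCS.MON

/-!
# KCS / UNK: closures of two letters are unknots; classes which are not knots

`unknot`: `[cup 0, cup 1, cup 2, x 0, x' 1, cap 2, cap 1, cap 0]`: move `x 0` in front of `cup 2`; `[x' 1, cap 2] ~ [z' 2, cap 1]`
(`z'` the other sign), `[cup 2, z' 2] ~ [cup 2]`, `[cup 2, cap 1] ~ []`; then `[cup 0, cup 1, x 0, cap 1, cap 0]`,
`[x 0, cap 1] ~ [z 1, cap 0]`, `[cup 1, z 1] ~ [cup 1]`, `[cup 1, cap 0] ~ []`.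
`val_str`: the operator `T str (bw l)` permutes the three labels: induction. The full twist acts as the
identity; two equal letters cancel; signs do not matter.
-/

set_option linter.unusedSimpArgs false

namespace Pool.Agent.KCS

private theorem x_ci : Kind.cup.inp = 0 := rfl
private theorem x_co : Kind.cup.out = 2 := rfl
private theorem x_ai : Kind.cap.inp = 2 := rfl
private theorem x_ao : Kind.cap.out = 0 := rfl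

private theorem x_step {p q u v : Word} (n m : ℕ) (h : Move u v) (hp : Ok 0 p n) (hu : Ok n u m)
    (hv : Ok n v m) (hq : Ok m q 0) : TEq 0 0 (p ++ u ++ q) (p ++ v ++ q) :=
  Relation.EqvGen.rel _ _ ⟨p, q, u, v, n, m, h, rfl, rfl, hp, hu, hv, hq⟩

private theorem x_unknot (x z x' z' : Kind) (hx : x.inp = 2 ∧ x.out = 2)
    (hz : z.inp = 2 ∧ z.out = 2) (hx' : x'.inp = 2 ∧ x'.out = 2) (hz' : z'.inp = 2 ∧ z'.out = 2)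
    (h1 : ∀ i, Move [⟨x, i⟩, ⟨.cap, i + 1⟩] [⟨z, i + 1⟩, ⟨.cap, i⟩])
    (h2 : ∀ i, Move [⟨x', i⟩, ⟨.cap, i + 1⟩] [⟨z', i + 1⟩, ⟨.cap, i⟩])
    (h3 : ∀ i, Move [⟨.cup, i⟩, ⟨z, i⟩] [⟨.cup, i⟩])
    (h4 : ∀ i, Move [⟨.cup, i⟩, ⟨z', i⟩] [⟨.cup, i⟩]) :
    TEq 0 0 [⟨.cup, 0⟩, ⟨.cup, 1⟩, ⟨.cup, 2⟩, ⟨x, 0⟩, ⟨x', 1⟩, ⟨.cap, 2⟩, ⟨.cap, 1⟩, ⟨.cap, 0⟩]
      [⟨.cup, 0⟩, ⟨.cap, 0⟩] := by
  have s1 : TEq 0 0 [⟨.cup, 0⟩, ⟨.cup, 1⟩, ⟨x, 0⟩, ⟨.cup, 2⟩, ⟨x', 1⟩, ⟨.cap, 2⟩, ⟨.cap, 1⟩, ⟨.cap, 0⟩]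
      [⟨.cup, 0⟩, ⟨.cup, 1⟩, ⟨.cup, 2⟩, ⟨x, 0⟩, ⟨x', 1⟩, ⟨.cap, 2⟩, ⟨.cap, 1⟩, ⟨.cap, 0⟩] := by
    have hm : Move [⟨x, 0⟩, ⟨.cup, 2⟩] [⟨.cup, 2⟩, ⟨x, 0⟩] := by
      have := Move.far ⟨x, 0⟩ ⟨.cup, 2⟩ 0 (by simp [hx.2])
      simpa [hx.1] using this
    exact x_step (p := [⟨.cup, 0⟩, ⟨.cup, 1⟩]) (q := [⟨x', 1⟩, ⟨.cap, 2⟩, ⟨.cap, 1⟩, ⟨.cap, 0⟩])
      4 6 hm (by simp [Ok, x_ci, x_co, x_ai, x_ao]) (by simp [Ok, x_ci, x_co, x_ai, x_ao, hx.1, hx.2])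
      (by simp [Ok, x_ci, x_co, x_ai, x_ao, hx.1, hx.2])
      (by simp [Ok, x_ci, x_co, x_ai, x_ao, hx'.1, hx'.2])
  have s2 : TEq 0 0 [⟨.cup, 0⟩, ⟨.cup, 1⟩, ⟨x, 0⟩, ⟨.cup, 2⟩, ⟨x', 1⟩, ⟨.cap, 2⟩, ⟨.cap, 1⟩, ⟨.cap, 0⟩]
      [⟨.cup, 0⟩, ⟨.cup, 1⟩, ⟨x, 0⟩, ⟨.cup, 2⟩, ⟨z', 2⟩, ⟨.cap, 1⟩, ⟨.cap, 1⟩, ⟨.cap, 0⟩] :=
    x_step (p := [⟨.cup, 0⟩, ⟨.cup, 1⟩, ⟨x, 0⟩, ⟨.cup, 2⟩]) (q := [⟨.cap, 1⟩, ⟨.cap, 0⟩])
      6 4 (h2 1) (by simp [Ok, x_ci, x_co, x_ai, x_ao, hx.1, hx.2])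
      (by simp [Ok, x_ci, x_co, x_ai, x_ao, hx'.1, hx'.2])
      (by simp [Ok, x_ci, x_co, x_ai, x_ao, hz'.1, hz'.2]) (by simp [Ok, x_ci, x_co, x_ai, x_ao])
  have s3 : TEq 0 0 [⟨.cup, 0⟩, ⟨.cup, 1⟩, ⟨x, 0⟩, ⟨.cup, 2⟩, ⟨z', 2⟩, ⟨.cap, 1⟩, ⟨.cap, 1⟩, ⟨.cap, 0⟩]
      [⟨.cup, 0⟩, ⟨.cup, 1⟩, ⟨x, 0⟩, ⟨.cup, 2⟩, ⟨.cap, 1⟩, ⟨.cap, 1⟩, ⟨.cap, 0⟩] :=
    x_step (p := [⟨.cup, 0⟩, ⟨.cup, 1⟩, ⟨x, 0⟩]) (q := [⟨.cap, 1⟩, ⟨.cap, 1⟩, ⟨.cap, 0⟩])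
      4 6 (h4 2) (by simp [Ok, x_ci, x_co, x_ai, x_ao, hx.1, hx.2])
      (by simp [Ok, x_ci, x_co, x_ai, x_ao, hz'.1, hz'.2])
      (by simp [Ok, x_ci, x_co, x_ai, x_ao]) (by simp [Ok, x_ci, x_co, x_ai, x_ao])
  have s4 : TEq 0 0 [⟨.cup, 0⟩, ⟨.cup, 1⟩, ⟨x, 0⟩, ⟨.cup, 2⟩, ⟨.cap, 1⟩, ⟨.cap, 1⟩, ⟨.cap, 0⟩]
      [⟨.cup, 0⟩, ⟨.cup, 1⟩, ⟨x, 0⟩, ⟨.cap, 1⟩, ⟨.cap, 0⟩] :=
    x_step (p := [⟨.cup, 0⟩, ⟨.cup, 1⟩, ⟨x, 0⟩]) (q := [⟨.cap, 1⟩, ⟨.cap, 0⟩])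
      4 4 (Move.zag 1) (by simp [Ok, x_ci, x_co, x_ai, x_ao, hx.1, hx.2])
      (by simp [Ok, x_ci, x_co, x_ai, x_ao])
      (by simp [Ok]) (by simp [Ok, x_ci, x_co, x_ai, x_ao])
  have s5 : TEq 0 0 [⟨.cup, 0⟩, ⟨.cup, 1⟩, ⟨x, 0⟩, ⟨.cap, 1⟩, ⟨.cap, 0⟩]
      [⟨.cup, 0⟩, ⟨.cup, 1⟩, ⟨z, 1⟩, ⟨.cap, 0⟩, ⟨.cap, 0⟩] :=
    x_step (p := [⟨.cup, 0⟩, ⟨.cup, 1⟩]) (q := [⟨.cap, 0⟩])
      4 2 (h1 0) (by simp [Ok, x_ci, x_co, x_ai, x_ao])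
      (by simp [Ok, x_ci, x_co, x_ai, x_ao, hx.1, hx.2])
      (by simp [Ok, x_ci, x_co, x_ai, x_ao, hz.1, hz.2]) (by simp [Ok, x_ci, x_co, x_ai, x_ao])
  have s6 : TEq 0 0 [⟨.cup, 0⟩, ⟨.cup, 1⟩, ⟨z, 1⟩, ⟨.cap, 0⟩, ⟨.cap, 0⟩]
      [⟨.cup, 0⟩, ⟨.cup, 1⟩, ⟨.cap, 0⟩, ⟨.cap, 0⟩] :=
    x_step (p := [⟨.cup, 0⟩]) (q := [⟨.cap, 0⟩, ⟨.cap, 0⟩])
      2 4 (h3 1) (by simp [Ok, x_ci, x_co, x_ai, x_ao])
      (by simp [Ok, x_ci, x_co, x_ai, x_ao, hz.1, hz.2])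
      (by simp [Ok, x_ci, x_co, x_ai, x_ao]) (by simp [Ok, x_ci, x_co, x_ai, x_ao])
  have s7 : TEq 0 0 [⟨.cup, 0⟩, ⟨.cup, 1⟩, ⟨.cap, 0⟩, ⟨.cap, 0⟩] [⟨.cup, 0⟩, ⟨.cap, 0⟩] :=
    x_step (p := [⟨.cup, 0⟩]) (q := [⟨.cap, 0⟩])
      2 2 (Move.zag 0) (by simp [Ok, x_ci, x_co, x_ai, x_ao])
      (by simp [Ok, x_ci, x_co, x_ai, x_ao])
      (by simp [Ok]) (by simp [Ok, x_ci, x_co, x_ai, x_ao])
  exact s1.symm.trans (s2.trans (s3.trans (s4.trans (s5.trans (s6.trans s7)))))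

theorem unknot (s s' : Bool) :
    TEq 0 0 (cl3 (bw [(false, s), (true, s')])) [⟨.cup, 0⟩, ⟨.cap, 0⟩] := by
  cases s <;> cases s'
  · exact x_unknot .neg .pos .neg .pos ⟨rfl, rfl⟩ ⟨rfl, rfl⟩ ⟨rfl, rfl⟩ ⟨rfl, rfl⟩ Move.capNeg
      Move.capNeg Move.oneCupPos Move.oneCupPos
  · exact x_unknot .neg .pos .pos .neg ⟨rfl, rfl⟩ ⟨rfl, rfl⟩ ⟨rfl, rfl⟩ ⟨rfl, rfl⟩ Move.capNeg
      Move.capPos Move.oneCupPos Move.oneCupNeg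
  · exact x_unknot .pos .neg .neg .pos ⟨rfl, rfl⟩ ⟨rfl, rfl⟩ ⟨rfl, rfl⟩ ⟨rfl, rfl⟩ Move.capPos
      Move.capNeg Move.oneCupNeg Move.oneCupPos
  · exact x_unknot .pos .neg .pos .neg ⟨rfl, rfl⟩ ⟨rfl, rfl⟩ ⟨rfl, rfl⟩ ⟨rfl, rfl⟩ Move.capPos
      Move.capPos Move.oneCupNeg Move.oneCupNeg

theorem cc_unknot (s s' : Bool) : cc (cl3 (bw [(false, s), (true, s')])) = 0 := by
  have h := cc_le (ok_cl3 _) (unknot s s')
  have h2 : cr [⟨.cup, 0⟩, ⟨.cap, 0⟩] = 0 := by simp [cr, isCr]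
  omega

/-- the permutation of the labels given by a letter -/
private def x_sw (t : Ltr) (x : ZMod 2 × ZMod 2 × ZMod 2) : ZMod 2 × ZMod 2 × ZMod 2 :=
  if t.1 then (x.1, x.2.2, x.2.1) else (x.2.1, x.1, x.2.2)

/-- the permutation of the labels given by a word -/
private def x_tr : List Ltr → ZMod 2 × ZMod 2 × ZMod 2 → ZMod 2 × ZMod 2 × ZMod 2
  | [], x => x
  | t :: l, x => x_tr l (x_sw t x)

private theorem x_tr_append (l l' : List Ltr) (x : ZMod 2 × ZMod 2 × ZMod 2) :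
    x_tr (l ++ l') x = x_tr l' (x_tr l x) := by
  induction l generalizing x with
  | nil => rfl
  | cons t l ih => exact ih _

private theorem x_cr (φ : L → ℕ) (a b : ZMod 2) (r : L) :
    crOp str.X φ (a :: b :: r) = φ (b :: a :: r) := by
  rw [crOp_apply]
  rw [Finset.sum_eq_single b, Finset.sum_eq_single a]
  · simp [str]
  · intro d _ hd
    simp [str, Ne.symm hd]
  · simp
  · intro c _ hc
    refine Finset.sum_eq_zero fun d _ => ?_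
    simp [str, Ne.symm hc]
  · simp

private theorem x_base (s : Bool) : base str (if s then Kind.pos else Kind.neg) = crOp str.X := by
  cases s <;> rfl

private theorem x_T (l : List Ltr) (φ : L → ℕ) (x : ZMod 2 × ZMod 2 × ZMod 2) (r : L) :
    T str (bw l) φ (x.1 :: x.2.1 :: x.2.2 :: r) =
      φ ((x_tr l x).1 :: (x_tr l x).2.1 :: (x_tr l x).2.2 :: r) := by
  induction l generalizing x with
  | nil => rfl
  | cons t l ih =>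
    obtain ⟨b, s⟩ := t
    show op str ⟨if s then Kind.pos else Kind.neg, if b then 1 else 0⟩ (T str (bw l) φ) _ = _
    cases b
    · simp only [Bool.false_eq_true, if_false]
      rw [op_zero, x_base, x_cr]
      exact ih (x.2.1, x.1, x.2.2)
    · simp only [if_true]
      rw [op_succ_apply, op_zero, x_base, x_cr]
      exact ih (x.1, x.2.2, x.2.1)

private theorem x_cup (φ : L → ℕ) (l : L) : cupOp str.cu φ l = ∑ a, φ (a :: a :: l) := by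
  rw [cupOp_apply]
  refine Finset.sum_congr rfl fun a _ => ?_
  rw [Finset.sum_eq_single a]
  · simp [str]
  · intro b _ hb
    simp [str, Ne.symm hb]
  · simp

private theorem x_val (l : List Ltr) : val str (cl3 (bw l)) =
    ∑ a : ZMod 2, ∑ b : ZMod 2, ∑ c : ZMod 2, if x_tr l (a, b, c) = (a, b, c) then 1 else 0 := by
  unfold val cl3
  rw [T_append, T_append]
  show op str ⟨.cup, 0⟩ (op str ⟨.cup, 1⟩ (op str ⟨.cup, 2⟩ _)) [] = _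
  rw [op_zero]
  show cupOp str.cu _ [] = _
  rw [x_cup]
  refine Finset.sum_congr rfl fun a _ => ?_
  rw [op_succ_apply, op_zero]
  show cupOp str.cu _ _ = _
  rw [x_cup]
  refine Finset.sum_congr rfl fun b _ => ?_
  rw [op_succ_apply, op_succ_apply, op_zero]
  show cupOp str.cu _ _ = _
  rw [x_cup]
  refine Finset.sum_congr rfl fun c _ => ?_
  have h := x_T l (T str [⟨.cap, 2⟩, ⟨.cap, 1⟩, ⟨.cap, 0⟩] dl) (a, b, c) [c, b, a]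
  simp only at h
  show T str (bw l) (T str [⟨.cap, 2⟩, ⟨.cap, 1⟩, ⟨.cap, 0⟩] dl) (a :: b :: c :: [c, b, a]) = _
  rw [h]
  obtain ⟨a', b', c'⟩ := x_tr l (a, b, c)
  show op str ⟨.cap, 2⟩ (op str ⟨.cap, 1⟩ (op str ⟨.cap, 0⟩ dl)) [a', b', c', c, b, a] = _
  rw [op_succ_apply, op_succ_apply, op_zero]
  show capOp str.ca _ (c' :: c :: [b, a]) = _
  rw [capOp_apply, op_succ_apply, op_zero]
  show _ * capOp str.ca _ (b' :: b :: [a]) = _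
  rw [capOp_apply]
  show _ * (_ * capOp str.ca _ (a' :: a :: [])) = _
  rw [capOp_apply]
  by_cases h1 : a' = a <;> by_cases h2 : b' = b <;> by_cases h3 : c' = c <;>
    simp [str, dl, h1, h2, h3]

private theorem x_cw (m : ℤ) (x : ZMod 2 × ZMod 2 × ZMod 2) : x_tr (cw m) x = x := by
  have h : ∀ (k : ℕ) (s : Bool) (x : ZMod 2 × ZMod 2 × ZMod 2),
      x_tr (List.replicate k [(false, s), (true, s), (false, s), (false, s), (true, s),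
        (false, s)]).flatten x = x := by
    intro k s
    induction k with
    | zero => intro x; rfl
    | succ k ih =>
      intro x
      rw [List.replicate_succ, List.flatten_cons, x_tr_append, ih]
      rfl
  cases m with
  | ofNat m => exact h m true x
  | negSucc m => exact h (m + 1) false x

theorem not_knot_zero (m : ℤ) : ¬ IsKnot (cl3 (bw (cw m))) := by
  rintro ⟨_, h⟩
  rw [x_val] at h
  simp only [x_cw, if_true] at h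
  revert h
  decide

theorem not_knot_one (m : ℤ) :
    ¬ IsKnot (cl3 (bw (cw m ++ [(false, true), (true, true), (false, true)]))) := by
  rintro ⟨_, h⟩
  rw [x_val] at h
  simp only [x_tr_append, x_cw, x_tr, x_sw] at h
  revert h
  decide

private theorem x_gw (v : List Bool) (b : Bool) (hv : ∀ t ∈ v, t = b) :
    (∀ x, x_tr (gw v) x = x) ∨ (∀ x, x_tr (gw v) x = x_sw (b, true) x) := by
  induction v with
  | nil => exact Or.inl fun x => rfl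
  | cons t v ih =>
    have ht : t = b := hv t List.mem_cons_self
    subst ht
    have e : ∀ x, x_tr (gw (t :: v)) x = x_tr (gw v) (x_sw (t, true) x) := by
      intro x
      cases t <;> rfl
    rcases ih (fun s hs => hv s (List.mem_cons_of_mem _ hs)) with h | h
    · right
      intro x
      rw [e, h]
    · left
      intro x
      rw [e, h]
      cases t <;> rfl

/-- only one of the two letters occurs -/
theorem not_knot_power (m : ℤ) (v : List Bool) (b : Bool) (hv : ∀ t ∈ v, t = b) :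
    ¬ IsKnot (cl3 (bw (cw m ++ gw v))) := by
  rintro ⟨_, h⟩
  rw [x_val] at h
  rcases x_gw v b hv with h1 | h1
  · simp only [x_tr_append, x_cw, h1, if_true] at h
    revert h
    decide
  · simp only [x_tr_append, x_cw, h1, x_sw] at h
    cases b
    · revert h
      decide
    · revert h
      decide

end Pool.Agent.KCS
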