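import Pool.Agent.KCS.STA

/-!
# KCS / ZER: the bracket never vanishes

By `K_sts`, `lp_pos`: `K w A = dlt A * κ(A)` with `κ = ∑ A ^ t.1 * dlt A ^ (lp t.2 - 1)`, a Laurent polynomial in `A` with integer
coefficients, and `K (mir w) A = dlt A * κ(A⁻¹)` (`K_sts_mir`, `dlt A⁻¹ = dlt A`). `κ(1) = ∑ (-2) ^ (lp - 1)` is congruent
modulo `3` to the number `2 ^ cr w` of states, so `κ ≠ 0`. Multiply by `A ^ N`: `q(A) = A ^ N κ(A)` is a nonzero integer
polynomial; `κ(A) κ(A⁻¹) = q(A) q(A⁻¹)`, which for large `A` is at least a constant times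
`A ^ (degree - order of vanishing at 0) ≥ 1` in absolute value. Finally `dlt A ^ 2 ≥ A ^ 4`.
-/

namespace Pool.Agent.KCS

private theorem zer_len (w : Word) : ∃ n : ℕ, (sts w).length = 2 ^ n := by
  induction w with
  | nil => exact ⟨0, rfl⟩
  | cons g w ih =>
    obtain ⟨n, hn⟩ := ih
    obtain ⟨k, i⟩ := g
    cases k
    · exact ⟨n, by simp [sts, hn]⟩
    · exact ⟨n, by simp [sts, hn]⟩
    · exact ⟨n + 1, by simp [sts, hn, pow_succ, mul_two]⟩
    · exact ⟨n + 1, by simp [sts, hn, pow_succ, mul_two]⟩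

private theorem zer_ne {w : Word} (h : Ok 0 w 0) (hw : w ≠ []) {t : ℤ × Word} (ht : t ∈ sts w) :
    t.2 ≠ [] := by
  cases w with
  | nil => exact absurd rfl hw
  | cons g w =>
    obtain ⟨k, i⟩ := g
    cases k
    · have ht' : t ∈ (sts w).map fun t => (t.1, (⟨.cup, i⟩ : Gen) :: t.2) := ht
      rw [List.mem_map] at ht'
      obtain ⟨s, _, rfl⟩ := ht'
      exact List.cons_ne_nil _ _
    · have := h.1
      simp [Kind.inp] at this
    · have := h.1
      simp [Kind.inp] at this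
    · have := h.1
      simp [Kind.inp] at this

private theorem zer_bound {α : Type} (f : α → ℤ) (l : List α) : ∃ N : ℕ, ∀ t ∈ l, f t ≤ N := by
  induction l with
  | nil => exact ⟨0, by simp⟩
  | cons a l ih =>
    obtain ⟨N, hN⟩ := ih
    refine ⟨max N (f a).toNat, ?_⟩
    intro t ht
    rcases List.mem_cons.1 ht with rfl | h
    · have h1 := Int.self_le_toNat (f t)
      have h2 : (((f t).toNat : ℕ) : ℤ) ≤ ((max N (f t).toNat : ℕ) : ℤ) := by
        exact_mod_cast le_max_right _ _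
      exact h1.trans h2
    · have h2 : ((N : ℕ) : ℤ) ≤ ((max N (f a).toNat : ℕ) : ℤ) := by
        exact_mod_cast le_max_left _ _
      exact (hN t h).trans h2

private theorem zer_poly (q : Polynomial ℝ) (hq : q ≠ 0) :
    ∃ c : ℝ, 0 < c ∧ ∃ A₀ : ℝ, 1 ≤ A₀ ∧ ∀ A : ℝ, A₀ ≤ A → c * A ^ q.natDegree ≤ |q.eval A| := by
  have h := (Polynomial.isEquivalent_atTop_lead q).isLittleO.def (c := 1 / 2) (by norm_num)
  rw [Filter.eventually_atTop] at h
  obtain ⟨B, hB⟩ := h
  have hl : q.leadingCoeff ≠ 0 := Polynomial.leadingCoeff_ne_zero.2 hq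
  refine ⟨|q.leadingCoeff| / 2, by positivity, max B 1, le_max_right _ _, ?_⟩
  intro A hA
  have hA1 : 1 ≤ A := (le_max_right _ _).trans hA
  have h1 := hB A ((le_max_left _ _).trans hA)
  rw [Pi.sub_apply, Real.norm_eq_abs, Real.norm_eq_abs] at h1
  have h2 : |q.leadingCoeff * A ^ q.natDegree| = |q.leadingCoeff| * A ^ q.natDegree := by
    rw [abs_mul, abs_of_nonneg (by positivity : (0 : ℝ) ≤ A ^ q.natDegree)]
  have h3 := abs_sub_abs_le_abs_sub (q.leadingCoeff * A ^ q.natDegree) (q.eval A)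
  rw [abs_sub_comm] at h3
  rw [h2] at h1 h3
  linarith

private theorem zer_rev (q : Polynomial ℝ) {A : ℝ} (hA : A ≠ 0) :
    q.eval A⁻¹ * A ^ q.natDegree = q.reverse.eval A := by
  have hA' : A⁻¹ ≠ 0 := inv_ne_zero hA
  let _ : Invertible A⁻¹ := invertibleOfNonzero hA'
  have h := Polynomial.eval₂_reverse_mul_pow (RingHom.id ℝ) A⁻¹ q
  rw [invOf_eq_inv, inv_inv] at h
  rw [← Polynomial.eval₂_id, ← h, Polynomial.eval₂_id, mul_assoc, ← mul_pow, inv_mul_cancel₀ hA,
    one_pow, mul_one]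

/-- the polynomial `A ^ N * κ(A)` -/
private noncomputable def zq (l : List (ℤ × Word)) (N : ℕ) : Polynomial ℝ :=
  (l.map fun t => Polynomial.X ^ ((N : ℤ) + t.1 - 2 * ((lp t.2 - 1 : ℕ) : ℤ)).toNat *
    (-(Polynomial.X ^ 4 + 1)) ^ (lp t.2 - 1)).sum

private theorem zq_eval (l : List (ℤ × Word)) (N : ℕ)
    (hN : ∀ t ∈ l, 2 * ((lp t.2 - 1 : ℕ) : ℤ) - t.1 ≤ N) {A : ℝ} (hA : A ≠ 0) :
    (zq l N).eval A = A ^ N * (l.map fun t => A ^ t.1 * dlt A ^ (lp t.2 - 1)).sum := by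
  unfold zq
  rw [← Polynomial.coe_evalRingHom, map_list_sum, List.map_map, ← List.sum_map_mul_left]
  congr 1
  apply List.map_congr_left
  intro t ht
  have h1 := hN t ht
  set m := lp t.2 - 1 with hm
  have h2 : ((((N : ℤ) + t.1 - 2 * (m : ℤ)).toNat : ℕ) : ℤ) = (N : ℤ) + t.1 - 2 * (m : ℤ) :=
    Int.toNat_of_nonneg (by linarith)
  simp only [Function.comp_apply, Polynomial.coe_evalRingHom, Polynomial.eval_mul,
    Polynomial.eval_pow, Polynomial.eval_X, Polynomial.eval_neg, Polynomial.eval_add,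
    Polynomial.eval_one]
  rw [← zpow_natCast A (((N : ℤ) + t.1 - 2 * (m : ℤ)).toNat), h2]
  have h3 : dlt A = (-(A ^ 4 + 1)) * A ^ (-2 : ℤ) := by
    have e : A ^ (-2 : ℤ) = (A⁻¹) ^ 2 := by
      rw [zpow_neg, inv_pow]
      rfl
    rw [e]
    unfold dlt
    field_simp
    ring
  rw [h3, mul_pow, ← zpow_natCast (A ^ (-2 : ℤ)) m, ← zpow_mul, sub_eq_add_neg, zpow_add₀ hA,
    zpow_add₀ hA, zpow_natCast]
  have h4 : A ^ (-(2 * (m : ℤ))) = A ^ (-2 * (m : ℤ)) := by
    congr 1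
  rw [h4]
  ring

theorem gr_zero {w : Word} (h : Ok 0 w 0) (hw : w ≠ []) : Gr w 0 := by
  obtain ⟨N, hN⟩ := zer_bound (fun t : ℤ × Word => 2 * ((lp t.2 - 1 : ℕ) : ℤ) - t.1) (sts w)
  have hlp : ∀ t ∈ sts w, lp t.2 = (lp t.2 - 1) + 1 := by
    intro t ht
    have := lp_pos t.2 (cr_sts ht) (ok_sts h ht) (zer_ne h hw ht)
    omega
  -- the polynomial is not zero
  have hne : zq (sts w) N ≠ 0 := by
    intro h0
    have h1 := zq_eval (sts w) N hN (one_ne_zero (α := ℝ))
    rw [h0, Polynomial.eval_zero, one_pow, one_mul] at h1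
    have hd : dlt 1 = -2 := by
      unfold dlt
      norm_num
    have h2 : (((sts w).map fun t => ((-2 : ℤ)) ^ (lp t.2 - 1)).sum : ℤ) = 0 := by
      have h3 : ((((sts w).map fun t => ((-2 : ℤ)) ^ (lp t.2 - 1)).sum : ℤ) : ℝ) = 0 := by
        rw [h1, Int.cast_list_sum, List.map_map]
        congr 1
        apply List.map_congr_left
        intro t _
        simp only [Function.comp_apply]
        rw [one_zpow, one_mul, hd]
        push_cast
        rfl
      exact_mod_cast h3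
    have h4 := congrArg (Int.cast : ℤ → ZMod 3) h2
    rw [Int.cast_list_sum, List.map_map] at h4
    have h5 : ((sts w).map ((Int.cast : ℤ → ZMod 3) ∘ fun t => ((-2 : ℤ)) ^ (lp t.2 - 1)))
        = (sts w).map fun _ => (1 : ZMod 3) := by
      apply List.map_congr_left
      intro t _
      simp only [Function.comp_apply]
      push_cast
      have : (-2 : ZMod 3) = 1 := by decide
      rw [this, one_pow]
    rw [h5] at h4
    simp only [List.map_const', List.sum_replicate, nsmul_eq_mul, mul_one, Int.cast_zero] at h4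
    obtain ⟨n, hn⟩ := zer_len w
    rw [hn, Nat.cast_pow] at h4
    have h6 : (((2 : ℕ) : ZMod 3)) ≠ 0 := by decide
    have h8 : IsUnit ((2 : ℕ) : ZMod 3) := by decide
    exact (h8.pow n).ne_zero h4
  have hrne : (zq (sts w) N).reverse ≠ 0 := fun h0 => hne (Polynomial.reverse_eq_zero.1 h0)
  obtain ⟨c, hc, B, hB, hcB⟩ := zer_poly _ hne
  obtain ⟨c', hc', B', hB', hcB'⟩ := zer_poly _ hrne
  refine ⟨c * c', by positivity, max B B', hB.trans (le_max_left _ _), ?_⟩
  intro A hA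
  have hA1 : 1 ≤ A := hB.trans ((le_max_left _ _).trans hA)
  have hA0 : A ≠ 0 := by positivity
  have hAi : A⁻¹ ≠ 0 := inv_ne_zero hA0
  have k1 := hcB A ((le_max_left _ _).trans hA)
  have k2 := hcB' A ((le_max_right _ _).trans hA)
  set q := zq (sts w) N with hq
  have hdi : dlt A⁻¹ = dlt A := by
    unfold dlt
    rw [inv_inv]
    ring
  have e1 : K w A = dlt A * ((sts w).map fun t => A ^ t.1 * dlt A ^ (lp t.2 - 1)).sum := by
    rw [K_sts h hA0, ← List.sum_map_mul_left]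
    congr 1
    apply List.map_congr_left
    intro t ht
    conv_lhs => rw [hlp t ht]
    rw [pow_succ]
    ring
  have e2 : K (mir w) A = dlt A * ((sts w).map fun t => A⁻¹ ^ t.1 * dlt A⁻¹ ^ (lp t.2 - 1)).sum := by
    rw [K_sts_mir h hA0, ← List.sum_map_mul_left, hdi]
    congr 1
    apply List.map_congr_left
    intro t ht
    conv_lhs => rw [hlp t ht]
    rw [pow_succ, inv_zpow', ]
    ring
  have q1 := zq_eval (sts w) N hN hA0
  have q2 := zq_eval (sts w) N hN hAi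
  rw [← hq] at q1 q2
  have e3 : K w A * K (mir w) A = dlt A ^ 2 * (q.eval A * q.eval A⁻¹) := by
    rw [e1, e2, q1, q2, inv_pow]
    have : A ^ N ≠ 0 := pow_ne_zero _ hA0
    field_simp
  have r1 : |q.eval A⁻¹| * A ^ q.natDegree = |q.reverse.eval A| := by
    rw [← zer_rev q hA0, abs_mul, abs_of_nonneg (by positivity : (0 : ℝ) ≤ A ^ q.natDegree)]
  have hpow : 0 < A ^ q.natDegree := by positivity
  have r2 : c' ≤ |q.eval A⁻¹| * A ^ q.natDegree := by
    rw [r1]
    refine le_trans ?_ k2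
    have : 1 ≤ A ^ q.reverse.natDegree := one_le_pow₀ hA1
    nlinarith
  have r3 : c * c' ≤ |q.eval A| * |q.eval A⁻¹| := by
    have h1 : (c * A ^ q.natDegree) * |q.eval A⁻¹| ≤ |q.eval A| * |q.eval A⁻¹| :=
      mul_le_mul_of_nonneg_right k1 (abs_nonneg _)
    have h2 : c * c' ≤ c * (|q.eval A⁻¹| * A ^ q.natDegree) := mul_le_mul_of_nonneg_left r2 hc.le
    linarith
  have r4 : A ^ 4 ≤ dlt A ^ 2 := by
    have h1 : dlt A ^ 2 = A ^ 4 + 2 + (A⁻¹) ^ 4 := by
      unfold dlt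
      field_simp
      ring
    rw [h1]
    have : 0 < (A⁻¹) ^ 4 := by positivity
    linarith
  unfold H
  rw [e3, abs_mul, abs_mul, abs_of_nonneg (sq_nonneg _)]
  have h0 : 2 * 0 + 4 = 4 := rfl
  rw [h0]
  calc c * c' * A ^ 4 ≤ (|q.eval A| * |q.eval A⁻¹|) * A ^ 4 :=
        mul_le_mul_of_nonneg_right r3 (by positivity)
    _ ≤ (|q.eval A| * |q.eval A⁻¹|) * dlt A ^ 2 :=
        mul_le_mul_of_nonneg_left r4 (by positivity)
    _ = dlt A ^ 2 * (|q.eval A| * |q.eval A⁻¹|) := by ring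

end Pool.Agent.KCS
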