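import Pool.Agent.KCS.BRD
import Pool.Agent.KCS.GRO
import Pool.Agent.KCS.GRT
import Pool.Agent.KCS.UNK
import Pool.Agent.KCS.ZER

/-!
# KCS / BR3: closed 3-braids

`braid_ind` for `SB`. `SB` is invariant under equivalence and rotation (`teq_cl3`, `cl3_rot`, `isKnot_teq`, `cc_teq`, `gr_teq`),
mirror images (`mir_cl3`, `isKnot_mir`, `cc_mir`, `gr_mir`) and `fl` (`braid_flip`).
`h0`, `h1`: not knots. `h2`: `m ≥ 1`: `gr_torus_one`, `cc ≤ 6 m + 2` (number of letters); `m = 0`: unknot, `cc_unknot`, `gr_zero`;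
`m < 0`: mirror image of `h3` for `-m - 1` (`ml_torus`). `h3`: `m ≥ 0`: `gr_torus_two`; `m < 0`: mirror image of `h2` for
`-m - 1`. `h4`: one letter only: not a knot. Both letters, `m ≥ 0`: `gr_generic` and `cc ≤ 6 m + |v| - 2 min (2 m, Q)`
(`braid_absorb` with `k = 2 m`); the exception is an unknot. `m < 0`: mirror image and `fl` give `cw (-m) ++ gw (v.map not)`
(`ml_cw`, `cw_flip`, `ml_gw`).
-/

namespace Pool.Agent.KCS

theorem br3_teq {l l' : List Ltr} (h : TEq 0 0 (cl3 (bw l)) (cl3 (bw l'))) (hS : SB l) : SB l' := by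
  intro hk
  have hk' : IsKnot (cl3 (bw l)) := (isKnot_teq h).2 hk
  have := gr_teq h (hS hk')
  rwa [cc_teq h] at this

theorem br3_ml_ml (l : List Ltr) : ml (ml l) = l := by
  simp [ml, Function.comp_def]

theorem br3_ml {l : List Ltr} (hS : SB l) : SB (ml l) := by
  intro hk
  rw [← mir_cl3] at hk ⊢
  have hk' : IsKnot (cl3 (bw l)) := isKnot_mir.1 hk
  rw [cc_mir]
  exact gr_mir (hS hk')

theorem br3_ml_iff {l : List Ltr} (hS : SB (ml l)) : SB l := by
  have := br3_ml hS
  rwa [br3_ml_ml] at this

/-- enough letters -/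
theorem br3_of_le {l : List Ltr} {k : ℕ} (hg : Gr (cl3 (bw l)) k) (hc : cc (cl3 (bw l)) ≤ k) :
    SB l := fun _ => gr_mono hc hg

theorem br3_cc_le (l : List Ltr) : cc (cl3 (bw l)) ≤ l.length := by
  have := cc_le (ok_cl3 l) (teq_refl 0 0 (cl3 (bw l)))
  rwa [cr_cl3] at this

theorem br3_zero {l : List Ltr} (hc : cc (cl3 (bw l)) = 0) : SB l := by
  refine br3_of_le (k := 0) (gr_zero (ok_cl3 l) ?_) hc.le
  simp [cl3]

theorem br3_length_cw (m : ℕ) : (cw (m : ℤ)).length = 6 * m := by
  show (List.replicate m _).flatten.length = 6 * m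
  rw [List.length_flatten, List.map_replicate, List.sum_replicate]
  simp [mul_comm]

theorem br3_cw_zero : cw 0 = [] := rfl

theorem br3_one_nat (m : ℕ) : SB (cw (m : ℤ) ++ [(false, true), (true, true)]) := by
  rcases Nat.eq_zero_or_pos m with rfl | hm
  · apply br3_zero
    have : cw ((0 : ℕ) : ℤ) = [] := br3_cw_zero
    rw [this, List.nil_append]
    exact cc_unknot true true
  · refine br3_of_le (gr_torus_one m hm) ((br3_cc_le _).trans ?_)
    rw [List.length_append, br3_length_cw]
    simp

theorem br3_two_nat (m : ℕ) :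
    SB (cw (m : ℤ) ++ [(false, true), (true, true), (false, true), (true, true)]) := by
  refine br3_of_le (gr_torus_two m) ((br3_cc_le _).trans ?_)
  rw [List.length_append, br3_length_cw]
  simp

theorem br3_one (m : ℤ) : SB (cw m ++ [(false, true), (true, true)]) := by
  rcases le_or_gt 0 m with hm | hm
  · obtain ⟨n, rfl⟩ := Int.eq_ofNat_of_zero_le hm
    exact br3_one_nat n
  · obtain ⟨n, hn⟩ := Int.eq_ofNat_of_zero_le (show 0 ≤ -m - 1 by omega)
    have h := ml_torus m
    rw [hn] at h
    exact br3_ml_iff (br3_teq h.symm (br3_two_nat n))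

theorem br3_two (m : ℤ) :
    SB (cw m ++ [(false, true), (true, true), (false, true), (true, true)]) := by
  rcases le_or_gt 0 m with hm | hm
  · obtain ⟨n, rfl⟩ := Int.eq_ofNat_of_zero_le hm
    exact br3_two_nat n
  · obtain ⟨n, hn⟩ := Int.eq_ofNat_of_zero_le (show 0 ≤ -m - 1 by omega)
    have h := ml_torus (n : ℤ)
    have e : -(n : ℤ) - 1 = m := by omega
    rw [e] at h
    exact br3_teq h (br3_ml (br3_one_nat n))

theorem br3_cw_half (m : ℕ) :
    (List.replicate (2 * m) [((false, true) : Ltr), (true, true), (false, true)]).flatten = cw (m : ℤ) := by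
  show _ = (List.replicate m _).flatten
  induction m with
  | zero => simp
  | succ m ih =>
    rw [show 2 * (m + 1) = (2 * m + 1) + 1 by ring, List.replicate_succ, List.replicate_succ,
      List.replicate_succ, List.flatten_cons, List.flatten_cons, List.flatten_cons, ih]
    simp

theorem br3_count (v : List Bool) : (gw v).countP (fun t => !t.2) = v.count false := by
  unfold gw
  rw [List.countP_map, List.count]
  congr 1
  funext t
  cases t <;> rfl

theorem br3_gen_nat (m : ℕ) (v : List Bool) (h1 : true ∈ v) (h2 : false ∈ v) :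
    SB (cw (m : ℤ) ++ gw v) := by
  by_cases h3 : m = 0 ∧ v.count true = 1 ∧ v.count false = 1
  · obtain ⟨rfl, ht, hf⟩ := h3
    have h0 : cw ((0 : ℕ) : ℤ) = [] := br3_cw_zero
    rw [h0, List.nil_append]
    have hlen : v.length = 2 := by
      have := List.count_true_add_count_false (l := v)
      omega
    obtain ⟨x, y, rfl⟩ := List.length_eq_two.1 hlen
    cases x <;> cases y
    · simp at h1
    · exact br3_zero (cc_unknot false true)
    · apply br3_teq (l := [(false, false), (true, true)]) ?_ (br3_zero (cc_unknot false true))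
      exact cl3_rot [(false, false)] [(true, true)]
    · simp at h2
  · obtain ⟨l', hl', hlen⟩ := braid_absorb (2 * m) (gw v)
    rw [br3_cw_half] at hl'
    rw [br3_count] at hlen
    have hg : (gw v).length = v.length := by simp [gw]
    rw [hg] at hlen
    refine br3_of_le (gr_generic m v h1 h2 h3) ?_
    have h4 := cc_le (ok_cl3 _) (teq_cl3 hl').symm
    rw [cr_cl3] at h4
    omega

theorem br3_fl_ml_gw (v : List Bool) : fl (ml (gw v)) = gw (v.map not) := by
  simp only [fl, ml, gw, List.map_map]
  congr 1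
  funext t
  cases t <;> rfl

theorem br3_gen (m : ℤ) (v : List Bool) (h1 : true ∈ v) (h2 : false ∈ v) :
    SB (cw m ++ gw v) := by
  rcases le_or_gt 0 m with hm | hm
  · obtain ⟨n, rfl⟩ := Int.eq_ofNat_of_zero_le hm
    exact br3_gen_nat n v h1 h2
  · obtain ⟨n, hn⟩ := Int.eq_ofNat_of_zero_le (show 0 ≤ -m by omega)
    have h1' : true ∈ v.map not := List.mem_map.2 ⟨false, h2, rfl⟩
    have h2' : false ∈ v.map not := List.mem_map.2 ⟨true, h1, rfl⟩
    have h5 := br3_gen_nat n (v.map not) h1' h2'
    have h6 := cw_flip (n : ℤ) (gw (v.map not))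
    have h7 : SB (fl (cw (n : ℤ)) ++ gw (v.map not)) := br3_teq (teq_cl3 h6).symm h5
    have h8 : fl (ml (cw m ++ gw v)) = fl (cw (n : ℤ)) ++ gw (v.map not) := by
      have e1 : ml (cw m ++ gw v) = cw (n : ℤ) ++ ml (gw v) := by
        rw [← hn, ← ml_cw]
        simp [ml]
      rw [e1, ← br3_fl_ml_gw]
      simp [fl]
    rw [← h8] at h7
    exact br3_ml_iff (br3_teq (braid_flip _) h7)

theorem braid_growth (l : List Ltr) : SB l := by
  refine braid_ind SB ?_ ?_ ?_ ?_ br3_one br3_two ?_ l
  · intro l l' h hS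
    exact br3_teq (teq_cl3 h) hS
  · intro l l' hS
    exact br3_teq (cl3_rot l l') hS
  · intro m hk
    exact absurd hk (not_knot_zero m)
  · intro m hk
    exact absurd hk (not_knot_one m)
  · intro m v hv hk
    by_cases h1 : true ∈ v
    · by_cases h2 : false ∈ v
      · exact br3_gen m v h1 h2 hk
      · refine absurd hk (not_knot_power m v true fun t ht => ?_)
        cases t
        · exact absurd ht h2
        · rfl
    · refine absurd hk (not_knot_power m v false fun t ht => ?_)
      cases t
      · rfl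
      · exact absurd ht h1

end Pool.Agent.KCS
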