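import Mathlib

/-!
# KCS / CLS: conjugacy classes in the braid group with three strands

`G` is any group with elements `a b` satisfying the braid relation. Put `x = a b a`, `y = a b`, `c = x ^ 2 = y ^ 3`, which
commutes with `a` and `b`. Then `a = y⁻¹ x`, `b = x⁻¹ y ^ 2`, `x y = c a⁻¹`, `x y ^ 2 = c b`.
(1) Every product of the letters `a, b` and their inverses is `c ^ m * h * Π E * s` with `h ∈ {1, y, y ^ 2}`, `s ∈ {1, x}` and
`Π E` a product of factors `x y`, `x y ^ 2`: multiply on the right by `x` or by `y` (`x x = c`, `y y y = c`; note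
`a⁻¹ = c⁻¹ x y`, `b = c⁻¹ x y ^ 2`, `a = y⁻¹ x = c⁻¹ y ^ 2 x`, `b⁻¹ = y⁻² x = c⁻¹ y x`).
(2) Up to conjugation `h` moves to the end; induction on the number of factors of `Π E`: `Π E * x` with `E = (x y ^ e) E'` is
conjugate to `c y ^ e Π E'`; `Π E * y ^ e` with last factor `x y ^ e'`: `y ^ (e' + e)`, where `y ^ 3 = c`.
(3) `Π E` for nonempty `E` is a power of `c` times a product of letters `b`, `a⁻¹`.
-/

namespace Pool.Agent.KCS

private def cW {G : Type} [Group G] (a b : G) (v : List Bool) : G :=
  (v.map fun t => if t then b else a⁻¹).prod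

private theorem cW_nil {G : Type} [Group G] (a b : G) : cW a b [] = 1 := by simp [cW]

private theorem cW_cons {G : Type} [Group G] (a b : G) (t : Bool) (v : List Bool) :
    cW a b (t :: v) = (if t then b else a⁻¹) * cW a b v := by simp [cW]

private theorem cW_append {G : Type} [Group G] (a b : G) (v : List Bool) (t : Bool) :
    cW a b (v ++ [t]) = cW a b v * (if t then b else a⁻¹) := by simp [cW]

private theorem cW_comm {G : Type} [Group G] {a b c : G} (ha : Commute c a) (hb : Commute c b)
    (v : List Bool) : Commute c (cW a b v) := by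
  induction v with
  | nil => rw [cW_nil]; exact Commute.one_right c
  | cons t v ih =>
    rw [cW_cons]
    cases t
    · exact ha.inv_right.mul_right ih
    · exact hb.mul_right ih

private theorem cW_mem {G : Type} [Group G] {a b : G} {H : Subgroup G} (ha : a ∈ H) (hb : b ∈ H)
    (v : List Bool) : cW a b v ∈ H := by
  induction v with
  | nil => rw [cW_nil]; exact H.one_mem
  | cons t v ih =>
    rw [cW_cons]
    cases t
    · exact H.mul_mem (H.inv_mem ha) ih
    · exact H.mul_mem hb ih

theorem cls {G : Type} [Group G] (a b : G) (hab : a * b * a = b * a * b) (S : G → Prop)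
    (hconj : ∀ g h : G, g ∈ Subgroup.closure {a, b} → h ∈ Subgroup.closure {a, b} →
      S (g * h) → S (h * g))
    (h0 : ∀ m : ℤ, S ((a * b * a * a * b * a) ^ m))
    (h1 : ∀ m : ℤ, S ((a * b * a * a * b * a) ^ m * (a * b * a)))
    (h2 : ∀ m : ℤ, S ((a * b * a * a * b * a) ^ m * (a * b)))
    (h3 : ∀ m : ℤ, S ((a * b * a * a * b * a) ^ m * (a * b * a * b)))
    (h4 : ∀ (m : ℤ) (v : List Bool), v ≠ [] →
      S ((a * b * a * a * b * a) ^ m * (v.map fun t => if t then b else a⁻¹).prod)) :
    ∀ g ∈ Subgroup.closure {a, b}, S g := by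
  obtain ⟨x, hx⟩ : ∃ x, x = a * b * a := ⟨_, rfl⟩
  obtain ⟨y, hy⟩ : ∃ y, y = a * b := ⟨_, rfl⟩
  obtain ⟨c, hc⟩ : ∃ c, c = a * b * a * a * b * a := ⟨_, rfl⟩
  set H := Subgroup.closure {a, b} with hH
  have haH : a ∈ H := Subgroup.subset_closure (by simp)
  have hbH : b ∈ H := Subgroup.subset_closure (by simp)
  have hyH : y ∈ H := by rw [hy]; exact H.mul_mem haH hbH
  have hxH : x ∈ H := by rw [hx]; exact H.mul_mem (H.mul_mem haH hbH) haH
  have hcH : c ∈ H := by
    rw [hc]
    exact H.mul_mem (H.mul_mem (H.mul_mem (H.mul_mem (H.mul_mem haH hbH) haH) haH) hbH) haH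
  have hWH := cW_mem haH hbH
  have hxx : x * x = c := by rw [hx, hc]; simp only [mul_assoc]
  have hxa : x * a = b * x := by
    calc x * a = (b * a * b) * a := by rw [hx, hab]
      _ = b * (a * b * a) := by simp only [mul_assoc]
      _ = b * x := by rw [hx]
  have hxb : x * b = a * x := by
    calc x * b = a * (b * a * b) := by rw [hx]; simp only [mul_assoc]
      _ = a * x := by rw [← hab, hx]
  have hca : Commute c a := by
    show c * a = a * c
    calc c * a = x * (x * a) := by rw [← hxx, mul_assoc]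
      _ = (x * b) * x := by rw [hxa, mul_assoc]
      _ = a * c := by rw [hxb, mul_assoc, hxx]
  have hcb : Commute c b := by
    show c * b = b * c
    calc c * b = x * (x * b) := by rw [← hxx, mul_assoc]
      _ = (x * a) * x := by rw [hxb, mul_assoc]
      _ = b * c := by rw [hxa, mul_assoc, hxx]
  have hcy : Commute c y := by rw [hy]; exact hca.mul_right hcb
  have hcx : Commute c x := by rw [hx]; exact (hca.mul_right hcb).mul_right hca
  have hcW := cW_comm hca hcb
  have hyyy : y * y * y = c := by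
    calc y * y * y = (a * b * a) * (b * a * b) := by rw [hy]; simp only [mul_assoc]
      _ = (a * b * a) * (a * b * a) := by rw [← hab]
      _ = c := by rw [hc]; simp only [mul_assoc]
  have hay : a⁻¹ * y = b := by rw [hy, inv_mul_cancel_left]
  have hby : b * y = x := by rw [hy, hx, hab, mul_assoc]
  have hya : y * a = x := by rw [hy, hx]
  have hxy : x * y = c * a⁻¹ := by
    rw [eq_mul_inv_iff_mul_eq, mul_assoc, hya, hxx]
  have hxb2 : x * b = y * y := by rw [hx, hy]; simp only [mul_assoc]
  have hxyy : x * (y * y) = c * b := by rw [← hxb2, ← mul_assoc, hxx]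
  have hxai : x * a⁻¹ = y := by rw [hx, hy, mul_inv_cancel_right]
  have hyx : y * x = c * b⁻¹ := by
    rw [eq_mul_inv_iff_mul_eq, mul_assoc, hxb2, ← mul_assoc, hyyy]
  have hyyx : y * y * x = c * a := by
    rw [← hya, ← mul_assoc, hyyy]
  rw [← hc] at h0 h1 h2 h3 h4
  rw [← hx] at h1
  rw [← hy] at h2
  have h3' : ∀ m : ℤ, S (c ^ m * (y * y)) := by
    intro m
    have e1 : y * y = a * b * a * b := by rw [hy]; simp only [mul_assoc]
    rw [e1]
    exact h3 m
  have h4' : ∀ (m : ℤ) (v : List Bool), v ≠ [] → S (c ^ m * cW a b v) := h4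
  have hzc : ∀ (m : ℤ) (g : G), Commute c g → g * c ^ m = c ^ m * g := fun m g hg =>
    (hg.zpow_left m).eq.symm
  have hcmH : ∀ m : ℤ, c ^ m ∈ H := fun m => H.zpow_mem hcH m
  have hfa : (if false = true then b else a⁻¹) = a⁻¹ := rfl
  have htr : (if true = true then b else a⁻¹) = b := rfl
  have hP : ∀ n : ℕ, ∀ v : List Bool, v.length = n → ∀ m : ℤ,
      S (c ^ m * cW a b v * x) ∧ S (c ^ m * cW a b v * y) ∧ S (c ^ m * cW a b v * (y * y)) := by
    intro n
    induction n with
    | zero =>
      intro v hv m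
      rw [List.length_eq_zero_iff] at hv
      rw [hv, cW_nil, mul_one]
      exact ⟨h1 m, h2 m, h3' m⟩
    | succ n ih =>
      intro v hv m
      refine ⟨?_, ?_, ?_⟩
      · obtain ⟨t, v', rfl⟩ := List.exists_cons_of_length_eq_add_one hv
        have hv' : v'.length = n := by simpa using hv
        refine hconj x (c ^ m * cW a b (t :: v')) hxH (H.mul_mem (hcmH m) (hWH _)) ?_
        have e0 : x * (c ^ m * cW a b (t :: v')) =
            c ^ m * (x * (if t = true then b else a⁻¹)) * cW a b v' := by
          rw [cW_cons, ← mul_assoc, hzc m x hcx]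
          simp only [mul_assoc]
        rw [e0]
        cases t
        · rw [hfa, hxai]
          have e1 : c ^ m * y * cW a b v' = y * (c ^ m * cW a b v') := by
            rw [← hzc m y hcy]; simp only [mul_assoc]
          rw [e1]
          refine hconj (c ^ m * cW a b v') y (H.mul_mem (hcmH m) (hWH _)) hyH ?_
          exact (ih v' hv' m).2.1
        · rw [htr, hxb2]
          have e1 : c ^ m * (y * y) * cW a b v' = (y * y) * (c ^ m * cW a b v') := by
            rw [← hzc m (y * y) (hcy.mul_right hcy)]; simp only [mul_assoc]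
          rw [e1]
          refine hconj (c ^ m * cW a b v') (y * y) (H.mul_mem (hcmH m) (hWH _))
            (H.mul_mem hyH hyH) ?_
          exact (ih v' hv' m).2.2
      · obtain ⟨v', t, rfl⟩ : ∃ v' t, v = v' ++ [t] := by
          have hne : v ≠ [] := by rintro rfl; simp at hv
          exact ⟨v.dropLast, v.getLast hne, (List.dropLast_append_getLast hne).symm⟩
        have hv' : v'.length = n := by simpa using hv
        rw [cW_append]
        cases t
        · rw [hfa]
          have e1 : c ^ m * (cW a b v' * a⁻¹) * y = c ^ m * cW a b (v' ++ [true]) := by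
            rw [cW_append, htr, ← hay]; simp only [mul_assoc]
          rw [e1]
          exact h4' m _ (by simp)
        · rw [htr]
          have e1 : c ^ m * (cW a b v' * b) * y = c ^ m * cW a b v' * x := by
            rw [← hby]; simp only [mul_assoc]
          rw [e1]
          exact (ih v' hv' m).1
      · obtain ⟨v', t, rfl⟩ : ∃ v' t, v = v' ++ [t] := by
          have hne : v ≠ [] := by rintro rfl; simp at hv
          exact ⟨v.dropLast, v.getLast hne, (List.dropLast_append_getLast hne).symm⟩
        have hv' : v'.length = n := by simpa using hv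
        rw [cW_append]
        cases t
        · rw [hfa]
          have e1 : c ^ m * (cW a b v' * a⁻¹) * (y * y) = c ^ m * cW a b v' * x := by
            have e2 : a⁻¹ * (y * y) = x := by rw [← mul_assoc, hay, hby]
            rw [← e2]; simp only [mul_assoc]
          rw [e1]
          exact (ih v' hv' m).1
        · rw [htr]
          have e1 : c ^ m * (cW a b v' * b) * (y * y) = c ^ (m + 1) * cW a b (v' ++ [false]) := by
            have e2 : b * (y * y) = c * a⁻¹ := by rw [← mul_assoc, hby, hxy]
            have e3 : cW a b v' * c = c * cW a b v' := (hcW v').eq.symm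
            calc c ^ m * (cW a b v' * b) * (y * y) = c ^ m * (cW a b v' * (b * (y * y))) := by
                  simp only [mul_assoc]
              _ = c ^ m * ((cW a b v' * c) * a⁻¹) := by rw [e2]; simp only [mul_assoc]
              _ = c ^ m * c * (cW a b v' * a⁻¹) := by rw [e3]; simp only [mul_assoc]
              _ = c ^ (m + 1) * cW a b (v' ++ [false]) := by
                  rw [cW_append, hfa, zpow_add_one]
          rw [e1]
          exact h4' (m + 1) _ (by simp)
  have hQ0 : ∀ (v : List Bool) (m : ℤ), S (c ^ m * cW a b v) := by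
    intro v m
    by_cases hv : v = []
    · rw [hv, cW_nil, mul_one]; exact h0 m
    · exact h4' m v hv
  have hQxy : ∀ (v : List Bool) (m : ℤ), S (c ^ m * cW a b v * x * y) := by
    intro v m
    have e3 : cW a b v * c = c * cW a b v := (hcW v).eq.symm
    have e1 : c ^ m * cW a b v * x * y = c ^ (m + 1) * cW a b (v ++ [false]) := by
      calc c ^ m * cW a b v * x * y = c ^ m * ((cW a b v * c) * a⁻¹) := by
            rw [mul_assoc _ x y, hxy]; simp only [mul_assoc]
        _ = c ^ m * c * (cW a b v * a⁻¹) := by rw [e3]; simp only [mul_assoc]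
        _ = c ^ (m + 1) * cW a b (v ++ [false]) := by rw [cW_append, hfa, zpow_add_one]
    rw [e1]
    exact h4' _ _ (by simp)
  have hQxyy : ∀ (v : List Bool) (m : ℤ), S (c ^ m * cW a b v * x * (y * y)) := by
    intro v m
    have e3 : cW a b v * c = c * cW a b v := (hcW v).eq.symm
    have e1 : c ^ m * cW a b v * x * (y * y) = c ^ (m + 1) * cW a b (v ++ [true]) := by
      calc c ^ m * cW a b v * x * (y * y) = c ^ m * ((cW a b v * c) * b) := by
            rw [mul_assoc _ x (y * y), hxyy]; simp only [mul_assoc]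
        _ = c ^ m * c * (cW a b v * b) := by rw [e3]; simp only [mul_assoc]
        _ = c ^ (m + 1) * cW a b (v ++ [true]) := by rw [cW_append, htr, zpow_add_one]
    rw [e1]
    exact h4' _ _ (by simp)
  -- powers of `y`
  have hyi : ∀ i : ℕ, ∃ (k : ℤ), y ^ i = c ^ k ∨ y ^ i = c ^ k * y ∨ y ^ i = c ^ k * (y * y) := by
    intro i
    induction i with
    | zero => exact ⟨0, Or.inl (by simp)⟩
    | succ i ih =>
      obtain ⟨k, h | h | h⟩ := ih
      · exact ⟨k, Or.inr (Or.inl (by rw [pow_succ, h]))⟩
      · exact ⟨k, Or.inr (Or.inr (by rw [pow_succ, h, mul_assoc]))⟩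
      · exact ⟨k + 1, Or.inl (by rw [pow_succ, h, mul_assoc, hyyy, zpow_add_one])⟩
  have hS : ∀ (m : ℤ) (i : ℕ) (w : G), w ∈ H → (∀ k : ℤ, S (c ^ k * w)) →
      (∀ k : ℤ, S (c ^ k * w * y)) → (∀ k : ℤ, S (c ^ k * w * (y * y))) →
      S (c ^ m * y ^ i * w) := by
    intro m i w hw k0 k1 k2
    obtain ⟨k, h | h | h⟩ := hyi i
    · rw [h, ← zpow_add]; exact k0 _
    · have e1 : c ^ m * y ^ i * w = y * (c ^ (m + k) * w) := by
        rw [h, ← mul_assoc, ← zpow_add, ← hzc _ y hcy]; simp only [mul_assoc]
      rw [e1]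
      exact hconj _ _ (H.mul_mem (hcmH _) hw) hyH (k1 _)
    · have e1 : c ^ m * y ^ i * w = (y * y) * (c ^ (m + k) * w) := by
        rw [h, ← mul_assoc, ← zpow_add, ← hzc _ (y * y) (hcy.mul_right hcy)]
        simp only [mul_assoc]
      rw [e1]
      exact hconj _ _ (H.mul_mem (hcmH _) hw) (H.mul_mem hyH hyH) (k2 _)
  -- the normal form
  have hN : ∀ g ∈ H, (∃ (m : ℤ) (i : ℕ) (v : List Bool), g = c ^ m * y ^ i * cW a b v) ∨
      (∃ (m : ℤ) (i : ℕ) (v : List Bool), g = c ^ m * y ^ i * (cW a b v * x)) := by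
    have hNx : ∀ g, ((∃ (m : ℤ) (i : ℕ) (v : List Bool), g = c ^ m * y ^ i * cW a b v) ∨
        (∃ (m : ℤ) (i : ℕ) (v : List Bool), g = c ^ m * y ^ i * (cW a b v * x))) →
        ((∃ (m : ℤ) (i : ℕ) (v : List Bool), g * x = c ^ m * y ^ i * cW a b v) ∨
        (∃ (m : ℤ) (i : ℕ) (v : List Bool), g * x = c ^ m * y ^ i * (cW a b v * x))) := by
      rintro g (⟨m, i, v, rfl⟩ | ⟨m, i, v, rfl⟩)
      · exact Or.inr ⟨m, i, v, by simp only [mul_assoc]⟩
      · left
        refine ⟨m + 1, i, v, ?_⟩
        have e1 : c ^ m * y ^ i * (cW a b v * x) * x = c ^ m * ((y ^ i * cW a b v) * c) := by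
          rw [← hxx]; simp only [mul_assoc]
        rw [e1, (((hcy.pow_right i).mul_right (hcW v)).eq).symm, zpow_add_one]
        simp only [mul_assoc]
    have hNy : ∀ g, ((∃ (m : ℤ) (i : ℕ) (v : List Bool), g = c ^ m * y ^ i * cW a b v) ∨
        (∃ (m : ℤ) (i : ℕ) (v : List Bool), g = c ^ m * y ^ i * (cW a b v * x))) →
        ((∃ (m : ℤ) (i : ℕ) (v : List Bool), g * y = c ^ m * y ^ i * cW a b v) ∨
        (∃ (m : ℤ) (i : ℕ) (v : List Bool), g * y = c ^ m * y ^ i * (cW a b v * x))) := by
      rintro g (⟨m, i, v, rfl⟩ | ⟨m, i, v, rfl⟩)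
      · rcases List.eq_nil_or_concat v with rfl | ⟨v', t, rfl⟩
        · left
          refine ⟨m, i + 1, [], ?_⟩
          rw [cW_nil, mul_one, mul_one, pow_succ, mul_assoc]
        · rw [List.concat_eq_append, cW_append]
          cases t
          · left
            refine ⟨m, i, v' ++ [true], ?_⟩
            rw [cW_append, hfa, htr, ← hay]
            simp only [mul_assoc]
          · right
            refine ⟨m, i, v', ?_⟩
            rw [htr, ← hby]
            simp only [mul_assoc]
      · left
        refine ⟨m + 1, i, v ++ [false], ?_⟩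
        have e1 : c ^ m * y ^ i * (cW a b v * x) * y =
            c ^ m * ((y ^ i * cW a b v) * c) * a⁻¹ := by
          have e2 : c ^ m * y ^ i * (cW a b v * x) * y = c ^ m * (y ^ i * cW a b v) * (x * y) := by
            simp only [mul_assoc]
          rw [e2, hxy]; simp only [mul_assoc]
        rw [e1, (((hcy.pow_right i).mul_right (hcW v)).eq).symm, zpow_add_one, cW_append, hfa]
        simp only [mul_assoc]
    have hNc : ∀ g, ((∃ (m : ℤ) (i : ℕ) (v : List Bool), g = c ^ m * y ^ i * cW a b v) ∨
        (∃ (m : ℤ) (i : ℕ) (v : List Bool), g = c ^ m * y ^ i * (cW a b v * x))) →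
        ((∃ (m : ℤ) (i : ℕ) (v : List Bool), g * c⁻¹ = c ^ m * y ^ i * cW a b v) ∨
        (∃ (m : ℤ) (i : ℕ) (v : List Bool), g * c⁻¹ = c ^ m * y ^ i * (cW a b v * x))) := by
      have e0 : ∀ (m : ℤ) (w : G), Commute c w → c ^ m * w * c⁻¹ = c ^ (m - 1) * w := by
        intro m w hw
        rw [mul_assoc, hw.inv_left.eq.symm, ← mul_assoc, zpow_sub_one]
      rintro g (⟨m, i, v, rfl⟩ | ⟨m, i, v, rfl⟩)
      · left
        refine ⟨m - 1, i, v, ?_⟩
        rw [mul_assoc (c ^ m), e0 m _ ((hcy.pow_right i).mul_right (hcW v)), mul_assoc]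
      · right
        refine ⟨m - 1, i, v, ?_⟩
        rw [mul_assoc (c ^ m), e0 m _ ((hcy.pow_right i).mul_right ((hcW v).mul_right hcx)),
          mul_assoc]
    have ea : ∀ g : G, g * a = g * y * y * x * c⁻¹ := by
      intro g
      have e1 : g * y * y * x * c⁻¹ = g * (y * y * x) * c⁻¹ := by simp only [mul_assoc]
      rw [e1, hyyx, hca.eq, ← mul_assoc, mul_inv_cancel_right]
    have eb : ∀ g : G, g * b = g * x * y * y * c⁻¹ := by
      intro g
      have e1 : g * x * y * y * c⁻¹ = g * (x * (y * y)) * c⁻¹ := by simp only [mul_assoc]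
      rw [e1, hxyy, hcb.eq, ← mul_assoc, mul_inv_cancel_right]
    have eai : ∀ g : G, g * a⁻¹ = g * x * y * c⁻¹ := by
      intro g
      rw [mul_assoc g x y, hxy, hca.inv_right.eq, ← mul_assoc, mul_inv_cancel_right]
    have ebi : ∀ g : G, g * b⁻¹ = g * y * x * c⁻¹ := by
      intro g
      rw [mul_assoc g y x, hyx, hcb.inv_right.eq, ← mul_assoc, mul_inv_cancel_right]
    intro g hg
    induction hg using Subgroup.closure_induction_right with
    | one => exact Or.inl ⟨0, 0, [], by rw [cW_nil]; simp⟩
    | mul_right g _ z hz ih =>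
      rcases hz with rfl | hz
      · rw [ea]; exact hNc _ (hNx _ (hNy _ (hNy _ ih)))
      · rw [Set.mem_singleton_iff.1 hz, eb]; exact hNc _ (hNy _ (hNy _ (hNx _ ih)))
    | mul_inv_cancel g _ z hz ih =>
      rcases hz with rfl | hz
      · rw [eai]; exact hNc _ (hNy _ (hNx _ ih))
      · rw [Set.mem_singleton_iff.1 hz, ebi]; exact hNc _ (hNx _ (hNy _ ih))
  intro g hg
  rcases hN g hg with ⟨m, i, v, rfl⟩ | ⟨m, i, v, rfl⟩
  · exact hS m i _ (hWH v) (fun k => hQ0 v k) (fun k => (hP _ v rfl k).2.1)
      (fun k => (hP _ v rfl k).2.2)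
  · refine hS m i _ (H.mul_mem (hWH v) hxH) (fun k => ?_) (fun k => ?_) (fun k => ?_)
    · rw [← mul_assoc (c ^ k)]; exact (hP _ v rfl k).1
    · rw [← mul_assoc (c ^ k)]; exact hQxy v k
    · rw [← mul_assoc (c ^ k)]; exact hQxyy v k

end Pool.Agent.KCS
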