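import Pool.Agent.KCS.GRP
import Pool.Agent.KCS.CLS
import Pool.Agent.KCS.ABS

/-!
# KCS / BRD: induction for braid words

Take the group of `exists_group`, `a = ev [(false, true)]`, `b = ev [(true, true)]`. By `teq_cancel` the letters with sign
`false` are the inverses, by `teq_braid` the braid relation holds, every `ev l` is in the subgroup generated by `a`, `b`,
and every element of this subgroup is some `ev l` (`ev (cw m)` is the power of the full twist).
`braid_ind`: apply `cls` to `S' g := ∀ l, ev l = g → S l` (or `∃`).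
`braid_absorb`: `absorb`. `braid_flip`: with `D = a b a`, `D * ev l = ev (fl l) * D`, so `ev (fl l) = D * ev l * D⁻¹`; `cl3_rot`.
`cw_flip`: `(b a b b a b) = (a b a a b a)`. `cw_neg`: `ml (cw m) = cw (-m)`.
-/

namespace Pool.Agent.KCS

/-- value of a letter in a group -/
def x_lt {G : Type} [Group G] (a b : G) (t : Ltr) : G :=
  if t.1 then (if t.2 then b else b⁻¹) else (if t.2 then a else a⁻¹)

/-- value of a word in a group -/
def x_ev {G : Type} [Group G] (a b : G) (l : List Ltr) : G := (l.map (x_lt a b)).prod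

theorem x_ev_append {G : Type} [Group G] (a b : G) (l l' : List Ltr) :
    x_ev a b (l ++ l') = x_ev a b l * x_ev a b l' := by
  simp [x_ev]

/-- the group of braid words -/
theorem x_grp : ∃ (G : Type) (_ : Group G) (a b : G), a * b * a = b * a * b ∧
    ∀ l l' : List Ltr, x_ev a b l = x_ev a b l' ↔ TEq 3 3 (bw l) (bw l') := by
  obtain ⟨G, hG, ev, hmul, hiff⟩ := exists_group
  have h1 : ev [] = 1 := by
    have h := hmul [] []
    simp only [List.append_nil] at h
    exact (mul_eq_left.1 h.symm)
  have hinv : ∀ p s : Bool, ev [(p, s)] * ev [(p, !s)] = 1 := by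
    intro p s
    rw [← hmul, ← h1]
    exact (hiff _ _).2 (teq_cancel p s)
  have hlt : ∀ t : Ltr, ev [t] = x_lt (ev [(false, true)]) (ev [(true, true)]) t := by
    rintro ⟨p, s⟩
    have hf : ev [(false, false)] = (ev [(false, true)])⁻¹ :=
      (inv_eq_of_mul_eq_one_right (hinv false true)).symm
    have ht : ev [(true, false)] = (ev [(true, true)])⁻¹ :=
      (inv_eq_of_mul_eq_one_right (hinv true true)).symm
    cases p <;> cases s <;> simp [x_lt, hf, ht]
  have hev : ∀ l : List Ltr, ev l = x_ev (ev [(false, true)]) (ev [(true, true)]) l := by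
    intro l
    induction l with
    | nil => simp [x_ev, h1]
    | cons t l ih =>
      have h := hmul [t] l
      simp only [List.cons_append, List.nil_append] at h
      rw [h, ih, hlt t]
      simp [x_ev]
  refine ⟨G, hG, ev [(false, true)], ev [(true, true)], ?_, ?_⟩
  · have h := (hiff _ _).2 teq_braid
    rw [hev [(false, true), (true, true), (false, true)],
      hev [(true, true), (false, true), (true, true)]] at h
    simpa [x_ev, x_lt, mul_assoc] using h
  · intro l l'
    rw [← hev, ← hev]
    exact hiff l l'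

section grp

variable {G : Type} [Group G] (a b : G)

theorem x_Da (hab : a * b * a = b * a * b) : (a * b * a) * a = b * (a * b * a) := by
  rw [hab]
  calc b * a * b * a = b * (a * b * a) := by simp only [mul_assoc]
    _ = b * (b * a * b) := by rw [hab]

theorem x_Db (hab : a * b * a = b * a * b) : (a * b * a) * b = a * (a * b * a) := by
  calc a * b * a * b = a * (b * a * b) := by simp only [mul_assoc]
    _ = a * (a * b * a) := by rw [← hab]

theorem x_cD : a * b * a * a * b * a = (a * b * a) * (a * b * a) := by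
  simp only [mul_assoc]

theorem x_conj (D a b : G) (h : D * a = b * D) : D * a⁻¹ = b⁻¹ * D := by
  rw [eq_inv_mul_iff_mul_eq, ← mul_assoc, ← h, mul_inv_cancel_right]

theorem x_ca (hab : a * b * a = b * a * b) : Commute (a * b * a * a * b * a) a := by
  rw [x_cD]
  show (a * b * a) * (a * b * a) * a = a * ((a * b * a) * (a * b * a))
  rw [mul_assoc (a * b * a), x_Da a b hab, ← mul_assoc, x_Db a b hab, mul_assoc]

theorem x_cb (hab : a * b * a = b * a * b) : Commute (a * b * a * a * b * a) b := by
  rw [x_cD]
  show (a * b * a) * (a * b * a) * b = b * ((a * b * a) * (a * b * a))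
  rw [mul_assoc (a * b * a), x_Db a b hab, ← mul_assoc, x_Da a b hab, mul_assoc]

theorem x_cDc (hab : a * b * a = b * a * b) :
    Commute (a * b * a * a * b * a) (a * b * a) :=
  ((x_ca a b hab).mul_right (x_cb a b hab)).mul_right (x_ca a b hab)

theorem x_ev_repl (l : List Ltr) (k : ℕ) :
    x_ev a b (List.replicate k l).flatten = (x_ev a b l) ^ k := by
  induction k with
  | zero => simp [x_ev]
  | succ k ih =>
    rw [List.replicate_succ, List.flatten_cons, x_ev_append, ih, pow_succ']

theorem x_ev_cw (m : ℤ) : x_ev a b (cw m) = (a * b * a * a * b * a) ^ m := by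
  cases m with
  | ofNat m =>
    show x_ev a b (List.replicate m _).flatten = _
    rw [x_ev_repl]
    simp [x_ev, x_lt, mul_assoc]
  | negSucc m =>
    show x_ev a b (List.replicate (m + 1) _).flatten = _
    rw [x_ev_repl, zpow_negSucc, ← inv_pow]
    congr 1
    simp [x_ev, x_lt, mul_assoc]

theorem x_ev_gw (v : List Bool) :
    x_ev a b (gw v) = (v.map fun t => if t then b else a⁻¹).prod := by
  simp only [x_ev, gw, List.map_map]
  congr 1
  apply List.map_congr_left
  intro t _
  cases t <;> simp [x_lt]

theorem x_ev_fl (hab : a * b * a = b * a * b) (l : List Ltr) :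
    (a * b * a) * x_ev a b l = x_ev a b (fl l) * (a * b * a) := by
  induction l with
  | nil => simp [x_ev, fl]
  | cons t l ih =>
    have hc : (a * b * a) * x_lt a b t = x_lt a b (!t.1, t.2) * (a * b * a) := by
      obtain ⟨p, s⟩ := t
      have h1 := x_Da a b hab
      have h2 := x_Db a b hab
      have h3 : (a * b * a) * a⁻¹ = b⁻¹ * (a * b * a) := x_conj _ _ _ h1
      have h4 : (a * b * a) * b⁻¹ = a⁻¹ * (a * b * a) := x_conj _ _ _ h2
      cases p <;> cases s
      · exact h3
      · exact h1
      · exact h4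
      · exact h2
    have e1 : x_ev a b (t :: l) = x_lt a b t * x_ev a b l := by simp [x_ev]
    have e2 : x_ev a b (fl (t :: l)) = x_lt a b (!t.1, t.2) * x_ev a b (fl l) := by
      simp [x_ev, fl]
    rw [e1, e2, ← mul_assoc, hc, mul_assoc, ih, ← mul_assoc]

theorem x_ev_mem (l : List Ltr) : x_ev a b l ∈ Subgroup.closure ({a, b} : Set G) := by
  have ha : a ∈ Subgroup.closure ({a, b} : Set G) := Subgroup.subset_closure (by simp)
  have hb : b ∈ Subgroup.closure ({a, b} : Set G) := Subgroup.subset_closure (by simp)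
  induction l with
  | nil => simp [x_ev]
  | cons t l ih =>
    have e1 : x_ev a b (t :: l) = x_lt a b t * x_ev a b l := by simp [x_ev]
    rw [e1]
    refine mul_mem ?_ ih
    obtain ⟨p, s⟩ := t
    cases p <;> cases s <;> simp [x_lt, ha, hb]

theorem x_ev_inv (l : List Ltr) : ∃ l' : List Ltr, x_ev a b l' = (x_ev a b l)⁻¹ := by
  induction l with
  | nil => exact ⟨[], by simp [x_ev]⟩
  | cons t l ih =>
    obtain ⟨l', hl'⟩ := ih
    refine ⟨l' ++ [(t.1, !t.2)], ?_⟩
    have e1 : x_ev a b (t :: l) = x_lt a b t * x_ev a b l := by simp [x_ev]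
    rw [x_ev_append, hl', e1, mul_inv_rev]
    congr 1
    obtain ⟨p, s⟩ := t
    cases p <;> cases s <;> simp [x_ev, x_lt]

theorem x_mem_ev (g : G) (hg : g ∈ Subgroup.closure ({a, b} : Set G)) :
    ∃ l : List Ltr, x_ev a b l = g := by
  induction hg using Subgroup.closure_induction with
  | mem x hx =>
    rcases hx with rfl | hx
    · exact ⟨[(false, true)], by simp [x_ev, x_lt]⟩
    · rw [Set.mem_singleton_iff] at hx
      subst hx
      exact ⟨[(true, true)], by simp [x_ev, x_lt]⟩
  | one => exact ⟨[], by simp [x_ev]⟩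
  | mul x y _ _ hx hy =>
    obtain ⟨l, rfl⟩ := hx
    obtain ⟨l', rfl⟩ := hy
    exact ⟨l ++ l', x_ev_append a b l l'⟩
  | inv x _ hx =>
    obtain ⟨l, rfl⟩ := hx
    exact x_ev_inv a b l

end grp

theorem braid_ind (S : List Ltr → Prop)
    (hrel : ∀ l l' : List Ltr, TEq 3 3 (bw l) (bw l') → S l → S l')
    (hconj : ∀ l l' : List Ltr, S (l ++ l') → S (l' ++ l))
    (h0 : ∀ m : ℤ, S (cw m))
    (h1 : ∀ m : ℤ, S (cw m ++ [(false, true), (true, true), (false, true)]))
    (h2 : ∀ m : ℤ, S (cw m ++ [(false, true), (true, true)]))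
    (h3 : ∀ m : ℤ, S (cw m ++ [(false, true), (true, true), (false, true), (true, true)]))
    (h4 : ∀ (m : ℤ) (v : List Bool), v ≠ [] → S (cw m ++ gw v)) :
    ∀ l : List Ltr, S l := by
  obtain ⟨G, hG, a, b, hab, hiff⟩ := x_grp
  have hS : ∀ l₀ : List Ltr, S l₀ → ∀ l : List Ltr, x_ev a b l = x_ev a b l₀ → S l :=
    fun l₀ hl₀ l hl => hrel l₀ l ((hiff _ _).1 hl.symm) hl₀
  have key := cls a b hab (fun g => ∀ l : List Ltr, x_ev a b l = g → S l) ?_ ?_ ?_ ?_ ?_ ?_
  · intro l
    exact key _ (x_ev_mem a b l) l rfl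
  · intro g h hg hh hgh l hl
    obtain ⟨l1, rfl⟩ := x_mem_ev a b g hg
    obtain ⟨l2, rfl⟩ := x_mem_ev a b h hh
    refine hS (l2 ++ l1) (hconj _ _ (hgh (l1 ++ l2) (x_ev_append a b l1 l2))) l ?_
    rw [hl, x_ev_append]
  · intro m l hl
    exact hS _ (h0 m) l (by rw [hl, x_ev_cw])
  · intro m l hl
    exact hS _ (h1 m) l (by
      rw [hl, x_ev_append, x_ev_cw]; simp [x_ev, x_lt, mul_assoc])
  · intro m l hl
    exact hS _ (h2 m) l (by
      rw [hl, x_ev_append, x_ev_cw]; simp [x_ev, x_lt, mul_assoc])
  · intro m l hl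
    exact hS _ (h3 m) l (by
      rw [hl, x_ev_append, x_ev_cw]; simp [x_ev, x_lt, mul_assoc])
  · intro m v hv l hl
    exact hS _ (h4 m v hv) l (by
      rw [hl, x_ev_append, x_ev_cw, x_ev_gw])

/-- half twists absorb negative letters -/
theorem braid_absorb (k : ℕ) (l : List Ltr) :
    ∃ l' : List Ltr, TEq 3 3 (bw l')
      (bw ((List.replicate k [(false, true), (true, true), (false, true)]).flatten ++ l)) ∧
      l'.length + 2 * min k (l.countP fun t => !t.2) = 3 * k + l.length := by
  obtain ⟨G, hG, a, b, hab, hiff⟩ := x_grp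
  obtain ⟨l', h1, h2⟩ := absorb a b hab k l
  refine ⟨l', ?_, h2⟩
  rw [← hiff, x_ev_append, x_ev_repl]
  have e : x_ev a b [(false, true), (true, true), (false, true)] = a * b * a := by
    simp [x_ev, x_lt, mul_assoc]
  rw [e]
  exact h1

/-- the exchange of the generators is a conjugation by the half twist -/
theorem braid_flip (l : List Ltr) : TEq 0 0 (cl3 (bw (fl l))) (cl3 (bw l)) := by
  obtain ⟨G, hG, a, b, hab, hiff⟩ := x_grp
  have hD : x_ev a b [(false, true), (true, true), (false, true)] = a * b * a := by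
    simp [x_ev, x_lt, mul_assoc]
  have hD' : x_ev a b [(false, false), (true, false), (false, false)] = (a * b * a)⁻¹ := by
    simp [x_ev, x_lt, mul_assoc]
  have s1 : TEq 3 3 (bw (fl l)) (bw ([(false, true), (true, true), (false, true)] ++
      (l ++ [(false, false), (true, false), (false, false)]))) := by
    rw [← hiff, x_ev_append, x_ev_append, hD, hD', ← mul_assoc, x_ev_fl a b hab l,
      mul_inv_cancel_right]
  have s2 := cl3_rot [(false, true), (true, true), (false, true)]
    (l ++ [(false, false), (true, false), (false, false)])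
  have s3 : TEq 3 3 (bw ((l ++ [(false, false), (true, false), (false, false)]) ++
      [(false, true), (true, true), (false, true)])) (bw l) := by
    rw [← hiff, x_ev_append, x_ev_append, hD, hD', inv_mul_cancel_right]
  exact ((teq_cl3 s1).trans s2).trans (teq_cl3 s3)

theorem cw_flip (m : ℤ) (l : List Ltr) : TEq 3 3 (bw (fl (cw m) ++ l)) (bw (cw m ++ l)) := by
  obtain ⟨G, hG, a, b, hab, hiff⟩ := x_grp
  rw [← hiff, x_ev_append, x_ev_append]
  congr 1
  have h1 := x_ev_fl a b hab (cw m)
  have h2 : (a * b * a) * x_ev a b (cw m) = x_ev a b (cw m) * (a * b * a) := by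
    rw [x_ev_cw]
    exact (((x_cDc a b hab).zpow_left m).eq).symm
  rw [h2] at h1
  exact (mul_right_cancel h1).symm

theorem ml_cw (m : ℤ) : ml (cw m) = cw (-m) := by
  have hrep : ∀ (k : ℕ) (l : List Ltr), ml (List.replicate k l).flatten =
      (List.replicate k (ml l)).flatten := by
    intro k l
    induction k with
    | zero => simp [ml]
    | succ k ih =>
      rw [List.replicate_succ, List.flatten_cons, List.replicate_succ, List.flatten_cons, ← ih]
      simp [ml]
  cases m with
  | ofNat m =>
    cases m with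
    | zero => rfl
    | succ k =>
      show ml (List.replicate (k + 1) _).flatten = (List.replicate (k + 1) _).flatten
      rw [hrep]
      rfl
  | negSucc m =>
    show ml (List.replicate (m + 1) _).flatten = (List.replicate (m + 1) _).flatten
    rw [hrep]
    rfl

/-- `(a b)⁻¹` and `(a b)⁻²` in terms of the full twist: `ml [a, b] ~ c⁻¹ (b a)²`, up to conjugation -/
theorem ml_torus (m : ℤ) :
    TEq 0 0 (cl3 (bw (ml (cw m ++ [(false, true), (true, true)]))))
      (cl3 (bw (cw (-m - 1) ++ [(false, true), (true, true), (false, true), (true, true)]))) := by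
  obtain ⟨G, hG, a, b, hab, hiff⟩ := x_grp
  have s1 : TEq 3 3 (bw (ml (cw m ++ [(false, true), (true, true)])))
      (bw ([(true, true)] ++ (cw (-m - 1) ++ [(false, true), (true, true), (false, true)]))) := by
    have e1 : ml (cw m ++ [(false, true), (true, true)]) =
        cw (-m) ++ [(false, false), (true, false)] := by
      rw [← ml_cw]
      simp [ml]
    rw [e1, ← hiff, x_ev_append, x_ev_append, x_ev_append, x_ev_cw, x_ev_cw]
    have e2 : x_ev a b [(false, false), (true, false)] = a⁻¹ * b⁻¹ := by
      simp [x_ev, x_lt]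
    have e3 : x_ev a b [(true, true)] = b := by simp [x_ev, x_lt]
    have e4 : x_ev a b [(false, true), (true, true), (false, true)] = a * b * a := by
      simp [x_ev, x_lt, mul_assoc]
    rw [e2, e3, e4]
    have hc : Commute (a * b * a * a * b * a) b := x_cb a b hab
    obtain ⟨c, hcd⟩ : ∃ c, c = a * b * a * a * b * a := ⟨_, rfl⟩
    rw [← hcd] at hc ⊢
    have h5 : b * (c ^ (-m - 1) * (a * b * a)) = c ^ (-m - 1) * (b * (a * b * a)) := by
      rw [← mul_assoc b, ← (hc.zpow_left (-m - 1)).eq, mul_assoc (c ^ (-m - 1)) b]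
    rw [h5, zpow_sub_one, mul_assoc (c ^ (-m)) c⁻¹]
    congr 1
    -- `a⁻¹ b⁻¹ = c⁻¹ (b a b a)`
    rw [eq_inv_mul_iff_mul_eq, hcd, x_cD]
    calc (a * b * a) * (a * b * a) * (a⁻¹ * b⁻¹) = (a * b * a) * (a * b) * (a * a⁻¹) * b⁻¹ := by
          simp only [mul_assoc]
      _ = (a * b * a) * a := by
          simp only [mul_inv_cancel, mul_one, mul_assoc]
      _ = b * (a * b * a) := x_Da a b hab
  have s2 := cl3_rot [(true, true)] (cw (-m - 1) ++ [(false, true), (true, true), (false, true)])
  have e : (cw (-m - 1) ++ [(false, true), (true, true), (false, true)]) ++ [(true, true)] =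
      cw (-m - 1) ++ [(false, true), (true, true), (false, true), (true, true)] := by
    simp
  rw [e] at s2
  exact (teq_cl3 s1).trans s2

end Pool.Agent.KCS
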