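import Mathlib

/-!
# KCS / CNT: orthogonal sets of binary words

Let `V` be the span of `S`. The dot products with the elements of `S'` are in the annihilator of `V`, so
`|S| |S'| ≤ |V| |ann V| = 2 ^ (dim V + dim ann V) = 2 ^ c`.
-/

namespace Pool.Agent.KCS

theorem card_orth {c : ℕ} (S S' : Finset (Fin c → ZMod 2))
    (h : ∀ s ∈ S, ∀ t ∈ S', ∑ i, s i * t i = 0) : S.card * S'.card ≤ 2 ^ c := by
  classical
  have : Fact (Nat.Prime 2) := ⟨Nat.prime_two⟩
  let W : Submodule (ZMod 2) (Fin c → ZMod 2) := Submodule.span (ZMod 2) (S : Set (Fin c → ZMod 2))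
  let e := dotProductEquiv (ZMod 2) (Fin c)
  have hfin : Module.finrank (ZMod 2) W + Module.finrank (ZMod 2) W.dualAnnihilator = c := by
    rw [Subspace.finrank_add_finrank_dualAnnihilator_eq]
    simp
  have hW : Nat.card W = 2 ^ Module.finrank (ZMod 2) W := by
    have := Module.natCard_eq_pow_finrank (K := ZMod 2) (V := W)
    simpa using this
  have hA : Nat.card W.dualAnnihilator = 2 ^ Module.finrank (ZMod 2) W.dualAnnihilator := by
    have := Module.natCard_eq_pow_finrank (K := ZMod 2) (V := W.dualAnnihilator)
    simpa using this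
  have : Finite W := inferInstance
  have : Finite (Module.Dual (ZMod 2) (Fin c → ZMod 2)) := Finite.of_equiv _ e.toEquiv
  have h1 : S.card ≤ Nat.card W := by
    have hS : S.card = Nat.card S := by simp
    rw [hS]
    refine Nat.card_le_card_of_injective
      (fun s : S => (⟨s.1, Submodule.subset_span s.2⟩ : W)) ?_
    intro a b hab
    simp only [Subtype.mk.injEq] at hab
    exact Subtype.ext hab
  have hann : ∀ t ∈ S', e t ∈ W.dualAnnihilator := by
    intro t ht
    rw [Submodule.mem_dualAnnihilator]
    intro w hw
    refine Submodule.span_induction ?_ ?_ ?_ ?_ hw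
    · intro s hs
      have h2 := h s hs t ht
      simp only [e, dotProductEquiv_apply_apply, dotProduct]
      rw [← h2]
      exact Finset.sum_congr rfl fun i _ => mul_comm _ _
    · simp
    · intro x y _ _ hx hy
      rw [map_add, hx, hy, add_zero]
    · intro a x _ hx
      rw [map_smul, hx, smul_zero]
  have h2 : S'.card ≤ Nat.card W.dualAnnihilator := by
    have hS : S'.card = Nat.card S' := by simp
    rw [hS]
    refine Nat.card_le_card_of_injective
      (fun s : S' => (⟨e s.1, hann s.1 s.2⟩ : W.dualAnnihilator)) ?_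
    intro a b hab
    simp only [Subtype.mk.injEq] at hab
    exact Subtype.ext (e.injective hab)
  calc S.card * S'.card ≤ Nat.card W * Nat.card W.dualAnnihilator := Nat.mul_le_mul h1 h2
    _ = 2 ^ c := by rw [hW, hA, ← pow_add, hfin]

end Pool.Agent.KCS
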