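import Mathlib

/-!
# KCS: crossing numbers of connected sums (problem MP_c45b53_gt). Definitions.

Plane link and tangle diagrams are written as words in elementary pieces (Morse position): a word is
read from the bottom to the top, `cup i` creates two adjacent strands at the positions `i`, `i + 1`,
`cap i` joins the strands `i`, `i + 1`, and `pos i`, `neg i` are the two crossings of the strands `i`,
`i + 1`. Two words are equivalent if they are joined by plane isotopies (far pieces change place,
zigzags are straightened, a crossing slides past a maximum or a minimum) and Reidemeister moves.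
-/

namespace Pool.Agent.KCS

/-- kinds of elementary pieces -/
inductive Kind
  | cup
  | cap
  | pos
  | neg
  deriving DecidableEq

/-- number of strands used below -/
def Kind.inp : Kind → ℕ
  | .cup => 0
  | _ => 2

/-- number of strands produced above -/
def Kind.out : Kind → ℕ
  | .cap => 0
  | _ => 2

/-- the mirror image exchanges the crossings -/
def Kind.mir : Kind → Kind
  | .cup => .cup
  | .cap => .cap
  | .pos => .neg
  | .neg => .pos

/-- an elementary piece: a kind and the position of its first strand -/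
structure Gen where
  kind : Kind
  idx : ℕ
  deriving DecidableEq

abbrev Word := List Gen

/-- `Ok n w m`: the word `w` is a diagram with `n` strands below and `m` strands above -/
def Ok : ℕ → Word → ℕ → Prop
  | n, [], m => n = m
  | n, g :: w, m => g.idx + g.kind.inp ≤ n ∧ Ok (n - g.kind.inp + g.kind.out) w m

/-- the local moves -/
inductive Move : Word → Word → Prop
  | far (g h : Gen) (k : ℕ) : h.idx = g.idx + g.kind.out + k →
      Move [g, h] [⟨h.kind, g.idx + g.kind.inp + k⟩, g]
  | zig (i : ℕ) : Move [⟨.cup, i⟩, ⟨.cap, i + 1⟩] []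
  | zag (i : ℕ) : Move [⟨.cup, i + 1⟩, ⟨.cap, i⟩] []
  | capPos (i : ℕ) : Move [⟨.pos, i⟩, ⟨.cap, i + 1⟩] [⟨.neg, i + 1⟩, ⟨.cap, i⟩]
  | capNeg (i : ℕ) : Move [⟨.neg, i⟩, ⟨.cap, i + 1⟩] [⟨.pos, i + 1⟩, ⟨.cap, i⟩]
  | cupPos (i : ℕ) : Move [⟨.cup, i⟩, ⟨.pos, i + 1⟩] [⟨.cup, i + 1⟩, ⟨.neg, i⟩]
  | cupNeg (i : ℕ) : Move [⟨.cup, i⟩, ⟨.neg, i + 1⟩] [⟨.cup, i + 1⟩, ⟨.pos, i⟩]
  | oneCapPos (i : ℕ) : Move [⟨.pos, i⟩, ⟨.cap, i⟩] [⟨.cap, i⟩]
  | oneCapNeg (i : ℕ) : Move [⟨.neg, i⟩, ⟨.cap, i⟩] [⟨.cap, i⟩]
  | oneCupPos (i : ℕ) : Move [⟨.cup, i⟩, ⟨.pos, i⟩] [⟨.cup, i⟩]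
  | oneCupNeg (i : ℕ) : Move [⟨.cup, i⟩, ⟨.neg, i⟩] [⟨.cup, i⟩]
  | twoPos (i : ℕ) : Move [⟨.pos, i⟩, ⟨.neg, i⟩] []
  | twoNeg (i : ℕ) : Move [⟨.neg, i⟩, ⟨.pos, i⟩] []
  | threePos (i : ℕ) : Move [⟨.pos, i⟩, ⟨.pos, i + 1⟩, ⟨.pos, i⟩] [⟨.pos, i + 1⟩, ⟨.pos, i⟩, ⟨.pos, i + 1⟩]
  | threeNeg (i : ℕ) : Move [⟨.neg, i⟩, ⟨.neg, i + 1⟩, ⟨.neg, i⟩] [⟨.neg, i + 1⟩, ⟨.neg, i⟩, ⟨.neg, i + 1⟩]

/-- one local move inside a diagram with `a` strands below and `b` strands above -/
def Step (a b : ℕ) (w w' : Word) : Prop :=
  ∃ (p q u v : Word) (n m : ℕ), Move u v ∧ w = p ++ u ++ q ∧ w' = p ++ v ++ q ∧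
    Ok a p n ∧ Ok n u m ∧ Ok n v m ∧ Ok m q b

/-- equivalence of diagrams with `a` strands below and `b` strands above -/
def TEq (a b : ℕ) : Word → Word → Prop := Relation.EqvGen (Step a b)

/-- the pieces which are crossings -/
def isCr (g : Gen) : Bool := decide (g.kind = .pos ∨ g.kind = .neg)

/-- number of crossings -/
def cr (w : Word) : ℕ := w.countP isCr

/-- the crossing number of (the link of) a closed diagram -/
noncomputable def cc (w : Word) : ℕ :=
  sInf {k | ∃ w' : Word, Ok 0 w' 0 ∧ TEq 0 0 w w' ∧ cr w' = k}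

/-- the mirror image -/
def mir (w : Word) : Word := w.map fun g => ⟨g.kind.mir, g.idx⟩

/-- translation to the right by `i` strands -/
def shW (i : ℕ) (w : Word) : Word := w.map fun g => ⟨g.kind, g.idx + i⟩

/-- the closure of a long knot: the free strand returns on the right -/
def clo (t : Word) : Word := ⟨.cup, 0⟩ :: (t ++ [⟨.cap, 0⟩])

/-- `ConnSum ws K`: the diagram `K` is (equivalent to) a connected sum of the diagrams `ws`. A summand
`clo t` is added by cutting an arc (any strand at any height) and inserting the long knot `t`. -/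
inductive ConnSum : List Word → Word → Prop
  | single (w : Word) : Ok 0 w 0 → ConnSum [w] w
  | insert (ws : List Word) (p q t : Word) (i n : ℕ) : ConnSum ws (p ++ q) → Ok 0 p n → Ok n q 0 →
      i < n → Ok 1 t 1 → ConnSum (clo t :: ws) (p ++ shW i t ++ q)
  | left (ws : List Word) (w w' K : Word) : ConnSum (w :: ws) K → TEq 0 0 w w' → ConnSum (w' :: ws) K
  | right (ws : List Word) (K K' : Word) : ConnSum ws K → TEq 0 0 K K' → ConnSum ws K'

/-! ### State sums -/

/-- labels on the strands of a level -/
abbrev L := List (ZMod 2)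

variable {R : Type} [CommSemiring R]

/-- a model: weights of the pieces for given labels of the adjacent strands -/
structure Model (R : Type) where
  cu : ZMod 2 → ZMod 2 → R
  ca : ZMod 2 → ZMod 2 → R
  X : ZMod 2 → ZMod 2 → ZMod 2 → ZMod 2 → R
  Y : ZMod 2 → ZMod 2 → ZMod 2 → ZMod 2 → R

/-- the operator of a minimum at the position `0`: `(cupOp cu φ) l = ∑ cu a b * φ (a b l)` -/
def cupOp (cu : ZMod 2 → ZMod 2 → R) : (L → R) →ₗ[R] (L → R) where
  toFun φ := fun l => ∑ a, ∑ b, cu a b * φ (a :: b :: l)
  map_add' φ ψ := by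
    funext l
    simp only [Pi.add_apply, mul_add, Finset.sum_add_distrib]
  map_smul' c φ := by
    funext l
    simp only [Pi.smul_apply, smul_eq_mul, RingHom.id_apply, Finset.mul_sum]
    exact Finset.sum_congr rfl fun a _ => Finset.sum_congr rfl fun b _ => by ring

/-- the operator of a maximum at the position `0` -/
def capOp (ca : ZMod 2 → ZMod 2 → R) : (L → R) →ₗ[R] (L → R) where
  toFun φ := fun l => match l with
    | a :: b :: r => ca a b * φ r
    | _ => 0
  map_add' φ ψ := by
    funext l
    rcases l with _ | ⟨a, _ | ⟨b, r⟩⟩ <;> simp [mul_add]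
  map_smul' c φ := by
    funext l
    rcases l with _ | ⟨a, _ | ⟨b, r⟩⟩ <;> simp [mul_left_comm]

/-- the operator of a crossing at the position `0`; `a b` are the labels below, `c d` above -/
def crOp (X : ZMod 2 → ZMod 2 → ZMod 2 → ZMod 2 → R) : (L → R) →ₗ[R] (L → R) where
  toFun φ := fun l => match l with
    | a :: b :: r => ∑ c, ∑ d, X a b c d * φ (c :: d :: r)
    | _ => 0
  map_add' φ ψ := by
    funext l
    rcases l with _ | ⟨a, _ | ⟨b, r⟩⟩ <;> simp [mul_add, Finset.sum_add_distrib]
  map_smul' c φ := by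
    funext l
    rcases l with _ | ⟨a, _ | ⟨b, r⟩⟩
    · simp
    · simp
    · simp only [Pi.smul_apply, smul_eq_mul, RingHom.id_apply, Finset.mul_sum]
      exact Finset.sum_congr rfl fun a _ => Finset.sum_congr rfl fun b _ => by ring

/-- an operator moved one strand to the right -/
def sh (f : (L → R) →ₗ[R] (L → R)) : (L → R) →ₗ[R] (L → R) where
  toFun φ := fun l => match l with
    | a :: r => f (fun s => φ (a :: s)) r
    | [] => 0
  map_add' φ ψ := by
    funext l
    rcases l with _ | ⟨a, r⟩
    · simp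
    · show f (fun s => (φ + ψ) (a :: s)) r = f (fun s => φ (a :: s)) r + f (fun s => ψ (a :: s)) r
      have h : (fun s => (φ + ψ) (a :: s)) = (fun s => φ (a :: s)) + (fun s => ψ (a :: s)) := rfl
      rw [h, map_add]
      rfl
  map_smul' c φ := by
    funext l
    rcases l with _ | ⟨a, r⟩
    · simp
    · show f (fun s => (c • φ) (a :: s)) r = c • f (fun s => φ (a :: s)) r
      have h : (fun s => (c • φ) (a :: s)) = c • (fun s => φ (a :: s)) := rfl
      rw [h, map_smul]
      rfl

/-- the operator of a piece at the position `0` -/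
def base (M : Model R) : Kind → (L → R) →ₗ[R] (L → R)
  | .cup => cupOp M.cu
  | .cap => capOp M.ca
  | .pos => crOp M.X
  | .neg => crOp M.Y

/-- the operator of a piece -/
def op (M : Model R) (g : Gen) : (L → R) →ₗ[R] (L → R) := sh^[g.idx] (base M g.kind)

/-- the operator of a diagram: `(T M w φ) l` is the sum over all labellings which extend the labels `l`
below of the weight times `φ` of the labels above -/
def T (M : Model R) : Word → (L → R) →ₗ[R] (L → R)
  | [] => LinearMap.id
  | g :: w => (op M g).comp (T M w)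

/-- indicator of the empty list of labels -/
def dl : L → R := fun l => if l = [] then 1 else 0

/-- the value of a closed diagram -/
def val (M : Model R) (w : Word) : R := T M w dl []

/-- labels constant along the strands -/
def str : Model ℕ where
  cu a b := if a = b then 1 else 0
  ca a b := if a = b then 1 else 0
  X a b c d := if a = d ∧ b = c then 1 else 0
  Y a b c d := if a = d ∧ b = c then 1 else 0

/-- labels constant on the connected components of the projection -/
def cst : Model ℕ where
  cu a b := if a = b then 1 else 0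
  ca a b := if a = b then 1 else 0
  X a b c d := if a = b ∧ b = c ∧ c = d then 1 else 0
  Y a b c d := if a = b ∧ b = c ∧ c = d then 1 else 0

/-- A knot diagram: a closed diagram with one component, i.e. such that exactly two of the labellings of
the strands by two colours are constant on the components. -/
def IsKnot (w : Word) : Prop := Ok 0 w 0 ∧ val str w = 2

/-- the A-smoothing of all crossings -/
def resA : Word → Word
  | [] => []
  | g :: w => match g.kind with
    | .cup => g :: resA w
    | .cap => g :: resA w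
    | .pos => resA w
    | .neg => ⟨.cap, g.idx⟩ :: ⟨.cup, g.idx⟩ :: resA w

/-- the number of circles of a closed diagram without crossings (it has `2 ^ lp w` labellings constant
on the circles) -/
def lp (w : Word) : ℕ := Nat.log 2 (val str w)

/-- Adequate on one side: each change of one A-smoothing decreases the number of circles. -/
def AdA (w : Word) : Prop :=
  (∀ (p q : Word) (i : ℕ), w = p ++ ⟨.pos, i⟩ :: q →
    lp (resA p ++ ⟨.cap, i⟩ :: ⟨.cup, i⟩ :: resA q) < lp (resA w)) ∧
  (∀ (p q : Word) (i : ℕ), w = p ++ ⟨.neg, i⟩ :: q → lp (resA p ++ resA q) < lp (resA w))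

/-- the value of a circle -/
noncomputable def dlt (A : ℝ) : ℝ := -A ^ 2 - (A⁻¹) ^ 2

/-- the bracket model -/
noncomputable def br (A : ℝ) : Model ℝ where
  cu a b := if a = b then 0 else if a = 0 then A else -A⁻¹
  ca a b := if a = b then 0 else if a = 0 then -A else A⁻¹
  X a b c d := (if a = c ∧ b = d then A else 0) + A⁻¹ * ((if a = b then 0 else if a = 0 then -A else A⁻¹) *
    (if c = d then 0 else if c = 0 then A else -A⁻¹))
  Y a b c d := (if a = c ∧ b = d then A⁻¹ else 0) + A * ((if a = b then 0 else if a = 0 then -A else A⁻¹) *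
    (if c = d then 0 else if c = 0 then A else -A⁻¹))

/-- the bracket of a closed diagram -/
noncomputable def K (w : Word) (A : ℝ) : ℝ := val (br A) w

/-- the invariant used for the bounds -/
noncomputable def H (w : Word) (A : ℝ) : ℝ := |K w A * K (mir w) A|

/-- growth: `H w A ≥ ε A ^ (2 k + 4)` for large `A` -/
def Gr (w : Word) (k : ℕ) : Prop :=
  ∃ ε : ℝ, 0 < ε ∧ ∃ A₀ : ℝ, 1 ≤ A₀ ∧ ∀ A : ℝ, A₀ ≤ A → ε * A ^ (2 * k + 4) ≤ H w A

/-! ### closed 3-braids -/

/-- a braid letter: `(false, s)` is the crossing of the strands `0 1`, `(true, s)` the crossing of the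
strands `1 2`; `s` is the sign -/
abbrev Ltr := Bool × Bool

/-- the diagram of a braid word -/
def bw (l : List Ltr) : Word :=
  l.map fun t => ⟨if t.2 then .pos else .neg, if t.1 then 1 else 0⟩

/-- the closure of a diagram with three strands -/
def cl3 (w : Word) : Word :=
  [⟨.cup, 0⟩, ⟨.cup, 1⟩, ⟨.cup, 2⟩] ++ w ++ [⟨.cap, 2⟩, ⟨.cap, 1⟩, ⟨.cap, 0⟩]

/-! ### the statement -/

/-- `Wt w k`: twice the contribution of the summand `w` to the lower bound -/
inductive Wt : Word → ℕ → Prop
  | any (w : Word) : Wt w 0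
  | adequate (w d : Word) (k : ℕ) : TEq 0 0 w d → AdA d → AdA (mir d) →
      k + 2 = cr d + lp (resA d) + lp (resA (mir d)) → Wt w k
  | braid (w : Word) (l : List Ltr) : TEq 0 0 w (cl3 (bw l)) → Wt w (cc w)

end Pool.Agent.KCS
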