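import Pool.Agent.KCS.MIR

/-!
# KCS / EVN: even labellings

`evn` counts the labellings with even sum at each crossing, `cst` those which are constant at each crossing. In a closed
diagram with `c` crossings `val evn w = 2 ^ c * val cst w`. Proof: let `F φ s = ∑_t (-1) ^ (s · t) φ t` (sum over the
lists `t` of the length of `s`; for functions with values in the integers, by recursion:
`F φ [] = φ []`, `F φ (a :: s) = F (φ (0 :: ·)) s + (-1) ^ a F (φ (1 :: ·)) s`). For the operators at the position `0` and, through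
`sh`, everywhere: `2 F (cup φ) = cup (F φ)`, `F (cap φ) = 2 cap (F φ)`, `2 F (Ccr φ) = Ecr (F φ)` with `Ccr`, `Ecr` the crossing operators
of `cst` and `evn`. `F dl = dl`, and a closed diagram has as many cups as caps.
`cst_ge_two`: the two constant labellings.
-/

namespace Pool.Agent.KCS

/-- labellings with even sum at each crossing -/
def evn : Model ℕ where
  cu a b := if a = b then 1 else 0
  ca a b := if a = b then 1 else 0
  X a b c d := if a + b = c + d then 1 else 0
  Y a b c d := if a + b = c + d then 1 else 0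

/-- the same labellings, with integer weights -/
private def evZ : Model ℤ where
  cu a b := if a = b then 1 else 0
  ca a b := if a = b then 1 else 0
  X a b c d := if a + b = c + d then 1 else 0
  Y a b c d := if a + b = c + d then 1 else 0

private def csZ : Model ℤ where
  cu a b := if a = b then 1 else 0
  ca a b := if a = b then 1 else 0
  X a b c d := if a = b ∧ b = c ∧ c = d then 1 else 0
  Y a b c d := if a = b ∧ b = c ∧ c = d then 1 else 0

private theorem ev_base_cast {M : Model ℕ} {M' : Model ℤ} (h1 : ∀ a b, M'.cu a b = (M.cu a b : ℤ))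
    (h2 : ∀ a b, M'.ca a b = (M.ca a b : ℤ)) (h3 : ∀ a b c d, M'.X a b c d = (M.X a b c d : ℤ))
    (h4 : ∀ a b c d, M'.Y a b c d = (M.Y a b c d : ℤ)) (k : Kind) (φ : L → ℕ) :
    base M' k (fun s => (φ s : ℤ)) = fun l => ((base M k φ l : ℕ) : ℤ) := by
  funext l
  cases k
  · show ∑ a, ∑ b, M'.cu a b * (φ (a :: b :: l) : ℤ) = ((∑ a, ∑ b, M.cu a b * φ (a :: b :: l) : ℕ) : ℤ)
    push_cast
    simp only [h1]
  · rcases l with _ | ⟨a, _ | ⟨b, r⟩⟩
    · rfl
    · rfl
    · show M'.ca a b * (φ r : ℤ) = ((M.ca a b * φ r : ℕ) : ℤ)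
      push_cast
      rw [h2]
  · rcases l with _ | ⟨a, _ | ⟨b, r⟩⟩
    · rfl
    · rfl
    · show ∑ c, ∑ d, M'.X a b c d * (φ (c :: d :: r) : ℤ) =
        ((∑ c, ∑ d, M.X a b c d * φ (c :: d :: r) : ℕ) : ℤ)
      push_cast
      simp only [h3]
  · rcases l with _ | ⟨a, _ | ⟨b, r⟩⟩
    · rfl
    · rfl
    · show ∑ c, ∑ d, M'.Y a b c d * (φ (c :: d :: r) : ℤ) =
        ((∑ c, ∑ d, M.Y a b c d * φ (c :: d :: r) : ℕ) : ℤ)
      push_cast
      simp only [h4]

private theorem ev_op_cast {M : Model ℕ} {M' : Model ℤ} (h1 : ∀ a b, M'.cu a b = (M.cu a b : ℤ))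
    (h2 : ∀ a b, M'.ca a b = (M.ca a b : ℤ)) (h3 : ∀ a b c d, M'.X a b c d = (M.X a b c d : ℤ))
    (h4 : ∀ a b c d, M'.Y a b c d = (M.Y a b c d : ℤ)) (k : Kind) (i : ℕ) (φ : L → ℕ) :
    op M' ⟨k, i⟩ (fun s => (φ s : ℤ)) = fun l => ((op M ⟨k, i⟩ φ l : ℕ) : ℤ) := by
  induction i generalizing φ with
  | zero => exact ev_base_cast h1 h2 h3 h4 k φ
  | succ i ih =>
    funext l
    rcases l with _ | ⟨a, r⟩
    · rw [op_succ, op_succ]
      rfl
    · rw [op_succ_apply, op_succ_apply]
      exact congrFun (ih fun s => φ (a :: s)) r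

private theorem ev_T_cast {M : Model ℕ} {M' : Model ℤ} (h1 : ∀ a b, M'.cu a b = (M.cu a b : ℤ))
    (h2 : ∀ a b, M'.ca a b = (M.ca a b : ℤ)) (h3 : ∀ a b c d, M'.X a b c d = (M.X a b c d : ℤ))
    (h4 : ∀ a b c d, M'.Y a b c d = (M.Y a b c d : ℤ)) (w : Word) (φ : L → ℕ) :
    T M' w (fun s => (φ s : ℤ)) = fun l => ((T M w φ l : ℕ) : ℤ) := by
  induction w with
  | nil => rfl
  | cons g w ih =>
    rw [T_cons, T_cons, ih]
    exact ev_op_cast h1 h2 h3 h4 g.kind g.idx (T M w φ)

private theorem ev_dl : (dl : L → ℤ) = fun s => ((dl s : ℕ) : ℤ) := by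
  funext s
  unfold dl
  split_ifs <;> rfl

private theorem ev_val_evn (w : Word) : val evZ w = ((val evn w : ℕ) : ℤ) := by
  have h := congrFun (ev_T_cast (M := evn) (M' := evZ)
    (fun a b => by simp only [evZ, evn]; split_ifs <;> rfl)
    (fun a b => by simp only [evZ, evn]; split_ifs <;> rfl)
    (fun a b c d => by simp only [evZ, evn]; split_ifs <;> rfl)
    (fun a b c d => by simp only [evZ, evn]; split_ifs <;> rfl) w dl) []
  unfold val
  rw [ev_dl]
  exact h

private theorem ev_val_cst (w : Word) : val csZ w = ((val cst w : ℕ) : ℤ) := by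
  have h := congrFun (ev_T_cast (M := cst) (M' := csZ)
    (fun a b => by simp only [csZ, cst]; split_ifs <;> rfl)
    (fun a b => by simp only [csZ, cst]; split_ifs <;> rfl)
    (fun a b c d => by simp only [csZ, cst]; split_ifs <;> rfl)
    (fun a b c d => by simp only [csZ, cst]; split_ifs <;> rfl) w dl) []
  unfold val
  rw [ev_dl]
  exact h

/-- the sign of a product of two labels -/
private def ev_sg (a c : ZMod 2) : ℤ := if a * c = 0 then 1 else -1

/-- the Hadamard transform -/
private def ev_F : (L → ℤ) → L → ℤ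
  | φ, [] => φ []
  | φ, a :: s => ∑ c, ev_sg a c * ev_F (fun t => φ (c :: t)) s

private theorem ev_F_nil (φ : L → ℤ) : ev_F φ [] = φ [] := by simp [ev_F]

private theorem ev_F_cons (φ : L → ℤ) (a : ZMod 2) (s : L) :
    ev_F φ (a :: s) = ∑ c, ev_sg a c * ev_F (fun t => φ (c :: t)) s := by simp [ev_F]

private theorem ev_F_zero (s : L) : ev_F (fun _ => 0) s = 0 := by
  induction s with
  | nil => rw [ev_F_nil]
  | cons a s ih =>
    rw [ev_F_cons, ih]
    simp

private theorem ev_F_add (φ ψ : L → ℤ) (s : L) :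
    ev_F (fun t => φ t + ψ t) s = ev_F φ s + ev_F ψ s := by
  induction s generalizing φ ψ with
  | nil => simp only [ev_F_nil]
  | cons a s ih =>
    simp only [ev_F_cons]
    rw [← Finset.sum_add_distrib]
    refine Finset.sum_congr rfl fun c _ => ?_
    rw [ih, mul_add]

private theorem ev_F_mul (k : ℤ) (φ : L → ℤ) (s : L) :
    ev_F (fun t => k * φ t) s = k * ev_F φ s := by
  induction s generalizing φ with
  | nil => simp only [ev_F_nil]
  | cons a s ih =>
    simp only [ev_F_cons]
    rw [Finset.mul_sum]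
    refine Finset.sum_congr rfl fun c _ => ?_
    rw [ih]
    ring

private theorem ev_sum (f : ZMod 2 → ℤ) : ∑ a, f a = f 0 + f 1 := Fin.sum_univ_two f

private theorem ev_F_dl : ev_F dl = dl := by
  funext s
  rcases s with _ | ⟨a, s⟩
  · rw [ev_F_nil]
  · rw [ev_F_cons]
    have : ∀ c : ZMod 2, (fun t : L => (dl (c :: t) : ℤ)) = fun _ => 0 := by
      intro c
      funext t
      simp [dl]
    simp only [this, ev_F_zero]
    simp [dl]

/-- an operator and its transform -/
private def ev_P (α β : ℤ) (G G' : (L → ℤ) →ₗ[ℤ] (L → ℤ)) : Prop :=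
  ∀ (φ : L → ℤ) (s : L), α * ev_F (G φ) s = β * G' (ev_F φ) s

private theorem ev_P_sh {α β : ℤ} {G G' : (L → ℤ) →ₗ[ℤ] (L → ℤ)} (h : ev_P α β G G') :
    ev_P α β (sh G) (sh G') := by
  intro φ s
  rcases s with _ | ⟨a, s⟩
  · rw [ev_F_nil]
    show α * 0 = β * 0
    ring
  · rw [ev_F_cons, sh_apply]
    have e : (fun s => ev_F φ (a :: s)) =
        ev_sg a 0 • ev_F (fun t => φ (0 :: t)) + ev_sg a 1 • ev_F (fun t => φ (1 :: t)) := by
      funext s
      rw [ev_F_cons, ev_sum]
      rfl
    rw [e, map_add, map_smul, map_smul, ev_sum]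
    show α * (ev_sg a 0 * ev_F (G fun t => φ (0 :: t)) s + ev_sg a 1 * ev_F (G fun t => φ (1 :: t)) s) =
      β * (ev_sg a 0 * G' (ev_F fun t => φ (0 :: t)) s + ev_sg a 1 * G' (ev_F fun t => φ (1 :: t)) s)
    have h0 := h (fun t => φ (0 :: t)) s
    have h1 := h (fun t => φ (1 :: t)) s
    linear_combination ev_sg a 0 * h0 + ev_sg a 1 * h1

private theorem ev_cases (a : ZMod 2) : a = 0 ∨ a = 1 := by
  revert a
  decide

private theorem ev_P_cup : ev_P 2 1 (cupOp csZ.cu) (cupOp evZ.cu) := by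
  intro φ s
  have e : (fun t => cupOp csZ.cu φ t) = fun t => φ (0 :: 0 :: t) + φ (1 :: 1 :: t) := by
    funext t
    rw [cupOp_apply]
    simp [ev_sum, csZ]
  have e' : ev_F (cupOp csZ.cu φ) s = ev_F (fun t => φ (0 :: 0 :: t)) s + ev_F (fun t => φ (1 :: 1 :: t)) s := by
    rw [← ev_F_add, ← e]
  rw [e', cupOp_apply]
  simp only [ev_sum, evZ, ev_F_cons, ev_sg]
  simp
  ring

private theorem ev_P_cap : ev_P 1 2 (capOp csZ.ca) (capOp evZ.ca) := by
  intro φ s
  rcases s with _ | ⟨a, _ | ⟨b, r⟩⟩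
  · rw [ev_F_nil]
    rfl
  · rw [ev_F_cons]
    simp only [ev_F_nil]
    show 1 * ∑ c, ev_sg a c * 0 = 2 * 0
    simp
  · rw [capOp_apply]
    have e : ∀ c d : ZMod 2, (fun t => capOp csZ.ca φ (c :: d :: t)) = fun t => csZ.ca c d * φ t := by
      intro c d
      funext t
      rw [capOp_apply]
    simp only [ev_F_cons, e, ev_F_mul, ev_sum]
    rcases ev_cases a with rfl | rfl <;> rcases ev_cases b with rfl | rfl <;>
      simp [csZ, evZ, ev_sg] <;> ring

private theorem ev_P_cr : ev_P 2 1 (crOp csZ.X) (crOp evZ.X) := by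
  intro φ s
  rcases s with _ | ⟨a, _ | ⟨b, r⟩⟩
  · rw [ev_F_nil]
    rfl
  · rw [ev_F_cons]
    simp only [ev_F_nil]
    show 2 * ∑ c, ev_sg a c * 0 = 1 * 0
    simp
  · rw [crOp_apply]
    have e : ∀ c d : ZMod 2, (fun t => crOp csZ.X φ (c :: d :: t)) =
        fun t => (if c = d then 1 else 0) * φ (c :: c :: t) := by
      intro c d
      funext t
      rw [crOp_apply]
      rcases ev_cases c with rfl | rfl <;> rcases ev_cases d with rfl | rfl <;>
        simp [csZ, ev_sum]
    simp only [ev_F_cons, e, ev_F_mul, ev_sum]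
    have e11 : (1 : ZMod 2) + 1 = 0 := by decide
    rcases ev_cases a with rfl | rfl <;> rcases ev_cases b with rfl | rfl <;>
      simp [evZ, ev_sg, e11] <;> ring

private theorem ev_P_iter {α β : ℤ} {G G' : (L → ℤ) →ₗ[ℤ] (L → ℤ)} (h : ev_P α β G G') (n : ℕ) :
    ev_P α β (sh^[n] G) (sh^[n] G') := by
  induction n with
  | zero => exact h
  | succ n ih =>
    rw [Function.iterate_succ_apply', Function.iterate_succ_apply']
    exact ev_P_sh ih

private theorem ev_word (w : Word) : ∃ A B : ℕ, ev_P (2 ^ A) (2 ^ B) (T csZ w) (T evZ w) ∧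
    ∀ n m : ℕ, Ok n w m → n + 2 * A = m + 2 * B + 2 * cr w := by
  induction w with
  | nil =>
    refine ⟨0, 0, fun φ s => rfl, fun n m h => ?_⟩
    have : n = m := h
    simp [this, cr_nil]
  | cons g w ih =>
    obtain ⟨A, B, h1, h2⟩ := ih
    obtain ⟨k, i⟩ := g
    have step : ∀ (a b : ℕ), ev_P (2 ^ a) (2 ^ b) (op csZ ⟨k, i⟩) (op evZ ⟨k, i⟩) →
        ev_P (2 ^ (A + a)) (2 ^ (B + b)) (T csZ (⟨k, i⟩ :: w)) (T evZ (⟨k, i⟩ :: w)) := by
      intro a b h φ s
      rw [T_cons, T_cons]
      have h3 := h (T csZ w φ) s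
      have h4 : (2 : ℤ) ^ A • ev_F (T csZ w φ) = (2 : ℤ) ^ B • T evZ w (ev_F φ) := by
        funext t
        exact h1 φ t
      have h5 := congrArg (fun f => op evZ ⟨k, i⟩ f s) h4
      simp only [map_smul] at h5
      have h6 : (2 : ℤ) ^ A * op evZ ⟨k, i⟩ (ev_F (T csZ w φ)) s =
          (2 : ℤ) ^ B * op evZ ⟨k, i⟩ (T evZ w (ev_F φ)) s := h5
      rw [pow_add, pow_add]
      linear_combination (2 : ℤ) ^ A * h3 + (2 : ℤ) ^ b * h6
    cases k
    · refine ⟨A + 1, B + 0, step 1 0 ?_, fun n m h => ?_⟩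
      · exact ev_P_iter ev_P_cup i
      · have h3 := h2 _ _ h.2
        simp only [Kind.inp, Kind.out] at h3
        rw [cr_cons]
        have : isCr ⟨.cup, i⟩ = false := rfl
        rw [this]
        simp only [Bool.false_eq_true, if_false]
        omega
    · refine ⟨A + 0, B + 1, step 0 1 ?_, fun n m h => ?_⟩
      · exact ev_P_iter ev_P_cap i
      · have h3 := h2 _ _ h.2
        have h4 := h.1
        simp only [Kind.inp, Kind.out] at h3 h4
        rw [cr_cons]
        have : isCr ⟨.cap, i⟩ = false := rfl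
        rw [this]
        simp only [Bool.false_eq_true, if_false]
        omega
    · refine ⟨A + 1, B + 0, step 1 0 ?_, fun n m h => ?_⟩
      · exact ev_P_iter ev_P_cr i
      · have h3 := h2 _ _ h.2
        have h4 := h.1
        simp only [Kind.inp, Kind.out] at h3 h4
        rw [cr_cons]
        have : isCr ⟨.pos, i⟩ = true := rfl
        rw [this]
        simp only [if_true]
        omega
    · refine ⟨A + 1, B + 0, step 1 0 ?_, fun n m h => ?_⟩
      · exact ev_P_iter ev_P_cr i
      · have h3 := h2 _ _ h.2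
        have h4 := h.1
        simp only [Kind.inp, Kind.out] at h3 h4
        rw [cr_cons]
        have : isCr ⟨.neg, i⟩ = true := rfl
        rw [this]
        simp only [if_true]
        omega

theorem val_evn {w : Word} (h : Ok 0 w 0) : val evn w = 2 ^ cr w * val cst w := by
  obtain ⟨A, B, h1, h2⟩ := ev_word w
  have h3 := h2 0 0 h
  have h4 := h1 dl []
  rw [ev_F_nil, ev_F_dl] at h4
  have h5 : (2 : ℤ) ^ A * val csZ w = 2 ^ B * val evZ w := h4
  have h6 : A = B + cr w := by omega
  rw [h6, pow_add, mul_assoc] at h5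
  have h7 := mul_left_cancel₀ (pow_ne_zero B (by norm_num : (2 : ℤ) ≠ 0)) h5
  rw [ev_val_cst, ev_val_evn] at h7
  exact_mod_cast h7.symm

private theorem ev_op_const (k : Kind) (i n : ℕ) (v : ZMod 2) (h : i + k.inp ≤ n) (φ : L → ℕ) :
    φ (List.replicate (n - k.inp + k.out) v) ≤ op cst ⟨k, i⟩ φ (List.replicate n v) := by
  induction i generalizing n φ with
  | zero =>
    rw [op_zero]
    have key : ∀ f : ZMod 2 → ZMod 2 → ℕ, f v v ≤ ∑ a, ∑ b, f a b := by
      intro f
      refine (Finset.single_le_sum (f := f v) (fun _ _ => Nat.zero_le _) (Finset.mem_univ v)).trans ?_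
      exact Finset.single_le_sum (f := fun a => ∑ b, f a b) (fun _ _ => Nat.zero_le _) (Finset.mem_univ v)
    cases k
    · show φ (List.replicate (n - 0 + 2) v) ≤ ∑ a, ∑ b, cst.cu a b * φ (a :: b :: List.replicate n v)
      refine le_trans (le_of_eq ?_) (key _)
      simp [cst, List.replicate_succ]
    · simp only [Kind.inp, Nat.zero_add] at h
      obtain ⟨m, rfl⟩ : ∃ m, n = m + 2 := ⟨n - 2, by omega⟩
      show φ (List.replicate (m + 2 - 2 + 0) v) ≤ cst.ca v v * φ (List.replicate m v)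
      simp [cst]
    · simp only [Kind.inp, Nat.zero_add] at h
      obtain ⟨m, rfl⟩ : ∃ m, n = m + 2 := ⟨n - 2, by omega⟩
      show φ (List.replicate (m + 2 - 2 + 2) v) ≤ ∑ c, ∑ d, cst.X v v c d * φ (c :: d :: List.replicate m v)
      refine le_trans (le_of_eq ?_) (key _)
      simp [cst, List.replicate_succ]
    · simp only [Kind.inp, Nat.zero_add] at h
      obtain ⟨m, rfl⟩ : ∃ m, n = m + 2 := ⟨n - 2, by omega⟩
      show φ (List.replicate (m + 2 - 2 + 2) v) ≤ ∑ c, ∑ d, cst.Y v v c d * φ (c :: d :: List.replicate m v)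
      refine le_trans (le_of_eq ?_) (key _)
      simp [cst, List.replicate_succ]
  | succ i ih =>
    obtain ⟨m, rfl⟩ : ∃ m, n = m + 1 := ⟨n - 1, by omega⟩
    have h1 := ih m (by omega) fun s => φ (v :: s)
    rw [List.replicate_succ (n := m), op_succ_apply]
    refine le_trans (le_of_eq ?_) h1
    have e : m + 1 - k.inp + k.out = (m - k.inp + k.out) + 1 := by omega
    rw [e, List.replicate_succ]

private theorem ev_T_const {w : Word} {n m : ℕ} (h : Ok n w m) (v : ZMod 2) (φ : L → ℕ) :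
    φ (List.replicate m v) ≤ T cst w φ (List.replicate n v) := by
  induction w generalizing n with
  | nil =>
    have : n = m := h
    subst this
    exact le_rfl
  | cons g w ih =>
    obtain ⟨h1, h2⟩ := h
    rw [T_cons]
    exact (ih h2).trans (ev_op_const g.kind g.idx n v h1 _)

theorem cst_ge_two {w : Word} (h : Ok 0 w 0) (hw : w ≠ []) : 2 ≤ val cst w := by
  rcases w with _ | ⟨⟨k, i⟩, w⟩
  · exact absurd rfl hw
  obtain ⟨h1, h2⟩ := h
  simp only at h1 h2
  have hk : k = .cup := by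
    cases k
    · rfl
    all_goals
      simp only [Kind.inp] at h1
      omega
  subst hk
  have hi : i = 0 := by
    simp only [Kind.inp] at h1
    omega
  subst hi
  have h3 : Ok 2 w 0 := h2
  have h4 : ∀ v : ZMod 2, 1 ≤ T cst w dl [v, v] := fun v => ev_T_const h3 v dl
  unfold val
  rw [T_cons, op_zero]
  show 2 ≤ ∑ a, ∑ b, cst.cu a b * T cst w dl [a, b]
  have h5 : ∑ a, ∑ b, cst.cu a b * T cst w dl [a, b] = T cst w dl [0, 0] + T cst w dl [1, 1] := by
    have hs : ∀ f : ZMod 2 → ℕ, ∑ a, f a = f 0 + f 1 := fun f => Fin.sum_univ_two f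
    simp [hs, cst]
  rw [h5]
  have h6 := h4 0
  have h7 := h4 1
  omega

end Pool.Agent.KCS
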