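import Pool.Agent.KCS.STA

/-!
# KCS / SUM: connected sums

`long_scalar`: `T_sts` and `pln_long` (all states of `t` are long knots without crossings).
`H_insert`: `T (br A) (shW i t)` acts on the lists of length `n > i` as multiplication by the scalar (`T_left`);
`K (clo t) = dlt A * κ`; the same for the mirror images.
`gr_insert`: `dlt A ^ 2 ≤ 4 A ^ 4` for `A ≥ 1`.
-/

namespace Pool.Agent.KCS

private theorem sum_scalar {A : ℝ} (S : List (ℤ × Word))
    (hS : ∀ s ∈ S, ∃ κ : ℝ, ∀ (φ : L → ℝ) (a : ZMod 2) (r : L),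
      T (br A) s.2 φ (a :: r) = κ * φ (a :: r)) :
    ∃ κ : ℝ, ∀ (φ : L → ℝ) (a : ZMod 2) (r : L),
      (S.map fun s => A ^ s.1 * T (br A) s.2 φ (a :: r)).sum = κ * φ (a :: r) := by
  induction S with
  | nil => exact ⟨0, fun φ a r => by simp⟩
  | cons s S ih =>
    obtain ⟨κ1, h1⟩ := hS s (by simp)
    obtain ⟨κ2, h2⟩ := ih fun s' hs' => hS s' (by simp [hs'])
    refine ⟨A ^ s.1 * κ1 + κ2, fun φ a r => ?_⟩
    rw [List.map_cons, List.sum_cons, h1, h2]
    ring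

theorem long_scalar {t : Word} (ht : Ok 1 t 1) {A : ℝ} (hA : A ≠ 0) :
    ∃ κ : ℝ, ∀ (φ : L → ℝ) (a : ZMod 2) (r : L), T (br A) t φ (a :: r) = κ * φ (a :: r) := by
  obtain ⟨κ, hκ⟩ := sum_scalar (A := A) (sts t) (by
    intro s hs
    obtain ⟨e, he⟩ := pln_long s.2 (cr_sts hs) (ok_sts ht hs)
    exact ⟨_, fun φ a r => he ℝ (br A) (zig_br hA) φ a r⟩)
  refine ⟨κ, fun φ a r => ?_⟩
  rw [T_sts ht hA φ (a :: r) (by simp)]
  exact hκ φ a r

private theorem K_insert {p q t : Word} {i n : ℕ} (hp : Ok 0 p n) (hi : i < n) {A κ : ℝ}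
    (hκ : ∀ (φ : L → ℝ) (a : ZMod 2) (r : L), T (br A) t φ (a :: r) = κ * φ (a :: r)) :
    K (p ++ shW i t ++ q) A = κ * K (p ++ q) A := by
  unfold K val
  rw [List.append_assoc, T_append, T_append, T_append]
  have h1 : T (br A) p (T (br A) (shW i t) (T (br A) q dl)) [] =
      T (br A) p (κ • T (br A) q dl) [] := by
    apply T_congr (br A) hp _ [] rfl
    intro l hl
    have hs : (l.take i).length = i := by
      rw [List.length_take]
      omega
    obtain ⟨a, r, har⟩ : ∃ a r, l.drop i = a :: r := by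
      rcases hd : l.drop i with _ | ⟨a, r⟩
      · have := congrArg List.length hd
        rw [List.length_drop] at this
        simp at this
        omega
      · exact ⟨a, r, rfl⟩
    have h5 := T_left (br A) t (l.take i) (l.drop i) (T (br A) q dl)
    rw [hs, List.take_append_drop, har, hκ, ← har, List.take_append_drop] at h5
    rw [h5]
    rfl
  rw [h1, map_smul]
  rfl

private theorem K_clo {t : Word} {A κ : ℝ} (hA : A ≠ 0)
    (hκ : ∀ (φ : L → ℝ) (a : ZMod 2) (r : L), T (br A) t φ (a :: r) = κ * φ (a :: r)) :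
    K (clo t) A = κ * dlt A := by
  unfold K val clo
  rw [T_cons, op_zero, T_append]
  show cupOp (br A).cu (T (br A) t (T (br A) [⟨.cap, 0⟩] dl)) [] = κ * dlt A
  rw [cupOp_apply, ← lpv_br hA, lpv]
  simp only [hκ, Finset.mul_sum]
  refine Finset.sum_congr rfl fun a _ => Finset.sum_congr rfl fun b _ => ?_
  have e : T (br A) [⟨.cap, 0⟩] dl [a, b] = (br A).ca a b := by
    rw [T_cons, op_zero, T_nil]
    show capOp (br A).ca dl [a, b] = (br A).ca a b
    rw [capOp_apply]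
    simp [dl]
  rw [e]
  ring

theorem H_insert {p q t : Word} {i n : ℕ} (hp : Ok 0 p n) (hq : Ok n q 0) (hi : i < n)
    (ht : Ok 1 t 1) {A : ℝ} (hA : A ≠ 0) :
    H (p ++ shW i t ++ q) A * dlt A ^ 2 = H (p ++ q) A * H (clo t) A := by
  have _ := hq
  obtain ⟨κ, hκ⟩ := long_scalar ht hA
  obtain ⟨κ', hκ'⟩ := long_scalar (ok_mir.mpr ht) hA
  have e1 := K_insert (q := q) hp hi hκ
  have e2 := K_insert (q := mir q) (ok_mir.mpr hp) hi hκ'
  have e3 := K_clo hA hκ
  have e4 := K_clo hA hκ'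
  have m1 : mir (p ++ shW i t ++ q) = mir p ++ shW i (mir t) ++ mir q := by
    rw [mir_append, mir_append, mir_shW]
  have m2 : mir (clo t) = clo (mir t) := by
    unfold clo
    have : mir (⟨.cup, 0⟩ :: (t ++ [⟨.cap, 0⟩])) = ⟨.cup, 0⟩ :: mir (t ++ [⟨.cap, 0⟩]) := rfl
    rw [this, mir_append]
    rfl
  unfold H
  rw [m1, m2, e1, e2, e3, e4, mir_append]
  rw [← sq_abs (dlt A), abs_mul, abs_mul, abs_mul, abs_mul, abs_mul, abs_mul, abs_mul]
  ring

theorem gr_insert {p q t : Word} {i n k k' : ℕ} (hp : Ok 0 p n) (hq : Ok n q 0) (hi : i < n)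
    (ht : Ok 1 t 1) (h : Gr (p ++ q) k) (h' : Gr (clo t) k') : Gr (p ++ shW i t ++ q) (k + k') := by
  obtain ⟨ε, hε, A₀, hA, hH⟩ := h
  obtain ⟨ε', hε', A₀', hA', hH'⟩ := h'
  refine ⟨ε * ε' / 4, by positivity, max A₀ A₀', le_max_of_le_left hA, fun A h1 => ?_⟩
  have hA1 : A₀ ≤ A := (le_max_left _ _).trans h1
  have hA2 : A₀' ≤ A := (le_max_right _ _).trans h1
  have h1A : 1 ≤ A := hA.trans hA1
  have hA0 : 0 < A := by linarith
  have e := H_insert hp hq hi ht hA0.ne'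
  have h2 := hH A hA1
  have h3 := hH' A hA2
  have h4 : dlt A ^ 2 ≤ 4 * A ^ 4 := by
    have hi1 : A⁻¹ ≤ 1 := inv_le_one_of_one_le₀ h1A
    have hi0 : 0 < A⁻¹ := inv_pos.mpr hA0
    have h5 : (A⁻¹) ^ 2 ≤ A ^ 2 := by
      apply pow_le_pow_left₀ hi0.le
      linarith
    have h6 : 0 ≤ (A⁻¹) ^ 2 := by positivity
    have h7 : 0 ≤ A ^ 2 := by positivity
    unfold dlt
    nlinarith
  have h8 : 0 ≤ H (p ++ shW i t ++ q) A := abs_nonneg _
  have h9 : ε * A ^ (2 * k + 4) * (ε' * A ^ (2 * k' + 4)) ≤ H (p ++ q) A * H (clo t) A :=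
    mul_le_mul h2 h3 (by positivity) (abs_nonneg _)
  have h10 : H (p ++ shW i t ++ q) A * dlt A ^ 2 ≤ H (p ++ shW i t ++ q) A * (4 * A ^ 4) :=
    mul_le_mul_of_nonneg_left h4 h8
  have h11 : ε * ε' / 4 * A ^ (2 * (k + k') + 4) * (4 * A ^ 4) =
      ε * A ^ (2 * k + 4) * (ε' * A ^ (2 * k' + 4)) := by
    rw [show 2 * (k + k') + 4 = (2 * k + 2 * k') + 4 by ring]
    ring
  have h12 : ε * ε' / 4 * A ^ (2 * (k + k') + 4) * (4 * A ^ 4) ≤
      H (p ++ shW i t ++ q) A * (4 * A ^ 4) := by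
    rw [h11]
    linarith
  exact le_of_mul_le_mul_right h12 (by positivity)

end Pool.Agent.KCS
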