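import Pool.Agent.KCS.BR3
import Pool.Agent.KCS.ADQ
import Pool.Agent.KCS.SUM

/-!
# KCS / FIN: the theorem

`gr_wt`: by cases (`gr_zero`, `gr_adequate`, `braid_growth`), invariance. `gr_sum`: induction on `ConnSum`, the list of
contributions follows the list of summands. `main`: let `D` be a diagram of `K` with `cc K` crossings (`cc_spec`); it is a knot
diagram, `H K = H D`, and the lower bound `ε A ^ (2 k + 4)` against the upper bound `C A ^ (4 cc + 4)` (`H_le`) gives
`k ≤ 2 cc`.
-/

namespace Pool.Agent.KCS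

theorem gr_wt {w : Word} {k : ℕ} (hw : IsKnot w) (h : Wt w k) : Gr w k := by
  cases h with
  | any => exact gr_zero hw.1 (ne_nil_of_isKnot hw)
  | adequate d _ hT h1 h2 hk =>
    exact gr_teq hT.symm (gr_adequate ((ok_teq hT).1 hw.1) h1 h2 hk)
  | braid l hT =>
    have h1 : IsKnot (cl3 (bw l)) := (isKnot_teq hT).1 hw
    have h2 := braid_growth l h1
    rw [cc_teq hT]
    exact gr_teq hT.symm h2

theorem gr_sum {ws : List Word} {K : Word} (h : ConnSum ws K) :
    ∀ ks : List ℕ, List.Forall₂ (fun w k => Gr w k) ws ks → Gr K ks.sum := by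
  induction h with
  | single w hw =>
    intro ks hks
    cases hks with
    | cons h1 h2 =>
      cases h2
      simpa using h1
  | insert ws p q t i n hcs hp hq hi ht ih =>
    intro ks hks
    cases hks with
    | @cons _ k _ ks' h1 h2 =>
      rw [List.sum_cons, add_comm]
      exact gr_insert hp hq hi ht (ih ks' h2) h1
  | left ws w w' K hcs hT ih =>
    intro ks hks
    cases hks with
    | @cons _ k _ ks' h1 h2 =>
      exact ih (k :: ks') (List.Forall₂.cons (gr_teq hT.symm h1) h2)
  | right ws K K' hcs hT ih =>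
    intro ks hks
    exact gr_teq hT (ih ks hks)

private theorem forall_gr {ws : List Word} {ks : List ℕ} (hk : List.Forall₂ Wt ws ks) :
    (∀ w ∈ ws, IsKnot w) → List.Forall₂ (fun w k => Gr w k) ws ks := by
  induction hk with
  | nil =>
    intro _
    exact List.Forall₂.nil
  | @cons w k ws ks h1 h2 ih =>
    intro hw
    exact List.Forall₂.cons (gr_wt (hw w (by simp)) h1)
      (ih fun x hx => hw x (List.mem_cons_of_mem _ hx))

/-- twice the crossing number of a connected sum is at least the sum of the contributions -/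
theorem main {ws : List Word} {K : Word} (h : ConnSum ws K) (hK : IsKnot K)
    (hw : ∀ w ∈ ws, IsKnot w) (ks : List ℕ) (hk : List.Forall₂ Wt ws ks) : ks.sum ≤ 2 * cc K := by
  have hg : Gr K ks.sum := gr_sum h ks (forall_gr hk hw)
  obtain ⟨D, hD, hT, hc⟩ := cc_spec hK.1
  have hKD : IsKnot D := (isKnot_teq hT).1 hK
  obtain ⟨ε, hε, A₀, hA₀, hlow⟩ := gr_teq hT hg
  obtain ⟨C, hC, hup⟩ := H_le hKD
  by_contra hcon
  push Not at hcon
  obtain ⟨A, hA1, hA2⟩ : ∃ A : ℝ, A₀ ≤ A ∧ C / ε < A :=
    ⟨max A₀ (C / ε + 1), le_max_left _ _, lt_of_lt_of_le (by linarith) (le_max_right _ _)⟩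
  have hA : 1 ≤ A := hA₀.trans hA1
  have h1 := hlow A hA1
  have h2 := hup A hA
  rw [hc] at h2
  have h3 : A ^ (4 * cc K + 4 + 2) ≤ A ^ (2 * ks.sum + 4) := pow_le_pow_right₀ hA (by omega)
  have hpos : 0 < A ^ (4 * cc K + 4) := by positivity
  have h4 : ε * (A ^ (4 * cc K + 4) * A ^ 2) ≤ C * A ^ (4 * cc K + 4) := by
    rw [← pow_add]
    exact (mul_le_mul_of_nonneg_left h3 hε.le).trans (h1.trans h2)
  have h5 : ε * A ^ 2 ≤ C := by
    have h6 : (ε * A ^ 2) * A ^ (4 * cc K + 4) ≤ C * A ^ (4 * cc K + 4) := by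
      linarith
    exact le_of_mul_le_mul_right h6 hpos
  have h7 : C < ε * A := by
    rw [div_lt_iff₀ hε] at hA2
    linarith
  have h8 : ε * A ≤ ε * A ^ 2 := by
    apply mul_le_mul_of_nonneg_left _ hε.le
    nlinarith
  linarith

end Pool.Agent.KCS
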