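import Pool.Agent.KCS.MON

/-!
# KCS / GRP: the group of 3-braid words up to equivalence

`G` = the units of the monoid of the classes of the words `bw l` under `TEq 3 3` (multiplication: append,
well defined by `teq_ctx`), or directly: a quotient of `List Ltr`; the inverse of the class of `l` is the class of
`ml l.reverse`: `bw (l ++ ml l.reverse) ~ []` by induction and `teq_cancel`; well defined as inverses in a monoid are
unique.
-/

namespace Pool.Agent.KCS

private def gSet : Setoid (List Ltr) where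
  r l l' := TEq 3 3 (bw l) (bw l')
  iseqv := ⟨fun l => teq_refl 3 3 (bw l), fun h => h.symm, fun h h' => h.trans h'⟩

private theorem g_app {l₁ l₂ l₁' l₂' : List Ltr} (h1 : TEq 3 3 (bw l₁) (bw l₁'))
    (h2 : TEq 3 3 (bw l₂) (bw l₂')) : TEq 3 3 (bw (l₁ ++ l₂)) (bw (l₁' ++ l₂')) := by
  rw [bw_append, bw_append]
  have e1 := teq_ctx (p := []) (q := bw l₂) (a := 3) (b := 3) (n := 3) (m := 3) rfl (ok_bw l₂) h1
  have e2 := teq_ctx (p := bw l₁') (q := []) (a := 3) (b := 3) (n := 3) (m := 3) (ok_bw l₁') rfl h2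
  rw [List.nil_append, List.nil_append] at e1
  rw [List.append_nil, List.append_nil] at e2
  exact e1.trans e2

private theorem g_inv (l : List Ltr) : TEq 3 3 (bw (ml l.reverse ++ l)) (bw []) := by
  induction l with
  | nil => exact teq_refl 3 3 _
  | cons t l ih =>
    have e1 : ml (t :: l).reverse ++ (t :: l) = ml l.reverse ++ [(t.1, !t.2), t] ++ l := by
      simp [ml]
    rw [e1]
    have hc : TEq 3 3 (bw [(t.1, !t.2), t]) (bw []) := by
      have h1 := teq_cancel t.1 (!t.2)
      rw [Bool.not_not] at h1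
      exact h1
    have h2 : TEq 3 3 (bw (ml l.reverse ++ [(t.1, !t.2), t] ++ l)) (bw (ml l.reverse ++ [] ++ l)) :=
      g_app (g_app (teq_refl 3 3 _) hc) (teq_refl 3 3 _)
    rw [List.append_nil] at h2
    exact h2.trans ih

private theorem g_inv' (l : List Ltr) : TEq 3 3 (bw (l ++ ml l.reverse)) (bw []) := by
  have h1 := g_inv (ml l.reverse)
  have e1 : ml (ml l.reverse).reverse = l := by
    simp only [ml, ← List.map_reverse, List.reverse_reverse, List.map_map]
    simp [Function.comp_def]
  rw [e1] at h1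
  exact h1

private theorem g_invcongr {l l' : List Ltr} (h : TEq 3 3 (bw l) (bw l')) :
    TEq 3 3 (bw (ml l.reverse)) (bw (ml l'.reverse)) := by
  have h1 : TEq 3 3 (bw (ml l.reverse ++ (l' ++ ml l'.reverse))) (bw (ml l.reverse ++ [])) :=
    g_app (teq_refl 3 3 _) (g_inv' l')
  have h2 : TEq 3 3 (bw (ml l.reverse ++ l ++ ml l'.reverse))
      (bw (ml l.reverse ++ l' ++ ml l'.reverse)) :=
    g_app (g_app (teq_refl 3 3 _) h) (teq_refl 3 3 _)
  have h3 : TEq 3 3 (bw (ml l.reverse ++ l ++ ml l'.reverse)) (bw ([] ++ ml l'.reverse)) :=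
    g_app (g_inv l) (teq_refl 3 3 _)
  rw [List.append_nil] at h1
  rw [List.nil_append] at h3
  rw [← List.append_assoc] at h1
  exact (h1.symm.trans h2.symm).trans h3

private def gMul : Quotient gSet → Quotient gSet → Quotient gSet :=
  Quotient.map₂ (fun l l' => l ++ l') (fun _ _ h1 _ _ h2 => g_app h1 h2)

@[reducible] private def gGroup : Group (Quotient gSet) where
  mul := gMul
  mul_assoc := by
    rintro ⟨a⟩ ⟨b⟩ ⟨c⟩
    show (Quotient.mk gSet ((a ++ b) ++ c)) = Quotient.mk gSet (a ++ (b ++ c))
    rw [List.append_assoc]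
  one := Quotient.mk gSet []
  one_mul := by
    rintro ⟨a⟩
    rfl
  mul_one := by
    rintro ⟨a⟩
    show (Quotient.mk gSet (a ++ [])) = Quotient.mk gSet a
    rw [List.append_nil]
  inv := Quotient.map (fun l => ml l.reverse) (fun _ _ h => g_invcongr h)
  inv_mul_cancel := by
    rintro ⟨a⟩
    exact Quotient.sound (s := gSet) (g_inv a)

theorem exists_group : ∃ (G : Type) (_ : Group G) (ev : List Ltr → G),
    (∀ l l' : List Ltr, ev (l ++ l') = ev l * ev l') ∧
      (∀ l l' : List Ltr, ev l = ev l' ↔ TEq 3 3 (bw l) (bw l')) := by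
  refine ⟨Quotient gSet, gGroup, Quotient.mk gSet, ?_, ?_⟩
  · intro l l'
    rfl
  · intro l l'
    constructor
    · intro h
      exact Quotient.exact (s := gSet) h
    · intro h
      exact Quotient.sound (s := gSet) h

end Pool.Agent.KCS
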