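import Pool.Agent.KCS.SEM

/-!
# KCS / MIR: mirror images, numbers of crossings, A-smoothings

Inductions on the word.
-/

namespace Pool.Agent.KCS

theorem mir_mir (w : Word) : mir (mir w) = w := by
  induction w with
  | nil => rfl
  | cons g w ih =>
    obtain ⟨k, i⟩ := g
    have h : (mir (mir (⟨k, i⟩ :: w))) = ⟨k.mir.mir, i⟩ :: mir (mir w) := rfl
    rw [h, ih]
    cases k <;> rfl

theorem mir_append (p q : Word) : mir (p ++ q) = mir p ++ mir q := by
  simp [mir]

theorem mir_shW (i : ℕ) (w : Word) : mir (shW i w) = shW i (mir w) := by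
  simp [mir, shW]

theorem Kind.mir_inp (k : Kind) : k.mir.inp = k.inp := by
  cases k <;> rfl

theorem Kind.mir_out (k : Kind) : k.mir.out = k.out := by
  cases k <;> rfl

theorem ok_mir {n m : ℕ} {w : Word} : Ok n (mir w) m ↔ Ok n w m := by
  induction w generalizing n with
  | nil => exact Iff.rfl
  | cons g w ih =>
    show (g.idx + g.kind.mir.inp ≤ n ∧ Ok (n - g.kind.mir.inp + g.kind.mir.out) (mir w) m) ↔
      (g.idx + g.kind.inp ≤ n ∧ Ok (n - g.kind.inp + g.kind.out) w m)
    rw [Kind.mir_inp, Kind.mir_out, ih]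

theorem cr_nil : cr [] = 0 := rfl

theorem cr_cons (g : Gen) (w : Word) : cr (g :: w) = cr w + if isCr g then 1 else 0 := by
  unfold cr
  rw [List.countP_cons]

theorem cr_mir (w : Word) : cr (mir w) = cr w := by
  induction w with
  | nil => rfl
  | cons g w ih =>
    show cr (⟨g.kind.mir, g.idx⟩ :: mir w) = _
    rw [cr_cons, cr_cons, ih]
    obtain ⟨k, i⟩ := g
    cases k <;> rfl

theorem cr_append (p q : Word) : cr (p ++ q) = cr p + cr q := by
  unfold cr
  rw [List.countP_append]

theorem kind_of_cr {g : Gen} {w : Word} (h : cr (g :: w) = 0) :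
    (g.kind = .cup ∨ g.kind = .cap) ∧ cr w = 0 := by
  rw [cr_cons] at h
  obtain ⟨k, i⟩ := g
  cases k <;> simp [isCr] at h ⊢ <;> exact h

/-- words without crossings are their own mirror images -/
theorem mir_of_cr {w : Word} (h : cr w = 0) : mir w = w := by
  induction w with
  | nil => rfl
  | cons g w ih =>
    obtain ⟨h1, h2⟩ := kind_of_cr h
    show (⟨g.kind.mir, g.idx⟩ : Gen) :: mir w = g :: w
    rw [ih h2]
    obtain ⟨k, i⟩ := g
    simp only at h1
    rcases h1 with h1 | h1 <;> subst h1 <;> rfl

theorem resA_append (p q : Word) : resA (p ++ q) = resA p ++ resA q := by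
  induction p with
  | nil => rfl
  | cons g p ih =>
    obtain ⟨k, i⟩ := g
    rw [List.cons_append]
    cases k <;> simp [resA, ih]

theorem cr_resA (w : Word) : cr (resA w) = 0 := by
  induction w with
  | nil => rfl
  | cons g w ih =>
    obtain ⟨k, i⟩ := g
    cases k <;> simp [resA, cr_cons, isCr, ih]

theorem ok_resA {n m : ℕ} {w : Word} (h : Ok n w m) : Ok n (resA w) m := by
  induction w generalizing n with
  | nil => exact h
  | cons g w ih =>
    obtain ⟨k, i⟩ := g
    obtain ⟨h1, h2⟩ := h
    have h3 := ih h2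
    cases k
    · exact ⟨h1, h3⟩
    · exact ⟨h1, h3⟩
    · simp only [Kind.inp, Kind.out] at h1 h3
      have e : n - 2 + 2 = n := by omega
      rw [e] at h3
      exact h3
    · simp only [Kind.inp, Kind.out] at h1 h3
      refine ⟨h1, ?_, h3⟩
      simp only [Kind.inp, Kind.out]
      omega

theorem resA_of_cr {w : Word} (h : cr w = 0) : resA w = w := by
  induction w with
  | nil => rfl
  | cons g w ih =>
    obtain ⟨h1, h2⟩ := kind_of_cr h
    obtain ⟨k, i⟩ := g
    simp only at h1
    rcases h1 with h1 | h1 <;> subst h1 <;> simp [resA, ih h2]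

/-- the operator of the smoothed word only depends on the kinds; two models with the same cups and caps
agree on words without crossings -/
theorem T_of_cr {R : Type} [CommSemiring R] {M M' : Model R} (h1 : M.cu = M'.cu) (h2 : M.ca = M'.ca)
    {w : Word} (h : cr w = 0) : T M w = T M' w := by
  induction w with
  | nil => rfl
  | cons g w ih =>
    obtain ⟨h3, h4⟩ := kind_of_cr h
    have h5 : op M g = op M' g := by
      obtain ⟨k, i⟩ := g
      simp only at h3
      rcases h3 with h3 | h3 <;> subst h3 <;> simp [op, base, h1, h2]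
    show (op M g).comp (T M w) = (op M' g).comp (T M' w)
    rw [h5, ih h4]

end Pool.Agent.KCS
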