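import Pool.Agent.KCS.LOC
import Pool.Agent.KCS.MIR

/-!
# KCS / IN1: invariance of the bracket and of the number of colourings

`br_loc`: each move at the position `0` is a finite identity; it is moved to the position `i` with
`loc_shW`; `far` is `loc_far`. The factor is `1` except for the four moves `one...`, where it is
`-(A⁻¹)^3` (a positive crossing) or `-A^3` (a negative crossing). The mirror image of the move has the
inverse factor. For `str` all factors are `1`.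
-/

set_option linter.unusedSimpArgs false
set_option linter.unusedTactic false
set_option linter.unreachableTactic false

namespace Pool.Agent.KCS

section ops

variable {R : Type} [CommSemiring R] (M : Model R) (φ : L → R) (a b c : ZMod 2) (r : L)

private lemma in_cup0 : op M ⟨.cup, 0⟩ φ r = ∑ x, ∑ y, M.cu x y * φ (x :: y :: r) := rfl

private lemma in_cup1 : op M ⟨.cup, 1⟩ φ (a :: r) = ∑ x, ∑ y, M.cu x y * φ (a :: x :: y :: r) := rfl

private lemma in_cap0 : op M ⟨.cap, 0⟩ φ (a :: b :: r) = M.ca a b * φ r := rfl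

private lemma in_cap1 : op M ⟨.cap, 1⟩ φ (a :: b :: c :: r) = M.ca b c * φ (a :: r) := rfl

private lemma in_pos0 : op M ⟨.pos, 0⟩ φ (a :: b :: r) =
    ∑ x, ∑ y, M.X a b x y * φ (x :: y :: r) := rfl

private lemma in_pos1 : op M ⟨.pos, 1⟩ φ (a :: b :: c :: r) =
    ∑ x, ∑ y, M.X b c x y * φ (a :: x :: y :: r) := rfl

private lemma in_neg0 : op M ⟨.neg, 0⟩ φ (a :: b :: r) =
    ∑ x, ∑ y, M.Y a b x y * φ (x :: y :: r) := rfl

private lemma in_neg1 : op M ⟨.neg, 1⟩ φ (a :: b :: c :: r) =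
    ∑ x, ∑ y, M.Y b c x y * φ (a :: x :: y :: r) := rfl

end ops

private lemma in_sum (f : ZMod 2 → ℝ) : ∑ x, f x = f 0 + f 1 := Fin.sum_univ_two f

private lemma in_sumN (f : ZMod 2 → ℕ) : ∑ x, f x = f 0 + f 1 := Fin.sum_univ_two f

private lemma in_cases {P : ZMod 2 → Prop} (h0 : P 0) (h1 : P 1) (a : ZMod 2) : P a := by
  fin_cases a
  · exact h0
  · exact h1

private theorem in_br_zig {A : ℝ} (hA : 0 < A) : Loc (br A) 1 [⟨.cup, 0⟩, ⟨.cap, 1⟩] [] := by
  intro n m hu _ φ l hl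
  have hk : 1 ≤ l.length := by
    simp [Ok, Kind.inp, Kind.out] at hu
    omega
  rcases l with _ | ⟨a, r⟩
  · simp at hk
  simp only [T_cons, T_nil, in_cup0, in_cup1, in_cap0, in_cap1, in_pos0, in_pos1, in_neg0, in_neg1, in_sum]
  clear hk hl hu
  revert a
  refine in_cases ?_ ?_ <;>
    (first | (simp [br]; done) | (simp [br]; field_simp; done) | (simp [br]; field_simp; ring1) |
      (simp [br, -mul_eq_mul_left_iff, -mul_eq_mul_right_iff]; field_simp; done) |
      (simp [br, -mul_eq_mul_left_iff, -mul_eq_mul_right_iff]; field_simp; ring1))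

private theorem in_br_zag {A : ℝ} (hA : 0 < A) : Loc (br A) 1 [⟨.cup, 1⟩, ⟨.cap, 0⟩] [] := by
  intro n m hu _ φ l hl
  have hk : 1 ≤ l.length := by
    simp [Ok, Kind.inp, Kind.out] at hu
    omega
  rcases l with _ | ⟨a, r⟩
  · simp at hk
  simp only [T_cons, T_nil, in_cup0, in_cup1, in_cap0, in_cap1, in_pos0, in_pos1, in_neg0, in_neg1, in_sum]
  clear hk hl hu
  revert a
  refine in_cases ?_ ?_ <;>
    (first | (simp [br]; done) | (simp [br]; field_simp; done) | (simp [br]; field_simp; ring1) |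
      (simp [br, -mul_eq_mul_left_iff, -mul_eq_mul_right_iff]; field_simp; done) |
      (simp [br, -mul_eq_mul_left_iff, -mul_eq_mul_right_iff]; field_simp; ring1))

private theorem in_br_capPos {A : ℝ} (hA : 0 < A) : Loc (br A) 1 [⟨.pos, 0⟩, ⟨.cap, 1⟩] [⟨.neg, 1⟩, ⟨.cap, 0⟩] := by
  intro n m hu _ φ l hl
  have hk : 3 ≤ l.length := by
    simp [Ok, Kind.inp, Kind.out] at hu
    omega
  rcases l with _ | ⟨a, _ | ⟨b, _ | ⟨c, r⟩⟩⟩
  · simp at hk
  · simp at hk
  · simp at hk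
  simp only [T_cons, T_nil, in_cup0, in_cup1, in_cap0, in_cap1, in_pos0, in_pos1, in_neg0, in_neg1, in_sum]
  clear hk hl hu
  revert a b c
  refine in_cases (in_cases (in_cases ?_ ?_) (in_cases ?_ ?_)) (in_cases (in_cases ?_ ?_) (in_cases ?_ ?_)) <;>
    (first | (simp [br]; done) | (simp [br]; field_simp; done) | (simp [br]; field_simp; ring1) |
      (simp [br, -mul_eq_mul_left_iff, -mul_eq_mul_right_iff]; field_simp; done) |
      (simp [br, -mul_eq_mul_left_iff, -mul_eq_mul_right_iff]; field_simp; ring1))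

private theorem in_br_capNeg {A : ℝ} (hA : 0 < A) : Loc (br A) 1 [⟨.neg, 0⟩, ⟨.cap, 1⟩] [⟨.pos, 1⟩, ⟨.cap, 0⟩] := by
  intro n m hu _ φ l hl
  have hk : 3 ≤ l.length := by
    simp [Ok, Kind.inp, Kind.out] at hu
    omega
  rcases l with _ | ⟨a, _ | ⟨b, _ | ⟨c, r⟩⟩⟩
  · simp at hk
  · simp at hk
  · simp at hk
  simp only [T_cons, T_nil, in_cup0, in_cup1, in_cap0, in_cap1, in_pos0, in_pos1, in_neg0, in_neg1, in_sum]
  clear hk hl hu
  revert a b c
  refine in_cases (in_cases (in_cases ?_ ?_) (in_cases ?_ ?_)) (in_cases (in_cases ?_ ?_) (in_cases ?_ ?_)) <;>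
    (first | (simp [br]; done) | (simp [br]; field_simp; done) | (simp [br]; field_simp; ring1) |
      (simp [br, -mul_eq_mul_left_iff, -mul_eq_mul_right_iff]; field_simp; done) |
      (simp [br, -mul_eq_mul_left_iff, -mul_eq_mul_right_iff]; field_simp; ring1))

private theorem in_br_cupPos {A : ℝ} (hA : 0 < A) : Loc (br A) 1 [⟨.cup, 0⟩, ⟨.pos, 1⟩] [⟨.cup, 1⟩, ⟨.neg, 0⟩] := by
  intro n m hu _ φ l hl
  have hk : 1 ≤ l.length := by
    simp [Ok, Kind.inp, Kind.out] at hu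
    omega
  rcases l with _ | ⟨a, r⟩
  · simp at hk
  simp only [T_cons, T_nil, in_cup0, in_cup1, in_cap0, in_cap1, in_pos0, in_pos1, in_neg0, in_neg1, in_sum]
  clear hk hl hu
  revert a
  refine in_cases ?_ ?_ <;>
    (first | (simp [br]; done) | (simp [br]; field_simp; done) | (simp [br]; field_simp; ring1) |
      (simp [br, -mul_eq_mul_left_iff, -mul_eq_mul_right_iff]; field_simp; done) |
      (simp [br, -mul_eq_mul_left_iff, -mul_eq_mul_right_iff]; field_simp; ring1))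

private theorem in_br_cupNeg {A : ℝ} (hA : 0 < A) : Loc (br A) 1 [⟨.cup, 0⟩, ⟨.neg, 1⟩] [⟨.cup, 1⟩, ⟨.pos, 0⟩] := by
  intro n m hu _ φ l hl
  have hk : 1 ≤ l.length := by
    simp [Ok, Kind.inp, Kind.out] at hu
    omega
  rcases l with _ | ⟨a, r⟩
  · simp at hk
  simp only [T_cons, T_nil, in_cup0, in_cup1, in_cap0, in_cap1, in_pos0, in_pos1, in_neg0, in_neg1, in_sum]
  clear hk hl hu
  revert a
  refine in_cases ?_ ?_ <;>
    (first | (simp [br]; done) | (simp [br]; field_simp; done) | (simp [br]; field_simp; ring1) |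
      (simp [br, -mul_eq_mul_left_iff, -mul_eq_mul_right_iff]; field_simp; done) |
      (simp [br, -mul_eq_mul_left_iff, -mul_eq_mul_right_iff]; field_simp; ring1))

private theorem in_br_oneCapPos {A : ℝ} (hA : 0 < A) : Loc (br A) (-(A⁻¹) ^ 3) [⟨.pos, 0⟩, ⟨.cap, 0⟩] [⟨.cap, 0⟩] := by
  intro n m hu _ φ l hl
  have hk : 2 ≤ l.length := by
    simp [Ok, Kind.inp, Kind.out] at hu
    omega
  rcases l with _ | ⟨a, _ | ⟨b, r⟩⟩
  · simp at hk
  · simp at hk
  simp only [T_cons, T_nil, in_cup0, in_cup1, in_cap0, in_cap1, in_pos0, in_pos1, in_neg0, in_neg1, in_sum]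
  clear hk hl hu
  revert a b
  refine in_cases (in_cases ?_ ?_) (in_cases ?_ ?_) <;>
    (first | (simp [br]; done) | (simp [br]; field_simp; done) | (simp [br]; field_simp; ring1) |
      (simp [br, -mul_eq_mul_left_iff, -mul_eq_mul_right_iff]; field_simp; done) |
      (simp [br, -mul_eq_mul_left_iff, -mul_eq_mul_right_iff]; field_simp; ring1))

private theorem in_br_oneCapNeg {A : ℝ} (hA : 0 < A) : Loc (br A) (-A ^ 3) [⟨.neg, 0⟩, ⟨.cap, 0⟩] [⟨.cap, 0⟩] := by
  intro n m hu _ φ l hl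
  have hk : 2 ≤ l.length := by
    simp [Ok, Kind.inp, Kind.out] at hu
    omega
  rcases l with _ | ⟨a, _ | ⟨b, r⟩⟩
  · simp at hk
  · simp at hk
  simp only [T_cons, T_nil, in_cup0, in_cup1, in_cap0, in_cap1, in_pos0, in_pos1, in_neg0, in_neg1, in_sum]
  clear hk hl hu
  revert a b
  refine in_cases (in_cases ?_ ?_) (in_cases ?_ ?_) <;>
    (first | (simp [br]; done) | (simp [br]; field_simp; done) | (simp [br]; field_simp; ring1) |
      (simp [br, -mul_eq_mul_left_iff, -mul_eq_mul_right_iff]; field_simp; done) |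
      (simp [br, -mul_eq_mul_left_iff, -mul_eq_mul_right_iff]; field_simp; ring1))

private theorem in_br_oneCupPos {A : ℝ} (hA : 0 < A) : Loc (br A) (-(A⁻¹) ^ 3) [⟨.cup, 0⟩, ⟨.pos, 0⟩] [⟨.cup, 0⟩] := by
  intro n m hu _ φ l hl
  simp only [T_cons, T_nil, in_cup0, in_cup1, in_cap0, in_cap1, in_pos0, in_pos1, in_neg0, in_neg1, in_sum]
  simp [br]
  field_simp
  ring

private theorem in_br_oneCupNeg {A : ℝ} (hA : 0 < A) : Loc (br A) (-A ^ 3) [⟨.cup, 0⟩, ⟨.neg, 0⟩] [⟨.cup, 0⟩] := by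
  intro n m hu _ φ l hl
  simp only [T_cons, T_nil, in_cup0, in_cup1, in_cap0, in_cap1, in_pos0, in_pos1, in_neg0, in_neg1, in_sum]
  simp [br]
  field_simp
  ring

private theorem in_br_twoPos {A : ℝ} (hA : 0 < A) : Loc (br A) 1 [⟨.pos, 0⟩, ⟨.neg, 0⟩] [] := by
  intro n m hu _ φ l hl
  have hk : 2 ≤ l.length := by
    simp [Ok, Kind.inp, Kind.out] at hu
    omega
  rcases l with _ | ⟨a, _ | ⟨b, r⟩⟩
  · simp at hk
  · simp at hk
  simp only [T_cons, T_nil, in_cup0, in_cup1, in_cap0, in_cap1, in_pos0, in_pos1, in_neg0, in_neg1, in_sum]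
  clear hk hl hu
  revert a b
  refine in_cases (in_cases ?_ ?_) (in_cases ?_ ?_) <;>
    (first | (simp [br]; done) | (simp [br]; field_simp; done) | (simp [br]; field_simp; ring1) |
      (simp [br, -mul_eq_mul_left_iff, -mul_eq_mul_right_iff]; field_simp; done) |
      (simp [br, -mul_eq_mul_left_iff, -mul_eq_mul_right_iff]; field_simp; ring1))

private theorem in_br_twoNeg {A : ℝ} (hA : 0 < A) : Loc (br A) 1 [⟨.neg, 0⟩, ⟨.pos, 0⟩] [] := by
  intro n m hu _ φ l hl
  have hk : 2 ≤ l.length := by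
    simp [Ok, Kind.inp, Kind.out] at hu
    omega
  rcases l with _ | ⟨a, _ | ⟨b, r⟩⟩
  · simp at hk
  · simp at hk
  simp only [T_cons, T_nil, in_cup0, in_cup1, in_cap0, in_cap1, in_pos0, in_pos1, in_neg0, in_neg1, in_sum]
  clear hk hl hu
  revert a b
  refine in_cases (in_cases ?_ ?_) (in_cases ?_ ?_) <;>
    (first | (simp [br]; done) | (simp [br]; field_simp; done) | (simp [br]; field_simp; ring1) |
      (simp [br, -mul_eq_mul_left_iff, -mul_eq_mul_right_iff]; field_simp; done) |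
      (simp [br, -mul_eq_mul_left_iff, -mul_eq_mul_right_iff]; field_simp; ring1))

private theorem in_br_threePos {A : ℝ} (hA : 0 < A) : Loc (br A) 1 [⟨.pos, 0⟩, ⟨.pos, 1⟩, ⟨.pos, 0⟩] [⟨.pos, 1⟩, ⟨.pos, 0⟩, ⟨.pos, 1⟩] := by
  intro n m hu _ φ l hl
  have hk : 3 ≤ l.length := by
    simp [Ok, Kind.inp, Kind.out] at hu
    omega
  rcases l with _ | ⟨a, _ | ⟨b, _ | ⟨c, r⟩⟩⟩
  · simp at hk
  · simp at hk
  · simp at hk
  simp only [T_cons, T_nil, in_cup0, in_cup1, in_cap0, in_cap1, in_pos0, in_pos1, in_neg0, in_neg1, in_sum]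
  clear hk hl hu
  revert a b c
  refine in_cases (in_cases (in_cases ?_ ?_) (in_cases ?_ ?_)) (in_cases (in_cases ?_ ?_) (in_cases ?_ ?_)) <;>
    (first | (simp [br]; done) | (simp [br]; field_simp; done) | (simp [br]; field_simp; ring1) |
      (simp [br, -mul_eq_mul_left_iff, -mul_eq_mul_right_iff]; field_simp; done) |
      (simp [br, -mul_eq_mul_left_iff, -mul_eq_mul_right_iff]; field_simp; ring1))

private theorem in_br_threeNeg {A : ℝ} (hA : 0 < A) : Loc (br A) 1 [⟨.neg, 0⟩, ⟨.neg, 1⟩, ⟨.neg, 0⟩] [⟨.neg, 1⟩, ⟨.neg, 0⟩, ⟨.neg, 1⟩] := by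
  intro n m hu _ φ l hl
  have hk : 3 ≤ l.length := by
    simp [Ok, Kind.inp, Kind.out] at hu
    omega
  rcases l with _ | ⟨a, _ | ⟨b, _ | ⟨c, r⟩⟩⟩
  · simp at hk
  · simp at hk
  · simp at hk
  simp only [T_cons, T_nil, in_cup0, in_cup1, in_cap0, in_cap1, in_pos0, in_pos1, in_neg0, in_neg1, in_sum]
  clear hk hl hu
  revert a b c
  refine in_cases (in_cases (in_cases ?_ ?_) (in_cases ?_ ?_)) (in_cases (in_cases ?_ ?_) (in_cases ?_ ?_)) <;>
    (first | (simp [br]; done) | (simp [br]; field_simp; done) | (simp [br]; field_simp; ring1) |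
      (simp [br, -mul_eq_mul_left_iff, -mul_eq_mul_right_iff]; field_simp; done) |
      (simp [br, -mul_eq_mul_left_iff, -mul_eq_mul_right_iff]; field_simp; ring1))

private theorem in_str_zig : Loc str 1 [⟨.cup, 0⟩, ⟨.cap, 1⟩] [] := by
  intro n m hu _ φ l hl
  have hk : 1 ≤ l.length := by
    simp [Ok, Kind.inp, Kind.out] at hu
    omega
  rcases l with _ | ⟨a, r⟩
  · simp at hk
  simp only [T_cons, T_nil, in_cup0, in_cup1, in_cap0, in_cap1, in_pos0, in_pos1, in_neg0, in_neg1, in_sumN]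
  clear hk hl hu
  revert a
  refine in_cases ?_ ?_ <;>
    simp [str]

private theorem in_str_zag : Loc str 1 [⟨.cup, 1⟩, ⟨.cap, 0⟩] [] := by
  intro n m hu _ φ l hl
  have hk : 1 ≤ l.length := by
    simp [Ok, Kind.inp, Kind.out] at hu
    omega
  rcases l with _ | ⟨a, r⟩
  · simp at hk
  simp only [T_cons, T_nil, in_cup0, in_cup1, in_cap0, in_cap1, in_pos0, in_pos1, in_neg0, in_neg1, in_sumN]
  clear hk hl hu
  revert a
  refine in_cases ?_ ?_ <;>
    simp [str]

private theorem in_str_capPos : Loc str 1 [⟨.pos, 0⟩, ⟨.cap, 1⟩] [⟨.neg, 1⟩, ⟨.cap, 0⟩] := by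
  intro n m hu _ φ l hl
  have hk : 3 ≤ l.length := by
    simp [Ok, Kind.inp, Kind.out] at hu
    omega
  rcases l with _ | ⟨a, _ | ⟨b, _ | ⟨c, r⟩⟩⟩
  · simp at hk
  · simp at hk
  · simp at hk
  simp only [T_cons, T_nil, in_cup0, in_cup1, in_cap0, in_cap1, in_pos0, in_pos1, in_neg0, in_neg1, in_sumN]
  clear hk hl hu
  revert a b c
  refine in_cases (in_cases (in_cases ?_ ?_) (in_cases ?_ ?_)) (in_cases (in_cases ?_ ?_) (in_cases ?_ ?_)) <;>
    simp [str]

private theorem in_str_capNeg : Loc str 1 [⟨.neg, 0⟩, ⟨.cap, 1⟩] [⟨.pos, 1⟩, ⟨.cap, 0⟩] := by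
  intro n m hu _ φ l hl
  have hk : 3 ≤ l.length := by
    simp [Ok, Kind.inp, Kind.out] at hu
    omega
  rcases l with _ | ⟨a, _ | ⟨b, _ | ⟨c, r⟩⟩⟩
  · simp at hk
  · simp at hk
  · simp at hk
  simp only [T_cons, T_nil, in_cup0, in_cup1, in_cap0, in_cap1, in_pos0, in_pos1, in_neg0, in_neg1, in_sumN]
  clear hk hl hu
  revert a b c
  refine in_cases (in_cases (in_cases ?_ ?_) (in_cases ?_ ?_)) (in_cases (in_cases ?_ ?_) (in_cases ?_ ?_)) <;>
    simp [str]

private theorem in_str_cupPos : Loc str 1 [⟨.cup, 0⟩, ⟨.pos, 1⟩] [⟨.cup, 1⟩, ⟨.neg, 0⟩] := by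
  intro n m hu _ φ l hl
  have hk : 1 ≤ l.length := by
    simp [Ok, Kind.inp, Kind.out] at hu
    omega
  rcases l with _ | ⟨a, r⟩
  · simp at hk
  simp only [T_cons, T_nil, in_cup0, in_cup1, in_cap0, in_cap1, in_pos0, in_pos1, in_neg0, in_neg1, in_sumN]
  clear hk hl hu
  revert a
  refine in_cases ?_ ?_ <;>
    simp [str]

private theorem in_str_cupNeg : Loc str 1 [⟨.cup, 0⟩, ⟨.neg, 1⟩] [⟨.cup, 1⟩, ⟨.pos, 0⟩] := by
  intro n m hu _ φ l hl
  have hk : 1 ≤ l.length := by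
    simp [Ok, Kind.inp, Kind.out] at hu
    omega
  rcases l with _ | ⟨a, r⟩
  · simp at hk
  simp only [T_cons, T_nil, in_cup0, in_cup1, in_cap0, in_cap1, in_pos0, in_pos1, in_neg0, in_neg1, in_sumN]
  clear hk hl hu
  revert a
  refine in_cases ?_ ?_ <;>
    simp [str]

private theorem in_str_oneCapPos : Loc str 1 [⟨.pos, 0⟩, ⟨.cap, 0⟩] [⟨.cap, 0⟩] := by
  intro n m hu _ φ l hl
  have hk : 2 ≤ l.length := by
    simp [Ok, Kind.inp, Kind.out] at hu
    omega
  rcases l with _ | ⟨a, _ | ⟨b, r⟩⟩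
  · simp at hk
  · simp at hk
  simp only [T_cons, T_nil, in_cup0, in_cup1, in_cap0, in_cap1, in_pos0, in_pos1, in_neg0, in_neg1, in_sumN]
  clear hk hl hu
  revert a b
  refine in_cases (in_cases ?_ ?_) (in_cases ?_ ?_) <;>
    simp [str]

private theorem in_str_oneCapNeg : Loc str 1 [⟨.neg, 0⟩, ⟨.cap, 0⟩] [⟨.cap, 0⟩] := by
  intro n m hu _ φ l hl
  have hk : 2 ≤ l.length := by
    simp [Ok, Kind.inp, Kind.out] at hu
    omega
  rcases l with _ | ⟨a, _ | ⟨b, r⟩⟩
  · simp at hk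
  · simp at hk
  simp only [T_cons, T_nil, in_cup0, in_cup1, in_cap0, in_cap1, in_pos0, in_pos1, in_neg0, in_neg1, in_sumN]
  clear hk hl hu
  revert a b
  refine in_cases (in_cases ?_ ?_) (in_cases ?_ ?_) <;>
    simp [str]

private theorem in_str_oneCupPos : Loc str 1 [⟨.cup, 0⟩, ⟨.pos, 0⟩] [⟨.cup, 0⟩] := by
  intro n m hu _ φ l hl
  simp only [T_cons, T_nil, in_cup0, in_cup1, in_cap0, in_cap1, in_pos0, in_pos1, in_neg0, in_neg1, in_sumN]
  simp [str]

private theorem in_str_oneCupNeg : Loc str 1 [⟨.cup, 0⟩, ⟨.neg, 0⟩] [⟨.cup, 0⟩] := by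
  intro n m hu _ φ l hl
  simp only [T_cons, T_nil, in_cup0, in_cup1, in_cap0, in_cap1, in_pos0, in_pos1, in_neg0, in_neg1, in_sumN]
  simp [str]

private theorem in_str_twoPos : Loc str 1 [⟨.pos, 0⟩, ⟨.neg, 0⟩] [] := by
  intro n m hu _ φ l hl
  have hk : 2 ≤ l.length := by
    simp [Ok, Kind.inp, Kind.out] at hu
    omega
  rcases l with _ | ⟨a, _ | ⟨b, r⟩⟩
  · simp at hk
  · simp at hk
  simp only [T_cons, T_nil, in_cup0, in_cup1, in_cap0, in_cap1, in_pos0, in_pos1, in_neg0, in_neg1, in_sumN]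
  clear hk hl hu
  revert a b
  refine in_cases (in_cases ?_ ?_) (in_cases ?_ ?_) <;>
    simp [str]

private theorem in_str_twoNeg : Loc str 1 [⟨.neg, 0⟩, ⟨.pos, 0⟩] [] := by
  intro n m hu _ φ l hl
  have hk : 2 ≤ l.length := by
    simp [Ok, Kind.inp, Kind.out] at hu
    omega
  rcases l with _ | ⟨a, _ | ⟨b, r⟩⟩
  · simp at hk
  · simp at hk
  simp only [T_cons, T_nil, in_cup0, in_cup1, in_cap0, in_cap1, in_pos0, in_pos1, in_neg0, in_neg1, in_sumN]
  clear hk hl hu
  revert a b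
  refine in_cases (in_cases ?_ ?_) (in_cases ?_ ?_) <;>
    simp [str]

private theorem in_str_threePos : Loc str 1 [⟨.pos, 0⟩, ⟨.pos, 1⟩, ⟨.pos, 0⟩] [⟨.pos, 1⟩, ⟨.pos, 0⟩, ⟨.pos, 1⟩] := by
  intro n m hu _ φ l hl
  have hk : 3 ≤ l.length := by
    simp [Ok, Kind.inp, Kind.out] at hu
    omega
  rcases l with _ | ⟨a, _ | ⟨b, _ | ⟨c, r⟩⟩⟩
  · simp at hk
  · simp at hk
  · simp at hk
  simp only [T_cons, T_nil, in_cup0, in_cup1, in_cap0, in_cap1, in_pos0, in_pos1, in_neg0, in_neg1, in_sumN]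
  clear hk hl hu
  revert a b c
  refine in_cases (in_cases (in_cases ?_ ?_) (in_cases ?_ ?_)) (in_cases (in_cases ?_ ?_) (in_cases ?_ ?_)) <;>
    simp [str]

private theorem in_str_threeNeg : Loc str 1 [⟨.neg, 0⟩, ⟨.neg, 1⟩, ⟨.neg, 0⟩] [⟨.neg, 1⟩, ⟨.neg, 0⟩, ⟨.neg, 1⟩] := by
  intro n m hu _ φ l hl
  have hk : 3 ≤ l.length := by
    simp [Ok, Kind.inp, Kind.out] at hu
    omega
  rcases l with _ | ⟨a, _ | ⟨b, _ | ⟨c, r⟩⟩⟩
  · simp at hk
  · simp at hk
  · simp at hk
  simp only [T_cons, T_nil, in_cup0, in_cup1, in_cap0, in_cap1, in_pos0, in_pos1, in_neg0, in_neg1, in_sumN]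
  clear hk hl hu
  revert a b c
  refine in_cases (in_cases (in_cases ?_ ?_) (in_cases ?_ ?_)) (in_cases (in_cases ?_ ?_) (in_cases ?_ ?_)) <;>
    simp [str]

theorem str_loc {u v : Word} (h : Move u v) : Loc str 1 u v := by
  cases h with
  | far g h k hk => exact loc_far _ _ _ _ hk
  | zig i => simpa [shW, Nat.add_comm] using loc_shW in_str_zig (by simp) i
  | zag i => simpa [shW, Nat.add_comm] using loc_shW in_str_zag (by simp) i
  | capPos i => simpa [shW, Nat.add_comm] using loc_shW in_str_capPos (by simp) i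
  | capNeg i => simpa [shW, Nat.add_comm] using loc_shW in_str_capNeg (by simp) i
  | cupPos i => simpa [shW, Nat.add_comm] using loc_shW in_str_cupPos (by simp) i
  | cupNeg i => simpa [shW, Nat.add_comm] using loc_shW in_str_cupNeg (by simp) i
  | oneCapPos i => simpa [shW, Nat.add_comm] using loc_shW in_str_oneCapPos (by simp) i
  | oneCapNeg i => simpa [shW, Nat.add_comm] using loc_shW in_str_oneCapNeg (by simp) i
  | oneCupPos i => simpa [shW, Nat.add_comm] using loc_shW in_str_oneCupPos (by simp) i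
  | oneCupNeg i => simpa [shW, Nat.add_comm] using loc_shW in_str_oneCupNeg (by simp) i
  | twoPos i => simpa [shW, Nat.add_comm] using loc_shW in_str_twoPos (by simp) i
  | twoNeg i => simpa [shW, Nat.add_comm] using loc_shW in_str_twoNeg (by simp) i
  | threePos i => simpa [shW, Nat.add_comm] using loc_shW in_str_threePos (by simp) i
  | threeNeg i => simpa [shW, Nat.add_comm] using loc_shW in_str_threeNeg (by simp) i

private lemma in_inv1 (A : ℝ) : (-(A⁻¹) ^ 3)⁻¹ = -A ^ 3 := by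
  rw [inv_neg, ← inv_pow, inv_inv]

private lemma in_inv2 (A : ℝ) : (-A ^ 3)⁻¹ = -(A⁻¹) ^ 3 := by
  rw [inv_neg, ← inv_pow]

theorem br_loc {u v : Word} (h : Move u v) {A : ℝ} (hA : 0 < A) :
    ∃ c : ℝ, c ≠ 0 ∧ Loc (br A) c u v ∧ Loc (br A) c⁻¹ (mir u) (mir v) := by
  cases h with
  | far g h k hk =>
    refine ⟨1, one_ne_zero, loc_far _ _ _ _ hk, ?_⟩
    rw [inv_one]
    have e1 : ∀ x : Kind, x.mir.inp = x.inp := by intro x; cases x <;> rfl
    have e2 : ∀ x : Kind, x.mir.out = x.out := by intro x; cases x <;> rfl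
    have h2 := loc_far (br A) ⟨g.kind.mir, g.idx⟩ ⟨h.kind.mir, h.idx⟩ k (by rw [e2]; exact hk)
    simp only [e1] at h2
    exact h2
  | zig i =>
    refine ⟨1, one_ne_zero, ?_, ?_⟩
    · simpa [shW, Nat.add_comm] using loc_shW (in_br_zig hA) (by simp) i
    · rw [inv_one]
      simpa [shW, mir, Kind.mir, Nat.add_comm] using loc_shW (in_br_zig hA) (by simp) i
  | zag i =>
    refine ⟨1, one_ne_zero, ?_, ?_⟩
    · simpa [shW, Nat.add_comm] using loc_shW (in_br_zag hA) (by simp) i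
    · rw [inv_one]
      simpa [shW, mir, Kind.mir, Nat.add_comm] using loc_shW (in_br_zag hA) (by simp) i
  | capPos i =>
    refine ⟨1, one_ne_zero, ?_, ?_⟩
    · simpa [shW, Nat.add_comm] using loc_shW (in_br_capPos hA) (by simp) i
    · rw [inv_one]
      simpa [shW, mir, Kind.mir, Nat.add_comm] using loc_shW (in_br_capNeg hA) (by simp) i
  | capNeg i =>
    refine ⟨1, one_ne_zero, ?_, ?_⟩
    · simpa [shW, Nat.add_comm] using loc_shW (in_br_capNeg hA) (by simp) i
    · rw [inv_one]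
      simpa [shW, mir, Kind.mir, Nat.add_comm] using loc_shW (in_br_capPos hA) (by simp) i
  | cupPos i =>
    refine ⟨1, one_ne_zero, ?_, ?_⟩
    · simpa [shW, Nat.add_comm] using loc_shW (in_br_cupPos hA) (by simp) i
    · rw [inv_one]
      simpa [shW, mir, Kind.mir, Nat.add_comm] using loc_shW (in_br_cupNeg hA) (by simp) i
  | cupNeg i =>
    refine ⟨1, one_ne_zero, ?_, ?_⟩
    · simpa [shW, Nat.add_comm] using loc_shW (in_br_cupNeg hA) (by simp) i
    · rw [inv_one]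
      simpa [shW, mir, Kind.mir, Nat.add_comm] using loc_shW (in_br_cupPos hA) (by simp) i
  | oneCapPos i =>
    refine ⟨-(A⁻¹) ^ 3, neg_ne_zero.mpr (by positivity), ?_, ?_⟩
    · simpa [shW, Nat.add_comm] using loc_shW (in_br_oneCapPos hA) (by simp) i
    · rw [in_inv1]
      simpa [shW, mir, Kind.mir, Nat.add_comm] using loc_shW (in_br_oneCapNeg hA) (by simp) i
  | oneCapNeg i =>
    refine ⟨-A ^ 3, neg_ne_zero.mpr (by positivity), ?_, ?_⟩
    · simpa [shW, Nat.add_comm] using loc_shW (in_br_oneCapNeg hA) (by simp) i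
    · rw [in_inv2]
      simpa [shW, mir, Kind.mir, Nat.add_comm] using loc_shW (in_br_oneCapPos hA) (by simp) i
  | oneCupPos i =>
    refine ⟨-(A⁻¹) ^ 3, neg_ne_zero.mpr (by positivity), ?_, ?_⟩
    · simpa [shW, Nat.add_comm] using loc_shW (in_br_oneCupPos hA) (by simp) i
    · rw [in_inv1]
      simpa [shW, mir, Kind.mir, Nat.add_comm] using loc_shW (in_br_oneCupNeg hA) (by simp) i
  | oneCupNeg i =>
    refine ⟨-A ^ 3, neg_ne_zero.mpr (by positivity), ?_, ?_⟩
    · simpa [shW, Nat.add_comm] using loc_shW (in_br_oneCupNeg hA) (by simp) i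
    · rw [in_inv2]
      simpa [shW, mir, Kind.mir, Nat.add_comm] using loc_shW (in_br_oneCupPos hA) (by simp) i
  | twoPos i =>
    refine ⟨1, one_ne_zero, ?_, ?_⟩
    · simpa [shW, Nat.add_comm] using loc_shW (in_br_twoPos hA) (by simp) i
    · rw [inv_one]
      simpa [shW, mir, Kind.mir, Nat.add_comm] using loc_shW (in_br_twoNeg hA) (by simp) i
  | twoNeg i =>
    refine ⟨1, one_ne_zero, ?_, ?_⟩
    · simpa [shW, Nat.add_comm] using loc_shW (in_br_twoNeg hA) (by simp) i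
    · rw [inv_one]
      simpa [shW, mir, Kind.mir, Nat.add_comm] using loc_shW (in_br_twoPos hA) (by simp) i
  | threePos i =>
    refine ⟨1, one_ne_zero, ?_, ?_⟩
    · simpa [shW, Nat.add_comm] using loc_shW (in_br_threePos hA) (by simp) i
    · rw [inv_one]
      simpa [shW, mir, Kind.mir, Nat.add_comm] using loc_shW (in_br_threeNeg hA) (by simp) i
  | threeNeg i =>
    refine ⟨1, one_ne_zero, ?_, ?_⟩
    · simpa [shW, Nat.add_comm] using loc_shW (in_br_threeNeg hA) (by simp) i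
    · rw [inv_one]
      simpa [shW, mir, Kind.mir, Nat.add_comm] using loc_shW (in_br_threePos hA) (by simp) i

theorem str_inv {w w' : Word} (h : TEq 0 0 w w') : val str w = val str w' := by
  induction h with
  | rel w w' h =>
    obtain ⟨p, q, u, v, n, m, hm, rfl, rfl, hp, hu, hv, hq⟩ := h
    rw [val_ctx (str_loc hm) hp hu hv hq, one_mul]
  | refl w => rfl
  | symm w w' _ ih => exact ih.symm
  | trans w w' w'' _ _ ih1 ih2 => exact ih1.trans ih2

theorem H_inv {w w' : Word} (h : TEq 0 0 w w') {A : ℝ} (hA : 0 < A) : H w A = H w' A := by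
  induction h with
  | rel w w' h =>
    obtain ⟨p, q, u, v, n, m, hm, rfl, rfl, hp, hu, hv, hq⟩ := h
    obtain ⟨c, hc, h1, h2⟩ := br_loc hm hA
    have e1 : K (p ++ u ++ q) A = c * K (p ++ v ++ q) A := val_ctx h1 hp hu hv hq
    have e2 : K (mir (p ++ u ++ q)) A = c⁻¹ * K (mir (p ++ v ++ q)) A := by
      rw [mir_append, mir_append, mir_append, mir_append]
      exact val_ctx h2 (ok_mir.mpr hp) (ok_mir.mpr hu) (ok_mir.mpr hv) (ok_mir.mpr hq)
    unfold H
    rw [e1, e2]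
    congr 1
    field_simp
  | refl w => rfl
  | symm w w' _ ih => exact ih.symm
  | trans w w' w'' _ _ ih1 ih2 => exact ih1.trans ih2

end Pool.Agent.KCS
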