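import Pool.Agent.KCS.IN2

/-!
# KCS / KNT: a connected sum of knots is a knot
-/

namespace Pool.Agent.KCS

/-- the labels add up to `v` on the support -/
def Par2 (v : ZMod 2) (φ : L → ℕ) : Prop := ∀ s : L, φ s ≠ 0 → s.sum = v

theorem par2_op (k : Kind) (i : ℕ) {v : ZMod 2} {φ : L → ℕ} (h : Par2 v φ) :
    Par2 v (op str ⟨k, i⟩ φ) := by
  induction i generalizing v φ with
  | zero =>
    intro s hs
    have two : ∀ a : ZMod 2, a + a = 0 := by decide
    cases k with
    | cup =>
      have h1 : cupOp str.cu φ s ≠ 0 := hs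
      rw [cupOp_apply] at h1
      obtain ⟨a, _, ha⟩ := Finset.exists_ne_zero_of_sum_ne_zero h1
      obtain ⟨b, _, hb⟩ := Finset.exists_ne_zero_of_sum_ne_zero ha
      by_cases hab : a = b
      · subst hab
        have h2 := h _ (right_ne_zero_of_mul hb)
        rw [List.sum_cons, List.sum_cons, ← add_assoc, two, zero_add] at h2
        exact h2
      · simp [str, hab] at hb
    | cap =>
      rcases s with _ | ⟨a, _ | ⟨b, r⟩⟩
      · exact absurd rfl hs
      · exact absurd rfl hs
      · have h1 : capOp str.ca φ (a :: b :: r) ≠ 0 := hs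
        rw [capOp_apply] at h1
        by_cases hab : a = b
        · subst hab
          have h2 := h _ (right_ne_zero_of_mul h1)
          rw [List.sum_cons, List.sum_cons, ← add_assoc, two, zero_add]
          exact h2
        · simp [str, hab] at h1
    | pos =>
      rcases s with _ | ⟨a, _ | ⟨b, r⟩⟩
      · exact absurd rfl hs
      · exact absurd rfl hs
      · have h1 : crOp str.X φ (a :: b :: r) ≠ 0 := hs
        rw [crOp_apply] at h1
        obtain ⟨c, _, hc⟩ := Finset.exists_ne_zero_of_sum_ne_zero h1
        obtain ⟨d, _, hd⟩ := Finset.exists_ne_zero_of_sum_ne_zero hc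
        by_cases hab : a = d ∧ b = c
        · obtain ⟨rfl, rfl⟩ := hab
          have h2 := h _ (right_ne_zero_of_mul hd)
          rw [List.sum_cons, List.sum_cons] at h2 ⊢
          rw [← h2]
          ring
        · simp only [str, if_neg hab, zero_mul, ne_eq, not_true_eq_false] at hd
    | neg =>
      rcases s with _ | ⟨a, _ | ⟨b, r⟩⟩
      · exact absurd rfl hs
      · exact absurd rfl hs
      · have h1 : crOp str.Y φ (a :: b :: r) ≠ 0 := hs
        rw [crOp_apply] at h1
        obtain ⟨c, _, hc⟩ := Finset.exists_ne_zero_of_sum_ne_zero h1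
        obtain ⟨d, _, hd⟩ := Finset.exists_ne_zero_of_sum_ne_zero hc
        by_cases hab : a = d ∧ b = c
        · obtain ⟨rfl, rfl⟩ := hab
          have h2 := h _ (right_ne_zero_of_mul hd)
          rw [List.sum_cons, List.sum_cons] at h2 ⊢
          rw [← h2]
          ring
        · simp only [str, if_neg hab, zero_mul, ne_eq, not_true_eq_false] at hd
  | succ i ih =>
    intro s hs
    rcases s with _ | ⟨a, r⟩
    · rw [op_succ] at hs
      exact absurd rfl hs
    · rw [op_succ_apply] at hs
      have h1 : Par2 (v - a) (fun s => φ (a :: s)) := by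
        intro s hs
        have := h _ hs
        rw [List.sum_cons] at this
        rw [← this]
        ring
      have h2 := ih h1 r hs
      rw [List.sum_cons, h2]
      ring

theorem par2_T (w : Word) {v : ZMod 2} {φ : L → ℕ} (h : Par2 v φ) : Par2 v (T str w φ) := by
  induction w with
  | nil => exact h
  | cons g w ih => exact par2_op g.kind g.idx ih

/-- exchange of the two labels -/
def flp (s : L) : L := s.map fun a => a + 1

theorem sum_shift (f : ZMod 2 → ℕ) : ∑ a, f (a + 1) = ∑ a, f a :=
  Equiv.sum_comp (Equiv.addRight (1 : ZMod 2)) f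

theorem flp_op (k : Kind) (i : ℕ) (φ : L → ℕ) (s : L) :
    op str ⟨k, i⟩ (fun s => φ (flp s)) s = op str ⟨k, i⟩ φ (flp s) := by
  induction i generalizing φ s with
  | zero =>
    have e1 : ∀ a b : ZMod 2, (a + 1 = b + 1) ↔ (a = b) := by decide
    cases k with
    | cup =>
      show cupOp str.cu (fun s => φ (flp s)) s = cupOp str.cu φ (flp s)
      rw [cupOp_apply, cupOp_apply, ← sum_shift]
      refine Finset.sum_congr rfl fun a _ => ?_
      rw [← sum_shift]
      refine Finset.sum_congr rfl fun b _ => ?_
      have h2 : ∀ a : ZMod 2, a + 1 + 1 = a := by decide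
      simp only [str, flp, List.map_cons, h2, e1]
    | cap =>
      rcases s with _ | ⟨a, _ | ⟨b, r⟩⟩
      · rfl
      · rfl
      · show capOp str.ca (fun s => φ (flp s)) (a :: b :: r) =
          capOp str.ca φ ((a + 1) :: (b + 1) :: flp r)
        rw [capOp_apply, capOp_apply]
        simp only [str, e1]
    | pos =>
      rcases s with _ | ⟨a, _ | ⟨b, r⟩⟩
      · rfl
      · rfl
      · show crOp str.X (fun s => φ (flp s)) (a :: b :: r) =
          crOp str.X φ ((a + 1) :: (b + 1) :: flp r)
        rw [crOp_apply, crOp_apply, ← sum_shift (fun c => ∑ d, str.X (a + 1) (b + 1) c d *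
          φ (c :: d :: flp r))]
        refine Finset.sum_congr rfl fun c _ => ?_
        rw [← sum_shift (fun d => str.X (a + 1) (b + 1) (c + 1) d * φ ((c + 1) :: d :: flp r))]
        refine Finset.sum_congr rfl fun d _ => ?_
        simp only [str, e1]
        rfl
    | neg =>
      rcases s with _ | ⟨a, _ | ⟨b, r⟩⟩
      · rfl
      · rfl
      · show crOp str.Y (fun s => φ (flp s)) (a :: b :: r) =
          crOp str.Y φ ((a + 1) :: (b + 1) :: flp r)
        rw [crOp_apply, crOp_apply, ← sum_shift (fun c => ∑ d, str.Y (a + 1) (b + 1) c d *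
          φ (c :: d :: flp r))]
        refine Finset.sum_congr rfl fun c _ => ?_
        rw [← sum_shift (fun d => str.Y (a + 1) (b + 1) (c + 1) d * φ ((c + 1) :: d :: flp r))]
        refine Finset.sum_congr rfl fun d _ => ?_
        simp only [str, e1]
        rfl
  | succ i ih =>
    rcases s with _ | ⟨a, r⟩
    · rw [op_succ]
      rfl
    · show op str ⟨k, i + 1⟩ (fun s => φ (flp s)) (a :: r) = op str ⟨k, i + 1⟩ φ ((a + 1) :: flp r)
      rw [op_succ_apply, op_succ_apply]
      exact ih (fun s => φ ((a + 1) :: s)) r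

theorem flp_T (w : Word) (φ : L → ℕ) (s : L) :
    T str w (fun s => φ (flp s)) s = T str w φ (flp s) := by
  induction w generalizing s with
  | nil => rfl
  | cons g w ih =>
    rw [T_cons, T_cons]
    have e : T str w (fun s => φ (flp s)) = fun s => T str w φ (flp s) := funext ih
    rw [e]
    exact flp_op g.kind g.idx _ _

/-- indicator of a list with one label -/
def dx (b : ZMod 2) : L → ℕ := fun s => if s = [b] then 1 else 0

theorem dx_self (b : ZMod 2) : dx b [b] = 1 := if_pos rfl

theorem dx_ne {b c : ZMod 2} (h : c ≠ b) : dx b [c] = 0 := if_neg (by simpa using h)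

theorem par2_dx (b : ZMod 2) : Par2 b (dx b) := by
  intro s hs
  by_cases h : s = [b]
  · subst h
    simp
  · exact absurd (if_neg h) hs

theorem flp_flp (s : L) : flp (flp s) = s := by
  unfold flp
  rw [List.map_map]
  have : ((fun a : ZMod 2 => a + 1) ∘ fun a => a + 1) = id := by
    funext a
    revert a
    decide
  rw [this, List.map_id]

theorem dx_flp (s : L) : dx 1 (flp s) = dx 0 s := by
  by_cases h : s = [0]
  · subst h
    rfl
  · have h2 : flp s ≠ [1] := by
      intro h3
      apply h
      rw [← flp_flp s, h3]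
      rfl
    rw [dx, dx, if_neg h, if_neg h2]

/-- the case without spectators -/
theorem long_str_aux {t : Word} (ht : Ok 1 t 1) (φ : L → ℕ) (a : ZMod 2) :
    T str t φ [a] = T str t (dx 0) [0] * φ [a] := by
  have z2 : ∀ a : ZMod 2, a = 0 ∨ a = 1 := by decide
  have h1 : T str t φ [a] = T str t (φ [0] • dx 0 + φ [1] • dx 1) [a] := by
    refine T_congr str ht (fun s hs => ?_) [a] rfl
    obtain ⟨b, rfl⟩ := List.length_eq_one_iff.1 hs
    rw [Pi.add_apply, Pi.smul_apply, Pi.smul_apply, smul_eq_mul, smul_eq_mul]
    rcases z2 b with rfl | rfl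
    · rw [dx_self, dx_ne (by decide)]
      ring
    · rw [dx_self, dx_ne (by decide)]
      ring
  rw [h1, map_add, map_smul, map_smul, Pi.add_apply, Pi.smul_apply, Pi.smul_apply, smul_eq_mul,
    smul_eq_mul]
  have e0 : T str t (dx 0) [1] = 0 := by
    by_contra hc
    have := par2_T t (par2_dx 0) _ hc
    exact absurd this (by decide)
  have e1 : T str t (dx 1) [0] = 0 := by
    by_contra hc
    have := par2_T t (par2_dx 1) _ hc
    exact absurd this (by decide)
  have e2 : T str t (dx 1) [1] = T str t (dx 0) [0] := by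
    have h2 := flp_T t (dx 1) [0]
    have h3 : (fun s => dx 1 (flp s)) = dx 0 := funext dx_flp
    rw [h3] at h2
    exact h2.symm
  rcases z2 a with rfl | rfl
  · rw [e1]
    ring
  · rw [e0, e2]
    ring

/-- a long knot acts as a scalar on the labels constant along the strands -/
theorem long_str {t : Word} (ht : Ok 1 t 1) :
    ∃ κ : ℕ, ∀ (φ : L → ℕ) (a : ZMod 2) (r : L), T str t φ (a :: r) = κ * φ (a :: r) := by
  refine ⟨T str t (dx 0) [0], fun φ a r => ?_⟩
  have h1 := T_right str ht [a] r rfl φ
  rw [List.singleton_append] at h1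
  rw [h1, long_str_aux ht]
  rfl

theorem op_cup_str (φ : L → ℕ) (l : L) : op str ⟨.cup, 0⟩ φ l = φ (0 :: 0 :: l) + φ (1 :: 1 :: l) := by
  rw [op_zero]
  have h : base str .cup φ l = ∑ a, ∑ b, str.cu a b * φ (a :: b :: l) := rfl
  rw [h]
  have hu : (Finset.univ : Finset (ZMod 2)) = {0, 1} := by decide
  rw [hu]
  simp [str]

theorem op_cap_str (φ : L → ℕ) (a b : ZMod 2) (l : L) :
    op str ⟨.cap, 0⟩ φ (a :: b :: l) = (if a = b then 1 else 0) * φ l := rfl

theorem val_clo_str {t : Word} {κ : ℕ}
    (hκ : ∀ (φ : L → ℕ) (a : ZMod 2) (r : L), T str t φ (a :: r) = κ * φ (a :: r)) :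
    val str (clo t) = κ * 2 := by
  have h1 : val str (clo t) = op str ⟨.cup, 0⟩ (T str (t ++ [⟨.cap, 0⟩]) dl) [] := rfl
  rw [h1, op_cup_str, T_append, hκ, hκ, T_cons, T_nil, op_cap_str, op_cap_str]
  have h2 : (dl : L → ℕ) [] = 1 := rfl
  rw [h2]
  simp only [if_true]
  ring

theorem val_insert {p q t : Word} {i n : ℕ} (hp : Ok 0 p n) (hi : i < n)
    (ht : Ok 1 t 1) (h1 : IsKnot (p ++ q)) (h2 : IsKnot (clo t)) :
    val str (p ++ shW i t ++ q) = 2 := by
  obtain ⟨κ, hκ⟩ := long_str ht
  have h4 := val_clo_str hκ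
  have e1 : κ = 1 := by
    have h3 := h2.2
    omega
  subst e1
  have h3 := h1.2
  rw [← h3]
  unfold val
  rw [List.append_assoc, T_append, T_append, T_append]
  refine T_congr str hp (fun s hs => ?_) [] rfl
  have hs1 : (s.take i).length = i := by
    rw [List.length_take]
    omega
  have h5 := T_left str t (s.take i) (s.drop i) (T str q dl)
  rw [hs1, List.take_append_drop] at h5
  rw [h5]
  have hd : s.drop i ≠ [] := by
    intro hc
    have := congrArg List.length hc
    rw [List.length_drop, List.length_nil] at this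
    omega
  obtain ⟨a, r, har⟩ := List.exists_cons_of_ne_nil hd
  rw [har, hκ, one_mul, ← har, List.take_append_drop]

/-- a connected sum of knots is a knot -/
theorem isKnot_sum {ws : List Word} {K : Word} (h : ConnSum ws K) (hw : ∀ w ∈ ws, IsKnot w) :
    IsKnot K := by
  induction h with
  | single w _ => exact hw w (List.mem_singleton.2 rfl)
  | insert ws p q t i n _ hp hq hi ht ih =>
    have h1 := ih fun w hw' => hw w (List.mem_cons_of_mem _ hw')
    have h2 := hw (clo t) (List.mem_cons_self)
    refine ⟨?_, val_insert hp hi ht h1 h2⟩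
    rw [ok_append]
    refine ⟨n, ?_, hq⟩
    rw [ok_append]
    refine ⟨n, hp, ?_⟩
    have h3 := ok_add (i := n - i - 1) (ok_shW (i := i) ht)
    have e : 1 + i + (n - i - 1) = n := by omega
    rw [e] at h3
    exact h3
  | left ws w w' K _ hww ih =>
    refine ih fun u hu => ?_
    rcases List.mem_cons.1 hu with rfl | hu
    · exact (isKnot_teq hww).2 (hw w' (List.mem_cons_self))
    · exact hw u (List.mem_cons_of_mem _ hu)
  | right ws K K' _ hKK ih => exact (isKnot_teq hKK).1 (ih hw)

end Pool.Agent.KCS
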