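import Pool.Agent.KCS.SEM

/-!
# KCS / LOC: local identities

`loc_far`: by `T_left` both words start with a piece at the position `0`; write out the three cases of
`g.kind` (the operator of `h` is `sh^[out + k]` of something and only sees the labels behind those of `g`;
use linearity of `op`). `val_ctx`: `T_append`, `T_congr` and linearity of `T M p`.
-/

namespace Pool.Agent.KCS

variable {R : Type} [CommSemiring R]

/-- the words `u` and `v` have the same operator up to the factor `c` -/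
def Loc (M : Model R) (c : R) (u v : Word) : Prop :=
  ∀ n m : ℕ, Ok n u m → Ok n v m → ∀ (φ : L → R) (l : L), l.length = n → T M u φ l = c * T M v φ l

theorem ok_of_shW {n m i : ℕ} {w : Word} (h : Ok n (shW i w) m) (hi : i ≤ n) :
    i ≤ m ∧ Ok (n - i) w (m - i) := by
  induction w generalizing n with
  | nil =>
    simp only [Ok, shW, List.map_nil] at h ⊢
    omega
  | cons g w ih =>
    obtain ⟨h1, h2⟩ := h
    simp only at h1 h2
    obtain ⟨h3, h4⟩ := ih h2 (by omega)
    refine ⟨h3, by omega, ?_⟩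
    have e : n - i - g.kind.inp + g.kind.out = n - g.kind.inp + g.kind.out - i := by omega
    rw [e]
    exact h4

theorem loc_shW {M : Model R} {c : R} {u v : Word} (h : Loc M c u v) (hu : u ≠ []) (i : ℕ) :
    Loc M c (shW i u) (shW i v) := by
  intro n m h1 h2 φ l hl
  have hi : i ≤ n := by
    rcases u with _ | ⟨g, u⟩
    · exact absurd rfl hu
    · have := h1.1
      simp only at this
      omega
  obtain ⟨_, h3⟩ := ok_of_shW h1 hi
  obtain ⟨_, h4⟩ := ok_of_shW h2 hi
  have hs : (l.take i).length = i := by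
    rw [List.length_take]
    omega
  have h5 := T_left M u (l.take i) (l.drop i) φ
  have h6 := T_left M v (l.take i) (l.drop i) φ
  rw [hs, List.take_append_drop] at h5 h6
  rw [h5, h6]
  exact h _ _ h3 h4 _ _ (by rw [List.length_drop, hl])

theorem op_sum (M : Model R) (k : Kind) (i : ℕ) (w : ZMod 2 → ZMod 2 → R)
    (ψ : ZMod 2 → ZMod 2 → L → R) (r : L) :
    op M ⟨k, i⟩ (fun s => ∑ c, ∑ d, w c d * ψ c d s) r =
      ∑ c, ∑ d, w c d * op M ⟨k, i⟩ (ψ c d) r := by
  have e : (fun s => ∑ c, ∑ d, w c d * ψ c d s) = ∑ c, ∑ d, w c d • ψ c d := by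
    funext s
    simp only [Finset.sum_apply, Pi.smul_apply, smul_eq_mul]
  rw [e, map_sum, Finset.sum_apply]
  refine Finset.sum_congr rfl fun c _ => ?_
  rw [map_sum, Finset.sum_apply]
  refine Finset.sum_congr rfl fun d _ => ?_
  rw [map_smul]
  rfl

theorem op_mul (M : Model R) (k : Kind) (i : ℕ) (c : R) (ψ : L → R) (r : L) :
    op M ⟨k, i⟩ (fun s => c * ψ s) r = c * op M ⟨k, i⟩ ψ r := by
  have e : (fun s => c * ψ s) = c • ψ := rfl
  rw [e, map_smul]
  rfl

theorem loc_far_zero (M : Model R) (κ κ' : Kind) (k : ℕ) :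
    Loc M 1 [⟨κ, 0⟩, ⟨κ', k + κ.out⟩] [⟨κ', k + κ.inp⟩, ⟨κ, 0⟩] := by
  intro n m h1 _ φ l hl
  rw [one_mul]
  show op M ⟨κ, 0⟩ (op M ⟨κ', k + κ.out⟩ φ) l = op M ⟨κ', k + κ.inp⟩ (op M ⟨κ, 0⟩ φ) l
  rw [op_zero]
  have hn : κ.inp ≤ n := by
    have := h1.1
    simp only at this
    omega
  cases κ with
  | cup =>
    show cupOp M.cu (op M ⟨κ', k + 2⟩ φ) l = op M ⟨κ', k⟩ (cupOp M.cu φ) l
    rw [cupOp_apply]
    have e : (cupOp M.cu φ) = fun s => ∑ c, ∑ d, M.cu c d * (fun r => φ (c :: d :: r)) s := rfl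
    rw [e, op_sum M κ' k M.cu (fun c d r => φ (c :: d :: r)) l]
    refine Finset.sum_congr rfl fun a _ => Finset.sum_congr rfl fun b _ => ?_
    rw [op_succ_apply, op_succ_apply]
  | cap =>
    rcases l with _ | ⟨a, _ | ⟨b, r⟩⟩
    · simp [Kind.inp] at hn hl
      omega
    · simp [Kind.inp] at hn hl
      omega
    · show capOp M.ca (op M ⟨κ', k⟩ φ) (a :: b :: r) = op M ⟨κ', k + 2⟩ (capOp M.ca φ) (a :: b :: r)
      rw [capOp_apply, op_succ_apply, op_succ_apply]
      simp only [capOp_apply]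
      rw [op_mul]
  | pos =>
    rcases l with _ | ⟨a, _ | ⟨b, r⟩⟩
    · simp [Kind.inp] at hn hl
      omega
    · simp [Kind.inp] at hn hl
      omega
    · show crOp M.X (op M ⟨κ', k + 2⟩ φ) (a :: b :: r) = op M ⟨κ', k + 2⟩ (crOp M.X φ) (a :: b :: r)
      rw [crOp_apply, op_succ_apply, op_succ_apply]
      simp only [crOp_apply]
      rw [op_sum M κ' k (M.X a b) (fun c d r => φ (c :: d :: r)) r]
      refine Finset.sum_congr rfl fun a _ => Finset.sum_congr rfl fun b _ => ?_
      rw [op_succ_apply, op_succ_apply]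
  | neg =>
    rcases l with _ | ⟨a, _ | ⟨b, r⟩⟩
    · simp [Kind.inp] at hn hl
      omega
    · simp [Kind.inp] at hn hl
      omega
    · show crOp M.Y (op M ⟨κ', k + 2⟩ φ) (a :: b :: r) = op M ⟨κ', k + 2⟩ (crOp M.Y φ) (a :: b :: r)
      rw [crOp_apply, op_succ_apply, op_succ_apply]
      simp only [crOp_apply]
      rw [op_sum M κ' k (M.Y a b) (fun c d r => φ (c :: d :: r)) r]
      refine Finset.sum_congr rfl fun a _ => Finset.sum_congr rfl fun b _ => ?_
      rw [op_succ_apply, op_succ_apply]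

theorem loc_far (M : Model R) (g h : Gen) (k : ℕ) (hk : h.idx = g.idx + g.kind.out + k) :
    Loc M 1 [g, h] [⟨h.kind, g.idx + g.kind.inp + k⟩, g] := by
  have h0 := loc_shW (loc_far_zero M g.kind h.kind k) (by simp) g.idx
  have e1 : shW g.idx [⟨g.kind, 0⟩, ⟨h.kind, k + g.kind.out⟩] = [g, h] := by
    obtain ⟨hk1, hk2⟩ := h
    obtain ⟨gk1, gk2⟩ := g
    simp only at hk
    simp only [shW, List.map_cons, List.map_nil, List.cons.injEq, Gen.mk.injEq, and_true, true_and]
    omega
  have e2 : shW g.idx [⟨h.kind, k + g.kind.inp⟩, ⟨g.kind, 0⟩] =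
      [⟨h.kind, g.idx + g.kind.inp + k⟩, g] := by
    obtain ⟨gk1, gk2⟩ := g
    simp only [shW, List.map_cons, List.map_nil, List.cons.injEq, Gen.mk.injEq, and_true, true_and]
    omega
  rw [e1, e2] at h0
  exact h0

/-- a local identity holds inside every diagram -/
theorem val_ctx {M : Model R} {c : R} {u v p q : Word} (h : Loc M c u v) {n m : ℕ} (hp : Ok 0 p n)
    (hu : Ok n u m) (hv : Ok n v m) (hq : Ok m q 0) :
    val M (p ++ u ++ q) = c * val M (p ++ v ++ q) := by
  have _ := hq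
  unfold val
  rw [List.append_assoc, List.append_assoc, T_append, T_append, T_append, T_append]
  have h1 : T M p (T M u (T M q dl)) [] = T M p (c • T M v (T M q dl)) [] :=
    T_congr M hp (fun s hs => h n m hu hv _ s hs) [] rfl
  rw [h1, map_smul]
  rfl

end Pool.Agent.KCS
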