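import Pool.Agent.KCS.IN2
import Pool.Agent.KCS.BDF

/-!
# KCS / MON: moves on closures of 3-braids

`cl3_rot`: it is enough to move one letter `g` (induction on `l`): `cl3 (g :: w) ~ cl3 (w ++ [g])` for `w = bw l'`.
Write `x i` for a crossing of either sign at `i`, `z i` for the crossing of the other sign. From the top side:
`[x 0, cap 1, cap 0] ~ [z 1, cap 0, cap 0] ~ [z 1, cap 2, cap 0] ~ [x 2, cap 1, cap 0]` (`capPos` / `capNeg` at `0`, `far`, `capPos` /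
`capNeg` at `1`), so `[x 0, cap 2, cap 1, cap 0] ~ [cap 2, x 0, ..] ~ [cap 2, x 2, ..] ~ [x 4, cap 2, cap 1, cap 0]` and
`[x 1, cap 2, cap 1] ~ [x 3, cap 2, cap 1]` (the same translated by `1`). A crossing at `4` or `3` commutes with all
letters of `w` (`far`), and from the bottom side in the same way `[cup 0, cup 1, cup 2, x 4] ~ [cup 0, cup 1, cup 2, x 0]`,
`[cup 1, cup 2, x 3] ~ [cup 1, cup 2, x 1]`.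
`teq_braid`: `threePos`; `teq_cancel`: `twoPos`, `twoNeg`.
-/

namespace Pool.Agent.KCS

theorem bw_append (l l' : List Ltr) : bw (l ++ l') = bw l ++ bw l' := by
  simp [bw]

private theorem mon_bw_cons (t : Ltr) (l : List Ltr) :
    bw (t :: l) = ⟨if t.2 then .pos else .neg, if t.1 then 1 else 0⟩ :: bw l := rfl

theorem ok_bw (l : List Ltr) : Ok 3 (bw l) 3 := by
  induction l with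
  | nil => rfl
  | cons t l ih =>
    rw [mon_bw_cons]
    rcases t with ⟨_ | _, _ | _⟩ <;> exact ⟨by decide, ih⟩

private theorem mon_ok_bw6 (l : List Ltr) : Ok 6 (bw l) 6 := ok_add (i := 3) (ok_bw l)

private theorem mon_ok_cups : Ok 0 [⟨.cup, 0⟩, ⟨.cup, 1⟩, ⟨.cup, 2⟩] 6 :=
  ⟨by decide, by decide, by decide, rfl⟩

private theorem mon_ok_caps : Ok 6 [⟨.cap, 2⟩, ⟨.cap, 1⟩, ⟨.cap, 0⟩] 0 :=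
  ⟨by decide, by decide, by decide, rfl⟩

theorem ok_cl3 (l : List Ltr) : Ok 0 (cl3 (bw l)) 0 := by
  unfold cl3
  rw [ok_append]
  refine ⟨6, ?_, mon_ok_caps⟩
  rw [ok_append]
  exact ⟨6, mon_ok_cups, mon_ok_bw6 l⟩

private theorem mon_cr_bw (l : List Ltr) : cr (bw l) = l.length := by
  induction l with
  | nil => rfl
  | cons t l ih =>
    rw [mon_bw_cons]
    unfold cr at ih ⊢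
    rw [List.countP_cons, ih, List.length_cons]
    rcases t with ⟨_ | _, _ | _⟩ <;> rfl

theorem cr_cl3 (l : List Ltr) : cr (cl3 (bw l)) = l.length := by
  have h := mon_cr_bw l
  unfold cr at h
  unfold cl3 cr
  rw [List.countP_append, List.countP_append, h]
  have h1 : List.countP isCr [(⟨.cup, 0⟩ : Gen), ⟨.cup, 1⟩, ⟨.cup, 2⟩] = 0 := by decide
  have h2 : List.countP isCr [(⟨.cap, 2⟩ : Gen), ⟨.cap, 1⟩, ⟨.cap, 0⟩] = 0 := by decide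
  rw [h1, h2]
  omega

theorem mir_bw (l : List Ltr) : mir (bw l) = bw (ml l) := by
  induction l with
  | nil => rfl
  | cons t l ih =>
    have h1 : mir (bw (t :: l)) =
        ⟨(if t.2 then Kind.pos else Kind.neg).mir, if t.1 then 1 else 0⟩ :: mir (bw l) := rfl
    have h2 : bw (ml (t :: l)) =
        ⟨if (!t.2) then .pos else .neg, if t.1 then 1 else 0⟩ :: bw (ml l) := rfl
    rw [h1, h2, ih]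
    rcases t with ⟨_ | _, _ | _⟩ <;> rfl

theorem mir_cl3 (l : List Ltr) : mir (cl3 (bw l)) = cl3 (bw (ml l)) := by
  have h := mir_bw l
  unfold mir at h
  unfold cl3 mir
  rw [List.map_append, List.map_append, h]
  rfl

private theorem mon_add {n m : ℕ} (i : ℕ) {u v : Word} (h : TEq n m u v) :
    TEq (n + i) (m + i) u v := by
  induction h with
  | rel x y h =>
    obtain ⟨p, q, u, v, n', m', hM, rfl, rfl, h1, h2, h3, h4⟩ := h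
    exact Relation.EqvGen.rel _ _ ⟨p, q, u, v, n' + i, m' + i, hM, rfl, rfl, ok_add h1, ok_add h2,
      ok_add h3, ok_add h4⟩
  | refl x => exact Relation.EqvGen.refl _
  | symm x y _ ih => exact Relation.EqvGen.symm _ _ ih
  | trans x y z _ _ ih1 ih2 => exact Relation.EqvGen.trans _ _ _ ih1 ih2

theorem teq_cl3 {w w' : Word} (h : TEq 3 3 w w') : TEq 0 0 (cl3 w) (cl3 w') := by
  unfold cl3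
  exact teq_ctx mon_ok_cups mon_ok_caps (mon_add 3 h)

private theorem mon_mv {a b : ℕ} {u v : Word} (hM : Move u v) (h2 : Ok a u b) (h3 : Ok a v b) :
    TEq a b u v := by
  refine Relation.EqvGen.rel _ _ ⟨[], [], u, v, a, b, hM, ?_, ?_, rfl, h2, h3, rfl⟩
  · simp
  · simp

theorem teq_braid : TEq 3 3 (bw [(false, true), (true, true), (false, true)])
    (bw [(true, true), (false, true), (true, true)]) :=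
  mon_mv (Move.threePos 0) ⟨by decide, by decide, by decide, rfl⟩
    ⟨by decide, by decide, by decide, rfl⟩

theorem teq_cancel (p s : Bool) : TEq 3 3 (bw [(p, s), (p, !s)]) (bw []) := by
  rcases p with _ | _
  · rcases s with _ | _
    · exact mon_mv (Move.twoNeg 0) ⟨by decide, by decide, rfl⟩ rfl
    · exact mon_mv (Move.twoPos 0) ⟨by decide, by decide, rfl⟩ rfl
  · rcases s with _ | _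
    · exact mon_mv (Move.twoNeg 1) ⟨by decide, by decide, rfl⟩ rfl
    · exact mon_mv (Move.twoPos 1) ⟨by decide, by decide, rfl⟩ rfl

/-- a crossing `x` and the opposite crossing `z` -/
private structure MonP (x z : Kind) : Prop where
  xi : x.inp = 2
  xo : x.out = 2
  zi : z.inp = 2
  zo : z.out = 2
  c1 : ∀ i, Move [⟨x, i⟩, ⟨.cap, i + 1⟩] [⟨z, i + 1⟩, ⟨.cap, i⟩]
  c2 : ∀ i, Move [⟨z, i⟩, ⟨.cap, i + 1⟩] [⟨x, i + 1⟩, ⟨.cap, i⟩]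
  u1 : ∀ i, Move [⟨.cup, i⟩, ⟨x, i + 1⟩] [⟨.cup, i + 1⟩, ⟨z, i⟩]
  u2 : ∀ i, Move [⟨.cup, i⟩, ⟨z, i + 1⟩] [⟨.cup, i + 1⟩, ⟨x, i⟩]

private theorem monP_pos : MonP .pos .neg :=
  ⟨rfl, rfl, rfl, rfl, Move.capPos, Move.capNeg, Move.cupPos, Move.cupNeg⟩

private theorem monP_neg : MonP .neg .pos :=
  ⟨rfl, rfl, rfl, rfl, Move.capNeg, Move.capPos, Move.cupNeg, Move.cupPos⟩

private theorem mon_st {a b : ℕ} (n m : ℕ) (p u v q : Word) (hM : Move u v) (h1 : Ok a p n)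
    (h2 : Ok n u m) (h3 : Ok n v m) (h4 : Ok m q b) : TEq a b (p ++ u ++ q) (p ++ v ++ q) :=
  Relation.EqvGen.rel _ _ ⟨p, q, u, v, n, m, hM, rfl, rfl, h1, h2, h3, h4⟩

private theorem mon_far (g h : Gen) (k : ℕ) (h' : Gen) (h1 : h.idx = g.idx + g.kind.out + k)
    (h2 : h' = ⟨h.kind, g.idx + g.kind.inp + k⟩) : Move [g, h] [h', g] := by
  rw [h2]
  exact Move.far g h k h1

private theorem mon_i1 : Kind.cup.inp = 0 := rfl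

private theorem mon_i2 : Kind.cap.inp = 2 := rfl

private theorem mon_o1 : Kind.cup.out = 2 := rfl

private theorem mon_o2 : Kind.cap.out = 0 := rfl

private theorem mon_cap0 {x z : Kind} (P : MonP x z) :
    TEq 6 0 [⟨x, 0⟩, ⟨.cap, 2⟩, ⟨.cap, 1⟩, ⟨.cap, 0⟩] [⟨x, 4⟩, ⟨.cap, 2⟩, ⟨.cap, 1⟩, ⟨.cap, 0⟩] := by
  have s1 : TEq 6 0 [⟨x, 0⟩, ⟨.cap, 2⟩, ⟨.cap, 1⟩, ⟨.cap, 0⟩]
      [⟨.cap, 2⟩, ⟨x, 0⟩, ⟨.cap, 1⟩, ⟨.cap, 0⟩] :=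
    mon_st 6 4 [] [⟨x, 0⟩, ⟨.cap, 2⟩] [⟨.cap, 2⟩, ⟨x, 0⟩] [⟨.cap, 1⟩, ⟨.cap, 0⟩]
      (mon_far _ _ 0 _ (by simp [P.xo]) (by simp [P.xi])) rfl
      (by simp [Ok, mon_i1, mon_i2, mon_o1, mon_o2, P.xi, P.xo]) (by simp [Ok, mon_i1, mon_i2, mon_o1, mon_o2, P.xi, P.xo])
      (by simp [Ok, mon_i1, mon_i2, mon_o1, mon_o2])
  have s2 : TEq 6 0 [⟨.cap, 2⟩, ⟨x, 0⟩, ⟨.cap, 1⟩, ⟨.cap, 0⟩]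
      [⟨.cap, 2⟩, ⟨z, 1⟩, ⟨.cap, 0⟩, ⟨.cap, 0⟩] :=
    mon_st 4 2 [⟨.cap, 2⟩] [⟨x, 0⟩, ⟨.cap, 1⟩] [⟨z, 1⟩, ⟨.cap, 0⟩] [⟨.cap, 0⟩]
      (P.c1 0) (by simp [Ok, mon_i1, mon_i2, mon_o1, mon_o2])
      (by simp [Ok, mon_i1, mon_i2, mon_o1, mon_o2, P.xi, P.xo]) (by simp [Ok, mon_i1, mon_i2, mon_o1, mon_o2, P.zi, P.zo])
      (by simp [Ok, mon_i1, mon_i2, mon_o1, mon_o2])
  have s3 : TEq 6 0 [⟨.cap, 2⟩, ⟨z, 1⟩, ⟨.cap, 0⟩, ⟨.cap, 0⟩]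
      [⟨.cap, 2⟩, ⟨z, 1⟩, ⟨.cap, 2⟩, ⟨.cap, 0⟩] :=
    mon_st 4 0 [⟨.cap, 2⟩, ⟨z, 1⟩] [⟨.cap, 0⟩, ⟨.cap, 0⟩] [⟨.cap, 2⟩, ⟨.cap, 0⟩] []
      (mon_far _ _ 0 _ (by simp [mon_o1, mon_o2]) (by simp [mon_i1, mon_i2]))
      (by simp [Ok, mon_i1, mon_i2, mon_o1, mon_o2, P.zi, P.zo])
      (by simp [Ok, mon_i1, mon_i2, mon_o1, mon_o2]) (by simp [Ok, mon_i1, mon_i2, mon_o1, mon_o2])
      (by simp [Ok])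
  have s4 : TEq 6 0 [⟨.cap, 2⟩, ⟨z, 1⟩, ⟨.cap, 2⟩, ⟨.cap, 0⟩]
      [⟨.cap, 2⟩, ⟨x, 2⟩, ⟨.cap, 1⟩, ⟨.cap, 0⟩] :=
    mon_st 4 2 [⟨.cap, 2⟩] [⟨z, 1⟩, ⟨.cap, 2⟩] [⟨x, 2⟩, ⟨.cap, 1⟩] [⟨.cap, 0⟩]
      (P.c2 1) (by simp [Ok, mon_i1, mon_i2, mon_o1, mon_o2])
      (by simp [Ok, mon_i1, mon_i2, mon_o1, mon_o2, P.zi, P.zo]) (by simp [Ok, mon_i1, mon_i2, mon_o1, mon_o2, P.xi, P.xo])
      (by simp [Ok, mon_i1, mon_i2, mon_o1, mon_o2])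
  have s5 : TEq 6 0 [⟨.cap, 2⟩, ⟨x, 2⟩, ⟨.cap, 1⟩, ⟨.cap, 0⟩]
      [⟨x, 4⟩, ⟨.cap, 2⟩, ⟨.cap, 1⟩, ⟨.cap, 0⟩] :=
    mon_st 6 4 [] [⟨.cap, 2⟩, ⟨x, 2⟩] [⟨x, 4⟩, ⟨.cap, 2⟩] [⟨.cap, 1⟩, ⟨.cap, 0⟩]
      (mon_far _ _ 0 _ (by simp [mon_o1, mon_o2]) (by simp [mon_i1, mon_i2])) rfl
      (by simp [Ok, mon_i1, mon_i2, mon_o1, mon_o2, P.xi, P.xo]) (by simp [Ok, mon_i1, mon_i2, mon_o1, mon_o2, P.xi, P.xo])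
      (by simp [Ok, mon_i1, mon_i2, mon_o1, mon_o2])
  exact s1.trans (s2.trans (s3.trans (s4.trans s5)))

private theorem mon_cap1 {x z : Kind} (P : MonP x z) :
    TEq 6 0 [⟨x, 1⟩, ⟨.cap, 2⟩, ⟨.cap, 1⟩, ⟨.cap, 0⟩] [⟨x, 3⟩, ⟨.cap, 2⟩, ⟨.cap, 1⟩, ⟨.cap, 0⟩] := by
  have s2 : TEq 6 0 [⟨x, 1⟩, ⟨.cap, 2⟩, ⟨.cap, 1⟩, ⟨.cap, 0⟩]
      [⟨z, 2⟩, ⟨.cap, 1⟩, ⟨.cap, 1⟩, ⟨.cap, 0⟩] :=
    mon_st 6 4 [] [⟨x, 1⟩, ⟨.cap, 2⟩] [⟨z, 2⟩, ⟨.cap, 1⟩] [⟨.cap, 1⟩, ⟨.cap, 0⟩]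
      (P.c1 1) rfl
      (by simp [Ok, mon_i1, mon_i2, mon_o1, mon_o2, P.xi, P.xo]) (by simp [Ok, mon_i1, mon_i2, mon_o1, mon_o2, P.zi, P.zo])
      (by simp [Ok, mon_i1, mon_i2, mon_o1, mon_o2])
  have s3 : TEq 6 0 [⟨z, 2⟩, ⟨.cap, 1⟩, ⟨.cap, 1⟩, ⟨.cap, 0⟩]
      [⟨z, 2⟩, ⟨.cap, 3⟩, ⟨.cap, 1⟩, ⟨.cap, 0⟩] :=
    mon_st 6 2 [⟨z, 2⟩] [⟨.cap, 1⟩, ⟨.cap, 1⟩] [⟨.cap, 3⟩, ⟨.cap, 1⟩] [⟨.cap, 0⟩]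
      (mon_far _ _ 0 _ (by simp [mon_o1, mon_o2]) (by simp [mon_i1, mon_i2]))
      (by simp [Ok, P.zi, P.zo])
      (by simp [Ok, mon_i1, mon_i2, mon_o1, mon_o2]) (by simp [Ok, mon_i1, mon_i2, mon_o1, mon_o2])
      (by simp [Ok, mon_i1, mon_i2, mon_o1, mon_o2])
  have s4 : TEq 6 0 [⟨z, 2⟩, ⟨.cap, 3⟩, ⟨.cap, 1⟩, ⟨.cap, 0⟩]
      [⟨x, 3⟩, ⟨.cap, 2⟩, ⟨.cap, 1⟩, ⟨.cap, 0⟩] :=
    mon_st 6 4 [] [⟨z, 2⟩, ⟨.cap, 3⟩] [⟨x, 3⟩, ⟨.cap, 2⟩] [⟨.cap, 1⟩, ⟨.cap, 0⟩]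
      (P.c2 2) rfl
      (by simp [Ok, mon_i1, mon_i2, mon_o1, mon_o2, P.zi, P.zo]) (by simp [Ok, mon_i1, mon_i2, mon_o1, mon_o2, P.xi, P.xo])
      (by simp [Ok, mon_i1, mon_i2, mon_o1, mon_o2])
  exact s2.trans (s3.trans s4)

private theorem mon_cup0 {x z : Kind} (P : MonP x z) :
    TEq 0 6 [⟨.cup, 0⟩, ⟨.cup, 1⟩, ⟨.cup, 2⟩, ⟨x, 0⟩] [⟨.cup, 0⟩, ⟨.cup, 1⟩, ⟨.cup, 2⟩, ⟨x, 4⟩] := by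
  have s1 : TEq 0 6 [⟨.cup, 0⟩, ⟨.cup, 1⟩, ⟨x, 0⟩, ⟨.cup, 2⟩]
      [⟨.cup, 0⟩, ⟨.cup, 1⟩, ⟨.cup, 2⟩, ⟨x, 0⟩] :=
    mon_st 4 6 [⟨.cup, 0⟩, ⟨.cup, 1⟩] [⟨x, 0⟩, ⟨.cup, 2⟩] [⟨.cup, 2⟩, ⟨x, 0⟩] []
      (mon_far _ _ 0 _ (by simp [P.xo]) (by simp [P.xi])) (by simp [Ok, mon_i1, mon_i2, mon_o1, mon_o2])
      (by simp [Ok, mon_i1, mon_i2, mon_o1, mon_o2, P.xi, P.xo]) (by simp [Ok, mon_i1, mon_i2, mon_o1, mon_o2, P.xi, P.xo])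
      rfl
  have s2 : TEq 0 6 [⟨.cup, 0⟩, ⟨.cup, 0⟩, ⟨z, 1⟩, ⟨.cup, 2⟩]
      [⟨.cup, 0⟩, ⟨.cup, 1⟩, ⟨x, 0⟩, ⟨.cup, 2⟩] :=
    mon_st 2 4 [⟨.cup, 0⟩] [⟨.cup, 0⟩, ⟨z, 1⟩] [⟨.cup, 1⟩, ⟨x, 0⟩] [⟨.cup, 2⟩]
      (P.u2 0) (by simp [Ok, mon_i1, mon_i2, mon_o1, mon_o2])
      (by simp [Ok, mon_i1, mon_i2, mon_o1, mon_o2, P.zi, P.zo]) (by simp [Ok, mon_i1, mon_i2, mon_o1, mon_o2, P.xi, P.xo])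
      (by simp [Ok, mon_i1, mon_i2, mon_o1, mon_o2])
  have s3 : TEq 0 6 [⟨.cup, 0⟩, ⟨.cup, 2⟩, ⟨z, 1⟩, ⟨.cup, 2⟩]
      [⟨.cup, 0⟩, ⟨.cup, 0⟩, ⟨z, 1⟩, ⟨.cup, 2⟩] :=
    mon_st 0 4 [] [⟨.cup, 0⟩, ⟨.cup, 2⟩] [⟨.cup, 0⟩, ⟨.cup, 0⟩] [⟨z, 1⟩, ⟨.cup, 2⟩]
      (mon_far _ _ 0 _ (by simp [mon_o1, mon_o2]) (by simp [mon_i1, mon_i2])) rfl
      (by simp [Ok, mon_i1, mon_i2, mon_o1, mon_o2]) (by simp [Ok, mon_i1, mon_i2, mon_o1, mon_o2])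
      (by simp [Ok, mon_i1, mon_i2, mon_o1, mon_o2, P.zi, P.zo])
  have s4 : TEq 0 6 [⟨.cup, 0⟩, ⟨.cup, 1⟩, ⟨x, 2⟩, ⟨.cup, 2⟩]
      [⟨.cup, 0⟩, ⟨.cup, 2⟩, ⟨z, 1⟩, ⟨.cup, 2⟩] :=
    mon_st 2 4 [⟨.cup, 0⟩] [⟨.cup, 1⟩, ⟨x, 2⟩] [⟨.cup, 2⟩, ⟨z, 1⟩] [⟨.cup, 2⟩]
      (P.u1 1) (by simp [Ok, mon_i1, mon_i2, mon_o1, mon_o2])
      (by simp [Ok, mon_i1, mon_i2, mon_o1, mon_o2, P.xi, P.xo]) (by simp [Ok, mon_i1, mon_i2, mon_o1, mon_o2, P.zi, P.zo])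
      (by simp [Ok, mon_i1, mon_i2, mon_o1, mon_o2])
  have s5 : TEq 0 6 [⟨.cup, 0⟩, ⟨.cup, 1⟩, ⟨.cup, 2⟩, ⟨x, 4⟩]
      [⟨.cup, 0⟩, ⟨.cup, 1⟩, ⟨x, 2⟩, ⟨.cup, 2⟩] :=
    mon_st 4 6 [⟨.cup, 0⟩, ⟨.cup, 1⟩] [⟨.cup, 2⟩, ⟨x, 4⟩] [⟨x, 2⟩, ⟨.cup, 2⟩] []
      (mon_far _ _ 0 _ (by simp [mon_o1, mon_o2]) (by simp [mon_i1, mon_i2])) (by simp [Ok, mon_i1, mon_i2, mon_o1, mon_o2])
      (by simp [Ok, mon_i1, mon_i2, mon_o1, mon_o2, P.xi, P.xo]) (by simp [Ok, mon_i1, mon_i2, mon_o1, mon_o2, P.xi, P.xo])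
      rfl
  exact (s5.trans (s4.trans (s3.trans (s2.trans s1)))).symm

private theorem mon_cup1 {x z : Kind} (P : MonP x z) :
    TEq 0 6 [⟨.cup, 0⟩, ⟨.cup, 1⟩, ⟨.cup, 2⟩, ⟨x, 1⟩] [⟨.cup, 0⟩, ⟨.cup, 1⟩, ⟨.cup, 2⟩, ⟨x, 3⟩] := by
  have s2 : TEq 0 6 [⟨.cup, 0⟩, ⟨.cup, 1⟩, ⟨.cup, 1⟩, ⟨z, 2⟩]
      [⟨.cup, 0⟩, ⟨.cup, 1⟩, ⟨.cup, 2⟩, ⟨x, 1⟩] :=
    mon_st 4 6 [⟨.cup, 0⟩, ⟨.cup, 1⟩] [⟨.cup, 1⟩, ⟨z, 2⟩] [⟨.cup, 2⟩, ⟨x, 1⟩] []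
      (P.u2 1) (by simp [Ok, mon_i1, mon_i2, mon_o1, mon_o2])
      (by simp [Ok, mon_i1, mon_i2, mon_o1, mon_o2, P.zi, P.zo]) (by simp [Ok, mon_i1, mon_i2, mon_o1, mon_o2, P.xi, P.xo])
      rfl
  have s3 : TEq 0 6 [⟨.cup, 0⟩, ⟨.cup, 1⟩, ⟨.cup, 3⟩, ⟨z, 2⟩]
      [⟨.cup, 0⟩, ⟨.cup, 1⟩, ⟨.cup, 1⟩, ⟨z, 2⟩] :=
    mon_st 2 6 [⟨.cup, 0⟩] [⟨.cup, 1⟩, ⟨.cup, 3⟩] [⟨.cup, 1⟩, ⟨.cup, 1⟩] [⟨z, 2⟩]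
      (mon_far _ _ 0 _ (by simp [mon_o1, mon_o2]) (by simp [mon_i1, mon_i2])) (by simp [Ok, mon_i1, mon_i2, mon_o1, mon_o2])
      (by simp [Ok, mon_i1, mon_i2, mon_o1, mon_o2]) (by simp [Ok, mon_i1, mon_i2, mon_o1, mon_o2])
      (by simp [Ok, P.zi, P.zo])
  have s4 : TEq 0 6 [⟨.cup, 0⟩, ⟨.cup, 1⟩, ⟨.cup, 2⟩, ⟨x, 3⟩]
      [⟨.cup, 0⟩, ⟨.cup, 1⟩, ⟨.cup, 3⟩, ⟨z, 2⟩] :=
    mon_st 4 6 [⟨.cup, 0⟩, ⟨.cup, 1⟩] [⟨.cup, 2⟩, ⟨x, 3⟩] [⟨.cup, 3⟩, ⟨z, 2⟩] []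
      (P.u1 2) (by simp [Ok, mon_i1, mon_i2, mon_o1, mon_o2])
      (by simp [Ok, mon_i1, mon_i2, mon_o1, mon_o2, P.xi, P.xo]) (by simp [Ok, mon_i1, mon_i2, mon_o1, mon_o2, P.zi, P.zo])
      rfl
  exact (s4.trans (s3.trans s2)).symm

private theorem mon_comm {x z : Kind} (P : MonP x z) (j : ℕ) (hj : 3 ≤ j) (hj' : j ≤ 4)
    (l : List Ltr) : TEq 6 6 (⟨x, j⟩ :: bw l) (bw l ++ [⟨x, j⟩]) := by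
  have hx : Ok 6 [(⟨x, j⟩ : Gen)] 6 := by
    refine ⟨?_, ?_⟩
    · show j + x.inp ≤ 6
      rw [P.xi]
      omega
    · show 6 - x.inp + x.out = 6
      rw [P.xi, P.xo]
  induction l with
  | nil => exact teq_refl _ _ _
  | cons t l ih =>
    rw [mon_bw_cons]
    set g : Gen := ⟨if t.2 then .pos else .neg, if t.1 then 1 else 0⟩ with hg
    have hi : g.kind.inp = 2 := by rcases t with ⟨_ | _, _ | _⟩ <;> rfl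
    have ho : g.kind.out = 2 := by rcases t with ⟨_ | _, _ | _⟩ <;> rfl
    have hgi : g.idx ≤ 1 := by rcases t with ⟨_ | _, _ | _⟩ <;> decide
    have hok : Ok 6 [g] 6 := by
      refine ⟨?_, ?_⟩
      · rw [hi]; omega
      · show 6 - g.kind.inp + g.kind.out = 6
        rw [hi, ho]
    have hM : Move [g, ⟨x, j⟩] [⟨x, j⟩, g] := by
      refine mon_far g ⟨x, j⟩ (j - 2 - g.idx) ⟨x, j⟩ ?_ ?_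
      · rw [ho]
        show j = _
        omega
      · rw [hi]
        congr 1
        omega
    have hu : Ok 6 [g, ⟨x, j⟩] 6 := by
      have := (ok_append (n := 6) (m := 6) (p := [g]) (q := [⟨x, j⟩])).2 ⟨6, hok, hx⟩
      exact this
    have hv : Ok 6 [⟨x, j⟩, g] 6 := by
      have := (ok_append (n := 6) (m := 6) (p := [⟨x, j⟩]) (q := [g])).2 ⟨6, hx, hok⟩
      exact this
    have s1 : TEq 6 6 (⟨x, j⟩ :: g :: bw l) (g :: ⟨x, j⟩ :: bw l) :=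
      (mon_st 6 6 [] [g, ⟨x, j⟩] [⟨x, j⟩, g] (bw l) hM rfl hu hv (mon_ok_bw6 l)).symm
    have s2 : TEq 6 6 ([g] ++ (⟨x, j⟩ :: bw l) ++ []) ([g] ++ (bw l ++ [⟨x, j⟩]) ++ []) :=
      teq_ctx hok rfl ih
    rw [List.append_nil, List.append_nil] at s2
    exact s1.trans s2

private theorem mon_rot1_aux {x z : Kind} (P : MonP x z) (i j : ℕ) (hij : i = 0 ∧ j = 4 ∨ i = 1 ∧ j = 3)
    (l : List Ltr) : TEq 0 0 (cl3 (⟨x, i⟩ :: bw l)) (cl3 (bw l ++ [⟨x, i⟩])) := by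
  have hcup : TEq 0 6 [⟨.cup, 0⟩, ⟨.cup, 1⟩, ⟨.cup, 2⟩, ⟨x, i⟩]
      [⟨.cup, 0⟩, ⟨.cup, 1⟩, ⟨.cup, 2⟩, ⟨x, j⟩] := by
    rcases hij with ⟨rfl, rfl⟩ | ⟨rfl, rfl⟩
    · exact mon_cup0 P
    · exact mon_cup1 P
  have hcap : TEq 6 0 [⟨x, i⟩, ⟨.cap, 2⟩, ⟨.cap, 1⟩, ⟨.cap, 0⟩]
      [⟨x, j⟩, ⟨.cap, 2⟩, ⟨.cap, 1⟩, ⟨.cap, 0⟩] := by
    rcases hij with ⟨rfl, rfl⟩ | ⟨rfl, rfl⟩
    · exact mon_cap0 P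
    · exact mon_cap1 P
  have hj : 3 ≤ j ∧ j ≤ 4 := by omega
  have s1 : TEq 0 0 ([] ++ [⟨.cup, 0⟩, ⟨.cup, 1⟩, ⟨.cup, 2⟩, ⟨x, i⟩] ++
      (bw l ++ [⟨.cap, 2⟩, ⟨.cap, 1⟩, ⟨.cap, 0⟩]))
      ([] ++ [⟨.cup, 0⟩, ⟨.cup, 1⟩, ⟨.cup, 2⟩, ⟨x, j⟩] ++
      (bw l ++ [⟨.cap, 2⟩, ⟨.cap, 1⟩, ⟨.cap, 0⟩])) :=
    teq_ctx rfl (ok_append.2 ⟨6, mon_ok_bw6 l, mon_ok_caps⟩) hcup
  have s2 : TEq 0 0 ([⟨.cup, 0⟩, ⟨.cup, 1⟩, ⟨.cup, 2⟩] ++ (⟨x, j⟩ :: bw l) ++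
      [⟨.cap, 2⟩, ⟨.cap, 1⟩, ⟨.cap, 0⟩]) ([⟨.cup, 0⟩, ⟨.cup, 1⟩, ⟨.cup, 2⟩] ++ (bw l ++ [⟨x, j⟩]) ++
      [⟨.cap, 2⟩, ⟨.cap, 1⟩, ⟨.cap, 0⟩]) :=
    teq_ctx mon_ok_cups mon_ok_caps (mon_comm P j hj.1 hj.2 l)
  have s3 : TEq 0 0 (([⟨.cup, 0⟩, ⟨.cup, 1⟩, ⟨.cup, 2⟩] ++ bw l) ++
      [⟨x, i⟩, ⟨.cap, 2⟩, ⟨.cap, 1⟩, ⟨.cap, 0⟩] ++ []) (([⟨.cup, 0⟩, ⟨.cup, 1⟩, ⟨.cup, 2⟩] ++ bw l) ++
      [⟨x, j⟩, ⟨.cap, 2⟩, ⟨.cap, 1⟩, ⟨.cap, 0⟩] ++ []) :=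
    teq_ctx (ok_append.2 ⟨6, mon_ok_cups, mon_ok_bw6 l⟩) rfl hcap
  have e1 : cl3 (⟨x, i⟩ :: bw l) = [] ++ [⟨.cup, 0⟩, ⟨.cup, 1⟩, ⟨.cup, 2⟩, ⟨x, i⟩] ++
      (bw l ++ [⟨.cap, 2⟩, ⟨.cap, 1⟩, ⟨.cap, 0⟩]) := by
    simp [cl3]
  have e2 : [] ++ [⟨.cup, 0⟩, ⟨.cup, 1⟩, ⟨.cup, 2⟩, (⟨x, j⟩ : Gen)] ++
      (bw l ++ [⟨.cap, 2⟩, ⟨.cap, 1⟩, ⟨.cap, 0⟩]) = [⟨.cup, 0⟩, ⟨.cup, 1⟩, ⟨.cup, 2⟩] ++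
      (⟨x, j⟩ :: bw l) ++ [⟨.cap, 2⟩, ⟨.cap, 1⟩, ⟨.cap, 0⟩] := by
    simp
  have e3 : [⟨.cup, 0⟩, ⟨.cup, 1⟩, ⟨.cup, 2⟩] ++ (bw l ++ [(⟨x, j⟩ : Gen)]) ++
      [⟨.cap, 2⟩, ⟨.cap, 1⟩, ⟨.cap, 0⟩] = ([⟨.cup, 0⟩, ⟨.cup, 1⟩, ⟨.cup, 2⟩] ++ bw l) ++
      [⟨x, j⟩, ⟨.cap, 2⟩, ⟨.cap, 1⟩, ⟨.cap, 0⟩] ++ [] := by
    simp
  have e4 : ([⟨.cup, 0⟩, ⟨.cup, 1⟩, ⟨.cup, 2⟩] ++ bw l) ++
      [(⟨x, i⟩ : Gen), ⟨.cap, 2⟩, ⟨.cap, 1⟩, ⟨.cap, 0⟩] ++ [] = cl3 (bw l ++ [⟨x, i⟩]) := by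
    simp [cl3]
  rw [e1, ← e4]
  rw [e2] at s1
  rw [e3] at s2
  exact s1.trans (s2.trans s3.symm)

private theorem mon_rot1 (t : Ltr) (l : List Ltr) :
    TEq 0 0 (cl3 (bw (t :: l))) (cl3 (bw (l ++ [t]))) := by
  rw [bw_append, mon_bw_cons, mon_bw_cons]
  rcases t with ⟨_ | _, _ | _⟩
  · exact mon_rot1_aux monP_neg 0 4 (Or.inl ⟨rfl, rfl⟩) l
  · exact mon_rot1_aux monP_pos 0 4 (Or.inl ⟨rfl, rfl⟩) l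
  · exact mon_rot1_aux monP_neg 1 3 (Or.inr ⟨rfl, rfl⟩) l
  · exact mon_rot1_aux monP_pos 1 3 (Or.inr ⟨rfl, rfl⟩) l

theorem cl3_rot (l l' : List Ltr) : TEq 0 0 (cl3 (bw (l ++ l'))) (cl3 (bw (l' ++ l))) := by
  induction l generalizing l' with
  | nil =>
    rw [List.nil_append, List.append_nil]
    exact teq_refl _ _ _
  | cons t l ih =>
    have h1 := mon_rot1 t (l ++ l')
    have h2 := ih (l' ++ [t])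
    rw [List.append_assoc l l' [t]] at h1
    rw [List.append_assoc l' [t] l] at h2
    exact h1.trans h2

end Pool.Agent.KCS
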