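import Pool.Agent.KCS.BIT
import Pool.Agent.KCS.CNT

/-!
# KCS / ORT: the two families of differences are orthogonal

`tb_orth`: for `φ ψ : L → ℕ` and `v : ZMod 2` let `O v φ ψ` be: for all `s t` of the same length with `φ s ≠ 0`,
`ψ t ≠ 0` we have `s · t = v` (`(List.zipWith (· * ·) s t).sum`). `O 0 dl dl` holds. If `O v φ ψ` and the bits `h`, `z` are used at
a crossing (vertical with `h` for `φ`, horizontal with `z` for `ψ` or the other way round), then `O (v + h * z)` holds for the
images; at cups and caps `O v` is preserved (two equal labels contribute `a * b + a * b = 0`). Check this at the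
position `0` and show that it passes through `sh` (`(a :: s) · (b :: t) = a * b + s · t`). Here `mir w` has the other smoothing
at each crossing.
`dual`: let `S` be the set of `η` with `TB w η dl [] ≠ 0`, `S'` the same for `mir w`. By `tb_sq` all the nonzero values are
equal to `val cst w`; by `tb_sum` the two numbers are `|S| * val cst w` and `|S'| * val cst w`.
-/

namespace Pool.Agent.KCS

/-- the dot product of two lists of labels -/
def x_dot (s t : L) : ZMod 2 := (List.zipWith (· * ·) s t).sum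

theorem x_dot_cons (a b : ZMod 2) (s t : L) : x_dot (a :: s) (b :: t) = a * b + x_dot s t := by
  simp [x_dot]

/-- the supports of the two functions are orthogonal up to `v` -/
def x_O (v : ZMod 2) (φ ψ : L → ℕ) : Prop :=
  ∀ s t : L, s.length = t.length → φ s ≠ 0 → ψ t ≠ 0 → x_dot s t = v

/-- a pair of operators changes `v` by `δ` -/
def x_P (δ : ZMod 2) (F G : (L → ℕ) →ₗ[ℕ] (L → ℕ)) : Prop :=
  ∀ (v : ZMod 2) (φ ψ : L → ℕ), x_O v φ ψ → x_O (v + δ) (F φ) (G ψ)

theorem x_P_sh {δ : ZMod 2} {F G : (L → ℕ) →ₗ[ℕ] (L → ℕ)} (h : x_P δ F G) :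
    x_P δ (sh F) (sh G) := by
  intro v φ ψ hO s t hst hs ht
  rcases s with _ | ⟨a, s⟩
  · exact absurd rfl hs
  rcases t with _ | ⟨b, t⟩
  · exact absurd rfl ht
  have hO' : x_O (v - a * b) (fun s => φ (a :: s)) (fun s => ψ (b :: s)) := by
    intro s' t' hst' hs' ht'
    have := hO (a :: s') (b :: t') (by simp [hst']) hs' ht'
    rw [x_dot_cons] at this
    rw [← this]; ring
  have := h _ _ _ hO' s t (by simpa using hst) hs ht
  rw [x_dot_cons, this]; ring

theorem x_P_iter {δ : ZMod 2} {F G : (L → ℕ) →ₗ[ℕ] (L → ℕ)} (h : x_P δ F G) (n : ℕ) :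
    x_P δ (sh^[n] F) (sh^[n] G) := by
  induction n with
  | zero => exact h
  | succ n ih =>
    rw [Function.iterate_succ_apply', Function.iterate_succ_apply']
    exact x_P_sh ih

theorem x_add_self (a : ZMod 2) : a + a = 0 := CharTwo.add_self_eq_zero a

theorem x_P_cup : x_P 0 (cupOp str.cu) (cupOp str.cu) := by
  intro v φ ψ hO s t hst hs ht
  have key : ∀ (φ : L → ℕ) (s : L), cupOp str.cu φ s ≠ 0 → ∃ a, φ (a :: a :: s) ≠ 0 := by
    intro φ s hs
    by_contra hcon
    push Not at hcon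
    apply hs
    show ∑ a, ∑ b, str.cu a b * φ (a :: b :: s) = 0
    refine Finset.sum_eq_zero fun a _ => Finset.sum_eq_zero fun b _ => ?_
    by_cases hab : a = b
    · subst hab; rw [hcon a, mul_zero]
    · simp [str, hab]
  obtain ⟨a, ha⟩ := key φ s hs
  obtain ⟨b, hb⟩ := key ψ t ht
  have := hO (a :: a :: s) (b :: b :: t) (by simp [hst]) ha hb
  rw [x_dot_cons, x_dot_cons, ← add_assoc, x_add_self, zero_add] at this
  rw [this, add_zero]

theorem x_P_cap : x_P 0 (capOp str.ca) (capOp str.ca) := by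
  intro v φ ψ hO s t hst hs ht
  have key : ∀ (φ : L → ℕ) (s : L), capOp str.ca φ s ≠ 0 → ∃ a r, s = a :: a :: r ∧ φ r ≠ 0 := by
    intro φ s hs
    rcases s with _ | ⟨a, _ | ⟨b, r⟩⟩
    · exact absurd rfl hs
    · exact absurd rfl hs
    · have hs' : str.ca a b * φ r ≠ 0 := hs
      have hab : a = b := by
        by_contra hne
        apply hs'
        simp [str, hne]
      subst hab
      exact ⟨a, r, rfl, right_ne_zero_of_mul hs'⟩
  obtain ⟨a, r, rfl, ha⟩ := key φ s hs
  obtain ⟨b, r', rfl, hb⟩ := key ψ t ht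
  have := hO r r' (by simpa using hst) ha hb
  rw [x_dot_cons, x_dot_cons, ← add_assoc, x_add_self, zero_add, this, add_zero]

theorem x_idh {h : ZMod 2} {φ : L → ℕ} {s : L} (hs : crOp (idh h) φ s ≠ 0) :
    ∃ a b r, s = a :: b :: r ∧ a + b = h ∧ φ (a :: b :: r) ≠ 0 := by
  rcases s with _ | ⟨a, _ | ⟨b, r⟩⟩
  · exact absurd rfl hs
  · exact absurd rfl hs
  · refine ⟨a, b, r, rfl, ?_⟩
    have hs' : ∑ c, ∑ d, idh h a b c d * φ (c :: d :: r) ≠ 0 := hs
    by_contra hcon
    apply hs'
    refine Finset.sum_eq_zero fun c _ => Finset.sum_eq_zero fun d _ => ?_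
    by_cases hc : a = c ∧ b = d ∧ a + b = h
    · obtain ⟨rfl, rfl, h3⟩ := hc
      have : φ (a :: b :: r) = 0 := by
        by_contra h4
        exact hcon ⟨h3, h4⟩
      rw [this, mul_zero]
    · simp [idh, hc]

theorem x_eh {h : ZMod 2} {φ : L → ℕ} {s : L} (hs : crOp (eh h) φ s ≠ 0) :
    ∃ a c r, s = a :: a :: r ∧ a + c = h ∧ φ (c :: c :: r) ≠ 0 := by
  rcases s with _ | ⟨a, _ | ⟨b, r⟩⟩
  · exact absurd rfl hs
  · exact absurd rfl hs
  · have hs' : ∑ c, ∑ d, eh h a b c d * φ (c :: d :: r) ≠ 0 := hs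
    by_contra hcon
    apply hs'
    refine Finset.sum_eq_zero fun c _ => Finset.sum_eq_zero fun d _ => ?_
    by_cases hc : a = b ∧ c = d ∧ a + c = h
    · obtain ⟨rfl, rfl, h3⟩ := hc
      have : φ (c :: c :: r) = 0 := by
        by_contra h4
        exact hcon ⟨a, c, r, rfl, h3, h4⟩
      rw [this, mul_zero]
    · simp [eh, hc]

theorem x_alg (a b c d v x h z : ZMod 2) (h1 : a + b = h) (h2 : c + d = z)
    (h3 : a * d + (b * d + x) = v) : a * c + (b * c + x) = v + h * z := by
  subst h1 h2 h3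
  have e : a * d + (b * d + x) + (a + b) * (c + d) =
      a * c + (b * c + x) + ((a * d + a * d) + (b * d + b * d)) := by ring
  rw [e, x_add_self, x_add_self]; ring

theorem x_P_pos (h z : ZMod 2) : x_P (h * z) (crOp (idh h)) (crOp (eh z)) := by
  intro v φ ψ hO s t hst hs ht
  obtain ⟨a, b, r, rfl, hab, h1⟩ := x_idh hs
  obtain ⟨c, d, r', rfl, hcd, h2⟩ := x_eh ht
  have := hO _ _ (by simpa using hst) h1 h2
  rw [x_dot_cons, x_dot_cons] at this ⊢
  exact x_alg a b c d v _ h z hab hcd this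

theorem x_P_neg (h z : ZMod 2) : x_P (h * z) (crOp (eh h)) (crOp (idh z)) := by
  intro v φ ψ hO s t hst hs ht
  obtain ⟨c, d, r, rfl, hcd, h1⟩ := x_eh hs
  obtain ⟨a, b, r', rfl, hab, h2⟩ := x_idh ht
  have := hO _ _ (by simpa using hst) h1 h2
  rw [x_dot_cons, x_dot_cons] at this ⊢
  rw [mul_comm h z, mul_comm c a, mul_comm c b]
  rw [mul_comm d a, mul_comm d b] at this
  exact x_alg a b c d v _ z h hab hcd this

theorem x_P_bop (g : Gen) (h z : ZMod 2) (hc : isCr g = true) :
    x_P (h * z) (bop g h) (bop ⟨g.kind.mir, g.idx⟩ z) := by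
  obtain ⟨k, i⟩ := g
  unfold bop
  apply x_P_iter
  cases k with
  | cup => simp [isCr] at hc
  | cap => simp [isCr] at hc
  | pos => exact x_P_pos h z
  | neg => exact x_P_neg h z

theorem x_P_bop0 (g : Gen) (hc : ¬ isCr g = true) :
    x_P 0 (bop g 0) (bop ⟨g.kind.mir, g.idx⟩ 0) := by
  obtain ⟨k, i⟩ := g
  unfold bop
  apply x_P_iter
  cases k with
  | cup => exact x_P_cup
  | cap => exact x_P_cap
  | pos => simp [isCr] at hc
  | neg => simp [isCr] at hc

theorem x_isCr_mir (g : Gen) : isCr ⟨g.kind.mir, g.idx⟩ = isCr g := by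
  obtain ⟨k, i⟩ := g
  cases k <;> rfl

theorem x_orth (w : Word) : ∀ η ζ : List (ZMod 2), η.length = cr w → ζ.length = cr w →
    x_O (x_dot η ζ) (TB w η dl) (TB (mir w) ζ dl) := by
  induction w with
  | nil =>
    intro η ζ hη hζ s t _ hs ht
    have hη' : η = [] := by
      apply List.eq_nil_of_length_eq_zero
      rw [hη]; rfl
    have hs' : s = [] := by
      by_contra hne
      apply hs
      show dl s = 0
      simp [dl, hne]
    subst hη' hs'
    rfl
  | cons g w ih =>
    intro η ζ hη hζ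
    have hm : mir (g :: w) = ⟨g.kind.mir, g.idx⟩ :: mir w := rfl
    by_cases hc : isCr g = true
    · have hcr : cr (g :: w) = cr w + 1 := by
        unfold cr
        rw [List.countP_cons_of_pos hc]
      rw [hcr] at hη hζ
      rcases η with _ | ⟨h, η⟩
      · simp at hη
      rcases ζ with _ | ⟨z, ζ⟩
      · simp at hζ
      have e1 : TB (g :: w) (h :: η) = (bop g h).comp (TB w η) := by
        rw [TB, if_pos hc]
      have e2 : TB (mir (g :: w)) (z :: ζ) = (bop ⟨g.kind.mir, g.idx⟩ z).comp (TB (mir w) ζ) := by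
        rw [hm, TB, if_pos (by rw [x_isCr_mir]; exact hc)]
      rw [e1, e2, x_dot_cons, add_comm (h * z)]
      exact x_P_bop g h z hc _ _ _ (ih η ζ (by simpa using hη) (by simpa using hζ))
    · have hcr : cr (g :: w) = cr w := by
        unfold cr
        rw [List.countP_cons_of_neg hc]
      rw [hcr] at hη hζ
      have e1 : TB (g :: w) η = (bop g 0).comp (TB w η) := by
        rw [TB.eq_def]
        exact if_neg hc
      have e2 : TB (mir (g :: w)) ζ = (bop ⟨g.kind.mir, g.idx⟩ 0).comp (TB (mir w) ζ) := by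
        rw [hm, TB.eq_def]
        exact if_neg (by rw [x_isCr_mir]; exact hc)
      rw [e1, e2, ← add_zero (x_dot η ζ)]
      exact x_P_bop0 g hc _ _ _ (ih η ζ hη hζ)

theorem tb_orth {w : Word} (h : Ok 0 w 0) (η ζ : List (ZMod 2)) (hη : η.length = cr w)
    (hζ : ζ.length = cr w) (h1 : TB w η dl [] ≠ 0) (h2 : TB (mir w) ζ dl [] ≠ 0) :
    (List.zipWith (· * ·) η ζ).sum = 0 := by
  have := x_orth w η ζ hη hζ [] [] rfl h1 h2
  exact this.symm

theorem x_dot_ofFn {c : ℕ} (s t : Fin c → ZMod 2) :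
    (List.zipWith (· * ·) (List.ofFn s) (List.ofFn t)).sum = ∑ i, s i * t i := by
  induction c with
  | zero => simp
  | succ c ih =>
    rw [List.ofFn_succ, List.ofFn_succ, List.zipWith_cons_cons, List.sum_cons, ih,
      Fin.sum_univ_succ]

open Classical in
theorem x_count {w : Word} (h : Ok 0 w 0) (c : ℕ) (hc : cr w = c) :
    val str (resA w) =
      (Finset.univ.filter fun η : Fin c → ZMod 2 => TB w (List.ofFn η) dl [] ≠ 0).card *
        val cst w := by
  have h1 : val str (resA w) = ∑ η : Fin c → ZMod 2, TB w (List.ofFn η) dl [] :=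
    tb_sum h dl [] rfl c hc
  rw [h1, ← Finset.sum_filter_ne_zero, ← smul_eq_mul, ← Finset.sum_const]
  refine Finset.sum_congr rfl fun η hη => ?_
  have h2 := (Finset.mem_filter.1 hη).2
  exact Nat.eq_of_mul_eq_mul_left (Nat.pos_of_ne_zero h2) (tb_sq w h (List.ofFn η))

theorem dual {w : Word} (h : Ok 0 w 0) :
    val str (resA w) * val str (resA (mir w)) ≤ 2 ^ cr w * val cst w ^ 2 := by
  classical
  have hm : Ok 0 (mir w) 0 := ok_mir.2 h
  rw [x_count h (cr w) rfl, x_count hm (cr w) (cr_mir w), cst_mir]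
  set S := Finset.univ.filter fun η : Fin (cr w) → ZMod 2 => TB w (List.ofFn η) dl [] ≠ 0
  set S' := Finset.univ.filter fun η : Fin (cr w) → ZMod 2 => TB (mir w) (List.ofFn η) dl [] ≠ 0
  have hS : S.card * S'.card ≤ 2 ^ cr w := by
    apply card_orth
    intro s hs t ht
    rw [← x_dot_ofFn]
    exact tb_orth h _ _ (by simp) (by simp) (Finset.mem_filter.1 hs).2 (Finset.mem_filter.1 ht).2
  calc S.card * val cst w * (S'.card * val cst w)
      = (S.card * S'.card) * val cst w ^ 2 := by ring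
    _ ≤ 2 ^ cr w * val cst w ^ 2 := Nat.mul_le_mul_right _ hS

end Pool.Agent.KCS
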