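import Pool.Agent.KCS.LOC
import Pool.Agent.KCS.MIR

/-!
# KCS / PLN: diagrams without crossings

`pln`: strong induction on the length of the word `w` (no crossings, `Ok n w n` with `n ≤ 1`, nonempty).
`w` contains a cap (the number of strands returns to `n`); take the first one: `w = c ++ [cap j] ++ q` with `c`
consisting of cups only; `c` is not empty as a cap needs two strands. Induction on the length of `c`: let
`cup i` be the last cup. If `j + 2 ≤ i` or `i + 2 ≤ j` the cap can be moved in front of this cup
(`[cup i, cap j]` has the operator of `[cap j, cup (i - 2)]` resp. `[cap (j - 2), cup i]`, both by `loc_far`)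
and the induction for `c` applies; if `j = i + 1` or `i = j + 1` the two pieces cancel (`Zig`); if `j = i` they
give the factor `lpv M`. The exponent does not depend on the model. One should prove first
the step: for `w` as above there are a word `w'` with `Ok n w' n`, no crossings, of length two less, and `e ∈ {0, 1}`
with `T M w φ l = lpv M ^ e * T M w' φ l` for all models with `Zig M`, all `φ` and all `l` of length `n` (plus spectators,
see `T_right`). If `n = 0` and `w'` is empty, then `w = [cup 0, cap 0]` and `e = 1`.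
-/

namespace Pool.Agent.KCS

/-- a zigzag is a straight strand -/
structure Zig {R : Type} [CommSemiring R] (M : Model R) : Prop where
  zig : ∀ a c : ZMod 2, ∑ b, M.cu a b * M.ca b c = if a = c then 1 else 0
  zag : ∀ c b : ZMod 2, ∑ a, M.ca c a * M.cu a b = if c = b then 1 else 0

/-- the value of a circle -/
def lpv {R : Type} [CommSemiring R] (M : Model R) : R := ∑ a, ∑ b, M.cu a b * M.ca a b

section Local

variable {R : Type} [CommSemiring R]

private theorem pln_cup (M : Model R) (ψ : L → R) (s l : L) (i : ℕ) (hs : s.length = i) :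
    op M ⟨.cup, i⟩ ψ (s ++ l) = ∑ a, ∑ b, M.cu a b * ψ (s ++ a :: b :: l) := by
  subst hs
  have h := op_left M .cup 0 s l ψ
  rw [Nat.zero_add] at h
  rw [h]
  rfl

private theorem pln_cap (M : Model R) (ψ : L → R) (s l : L) (a b : ZMod 2) (i : ℕ)
    (hs : s.length = i) :
    op M ⟨.cap, i⟩ ψ (s ++ a :: b :: l) = M.ca a b * ψ (s ++ l) := by
  subst hs
  have h := op_left M .cap 0 s (a :: b :: l) ψ
  rw [Nat.zero_add] at h
  rw [h]
  rfl

private theorem pln_same (M : Model R) (φ : L → R) (l : L) (i : ℕ) (hi : i ≤ l.length) :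
    T M [⟨.cup, i⟩, ⟨.cap, i⟩] φ l = lpv M * φ l := by
  obtain ⟨s, l', rfl, hs⟩ : ∃ s l' : L, l = s ++ l' ∧ s.length = i :=
    ⟨l.take i, l.drop i, (List.take_append_drop i l).symm, by simp [hi]⟩
  show op M ⟨.cup, i⟩ (op M ⟨.cap, i⟩ φ) (s ++ l') = _
  rw [pln_cup M _ s l' i hs]
  simp only [pln_cap M φ s l' _ _ i hs]
  rw [lpv, Finset.sum_mul]
  refine Finset.sum_congr rfl fun a _ => ?_
  rw [Finset.sum_mul]
  refine Finset.sum_congr rfl fun b _ => ?_
  ring

private theorem pln_zig {M : Model R} (hM : Zig M) (φ : L → R) (l : L) (i : ℕ)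
    (hi : i + 1 ≤ l.length) :
    T M [⟨.cup, i⟩, ⟨.cap, i + 1⟩] φ l = φ l := by
  obtain ⟨s, c, l', rfl, hs⟩ : ∃ (s : L) (c : ZMod 2) (l' : L), l = s ++ c :: l' ∧ s.length = i := by
    refine ⟨l.take i, l[i], l.drop (i + 1), ?_, by simp; omega⟩
    rw [List.getElem_cons_drop, List.take_append_drop]
  show op M ⟨.cup, i⟩ (op M ⟨.cap, i + 1⟩ φ) (s ++ c :: l') = _
  rw [pln_cup M _ s (c :: l') i hs]
  have h1 : ∀ a b : ZMod 2, op M ⟨.cap, i + 1⟩ φ (s ++ a :: b :: c :: l')
      = M.ca b c * φ (s ++ a :: l') := by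
    intro a b
    have := pln_cap M φ (s ++ [a]) l' b c (i + 1) (by simp [hs])
    simpa using this
  simp only [h1]
  have h2 : ∀ a : ZMod 2, ∑ b, M.cu a b * (M.ca b c * φ (s ++ a :: l'))
      = (if a = c then 1 else 0) * φ (s ++ a :: l') := by
    intro a
    rw [← hM.zig a c, Finset.sum_mul]
    refine Finset.sum_congr rfl fun b _ => ?_
    ring
  simp only [h2]
  rw [Finset.sum_eq_single c]
  · simp
  · intro a _ ha
    simp [ha]
  · intro hc
    exact absurd (Finset.mem_univ c) hc

private theorem pln_zag {M : Model R} (hM : Zig M) (φ : L → R) (l : L) (i : ℕ)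
    (hi : i + 1 ≤ l.length) :
    T M [⟨.cup, i + 1⟩, ⟨.cap, i⟩] φ l = φ l := by
  obtain ⟨s, c, l', rfl, hs⟩ : ∃ (s : L) (c : ZMod 2) (l' : L), l = s ++ c :: l' ∧ s.length = i := by
    refine ⟨l.take i, l[i], l.drop (i + 1), ?_, by simp; omega⟩
    rw [List.getElem_cons_drop, List.take_append_drop]
  show op M ⟨.cup, i + 1⟩ (op M ⟨.cap, i⟩ φ) (s ++ c :: l') = _
  have h0 := pln_cup M (op M ⟨.cap, i⟩ φ) (s ++ [c]) l' (i + 1) (by simp [hs])
  have e0 : s ++ c :: l' = (s ++ [c]) ++ l' := by simp
  rw [e0, h0]
  have h1 : ∀ a b : ZMod 2, op M ⟨.cap, i⟩ φ (s ++ [c] ++ a :: b :: l')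
      = M.ca c a * φ (s ++ b :: l') := by
    intro a b
    have := pln_cap M φ s (b :: l') c a i hs
    simpa using this
  simp only [h1]
  rw [Finset.sum_comm]
  have h2 : ∀ b : ZMod 2, ∑ a, M.cu a b * (M.ca c a * φ (s ++ b :: l'))
      = (if c = b then 1 else 0) * φ (s ++ b :: l') := by
    intro b
    rw [← hM.zag c b, Finset.sum_mul]
    refine Finset.sum_congr rfl fun a _ => ?_
    ring
  simp only [h2]
  rw [Finset.sum_eq_single c]
  · simp
  · intro b _ hb
    simp [Ne.symm hb]
  · intro hc
    exact absurd (Finset.mem_univ c) hc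

end Local

private theorem pln_smul {R : Type} [CommSemiring R] (M : Model R) (w : Word) (c : R) (φ : L → R)
    (l : L) : T M w (fun s => c * φ s) l = c * T M w φ l := by
  have h : (fun s => c * φ s) = c • φ := rfl
  rw [h, map_smul]
  rfl

/-- a cap after cups only -/
private theorem pln_first (c : Word) : ∀ (n m j : ℕ), n ≤ 1 → (∀ g ∈ c, g.kind = .cup) →
    Ok n (c ++ [⟨.cap, j⟩]) m →
    ∃ (c' : Word) (e : ℕ), (∀ g ∈ c', g.kind = .cup) ∧ c'.length + 1 = c.length ∧ Ok n c' m ∧
      (n = 0 → c' = [] → e = 1) ∧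
      ∀ (R : Type) [CommSemiring R] (M : Model R), Zig M → ∀ (φ : L → R) (l : L), l.length = n →
        T M (c ++ [⟨.cap, j⟩]) φ l = lpv M ^ e * T M c' φ l := by
  induction c using List.reverseRecOn with
  | nil =>
    intro n m j hn _ h
    exfalso
    have h1 : j + 2 ≤ n := h.1
    omega
  | append_singleton c0 g ih =>
    intro n m j hn hc h
    obtain ⟨gk, i⟩ := g
    have hgk : gk = .cup := hc ⟨gk, i⟩ (by simp)
    subst hgk
    have hc0 : ∀ g ∈ c0, g.kind = .cup := fun g hg => hc g (by simp [hg])
    rw [List.append_assoc, ok_append] at h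
    obtain ⟨k, hk0, hk1⟩ := h
    obtain ⟨hi, hj, hm⟩ : i + 0 ≤ k ∧ j + 2 ≤ k - 0 + 2 ∧ (k - 0 + 2) - 2 + 0 = m := hk1
    have hik : i ≤ k := by omega
    have hjk : j ≤ k := by omega
    have hmk : m = k := by omega
    subst hmk
    -- transfer of a local identity
    have htrans : ∀ (v : Word) (R : Type) [CommSemiring R] (M : Model R) (a : R),
        (∀ (φ : L → R) (l : L), l.length = m → T M [⟨.cup, i⟩, ⟨.cap, j⟩] φ l = a * T M v φ l) →
        ∀ (φ : L → R) (l : L), l.length = n →
          T M (c0 ++ [⟨.cup, i⟩] ++ [⟨.cap, j⟩]) φ l = a * T M (c0 ++ v) φ l := by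
      intro v R _ M a hloc φ l hl
      have e0 : T M (c0 ++ [⟨.cup, i⟩] ++ [⟨.cap, j⟩]) φ l
          = T M c0 (T M [⟨.cup, i⟩, ⟨.cap, j⟩] φ) l := by
        rw [List.append_assoc, T_append M c0]
        rfl
      have e1 : T M c0 (T M [⟨.cup, i⟩, ⟨.cap, j⟩] φ) l
          = T M c0 (fun s => a * T M v φ s) l :=
        T_congr M hk0 (fun s hs => hloc φ s hs) l hl
      rw [e0, e1, pln_smul, T_append M c0]
    rcases lt_trichotomy i j with hij | hij | hij
    · rcases Nat.lt_or_ge (i + 1) j with hij2 | hij2
      · -- the cap is far to the right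
        obtain ⟨c', e, h1, h2, h3, h4, h5⟩ := ih n (m - 2) (j - 2) hn hc0 (by
          rw [ok_append]
          refine ⟨m, hk0, ?_, ?_⟩
          · show j - 2 + 2 ≤ m
            omega
          · show m - 2 + 0 = m - 2
            omega)
        refine ⟨c' ++ [⟨.cup, i⟩], e, ?_, ?_, ?_, ?_, ?_⟩
        · intro g hg
          rw [List.mem_append] at hg
          rcases hg with hg | hg
          · exact h1 g hg
          · rw [List.mem_singleton] at hg; rw [hg]
        · simp only [List.length_append, List.length_singleton]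
          omega
        · rw [ok_append]
          refine ⟨m - 2, h3, ?_, ?_⟩
          · show i + 0 ≤ m - 2
            omega
          · show m - 2 - 0 + 2 = m
            omega
        · intro _ hnil
          simp at hnil
        · intro R _ M hM φ l hl
          have hfar := loc_far M ⟨.cup, i⟩ ⟨.cap, j⟩ (j - i - 2) (by
            show j = i + 2 + (j - i - 2)
            omega)
          have e1 : i + 0 + (j - i - 2) = j - 2 := by omega
          have hloc : ∀ (φ : L → R) (l : L), l.length = m →
              T M [⟨.cup, i⟩, ⟨.cap, j⟩] φ l = 1 * T M [⟨.cap, j - 2⟩, ⟨.cup, i⟩] φ l := by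
            intro φ l hl
            have h6 := hfar m m ⟨by show i + 0 ≤ m; omega, by show j + 2 ≤ m - 0 + 2; omega,
              by show m - 0 + 2 - 2 + 0 = m; omega⟩ ⟨by
                show i + 0 + (j - i - 2) + 2 ≤ m
                omega, by
                show i + 0 ≤ m - 2 + 0
                omega, by
                show m - 2 + 0 - 0 + 2 = m
                omega⟩ φ l hl
            have h7 : ([⟨Kind.cap, i + 0 + (j - i - 2)⟩, ⟨Kind.cup, i⟩] : Word)
                = [⟨Kind.cap, j - 2⟩, ⟨Kind.cup, i⟩] := by rw [e1]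
            rw [← h7]
            exact h6
          rw [htrans _ R M 1 hloc φ l hl, one_mul]
          have e2 : c0 ++ [⟨Kind.cap, j - 2⟩, ⟨Kind.cup, i⟩]
              = (c0 ++ [⟨Kind.cap, j - 2⟩]) ++ [⟨Kind.cup, i⟩] := by simp
          rw [e2, T_append, h5 R M hM _ l hl, T_append]
      · -- zigzag
        have hj' : j = i + 1 := by omega
        subst hj'
        refine ⟨c0, 0, hc0, by simp, hk0, ?_, ?_⟩
        · intro hn0 hnil
          subst hnil
          have : n = m := hk0
          omega
        · intro R _ M hM φ l hl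
          have := htrans [] R M 1 (fun φ l hl' => by
            rw [pln_zig hM φ l i (by omega), one_mul]; rfl) φ l hl
          rw [this, pow_zero, List.append_nil]
    · -- circle
      subst hij
      refine ⟨c0, 1, hc0, by simp, hk0, fun _ _ => rfl, ?_⟩
      intro R _ M hM φ l hl
      have := htrans [] R M (lpv M) (fun φ l hl' => by
        rw [pln_same M φ l i (by omega)]; rfl) φ l hl
      rw [this, pow_one, List.append_nil]
    · rcases Nat.lt_or_ge (j + 1) i with hij2 | hij2
      · -- the cap is far to the left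
        obtain ⟨c', e, h1, h2, h3, h4, h5⟩ := ih n (m - 2) j hn hc0 (by
          rw [ok_append]
          refine ⟨m, hk0, ?_, ?_⟩
          · show j + 2 ≤ m
            omega
          · show m - 2 + 0 = m - 2
            omega)
        refine ⟨c' ++ [⟨.cup, i - 2⟩], e, ?_, ?_, ?_, ?_, ?_⟩
        · intro g hg
          rw [List.mem_append] at hg
          rcases hg with hg | hg
          · exact h1 g hg
          · rw [List.mem_singleton] at hg; rw [hg]
        · simp only [List.length_append, List.length_singleton]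
          omega
        · rw [ok_append]
          refine ⟨m - 2, h3, ?_, ?_⟩
          · show i - 2 + 0 ≤ m - 2
            omega
          · show m - 2 - 0 + 2 = m
            omega
        · intro _ hnil
          simp at hnil
        · intro R _ M hM φ l hl
          have hfar := loc_far M ⟨.cap, j⟩ ⟨.cup, i - 2⟩ (i - 2 - j) (by
            show i - 2 = j + 0 + (i - 2 - j)
            omega)
          have e1 : j + 2 + (i - 2 - j) = i := by omega
          have hloc : ∀ (φ : L → R) (l : L), l.length = m →
              T M [⟨.cup, i⟩, ⟨.cap, j⟩] φ l = 1 * T M [⟨.cap, j⟩, ⟨.cup, i - 2⟩] φ l := by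
            intro φ l hl
            have h6 := hfar m m ⟨by show j + 2 ≤ m; omega, by show i - 2 + 0 ≤ m - 2 + 0; omega,
              by show m - 2 + 0 - 0 + 2 = m; omega⟩ ⟨by
                show j + 2 + (i - 2 - j) + 0 ≤ m
                omega, by
                show j + 2 ≤ m - 0 + 2
                omega, by
                show m - 0 + 2 - 2 + 0 = m
                omega⟩ φ l hl
            have h7 : ([⟨Kind.cup, j + 2 + (i - 2 - j)⟩, ⟨Kind.cap, j⟩] : Word)
                = [⟨Kind.cup, i⟩, ⟨Kind.cap, j⟩] := by rw [e1]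
            rw [← h7]
            rw [one_mul] at h6 ⊢
            exact h6.symm
          rw [htrans _ R M 1 hloc φ l hl, one_mul]
          have e2 : c0 ++ [⟨Kind.cap, j⟩, ⟨Kind.cup, i - 2⟩]
              = (c0 ++ [⟨Kind.cap, j⟩]) ++ [⟨Kind.cup, i - 2⟩] := by simp
          rw [e2, T_append, h5 R M hM _ l hl, T_append]
      · -- zagzig
        have hi' : i = j + 1 := by omega
        subst hi'
        refine ⟨c0, 0, hc0, by simp, hk0, ?_, ?_⟩
        · intro hn0 hnil
          subst hnil
          have : n = m := hk0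
          omega
        · intro R _ M hM φ l hl
          have := htrans [] R M 1 (fun φ l hl' => by
            rw [pln_zag hM φ l j (by omega), one_mul]; rfl) φ l hl
          rw [this, pow_zero, List.append_nil]

private theorem pln_cups {c : Word} : ∀ {n m : ℕ}, (∀ g ∈ c, g.kind = .cup) → Ok n c m →
    m = n + 2 * c.length := by
  induction c with
  | nil =>
    intro n m _ h
    have : n = m := h
    simp [this]
  | cons g c ih =>
    intro n m hc h
    have hg : g.kind = .cup := hc g (by simp)
    have h2 := h.2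
    rw [hg] at h2
    have h3 := ih (fun g hg => hc g (by simp [hg])) h2
    have h4 : n - Kind.cup.inp + Kind.cup.out = n + 2 := by show n - 0 + 2 = n + 2; omega
    rw [h4] at h3
    simp only [List.length_cons]
    omega

private theorem pln_split (w : Word) (h0 : cr w = 0) :
    (∀ g ∈ w, g.kind = .cup) ∨ ∃ (c q : Word) (j : ℕ), w = c ++ [⟨.cap, j⟩] ++ q ∧
      (∀ g ∈ c, g.kind = .cup) := by
  induction w with
  | nil => left; simp
  | cons g w ih =>
    have h1 : ∀ g' ∈ g :: w, isCr g' = false := by
      intro g' hg'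
      have := (List.countP_eq_zero.1 h0) g' hg'
      simpa using this
    have h2 : cr w = 0 := by
      rw [cr, List.countP_eq_zero]
      intro g' hg'
      simp [h1 g' (by simp [hg'])]
    obtain ⟨k, i⟩ := g
    have h3 := h1 ⟨k, i⟩ (by simp)
    cases k with
    | cup =>
      rcases ih h2 with h | ⟨c, q, j, hw, hc⟩
      · left
        intro g hg
        rw [List.mem_cons] at hg
        rcases hg with rfl | hg
        · rfl
        · exact h g hg
      · right
        refine ⟨⟨.cup, i⟩ :: c, q, j, by rw [hw]; rfl, ?_⟩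
        intro g hg
        rw [List.mem_cons] at hg
        rcases hg with rfl | hg
        · rfl
        · exact hc g hg
    | cap =>
      right
      exact ⟨[], w, i, rfl, by simp⟩
    | pos => simp [isCr] at h3
    | neg => simp [isCr] at h3

private theorem pln_main : ∀ (N : ℕ) (w : Word), w.length ≤ N → ∀ n : ℕ, n ≤ 1 → cr w = 0 →
    Ok n w n →
    ∃ e : ℕ, (n = 0 → w ≠ [] → 1 ≤ e) ∧ ∀ (R : Type) [CommSemiring R] (M : Model R), Zig M →
      ∀ (φ : L → R) (l : L), l.length = n → T M w φ l = lpv M ^ e * φ l := by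
  intro N
  induction N with
  | zero =>
    intro w hw n _ _ _
    have : w = [] := List.length_eq_zero_iff.1 (Nat.le_zero.1 hw)
    subst this
    exact ⟨0, fun _ h => absurd rfl h, fun R _ M _ φ l _ => by rw [pow_zero, one_mul]; rfl⟩
  | succ N ih =>
    intro w hw n hn h0 h
    by_cases hnil : w = []
    · subst hnil
      exact ⟨0, fun _ h => absurd rfl h, fun R _ M _ φ l _ => by rw [pow_zero, one_mul]; rfl⟩
    rcases pln_split w h0 with hc | ⟨c, q, j, hwc, hc⟩
    · exfalso
      have h1 := pln_cups hc h
      have h2 : 0 < w.length := List.length_pos_iff.2 hnil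
      omega
    · subst hwc
      rw [ok_append] at h
      obtain ⟨m, hm1, hm2⟩ := h
      obtain ⟨c', e, h1, h2, h3, h4, h5⟩ := pln_first c n m j hn hc hm1
      have hlen : (c' ++ q).length ≤ N := by
        simp only [List.length_append, List.length_singleton] at hw ⊢
        omega
      have hcr : cr (c' ++ q) = 0 := by
        rw [cr, List.countP_eq_zero]
        intro g hg
        rw [List.mem_append] at hg
        rcases hg with hg | hg
        · have := h1 g hg
          simp [isCr, this]
        · exact (List.countP_eq_zero.1 h0) g (by simp [hg])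
      obtain ⟨e', h6, h7⟩ := ih (c' ++ q) hlen n hn hcr (ok_append.2 ⟨m, h3, hm2⟩)
      refine ⟨e + e', ?_, ?_⟩
      · intro hn0 _
        by_cases hnil' : c' ++ q = []
        · have h8 := h4 hn0 (List.append_eq_nil_iff.1 hnil').1
          omega
        · have h8 := h6 hn0 hnil'
          omega
      · intro R _ M hM φ l hl
        rw [T_append, h5 R M hM _ l hl, ← T_append, h7 R M hM φ l hl, pow_add]
        ring

theorem pln_closed (w : Word) (h0 : cr w = 0) (h : Ok 0 w 0) :
    ∃ e : ℕ, (w ≠ [] → 1 ≤ e) ∧ ∀ (R : Type) [CommSemiring R] (M : Model R), Zig M →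
      val M w = lpv M ^ e := by
  obtain ⟨e, h1, h2⟩ := pln_main w.length w le_rfl 0 (by norm_num) h0 h
  refine ⟨e, h1 rfl, fun R _ M hM => ?_⟩
  rw [val, h2 R M hM dl [] rfl]
  simp [dl]

theorem pln_long (t : Word) (h0 : cr t = 0) (h : Ok 1 t 1) :
    ∃ e : ℕ, ∀ (R : Type) [CommSemiring R] (M : Model R), Zig M → ∀ (φ : L → R) (a : ZMod 2) (r : L),
      T M t φ (a :: r) = lpv M ^ e * φ (a :: r) := by
  obtain ⟨e, _, h2⟩ := pln_main t.length t le_rfl 1 le_rfl h0 h
  refine ⟨e, fun R _ M hM φ a r => ?_⟩
  have h3 := T_right M h [a] r rfl φ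
  rw [List.singleton_append] at h3
  rw [h3, h2 R M hM _ [a] rfl]
  rfl

theorem zig_str : Zig str := by
  constructor
  · decide
  · decide

theorem lpv_str : lpv str = 2 := by
  decide

private theorem pln_cases : ∀ a : ZMod 2, a = 0 ∨ a = 1 := by decide

theorem zig_br {A : ℝ} (hA : A ≠ 0) : Zig (br A) := by
  have h01 : (0 : ZMod 2) ≠ 1 := by decide
  have h10 : (1 : ZMod 2) ≠ 0 := by decide
  constructor
  · intro a c
    have h2 : (Finset.univ : Finset (ZMod 2)) = {0, 1} := rfl
    rw [h2, Finset.sum_insert (by decide), Finset.sum_singleton]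
    rcases pln_cases a with rfl | rfl <;> rcases pln_cases c with rfl | rfl <;>
      simp [br, h01, h10, hA]
  · intro c b
    have h2 : (Finset.univ : Finset (ZMod 2)) = {0, 1} := rfl
    rw [h2, Finset.sum_insert (by decide), Finset.sum_singleton]
    rcases pln_cases c with rfl | rfl <;> rcases pln_cases b with rfl | rfl <;>
      simp [br, h01, h10, hA]

theorem lpv_br {A : ℝ} (hA : A ≠ 0) : lpv (br A) = dlt A := by
  have h2 : (Finset.univ : Finset (ZMod 2)) = {0, 1} := rfl
  rw [lpv, h2, Finset.sum_insert (by decide), Finset.sum_singleton, Finset.sum_insert (by decide),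
    Finset.sum_singleton, Finset.sum_insert (by decide), Finset.sum_singleton]
  simp [br, dlt]
  ring

private theorem pln_lp (w : Word) (h0 : cr w = 0) (h : Ok 0 w 0) :
    (w ≠ [] → 1 ≤ lp w) ∧ ∀ (R : Type) [CommSemiring R] (M : Model R), Zig M →
      val M w = lpv M ^ lp w := by
  obtain ⟨e, h1, h2⟩ := pln_closed w h0 h
  have h3 := h2 ℕ str zig_str
  have h4 : lp w = e := by
    rw [lp, h3, lpv_str, Nat.log_pow (by norm_num)]
  rw [h4]
  exact ⟨h1, h2⟩

theorem val_str_lp (w : Word) (h0 : cr w = 0) (h : Ok 0 w 0) : val str w = 2 ^ lp w := by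
  rw [(pln_lp w h0 h).2 ℕ str zig_str, lpv_str]

theorem K_lp (w : Word) (h0 : cr w = 0) (h : Ok 0 w 0) {A : ℝ} (hA : A ≠ 0) :
    K w A = dlt A ^ lp w := by
  rw [K, (pln_lp w h0 h).2 ℝ (br A) (zig_br hA), lpv_br hA]

theorem lp_pos (w : Word) (h0 : cr w = 0) (h : Ok 0 w 0) (hw : w ≠ []) : 1 ≤ lp w :=
  (pln_lp w h0 h).1 hw

end Pool.Agent.KCS
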