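import Pool.Agent.KCS.Defs

/-!
# KCS / SEM: semantics of words

All statements by induction on the word (or on the position of the piece, through `sh`:
`sh f φ (a :: r) = f (fun s => φ (a :: s)) r`, `Function.iterate_succ`).
-/

namespace Pool.Agent.KCS

variable {R : Type} [CommSemiring R]

theorem ok_append {n m : ℕ} {p q : Word} : Ok n (p ++ q) m ↔ ∃ k, Ok n p k ∧ Ok k q m := by
  induction p generalizing n with
  | nil => simp [Ok]
  | cons g p ih =>
    simp only [List.cons_append, Ok, ih]
    constructor
    · rintro ⟨h, k, h1, h2⟩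
      exact ⟨k, ⟨h, h1⟩, h2⟩
    · rintro ⟨k, ⟨h, h1⟩, h2⟩
      exact ⟨h, k, h1, h2⟩

theorem ok_unique {n m m' : ℕ} {w : Word} (h : Ok n w m) (h' : Ok n w m') : m = m' := by
  induction w generalizing n with
  | nil =>
    simp only [Ok] at h h'
    omega
  | cons g w ih => exact ih h.2 h'.2

theorem ok_shW {n m i : ℕ} {w : Word} (h : Ok n w m) : Ok (n + i) (shW i w) (m + i) := by
  induction w generalizing n with
  | nil =>
    simp only [Ok, shW, List.map_nil] at h ⊢
    omega
  | cons g w ih =>
    obtain ⟨h1, h2⟩ := h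
    have h3 := ih h2
    refine ⟨by simp only; omega, ?_⟩
    have e : n + i - g.kind.inp + g.kind.out = n - g.kind.inp + g.kind.out + i := by omega
    simp only
    rw [e]
    exact h3

/-- strands to the right do not matter -/
theorem ok_add {n m i : ℕ} {w : Word} (h : Ok n w m) : Ok (n + i) w (m + i) := by
  induction w generalizing n with
  | nil =>
    simp only [Ok] at h ⊢
    omega
  | cons g w ih =>
    obtain ⟨h1, h2⟩ := h
    have h3 := ih h2
    refine ⟨by omega, ?_⟩
    have e : n + i - g.kind.inp + g.kind.out = n - g.kind.inp + g.kind.out + i := by omega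
    rw [e]
    exact h3

theorem T_nil (M : Model R) (φ : L → R) : T M [] φ = φ := rfl

theorem T_cons (M : Model R) (g : Gen) (w : Word) (φ : L → R) : T M (g :: w) φ = op M g (T M w φ) := rfl

theorem T_append (M : Model R) (p q : Word) (φ : L → R) : T M (p ++ q) φ = T M p (T M q φ) := by
  induction p with
  | nil => rfl
  | cons g p ih => rw [List.cons_append, T_cons, T_cons, ih]

theorem cupOp_apply (cu : ZMod 2 → ZMod 2 → R) (φ : L → R) (l : L) :
    cupOp cu φ l = ∑ a, ∑ b, cu a b * φ (a :: b :: l) := rfl

theorem capOp_apply (ca : ZMod 2 → ZMod 2 → R) (φ : L → R) (a b : ZMod 2) (r : L) :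
    capOp ca φ (a :: b :: r) = ca a b * φ r := rfl

theorem crOp_apply (X : ZMod 2 → ZMod 2 → ZMod 2 → ZMod 2 → R) (φ : L → R) (a b : ZMod 2) (r : L) :
    crOp X φ (a :: b :: r) = ∑ c, ∑ d, X a b c d * φ (c :: d :: r) := rfl

theorem sh_apply (f : (L → R) →ₗ[R] (L → R)) (φ : L → R) (a : ZMod 2) (r : L) :
    sh f φ (a :: r) = f (fun s => φ (a :: s)) r := rfl

theorem op_zero (M : Model R) (k : Kind) : op M ⟨k, 0⟩ = base M k := rfl

theorem op_succ (M : Model R) (k : Kind) (i : ℕ) : op M ⟨k, i + 1⟩ = sh (op M ⟨k, i⟩) := by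
  unfold op
  exact Function.iterate_succ_apply' _ _ _

theorem op_succ_apply (M : Model R) (k : Kind) (i : ℕ) (φ : L → R) (a : ZMod 2) (r : L) :
    op M ⟨k, i + 1⟩ φ (a :: r) = op M ⟨k, i⟩ (fun s => φ (a :: s)) r := by
  rw [op_succ]
  rfl

theorem op_left (M : Model R) (k : Kind) (i : ℕ) (s l : L) (φ : L → R) :
    op M ⟨k, i + s.length⟩ φ (s ++ l) = op M ⟨k, i⟩ (fun r => φ (s ++ r)) l := by
  induction s generalizing φ with
  | nil => rfl
  | cons a s ih =>
    have e : i + (a :: s).length = (i + s.length) + 1 := by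
      simp only [List.length_cons]
      omega
    rw [e, List.cons_append, op_succ_apply, ih]
    rfl

/-- spectators on the left -/
theorem T_left (M : Model R) (w : Word) (s l : L) (φ : L → R) :
    T M (shW s.length w) φ (s ++ l) = T M w (fun r => φ (s ++ r)) l := by
  induction w generalizing l with
  | nil => rfl
  | cons g w ih =>
    show op M ⟨g.kind, g.idx + s.length⟩ (T M (shW s.length w) φ) (s ++ l) = op M ⟨g.kind, g.idx⟩
      (T M w fun r => φ (s ++ r)) l
    rw [op_left]
    have e : (fun r => (T M (shW s.length w)) φ (s ++ r)) = (T M w) fun r => φ (s ++ r) := by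
      funext r
      exact ih r
    rw [e]

theorem op_congr (M : Model R) (k : Kind) (i : ℕ) {φ ψ : L → R} (l : L)
    (hi : i + k.inp ≤ l.length)
    (h : ∀ s : L, s.length = l.length - k.inp + k.out → φ s = ψ s) :
    op M ⟨k, i⟩ φ l = op M ⟨k, i⟩ ψ l := by
  induction i generalizing l φ ψ with
  | zero =>
    rw [op_zero]
    cases k with
    | cup =>
      show cupOp M.cu φ l = cupOp M.cu ψ l
      rw [cupOp_apply, cupOp_apply]
      refine Finset.sum_congr rfl fun a _ => Finset.sum_congr rfl fun b _ => ?_
      rw [h]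
      simp [Kind.inp, Kind.out]
    | cap =>
      rcases l with _ | ⟨a, _ | ⟨b, r⟩⟩
      · simp [Kind.inp] at hi
      · simp [Kind.inp] at hi
      · show capOp M.ca φ _ = capOp M.ca ψ _
        rw [capOp_apply, capOp_apply, h]
        simp [Kind.inp, Kind.out]
    | pos =>
      rcases l with _ | ⟨a, _ | ⟨b, r⟩⟩
      · simp [Kind.inp] at hi
      · simp [Kind.inp] at hi
      · show crOp M.X φ _ = crOp M.X ψ _
        rw [crOp_apply, crOp_apply]
        refine Finset.sum_congr rfl fun c _ => Finset.sum_congr rfl fun d _ => ?_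
        rw [h]
        simp [Kind.inp, Kind.out]
    | neg =>
      rcases l with _ | ⟨a, _ | ⟨b, r⟩⟩
      · simp [Kind.inp] at hi
      · simp [Kind.inp] at hi
      · show crOp M.Y φ _ = crOp M.Y ψ _
        rw [crOp_apply, crOp_apply]
        refine Finset.sum_congr rfl fun c _ => Finset.sum_congr rfl fun d _ => ?_
        rw [h]
        simp [Kind.inp, Kind.out]
  | succ i ih =>
    rcases l with _ | ⟨a, r⟩
    · simp at hi
    · rw [op_succ_apply, op_succ_apply]
      simp only [List.length_cons] at hi h
      refine ih r (by omega) fun s hs => h _ ?_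
      simp only [List.length_cons, hs]
      omega

theorem op_right (M : Model R) (k : Kind) (i : ℕ) (l r : L) (hi : i + k.inp ≤ l.length) (φ : L → R) :
    op M ⟨k, i⟩ φ (l ++ r) = op M ⟨k, i⟩ (fun s => φ (s ++ r)) l := by
  induction i generalizing l φ with
  | zero =>
    rw [op_zero]
    cases k with
    | cup => rfl
    | cap =>
      rcases l with _ | ⟨a, _ | ⟨b, l⟩⟩
      · simp [Kind.inp] at hi
      · simp [Kind.inp] at hi
      · rfl
    | pos =>
      rcases l with _ | ⟨a, _ | ⟨b, l⟩⟩
      · simp [Kind.inp] at hi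
      · simp [Kind.inp] at hi
      · rfl
    | neg =>
      rcases l with _ | ⟨a, _ | ⟨b, l⟩⟩
      · simp [Kind.inp] at hi
      · simp [Kind.inp] at hi
      · rfl
  | succ i ih =>
    rcases l with _ | ⟨a, l⟩
    · simp at hi
    · rw [List.cons_append, op_succ_apply, op_succ_apply, ih l (by
        simp only [List.length_cons] at hi
        omega)]
      rfl

/-- only the values on lists of the right length matter -/
theorem T_congr (M : Model R) {n m : ℕ} {w : Word} (h : Ok n w m) {φ ψ : L → R}
    (hφ : ∀ s : L, s.length = m → φ s = ψ s) (l : L) (hl : l.length = n) : T M w φ l = T M w ψ l := by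
  induction w generalizing n l with
  | nil =>
    simp only [Ok] at h
    exact hφ l (by omega)
  | cons g w ih =>
    obtain ⟨h1, h2⟩ := h
    rw [T_cons, T_cons]
    exact op_congr M g.kind g.idx l (by omega) fun s hs => ih h2 s (by omega)

/-- spectators on the right -/
theorem T_right (M : Model R) {n m : ℕ} {w : Word} (h : Ok n w m) (l r : L) (hl : l.length = n)
    (φ : L → R) : T M w φ (l ++ r) = T M w (fun s => φ (s ++ r)) l := by
  induction w generalizing n l with
  | nil => rfl
  | cons g w ih =>
    obtain ⟨h1, h2⟩ := h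
    rw [T_cons, T_cons]
    show op M ⟨g.kind, g.idx⟩ _ _ = op M ⟨g.kind, g.idx⟩ _ _
    rw [op_right M g.kind g.idx l r (by omega)]
    exact op_congr M g.kind g.idx l (by omega) fun s hs => ih h2 s (by omega)

end Pool.Agent.KCS
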