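import Pool.Agent.KCS.MON
import Pool.Agent.KCS.PLN

/-!
# KCS / TL3: the bracket of a closed 3-braid

Let `e i` be the word `[cap i, cup i]`. By induction on `l` there are coefficients with
`T (br A) (bw l) φ s = A ^ ex l * φ s + k₁ T [e 0] φ s + k₂ T [e 1] φ s + k₃ T [e 0, e 1] φ s + k₄ T [e 1, e 0] φ s` for all `s` with at
least three labels, and `rho A l = A ^ ex l • 1 + k₁ E₁ + k₂ E₂ + k₃ E₁ E₂ + k₄ E₂ E₁` with `E₁ = !![dlt A, 1; 0, 0]`,
`E₂ = !![0, 0; 1, dlt A]` (Temperley-Lieb relations `e e = dlt e`, `e 0 e 1 e 0 = e 0`, `e 1 e 0 e 1 = e 1` on both sides;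
the letter `(p, s)` is `A ^ (±1) + A ^ (∓1) e p`). The closures of `[]`, `e 0`, `e 1`, `e 0 e 1`, `e 1 e 0` are without crossings: values
`dlt ^ 3, dlt ^ 2, dlt ^ 2, dlt, dlt` (direct computation), the traces are `2, dlt, dlt, 1, 1`.
-/

namespace Pool.Agent.KCS

/-- functions of the first three labels -/
private abbrev V3 := ZMod 2 → ZMod 2 → ZMod 2 → ℝ

private noncomputable def xca (A : ℝ) (a b : ZMod 2) : ℝ := if a = b then 0 else if a = 0 then -A else A⁻¹

private noncomputable def xcu (A : ℝ) (a b : ZMod 2) : ℝ := if a = b then 0 else if a = 0 then A else -A⁻¹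

private noncomputable def u0 (A : ℝ) : V3 →ₗ[ℝ] V3 where
  toFun f := fun a b c => xca A a b * (A * f 0 1 c - A⁻¹ * f 1 0 c)
  map_add' f g := by
    funext a b c
    simp only [Pi.add_apply]
    ring
  map_smul' x f := by
    funext a b c
    simp only [Pi.smul_apply, smul_eq_mul, RingHom.id_apply]
    ring

private noncomputable def u1 (A : ℝ) : V3 →ₗ[ℝ] V3 where
  toFun f := fun a b c => xca A b c * (A * f a 0 1 - A⁻¹ * f a 1 0)
  map_add' f g := by
    funext a b c
    simp only [Pi.add_apply]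
    ring
  map_smul' x f := by
    funext a b c
    simp only [Pi.smul_apply, smul_eq_mul, RingHom.id_apply]
    ring

private lemma sum2 (f : ZMod 2 → ℝ) : ∑ a, f a = f 0 + f 1 := Fin.sum_univ_two f

private lemma z01 : ((0 : ZMod 2) = 1) = False := by decide
private lemma z10 : ((1 : ZMod 2) = 0) = False := by decide

private lemma zc (a : ZMod 2) : a = 0 ∨ a = 1 := by
  revert a
  decide

private lemma xca00 (A : ℝ) : xca A 0 0 = 0 := by simp [xca]
private lemma xca11 (A : ℝ) : xca A 1 1 = 0 := by simp [xca]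
private lemma xca01 (A : ℝ) : xca A 0 1 = -A := by simp [xca]
private lemma xca10 (A : ℝ) : xca A 1 0 = A⁻¹ := by simp [xca]
private lemma xcu00 (A : ℝ) : xcu A 0 0 = 0 := by simp [xcu]
private lemma xcu11 (A : ℝ) : xcu A 1 1 = 0 := by simp [xcu]
private lemma xcu01 (A : ℝ) : xcu A 0 1 = A := by simp [xcu]
private lemma xcu10 (A : ℝ) : xcu A 1 0 = -A⁻¹ := by simp [xcu]

private lemma u0_app (A : ℝ) (f : V3) (a b c : ZMod 2) :
    u0 A f a b c = xca A a b * (A * f 0 1 c - A⁻¹ * f 1 0 c) := rfl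

private lemma u1_app (A : ℝ) (f : V3) (a b c : ZMod 2) :
    u1 A f a b c = xca A b c * (A * f a 0 1 - A⁻¹ * f a 1 0) := rfl

private lemma u00 {A : ℝ} (f : V3) : u0 A (u0 A f) = dlt A • u0 A f := by
  funext a b c
  simp only [Pi.smul_apply, smul_eq_mul, u0_app, xca01, xca10, dlt]
  ring

private lemma u11 {A : ℝ} (f : V3) : u1 A (u1 A f) = dlt A • u1 A f := by
  funext a b c
  simp only [Pi.smul_apply, smul_eq_mul, u1_app, xca01, xca10, dlt]
  ring

private lemma u010 {A : ℝ} (hA : A ≠ 0) (f : V3) : u0 A (u1 A (u0 A f)) = u0 A f := by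
  funext a b c
  rcases zc c with rfl | rfl <;>
    simp only [u0_app, u1_app, xca01, xca10, xca00, xca11] <;> field_simp <;> ring

private lemma u101 {A : ℝ} (hA : A ≠ 0) (f : V3) : u1 A (u0 A (u1 A f)) = u1 A f := by
  funext a b c
  rcases zc a with rfl | rfl <;>
    simp only [u0_app, u1_app, xca01, xca10, xca00, xca11] <;> field_simp <;> ring

/-- one letter -/
private noncomputable def lt3 (A : ℝ) (t : Ltr) (f : V3) : V3 :=
  (if t.2 then A else A⁻¹) • f + (if t.2 then A⁻¹ else A) • (if t.1 then u1 A f else u0 A f)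

private noncomputable def W3 (A : ℝ) : List Ltr → V3 → V3
  | [], f => f
  | t :: l, f => lt3 A t (W3 A l f)

private lemma lt3ff (A : ℝ) (f : V3) : lt3 A (false, false) f = A⁻¹ • f + A • u0 A f := by simp [lt3]
private lemma lt3ft (A : ℝ) (f : V3) : lt3 A (false, true) f = A • f + A⁻¹ • u0 A f := by simp [lt3]
private lemma lt3tf (A : ℝ) (f : V3) : lt3 A (true, false) f = A⁻¹ • f + A • u1 A f := by simp [lt3]
private lemma lt3tt (A : ℝ) (f : V3) : lt3 A (true, true) f = A • f + A⁻¹ • u1 A f := by simp [lt3]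

private lemma op_let (A : ℝ) (p s : Bool) (φ : L → ℝ) (a b c : ZMod 2) (r : L) :
    op (br A) ⟨if s then .pos else .neg, if p then 1 else 0⟩ φ (a :: b :: c :: r) =
      lt3 A (p, s) (fun a b c => φ (a :: b :: c :: r)) a b c := by
  cases p <;> cases s
  · show (∑ x, ∑ y, (br A).Y a b x y * φ (x :: y :: c :: r)) = _
    simp only [lt3ff, br, sum2, Pi.add_apply, Pi.smul_apply, smul_eq_mul, u0_app, xca]
    rcases zc a with rfl | rfl <;> rcases zc b with rfl | rfl <;>
      simp only [z01, z10, if_true, if_false, and_true, and_false, and_self] <;> ring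
  · show (∑ x, ∑ y, (br A).X a b x y * φ (x :: y :: c :: r)) = _
    simp only [lt3ft, br, sum2, Pi.add_apply, Pi.smul_apply, smul_eq_mul, u0_app, xca]
    rcases zc a with rfl | rfl <;> rcases zc b with rfl | rfl <;>
      simp only [z01, z10, if_true, if_false, and_true, and_false, and_self] <;> ring
  · show (∑ x, ∑ y, (br A).Y b c x y * φ (a :: x :: y :: r)) = _
    simp only [lt3tf, br, sum2, Pi.add_apply, Pi.smul_apply, smul_eq_mul, u1_app, xca]
    rcases zc b with rfl | rfl <;> rcases zc c with rfl | rfl <;>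
      simp only [z01, z10, if_true, if_false, and_true, and_false, and_self] <;> ring
  · show (∑ x, ∑ y, (br A).X b c x y * φ (a :: x :: y :: r)) = _
    simp only [lt3tt, br, sum2, Pi.add_apply, Pi.smul_apply, smul_eq_mul, u1_app, xca]
    rcases zc b with rfl | rfl <;> rcases zc c with rfl | rfl <;>
      simp only [z01, z10, if_true, if_false, and_true, and_false, and_self] <;> ring

private lemma T_bw3 (A : ℝ) (l : List Ltr) (φ : L → ℝ) (r : L) :
    (fun a b c => T (br A) (bw l) φ (a :: b :: c :: r)) = W3 A l (fun a b c => φ (a :: b :: c :: r)) := by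
  induction l with
  | nil => rfl
  | cons t l ih =>
    funext a b c
    show op (br A) ⟨if t.2 then .pos else .neg, if t.1 then 1 else 0⟩ (T (br A) (bw l) φ)
      (a :: b :: c :: r) = lt3 A t (W3 A l (fun a b c => φ (a :: b :: c :: r))) a b c
    rw [op_let, ih]

private noncomputable def E1 (A : ℝ) : Matrix (Fin 2) (Fin 2) ℝ := !![dlt A, 1; 0, 0]
private noncomputable def E2 (A : ℝ) : Matrix (Fin 2) (Fin 2) ℝ := !![0, 0; 1, dlt A]

private lemma e11 (A : ℝ) : E1 A * E1 A = dlt A • E1 A := by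
  ext i j
  fin_cases i <;> fin_cases j <;> simp [E1]

private lemma e22 (A : ℝ) : E2 A * E2 A = dlt A • E2 A := by
  ext i j
  fin_cases i <;> fin_cases j <;> simp [E2]

private lemma e121 (A : ℝ) : E1 A * (E2 A * E1 A) = E1 A := by
  ext i j
  fin_cases i <;> fin_cases j <;> simp [E1, E2]

private lemma e212 (A : ℝ) : E2 A * (E1 A * E2 A) = E2 A := by
  ext i j
  fin_cases i <;> fin_cases j <;> simp [E1, E2]

private lemma rl_eq {A : ℝ} (hA : A ≠ 0) (p s : Bool) : rl A (p, s) =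
    (if s then A else A⁻¹) • (1 : Matrix (Fin 2) (Fin 2) ℝ) +
      (if s then A⁻¹ else A) • (if p then E2 A else E1 A) := by
  cases p <;> cases s <;>
    · ext i j
      fin_cases i <;> fin_cases j <;> simp [rl, E1, E2, dlt] <;> field_simp <;> ring

private lemma comb {A : ℝ} (hA : A ≠ 0) (l : List Ltr) : ∃ k1 k2 k3 k4 : ℝ,
    (∀ f : V3, W3 A l f = A ^ ex l • f + k1 • u0 A f + k2 • u1 A f + k3 • u0 A (u1 A f) +
      k4 • u1 A (u0 A f)) ∧
    rho A l = A ^ ex l • (1 : Matrix (Fin 2) (Fin 2) ℝ) + k1 • E1 A + k2 • E2 A + k3 • (E1 A * E2 A) +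
      k4 • (E2 A * E1 A) := by
  induction l with
  | nil =>
    refine ⟨0, 0, 0, 0, ?_, ?_⟩
    · intro f
      simp [W3, ex]
    · simp [rho, ex]
  | cons t l ih =>
    obtain ⟨k1, k2, k3, k4, h1, h2⟩ := ih
    obtain ⟨p, s⟩ := t
    have hrho : rho A ((p, s) :: l) = rl A (p, s) * rho A l := by
      simp [rho]
    have hex : A ^ ex ((p, s) :: l) = (if s then A else A⁻¹) * A ^ ex l := by
      cases s
      · have : ex ((p, false) :: l) = -1 + ex l := by simp [ex]
        rw [this, zpow_add₀ hA, zpow_neg_one]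
        simp
      · have : ex ((p, true) :: l) = 1 + ex l := by simp [ex]
        rw [this, zpow_add₀ hA, zpow_one]
        simp
    obtain ⟨x, hx⟩ : ∃ x : ℝ, x = if s then A else A⁻¹ := ⟨_, rfl⟩
    obtain ⟨y, hy⟩ : ∃ y : ℝ, y = if s then A⁻¹ else A := ⟨_, rfl⟩
    obtain ⟨q, hq⟩ : ∃ q : ℝ, q = A ^ ex l := ⟨_, rfl⟩
    rw [hrho, hex, rl_eq hA, h2, ← hx, ← hy, ← hq]
    rw [← hq] at h1
    cases p
    · refine ⟨x * k1 + y * q + y * dlt A * k1 + y * k4, x * k2, x * k3 + y * k2 + y * dlt A * k3, x * k4, ?_, ?_⟩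
      · intro f
        show (if s then A else A⁻¹) • W3 A l f + (if s then A⁻¹ else A) • u0 A (W3 A l f) = _
        rw [← hx, ← hy, h1]
        simp only [map_add, map_smul, u00, u010 hA]
        module
      · simp only [Bool.false_eq_true, if_false, add_mul, mul_add, smul_mul_assoc, one_mul, mul_smul_comm, mul_one,
          ← mul_assoc, e11]
        simp only [mul_assoc, e121]
        module
    · refine ⟨x * k1, x * k2 + y * q + y * dlt A * k2 + y * k3, x * k3, x * k4 + y * k1 + y * dlt A * k4, ?_, ?_⟩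
      · intro f
        show (if s then A else A⁻¹) • W3 A l f + (if s then A⁻¹ else A) • u1 A (W3 A l f) = _
        rw [← hx, ← hy, h1]
        simp only [map_add, map_smul, u11, u101 hA]
        module
      · simp only [if_true, add_mul, mul_add, smul_mul_assoc, one_mul, mul_smul_comm, mul_one,
          ← mul_assoc, e22]
        simp only [mul_assoc, e212]
        module

/-- the function of the upper labels given by the maxima -/
private noncomputable def ps (A : ℝ) (r0 r1 r2 : ZMod 2) : V3 := fun a b c =>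
  xca A c r0 * (xca A b r1 * xca A a r2)

/-- the closure -/
private noncomputable def cls (A : ℝ) (w : V3 → V3) : ℝ :=
  ∑ a, ∑ d, xcu A a d * ∑ b, ∑ e, xcu A b e * ∑ c, ∑ f, xcu A c f * w (ps A f e d) a b c

private lemma K_cls (A : ℝ) (l : List Ltr) : K (cl3 (bw l)) A = cls A (W3 A l) := by
  have h1 : ∀ a b c f e d : ZMod 2, T (br A) [⟨.cap, 2⟩, ⟨.cap, 1⟩, ⟨.cap, 0⟩] dl [a, b, c, f, e, d] =
      ps A f e d a b c := by
    intro a b c f e d
    show (br A).ca c f * ((br A).ca b e * ((br A).ca a d * 1)) = _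
    simp only [br, ps, xca, mul_one]
  have h2 : K (cl3 (bw l)) A = T (br A) [⟨.cup, 0⟩, ⟨.cup, 1⟩, ⟨.cup, 2⟩]
      (T (br A) (bw l) (T (br A) [⟨.cap, 2⟩, ⟨.cap, 1⟩, ⟨.cap, 0⟩] dl)) [] := by
    unfold K val cl3
    rw [T_append, T_append]
  have h3 : ∀ φ : L → ℝ, T (br A) [⟨.cup, 0⟩, ⟨.cup, 1⟩, ⟨.cup, 2⟩] φ [] =
      ∑ a, ∑ d, xcu A a d * ∑ b, ∑ e, xcu A b e * ∑ c, ∑ f, xcu A c f * φ [a, b, c, f, e, d] := by
    intro φ
    rfl
  rw [h2, h3]
  unfold cls
  refine Finset.sum_congr rfl fun a _ => Finset.sum_congr rfl fun d _ => ?_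
  congr 1
  refine Finset.sum_congr rfl fun b _ => Finset.sum_congr rfl fun e _ => ?_
  congr 1
  refine Finset.sum_congr rfl fun c _ => Finset.sum_congr rfl fun f _ => ?_
  congr 1
  have h4 := congrFun (congrFun (congrFun (T_bw3 A l (T (br A) [⟨.cap, 2⟩, ⟨.cap, 1⟩, ⟨.cap, 0⟩] dl)
    [f, e, d]) a) b) c
  refine h4.trans ?_
  have h5 : (fun a b c => T (br A) [⟨.cap, 2⟩, ⟨.cap, 1⟩, ⟨.cap, 0⟩] dl [a, b, c, f, e, d]) = ps A f e d := by
    funext a b c
    exact h1 a b c f e d
  exact congrFun (congrFun (congrFun (congrArg (W3 A l) h5) a) b) c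

private lemma cls_eq (A : ℝ) (w : V3 → V3) : cls A w =
    xcu A 0 1 * (xcu A 0 1 * (xcu A 0 1 * w (ps A 1 1 1) 0 0 0 + xcu A 1 0 * w (ps A 0 1 1) 0 0 1) +
      xcu A 1 0 * (xcu A 0 1 * w (ps A 1 0 1) 0 1 0 + xcu A 1 0 * w (ps A 0 0 1) 0 1 1)) +
    xcu A 1 0 * (xcu A 0 1 * (xcu A 0 1 * w (ps A 1 1 0) 1 0 0 + xcu A 1 0 * w (ps A 0 1 0) 1 0 1) +
      xcu A 1 0 * (xcu A 0 1 * w (ps A 1 0 0) 1 1 0 + xcu A 1 0 * w (ps A 0 0 0) 1 1 1)) := by
  unfold cls
  simp only [sum2, xcu00, xcu11, zero_mul, zero_add, add_zero]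

theorem K_cl3 (l : List Ltr) {A : ℝ} (hA : A ≠ 0) :
    K (cl3 (bw l)) A = dlt A * ((A ^ 4 + (A⁻¹) ^ 4) * A ^ ex l + (rho A l).trace) := by
  obtain ⟨k1, k2, k3, k4, h1, h2⟩ := comb hA l
  have ht : (rho A l).trace = 2 * A ^ ex l + k1 * dlt A + k2 * dlt A + k3 + k4 := by
    rw [h2]
    simp [E1, E2, Matrix.trace_fin_two]
    ring
  rw [K_cls, ht, cls_eq]
  simp only [h1, Pi.add_apply, Pi.smul_apply, smul_eq_mul, u0_app, u1_app, ps, xca00, xca11, xca01, xca10, xcu01,
    xcu10, dlt]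
  field_simp
  ring

end Pool.Agent.KCS
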